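import Pool.Agent.Helper95A.Step

set_option autoImplicit false

open MeasureTheory ProbabilityTheory Set Filter Topology

namespace Pool.Agent.Helper95A

namespace B3

variable {K m : ℝ} {F F1 F2 F3 : ℝ → ℝ}

/-- The one step evolution preserves the class, with controlled growth of the constant. -/
theorem step (hF : B3 K F F1 F2 F3) (hm : 0 < m) (hm1 : m ≤ 1) {σ S : ℝ} (hσ : 0 ≤ σ)
    (hσS : σ ≤ S) :
    B3 (K + (6 * K + 8) * (CC S * σ)) (st m F σ) (st1 m F F1 σ) (st2 m F F1 F2 σ)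
      (st3 m F F1 F2 F3 σ) := by
  have hK := hF.K0
  have main : ∀ x, |st1 m F F1 σ x| ≤ 1 ∧ 0 ≤ st2 m F F1 F2 σ x ∧
      st2 m F F1 F2 σ x ≤ 1 - st1 m F F1 σ x ^ 2 ∧
      |st3 m F F1 F2 F3 σ x| ≤ K + (6 * K + 8) * (CC S * σ) := by
    intro x
    have hprob := hF.nu_prob hm σ x
    set ν := nu m F σ x with hν
    have cF1 := hF.cF1
    have cF2 := hF.cF2
    have cF3 := hF.c3
    -- measurability and integrability
    have iB : ∀ {G : ℝ → ℝ} {C : ℝ}, Continuous G → (∀ y, |G y| ≤ C) →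
        Integrable (fun z => G (x + Real.sqrt σ * z)) ν := by
      intro G C hG hC
      exact (integrable_const C).mono' (by fun_prop : Continuous fun z =>
        G (x + Real.sqrt σ * z)).aestronglyMeasurable
        (Eventually.of_forall fun z => by rw [Real.norm_eq_abs]; exact hC _)
    set A1 := ∫ z, F1 (x + Real.sqrt σ * z) ∂ν with hA1
    set A2 := ∫ z, F2 (x + Real.sqrt σ * z) ∂ν with hA2
    set A3 := ∫ z, F3 (x + Real.sqrt σ * z) ∂ν with hA3
    set A11 := ∫ z, F1 (x + Real.sqrt σ * z) ^ 2 ∂ν with hA11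
    set A12 := ∫ z, F1 (x + Real.sqrt σ * z) * F2 (x + Real.sqrt σ * z) ∂ν with hA12
    set A111 := ∫ z, F1 (x + Real.sqrt σ * z) * F1 (x + Real.sqrt σ * z) ^ 2 ∂ν with hA111
    have b11 : ∀ y, |F1 y ^ 2| ≤ 1 := fun y => by
      rw [abs_pow]; exact pow_le_one₀ (abs_nonneg _) (hF.b1 y)
    have i1 := iB cF1 hF.b1
    have i2 := iB cF2 hF.b2a
    have i3 := iB cF3 hF.b3
    have i11 : Integrable (fun z => F1 (x + Real.sqrt σ * z) ^ 2) ν :=
      iB (G := fun y => F1 y ^ 2) (cF1.pow 2) b11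
    have i12 : Integrable (fun z => F1 (x + Real.sqrt σ * z) * F2 (x + Real.sqrt σ * z)) ν :=
      iB (G := fun y => F1 y * F2 y) (cF1.mul cF2) (fun y => abs_mul_le' (hF.b1 y) (hF.b2a y))
    have i111 : Integrable (fun z => F1 (x + Real.sqrt σ * z) * F1 (x + Real.sqrt σ * z) ^ 2) ν :=
      iB (G := fun y => F1 y * F1 y ^ 2) (cF1.mul (cF1.pow 2))
        (fun y => abs_mul_le' (hF.b1 y) (b11 y))
    -- ratios
    have r1 : heat (E1 m F F1) σ x / heat (E0 m F) σ x = m * A1 := by
      have := av_eq (fun y => m * F1 y) m F σ x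
      rw [← hν, integral_const_mul] at this
      rw [hA1, this]; rfl
    have r2 : heat (E2 m F F1 F2) σ x / heat (E0 m F) σ x = m * A2 + m ^ 2 * A11 := by
      have := av_eq (fun y => m * F2 y + m ^ 2 * F1 y ^ 2) m F σ x
      have j1 : Integrable (fun z => m * F2 (x + Real.sqrt σ * z)) ν := i2.const_mul m
      have j2 : Integrable (fun z => m ^ 2 * F1 (x + Real.sqrt σ * z) ^ 2) ν := i11.const_mul _
      rw [← hν, integral_add j1 j2, integral_const_mul, integral_const_mul] at this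
      rw [hA2, hA11, this]; rfl
    have r3 : heat (E3 m F F1 F2 F3) σ x / heat (E0 m F) σ x =
        m * A3 + 3 * m ^ 2 * A12 + m ^ 3 * A111 := by
      have := av_eq (fun y => m * F3 y + 3 * m ^ 2 * (F1 y * F2 y) + m ^ 3 * F1 y ^ 3) m F σ x
      have j1 : Integrable (fun z => m * F3 (x + Real.sqrt σ * z)) ν := i3.const_mul m
      have j2 : Integrable (fun z => 3 * m ^ 2 * (F1 (x + Real.sqrt σ * z) *
        F2 (x + Real.sqrt σ * z))) ν := i12.const_mul _
      have j12 : Integrable (fun z => m * F3 (x + Real.sqrt σ * z) + 3 * m ^ 2 *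
        (F1 (x + Real.sqrt σ * z) * F2 (x + Real.sqrt σ * z))) ν := j1.add j2
      have e3 : ∀ z, F1 (x + Real.sqrt σ * z) ^ 3 = F1 (x + Real.sqrt σ * z) *
        F1 (x + Real.sqrt σ * z) ^ 2 := fun z => by ring
      simp only [e3] at this
      have j3 : Integrable (fun z => m ^ 3 * (F1 (x + Real.sqrt σ * z) *
        F1 (x + Real.sqrt σ * z) ^ 2)) ν := i111.const_mul _
      rw [← hν, integral_add j12 j3, integral_add j1 j2, integral_const_mul, integral_const_mul,
        integral_const_mul] at this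
      rw [hA3, hA12, hA111, this]; rfl
    have s1 : st1 m F F1 σ x = A1 := by unfold st1; rw [r1]; field_simp
    have s2 : st2 m F F1 F2 σ x = A2 + m * (A11 - A1 ^ 2) := by
      unfold st2; rw [r1, r2]; field_simp; ring
    have s3 : st3 m F F1 F2 F3 σ x = A3 + 3 * m * (A12 - A1 * A2) +
        m ^ 2 * ((A111 - A1 * A11) - 2 * A1 * (A11 - A1 * A1)) := by
      unfold st3; rw [r1, r2, r3]; field_simp; ring
    -- elementary bounds
    have c1 : |A1| ≤ 1 := by
      have := norm_integral_le_of_norm_le_const (μ := ν) (f := fun z => F1 (x + Real.sqrt σ * z))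
        (C := 1) (Eventually.of_forall fun z => by rw [Real.norm_eq_abs]; exact hF.b1 _)
      simpa using this
    have c3 : |A3| ≤ K := by
      have := norm_integral_le_of_norm_le_const (μ := ν) (f := fun z => F3 (x + Real.sqrt σ * z))
        (C := K) (Eventually.of_forall fun z => by rw [Real.norm_eq_abs]; exact hF.b3 _)
      simpa using this
    have c2 : 0 ≤ A2 := integral_nonneg fun z => hF.b2 _
    have c2' : A2 ≤ 1 - A11 := by
      have h1 : A2 ≤ ∫ z, (1 - F1 (x + Real.sqrt σ * z) ^ 2) ∂ν :=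
        integral_mono i2 ((integrable_const _).sub i11) fun z => hF.b2' _
      rw [integral_sub (integrable_const _) i11] at h1
      simpa using h1
    have var : 0 ≤ A11 - A1 ^ 2 := by
      have h0 : 0 ≤ ∫ z, (F1 (x + Real.sqrt σ * z) - A1) ^ 2 ∂ν :=
        integral_nonneg fun z => sq_nonneg _
      have j1 : Integrable (fun z => (2 * A1) * F1 (x + Real.sqrt σ * z)) ν := i1.const_mul _
      have j2 : Integrable (fun z => F1 (x + Real.sqrt σ * z) ^ 2 -
        (2 * A1) * F1 (x + Real.sqrt σ * z)) ν := i11.sub j1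
      have e : (fun z => (F1 (x + Real.sqrt σ * z) - A1) ^ 2) =
          fun z => (F1 (x + Real.sqrt σ * z) ^ 2 - (2 * A1) * F1 (x + Real.sqrt σ * z)) +
            A1 ^ 2 := by ext z; ring
      rw [e, integral_add j2 (integrable_const _), integral_sub i11 j1, integral_const_mul] at h0
      simp only [integral_const, probReal_univ, one_smul] at h0
      rw [← hA1, ← hA11] at h0
      nlinarith
    -- covariance bounds
    obtain ⟨hw, hwle⟩ := moment hF hm hm1 hσ hσS x
    rw [← hν] at hw hwle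
    set D := ∫ z, (Real.sqrt σ * z) ^ 2 ∂ν with hD
    have hD0 : 0 ≤ D := integral_nonneg fun z => sq_nonneg _
    have hwm : AEStronglyMeasurable (fun z => Real.sqrt σ * z) ν := by fun_prop
    have l1 : ∀ z, |F1 (x + Real.sqrt σ * z) - F1 x| ≤ 1 * |Real.sqrt σ * z| := fun z => by
      have := hF.lipF1 x (x + Real.sqrt σ * z)
      rwa [add_sub_cancel_left, ← one_mul |Real.sqrt σ * z|] at this
    have l2 : ∀ z, |F2 (x + Real.sqrt σ * z) - F2 x| ≤ K * |Real.sqrt σ * z| := fun z => by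
      have := hF.lipF2 x (x + Real.sqrt σ * z)
      rwa [add_sub_cancel_left] at this
    have l11 : ∀ z, |F1 (x + Real.sqrt σ * z) ^ 2 - F1 x ^ 2| ≤ 2 * |Real.sqrt σ * z| :=
      fun z => by
      have h1 := l1 z
      have h2 : F1 (x + Real.sqrt σ * z) ^ 2 - F1 x ^ 2 =
        (F1 (x + Real.sqrt σ * z) + F1 x) * (F1 (x + Real.sqrt σ * z) - F1 x) := by ring
      rw [h2]
      have h3 : |F1 (x + Real.sqrt σ * z) + F1 x| ≤ 2 := by
        have := abs_add_le (F1 (x + Real.sqrt σ * z)) (F1 x)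
        linarith [hF.b1 (x + Real.sqrt σ * z), hF.b1 x]
      have := abs_mul_le' h3 h1
      rwa [one_mul] at this
    have m1 : AEStronglyMeasurable (fun z => F1 (x + Real.sqrt σ * z)) ν := i1.1
    have m2 : AEStronglyMeasurable (fun z => F2 (x + Real.sqrt σ * z)) ν := i2.1
    have m11 : AEStronglyMeasurable (fun z => F1 (x + Real.sqrt σ * z) ^ 2) ν := i11.1
    have v12 := cov_bound m1 m2 (fun z => hF.b1 _) (fun z => hF.b2a _) hw hwm zero_le_one hK l1 l2
    have v11 := cov_bound m1 m1 (fun z => hF.b1 _) (fun z => hF.b1 _) hw hwm zero_le_one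
      zero_le_one l1 l1
    have v111 := cov_bound m1 m11 (fun z => hF.b1 _) (fun z => b11 _) hw hwm zero_le_one
      zero_le_two l1 l11
    have e11 : ∫ z, F1 (x + Real.sqrt σ * z) * F1 (x + Real.sqrt σ * z) ∂ν = A11 := by
      rw [hA11]; congr 1; ext z; ring
    rw [e11] at v11
    rw [← hA12, ← hA1, ← hA2, ← hD] at v12
    rw [← hA1, ← hD] at v11
    rw [← hA111, ← hA1, ← hA11, ← hD] at v111
    refine ⟨by rw [s1]; exact c1, ?_, ?_, ?_⟩
    · rw [s2]
      have := mul_nonneg hm.le var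
      linarith
    · rw [s2, s1]
      have h1 : m * (A11 - A1 ^ 2) ≤ 1 * (A11 - A1 ^ 2) := mul_le_mul_of_nonneg_right hm1 var
      linarith
    · rw [s3]
      have t1 : |3 * m * (A12 - A1 * A2)| ≤ 3 * 1 * (2 * 1 * K * D) := by
        refine abs_mul_le' ?_ v12
        rw [abs_of_nonneg (by positivity)]
        linarith
      have t2 : |2 * A1 * (A11 - A1 * A1)| ≤ 2 * 1 * (2 * 1 * 1 * D) := by
        refine abs_mul_le' ?_ v11
        rw [abs_mul, abs_two]; linarith
      have t3 : |(A111 - A1 * A11) - 2 * A1 * (A11 - A1 * A1)| ≤ 2 * 1 * 2 * D +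
          2 * 1 * (2 * 1 * 1 * D) := (abs_sub _ _).trans (add_le_add v111 t2)
      have t4 : |m ^ 2 * ((A111 - A1 * A11) - 2 * A1 * (A11 - A1 * A1))| ≤ 1 *
          (2 * 1 * 2 * D + 2 * 1 * (2 * 1 * 1 * D)) := by
        refine abs_mul_le' ?_ t3
        rw [abs_of_nonneg (sq_nonneg m)]
        exact pow_le_one₀ hm.le hm1
      have t5 := abs_add_le (A3 + 3 * m * (A12 - A1 * A2))
        (m ^ 2 * ((A111 - A1 * A11) - 2 * A1 * (A11 - A1 * A1)))
      have t6 := abs_add_le A3 (3 * m * (A12 - A1 * A2))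
      have t7 : (6 * K + 8) * D ≤ (6 * K + 8) * (CC S * σ) :=
        mul_le_mul_of_nonneg_left hwle (by linarith)
      nlinarith
  exact ⟨fun x => hF.dst hm σ x, fun x => hF.dst1 hm σ x, fun x => hF.dst2 hm σ x,
    (hF.cst3 hm).comp (f := fun y : ℝ => ((σ, y) : ℝ × ℝ)) (by fun_prop),
    fun x => (main x).1, fun x => (main x).2.1, fun x => (main x).2.2.1, fun x => (main x).2.2.2⟩

/-- `log cosh` belongs to the class. -/
theorem logcosh_B3 : B3 2 (fun x => Real.log (Real.cosh x)) Real.tanh (fun x => sc x ^ 2)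
    (fun x => -((2:ℕ) * sc x ^ 2 * Real.tanh x)) where
  d1 := hasDerivAt_logcosh
  d2 := hasDerivAt_tanh
  d3 := hasDerivAt_sc_pow 2
  c3 := ((continuous_const.mul (continuous_sc.pow 2)).mul continuous_tanh).neg
  b1 := abs_tanh_le
  b2 := sc_pow_nonneg 2
  b2' := fun x => by rw [tanh_sq]; linarith
  b3 := fun x => by have := abs_sc_pow_tanh_le 2 x; exact_mod_cast this

theorem mono {K' : ℝ} (hF : B3 K F F1 F2 F3) (h : K ≤ K') : B3 K' F F1 F2 F3 :=
  ⟨hF.d1, hF.d2, hF.d3, hF.c3, hF.b1, hF.b2, hF.b2', fun x => (hF.b3 x).trans h⟩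

end B3

end Pool.Agent.Helper95A
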