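import Pool.Agent.Helper95A.Lower
import Pool.Agent.Helper95A.Step2

set_option autoImplicit false

open MeasureTheory ProbabilityTheory Set Filter Topology

namespace Pool.Agent.Helper95A

/-- Solutions in differentiated form with a slope bound. -/
structure PS (β : ℝ) (ζ : ℝ → ℝ) (C : ℝ) (f f1 f2 : ℝ → ℝ → ℝ) : Prop where
  c0 : ContinuousOn (fun p : ℝ × ℝ => f p.1 p.2) (Icc (0:ℝ) 1 ×ˢ univ)
  dx : ∀ t ∈ Icc (0:ℝ) 1, ∀ x, HasDerivAt (f t) (f1 t x) x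
  dxx : ∀ t ∈ Icc (0:ℝ) 1, ∀ x, HasDerivAt (f1 t) (f2 t x) x
  dt : ∀ t ∈ Ico (0:ℝ) 1, ∀ x, HasDerivWithinAt (fun s => f s x)
    (-β ^ 2 * (f2 t x + ζ t * f1 t x ^ 2)) (Ici t) t
  b1 : ∀ t ∈ Icc (0:ℝ) 1, ∀ x, |f1 t x| ≤ C
  term : ∀ x, f 1 x = Real.log (Real.cosh x)

theorem growth_gen {f f1 : ℝ → ℝ → ℝ} {C : ℝ}
    (c0 : ContinuousOn (fun p : ℝ × ℝ => f p.1 p.2) (Icc (0:ℝ) 1 ×ˢ univ))
    (dx : ∀ t ∈ Icc (0:ℝ) 1, ∀ x, HasDerivAt (f t) (f1 t x) x)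
    (b1 : ∀ t ∈ Icc (0:ℝ) 1, ∀ x, |f1 t x| ≤ C) :
    ∃ A : ℝ, 0 ≤ A ∧ ∀ t ∈ Icc (0:ℝ) 1, ∀ x, |f t x| ≤ A * (1 + |x|) := by
  have c1 : ContinuousOn (fun s => f s 0) (Icc (0:ℝ) 1) :=
    c0.comp (f := fun s : ℝ => ((s, 0) : ℝ × ℝ)) (by fun_prop)
      (fun s hs => ⟨hs, mem_univ _⟩)
  obtain ⟨M, hM⟩ := isCompact_Icc.exists_bound_of_continuousOn c1
  have hC0 : 0 ≤ C := (abs_nonneg _).trans (b1 0 (by simp) 0)
  have hM0 : 0 ≤ M := (norm_nonneg _).trans (hM 0 (by simp))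
  refine ⟨max M C, le_max_of_le_left hM0, fun t ht x => ?_⟩
  have h1 : |f t x - f t 0| ≤ C * |x - 0| := by
    have := Convex.norm_image_sub_le_of_norm_hasDerivWithin_le (f := f t) (f' := f1 t)
      (s := univ) (C := C) (fun y _ => (dx t ht y).hasDerivWithinAt)
      (fun y _ => by rw [Real.norm_eq_abs]; exact b1 t ht y) convex_univ (mem_univ 0) (mem_univ x)
    rwa [Real.norm_eq_abs, Real.norm_eq_abs] at this
  have h2 : |f t 0| ≤ M := by have := hM t ht; rwa [Real.norm_eq_abs] at this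
  rw [sub_zero] at h1
  have h3 : |f t x| ≤ |f t x - f t 0| + |f t 0| := by
    have := abs_add_le (f t x - f t 0) (f t 0)
    rwa [sub_add_cancel] at this
  have h4 : C * |x| ≤ max M C * |x| := mul_le_mul_of_nonneg_right (le_max_right _ _) (abs_nonneg _)
  have h5 : M ≤ max M C := le_max_left _ _
  nlinarith

/-- A class of admissible orders: bounded by one, measurable and right continuous. -/
structure RC (ζ : ℝ → ℝ) : Prop where
  meas : Measurable ζ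
  nonneg : ∀ t, 0 ≤ ζ t
  le_one : ∀ t, ζ t ≤ 1
  rc : ∀ t, ContinuousWithinAt ζ (Ioi t) t

theorem IsCdf.toRC {ζ : ℝ → ℝ} (h : IsCdf ζ) : RC ζ :=
  ⟨h.mono.measurable, h.nonneg, h.le_one, fun t => (h.rc t).mono Ioi_subset_Ici_self⟩

/-- Comparison of two solutions. -/
theorem PS.compare {β C : ℝ} {ζ η : ℝ → ℝ} {f f1 f2 g g1 g2 : ℝ → ℝ → ℝ} (hζ : RC ζ) (hη : RC η)
    (hf : PS β ζ C f f1 f2) (hg : PS β η C g g1 g2) :
    ∀ t ∈ Icc (0:ℝ) 1, ∀ x, f t x - g t x ≤ β ^ 2 * C ^ 2 * ∫ s in t..1, |ζ s - η s| := by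
  obtain ⟨A1, hA1, h1⟩ := growth_gen hf.c0 hf.dx hf.b1
  obtain ⟨A2, hA2, h2⟩ := growth_gen hg.c0 hg.dx hg.b1
  have hC0 : 0 ≤ C := (abs_nonneg _).trans (hf.b1 0 (by simp) 0)
  set d := fun s => |ζ s - η s| with hd
  have dm : Measurable d := (hζ.meas.sub hη.meas).abs
  have db : ∀ s, |d s| ≤ 1 := fun s => by
    rw [hd, abs_abs, abs_le]
    constructor <;> linarith [hζ.nonneg s, hζ.le_one s, hη.nonneg s, hη.le_one s]
  have d0 : ∀ s, 0 ≤ d s := fun s => abs_nonneg _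
  have drc : ∀ t, ContinuousWithinAt d (Ioi t) t := fun t => ((hζ.rc t).sub (hη.rc t)).abs
  have e1 : ∀ t, ∫ s in t..1, |ζ s - η s| = ∫ s in t..1, d s * 1 := fun t => by simp [hd]
  have key := max1 (a := 0) (b := 1) (κ := β ^ 2) (B0 := β ^ 2 * (C + C)) (c0 := 0) (A := A1 + A2)
    (v := fun t x => f t x - g t x - β ^ 2 * C ^ 2 * ∫ s in t..1, d s * 1)
    (vt := fun t x => (-β ^ 2 * (f2 t x + ζ t * f1 t x ^ 2)) -
      (-β ^ 2 * (g2 t x + η t * g1 t x ^ 2)) - β ^ 2 * C ^ 2 * (-(d t)))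
    (vx := fun t x => f1 t x - g1 t x) (vxx := fun t x => f2 t x - g2 t x)
    (B := fun t x => β ^ 2 * (ζ t * (f1 t x + g1 t x))) (c := fun _ _ => 0)
    (sq_nonneg β) (by positivity) le_rfl (by positivity) ?_ ?_ ?_ ?_ ?_ ?_ (fun _ _ _ => le_rfl)
    ?_ ?_
  · intro t ht x
    have := key t ht x
    rw [e1]; linarith
  · refine (hf.c0.sub hg.c0).sub (Continuous.continuousOn ?_)
    have := duhamel_continuous (K := fun _ _ _ => (1:ℝ)) (b := 1) (D := 1) dm db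
      continuous_const (fun _ _ _ => by simp)
    exact continuous_const.mul this
  · intro t ht x
    have k1 := (le_abs_self _).trans (h1 t ht x)
    have k2 := (neg_le_abs _).trans (h2 t ht x)
    have k3 : 0 ≤ ∫ s in t..1, d s * 1 := by
      refine intervalIntegral.integral_nonneg ht.2 fun s _ => ?_
      rw [mul_one]; exact d0 s
    have k4 : 0 ≤ β ^ 2 * C ^ 2 * ∫ s in t..1, d s * 1 := by positivity
    linarith
  · intro t ht x
    have htc : t ∈ Icc (0:ℝ) 1 := ⟨ht.1, ht.2.le⟩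
    exact ((hf.dx t htc x).sub (hg.dx t htc x)).sub_const _
  · intro t ht x
    have htc : t ∈ Icc (0:ℝ) 1 := ⟨ht.1, ht.2.le⟩
    exact (hf.dxx t htc x).sub (hg.dxx t htc x)
  · intro t ht x
    exact ((hf.dt t ht x).sub (hg.dt t ht x)).sub
      ((int_right_deriv dm db ht.2 (drc t)).const_mul _)
  · intro t ht x
    have htc : t ∈ Icc (0:ℝ) 1 := ⟨ht.1, ht.2.le⟩
    rw [abs_mul, abs_of_nonneg (sq_nonneg β), abs_mul, abs_of_nonneg (hζ.nonneg t)]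
    refine mul_le_mul_of_nonneg_left ?_ (sq_nonneg β)
    calc ζ t * |f1 t x + g1 t x| ≤ 1 * (C + C) := by
          refine mul_le_mul (hζ.le_one t) ?_ (abs_nonneg _) zero_le_one
          exact (abs_add_le _ _).trans (add_le_add (hf.b1 t htc x) (hg.b1 t htc x))
      _ = C + C := one_mul _
  · intro t ht x _
    have htc : t ∈ Icc (0:ℝ) 1 := ⟨ht.1, ht.2.le⟩
    have k1 : g1 t x ^ 2 ≤ C ^ 2 := by
      rw [← sq_abs]; exact pow_le_pow_left₀ (abs_nonneg _) (hg.b1 t htc x) 2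
    have k2 : (ζ t - η t) * g1 t x ^ 2 ≤ d t * C ^ 2 := by
      calc (ζ t - η t) * g1 t x ^ 2 ≤ d t * g1 t x ^ 2 :=
            mul_le_mul_of_nonneg_right (le_abs_self _) (sq_nonneg _)
        _ ≤ d t * C ^ 2 := mul_le_mul_of_nonneg_left k1 (d0 t)
    have k3 : β ^ 2 * ((ζ t - η t) * g1 t x ^ 2) ≤ β ^ 2 * (d t * C ^ 2) :=
      mul_le_mul_of_nonneg_left k2 (sq_nonneg β)
    nlinarith
  · intro x
    simp [hf.term, hg.term]

theorem IsParisiSol.toPS {β : ℝ} {ζ : ℝ → ℝ} (hζ : IsCdf ζ) {f : ℝ → ℝ → ℝ}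
    (hf : IsParisiSol β ζ f) {C : ℝ} (hC : ∀ t ∈ Icc (0:ℝ) 1, ∀ x, |deriv (f t) x| ≤ C) :
    PS β ζ C f (fun t => deriv (f t)) (fun t => deriv (deriv (f t))) :=
  ⟨hf.cont, fun _ ht x => hf.hx ht x, fun _ ht x => hf.hxx ht x, fun _ ht x => hf.ht hζ ht x, hC,
    hf.terminal⟩

theorem PS.mono {β C C' : ℝ} {ζ : ℝ → ℝ} {f f1 f2 : ℝ → ℝ → ℝ} (h : PS β ζ C f f1 f2)
    (hC : C ≤ C') : PS β ζ C' f f1 f2 :=
  ⟨h.c0, h.dx, h.dxx, h.dt, fun t ht x => (h.b1 t ht x).trans hC, h.term⟩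

/-- Uniqueness of the solution of the Parisi equation. -/
theorem sol_unique {β : ℝ} {ζ : ℝ → ℝ} (hζ : IsCdf ζ) {f g : ℝ → ℝ → ℝ}
    (hf : IsParisiSol β ζ f) (hg : IsParisiSol β ζ g) :
    ∀ t ∈ Icc (0:ℝ) 1, ∀ x, f t x = g t x := by
  obtain ⟨C1, h1⟩ := hf.slope
  obtain ⟨C2, h2⟩ := hg.slope
  have pf := (hf.toPS hζ h1).mono (le_max_left C1 C2)
  have pg := (hg.toPS hζ h2).mono (le_max_right C1 C2)
  intro t ht x
  have k1 := PS.compare hζ.toRC hζ.toRC pf pg t ht x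
  have k2 := PS.compare hζ.toRC hζ.toRC pg pf t ht x
  simp only [sub_self, abs_zero, intervalIntegral.integral_zero, mul_zero] at k1 k2
  linarith

/-- Comparison with a supersolution. -/
theorem super_bound {β : ℝ} {ζ : ℝ → ℝ} (hζ : IsCdf ζ) {f : ℝ → ℝ → ℝ}
    (hf : IsParisiSol β ζ f) {P P1 P2 Pt : ℝ → ℝ → ℝ} {A C : ℝ}
    (c0 : ContinuousOn (fun p : ℝ × ℝ => P p.1 p.2) (Icc (0:ℝ) 1 ×ˢ univ))
    (bA : ∀ t ∈ Icc (0:ℝ) 1, ∀ x, |P t x| ≤ A * (1 + |x|))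
    (dx : ∀ t ∈ Icc (0:ℝ) 1, ∀ x, HasDerivAt (P t) (P1 t x) x)
    (dxx : ∀ t ∈ Icc (0:ℝ) 1, ∀ x, HasDerivAt (P1 t) (P2 t x) x)
    (dt : ∀ t ∈ Ico (0:ℝ) 1, ∀ x, HasDerivWithinAt (fun s => P s x) (Pt t x) (Ici t) t)
    (b1 : ∀ t ∈ Icc (0:ℝ) 1, ∀ x, |P1 t x| ≤ C)
    (hin : ∀ t ∈ Ico (0:ℝ) 1, ∀ x, Pt t x + β ^ 2 * (P2 t x + ζ t * P1 t x ^ 2) ≤ 0)
    (term : ∀ x, Real.log (Real.cosh x) ≤ P 1 x) :
    ∀ t ∈ Icc (0:ℝ) 1, ∀ x, f t x ≤ P t x := by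
  obtain ⟨A1, hA1, h1⟩ := hf.growth
  obtain ⟨C1, hC1⟩ := hf.slope
  have hC10 : 0 ≤ C1 := (abs_nonneg _).trans (hC1 0 (by simp) 0)
  have hC0 : 0 ≤ C := (abs_nonneg _).trans (b1 0 (by simp) 0)
  have hA0 : 0 ≤ A := by
    have := (abs_nonneg _).trans (bA 0 (by simp) 0)
    simpa using this
  have key := max1 (a := 0) (b := 1) (κ := β ^ 2) (B0 := β ^ 2 * (C1 + C)) (c0 := 0) (A := A1 + A)
    (v := fun t x => f t x - P t x)
    (vt := fun t x => (-β ^ 2 * (deriv (deriv (f t)) x + ζ t * deriv (f t) x ^ 2)) - Pt t x)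
    (vx := fun t x => deriv (f t) x - P1 t x) (vxx := fun t x => deriv (deriv (f t)) x - P2 t x)
    (B := fun t x => β ^ 2 * (ζ t * (deriv (f t) x + P1 t x))) (c := fun _ _ => 0)
    (sq_nonneg β) (by positivity) le_rfl (by positivity) (hf.cont.sub c0) ?_ ?_ ?_ ?_ ?_
    (fun _ _ _ => le_rfl) ?_ ?_
  · intro t ht x
    have := key t ht x
    linarith
  · intro t ht x
    have k1 := (le_abs_self _).trans (h1 t ht x)
    have k2 := (neg_le_abs _).trans (bA t ht x)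
    linarith
  · intro t ht x
    have htc : t ∈ Icc (0:ℝ) 1 := ⟨ht.1, ht.2.le⟩
    exact (hf.hx htc x).sub (dx t htc x)
  · intro t ht x
    have htc : t ∈ Icc (0:ℝ) 1 := ⟨ht.1, ht.2.le⟩
    exact (hf.hxx htc x).sub (dxx t htc x)
  · intro t ht x
    exact (hf.ht hζ ht x).sub (dt t ht x)
  · intro t ht x
    have htc : t ∈ Icc (0:ℝ) 1 := ⟨ht.1, ht.2.le⟩
    rw [abs_mul, abs_of_nonneg (sq_nonneg β), abs_mul, abs_of_nonneg (hζ.nonneg t)]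
    refine mul_le_mul_of_nonneg_left ?_ (sq_nonneg β)
    calc ζ t * |deriv (f t) x + P1 t x| ≤ 1 * (C1 + C) := by
          refine mul_le_mul (hζ.le_one t) ?_ (abs_nonneg _) zero_le_one
          exact (abs_add_le _ _).trans (add_le_add (hC1 t htc x) (b1 t htc x))
      _ = C1 + C := one_mul _
  · intro t ht x _
    have := hin t ht x
    nlinarith
  · intro x
    have := term x
    rw [hf.terminal]
    linarith

end Pool.Agent.Helper95A
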