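import Pool.Agent.Helper95A.Limit

set_option autoImplicit false

open MeasureTheory ProbabilityTheory Set Filter Topology

namespace Pool.Agent.Helper95A

open B3

theorem ucs_deriv {v v1 v2 : ℕ → ℝ → ℝ → ℝ} {M : ℝ} (hM0 : 0 ≤ M)
    (h1 : ∀ n, ∀ t ∈ Icc (0:ℝ) 1, ∀ x, HasDerivAt (v n t) (v1 n t x) x)
    (h2 : ∀ n, ∀ t ∈ Icc (0:ℝ) 1, ∀ x, HasDerivAt (v1 n t) (v2 n t x) x)
    (hM : ∀ n m, ∀ t ∈ Icc (0:ℝ) 1, ∀ x, |v2 n t x - v2 m t x| ≤ M)
    (hU : UniformCauchySeqOn (fun n (p : ℝ × ℝ) => v n p.1 p.2) atTop (Icc (0:ℝ) 1 ×ˢ univ)) :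
    UniformCauchySeqOn (fun n (p : ℝ × ℝ) => v1 n p.1 p.2) atTop (Icc (0:ℝ) 1 ×ˢ univ) := by
  rw [Metric.uniformCauchySeqOn_iff] at hU ⊢
  intro ε hε
  set δ := (ε / (2 * (2 + M))) ^ 2 with hδ
  have hM2 : 0 < 2 + M := by linarith
  have hδ0 : 0 < δ := by positivity
  obtain ⟨N, hN⟩ := hU δ hδ0
  refine ⟨N, fun m hm n hn p hp => ?_⟩
  have hb : ∀ x, |v m p.1 x - v n p.1 x| ≤ δ := fun x => by
    have := hN m hm n hn (p.1, x) ⟨hp.1, mem_univ _⟩
    rw [Real.dist_eq] at this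
    exact this.le
  have key := interp (v := fun x => v m p.1 x - v n p.1 x) (v' := fun x => v1 m p.1 x - v1 n p.1 x)
    (v'' := fun x => v2 m p.1 x - v2 n p.1 x) (fun x => (h1 m p.1 hp.1 x).sub (h1 n p.1 hp.1 x))
    (fun x => (h2 m p.1 hp.1 x).sub (h2 n p.1 hp.1 x)) hδ0 hb (fun x => hM m n p.1 hp.1 x) p.2
  rw [Real.dist_eq]
  refine lt_of_le_of_lt key ?_
  have : Real.sqrt δ = ε / (2 * (2 + M)) := by rw [hδ, Real.sqrt_sq (by positivity)]
  rw [this]
  have e : (2 + M) * (ε / (2 * (2 + M))) = ε / 2 := by field_simp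
  rw [e]; linarith

theorem Good.toPS {β : ℝ} {ζ : ℝ → ℝ} {f f1 f2 f3 : ℝ → ℝ → ℝ} (h : Good β 0 ζ f f1 f2 f3) :
    PS β ζ 1 f f1 f2 :=
  ⟨h.c0, fun t ht x => (h.b t ht).d1 x, fun t ht x => (h.b t ht).d2 x, h.dt,
    fun t ht x => (h.b t ht).b1 x, h.term⟩

theorem Good.pde {β : ℝ} {ζ : ℝ → ℝ} (hζ : RC ζ) {f f1 f2 f3 : ℝ → ℝ → ℝ}
    (h : Good β 0 ζ f f1 f2 f3) {t : ℝ} (ht : t ∈ Icc (0:ℝ) 1) (x : ℝ) :
    f t x = Real.log (Real.cosh x) + β ^ 2 * ∫ s in t..1, (f2 s x + ζ s * f1 s x ^ 2) := by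
  have hsub : ∀ s ∈ Icc t 1, ((s, x) : ℝ × ℝ) ∈ (Icc (0:ℝ) 1 ×ˢ univ : Set (ℝ × ℝ)) :=
    fun s hs => ⟨⟨ht.1.trans hs.1, hs.2⟩, mem_univ _⟩
  have c1 : ContinuousOn (fun s => f2 s x) (Icc t 1) :=
    h.c2.comp (f := fun s : ℝ => ((s, x) : ℝ × ℝ)) (by fun_prop) hsub
  have c2 : ContinuousOn (fun s => f1 s x ^ 2) (Icc t 1) :=
    (h.c1.comp (f := fun s : ℝ => ((s, x) : ℝ × ℝ)) (by fun_prop) hsub).pow 2
  have i1 : IntervalIntegrable (fun s => f2 s x) volume t 1 := by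
    refine ContinuousOn.intervalIntegrable ?_
    rwa [uIcc_of_le ht.2]
  have i2 : IntervalIntegrable (fun s => ζ s * f1 s x ^ 2) volume t 1 := by
    have h2 : IntervalIntegrable (fun s => f1 s x ^ 2) volume t 1 := by
      refine ContinuousOn.intervalIntegrable ?_
      rwa [uIcc_of_le ht.2]
    rw [intervalIntegrable_iff] at h2 ⊢
    exact Integrable.bdd_mul h2 hζ.meas.aestronglyMeasurable (c := 1)
      (Eventually.of_forall fun s => by
        rw [Real.norm_eq_abs, abs_of_nonneg (hζ.nonneg s)]; exact hζ.le_one s)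
  have hcf : ContinuousOn (fun s => f s x) (Icc t 1) :=
    h.c0.comp (f := fun s : ℝ => ((s, x) : ℝ × ℝ)) (by fun_prop) hsub
  have key := intervalIntegral.integral_eq_sub_of_hasDeriv_right_of_le ht.2 hcf
    (f' := fun s => -β ^ 2 * (f2 s x + ζ s * f1 s x ^ 2))
    (fun s hs => (h.dt s ⟨ht.1.trans hs.1.le, hs.2⟩ x).mono Ioi_subset_Ici_self)
    ((i1.add i2).const_mul _)
  rw [intervalIntegral.integral_const_mul, h.term x] at key
  linarith

/-- Existence of a solution of the Parisi equation for every distribution function. -/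
theorem exists_sol {β : ℝ} (hβ : β ≠ 0) {ζ : ℝ → ℝ} (hζ : IsCdf ζ) :
    ∃ f, IsParisiSol β ζ f := by
  choose g g1 g2 g3 hG using fun n : ℕ => good_step hβ n.succ_pos (cN_pos hζ n.succ_pos)
  have hRC : ∀ n : ℕ, RC (stepZ (n + 1) (cN ζ (n + 1))) := fun n =>
    stepZ_RC n.succ_pos (cN_pos hζ n.succ_pos)
  set Z : ℕ → ℝ → ℝ := fun n => stepZ (n + 1) (cN ζ (n + 1)) with hZ
  set d : ℕ → ℝ := fun n => ∫ s in (0:ℝ)..1, |Z n s - ζ s| with hd
  have hdt : Tendsto d atTop (𝓝 0) := L1_tendsto hζ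
  have hint : ∀ (a b : ℝ → ℝ), RC a → RC b → ∀ u v : ℝ,
      IntervalIntegrable (fun s => |a s - b s|) volume u v := by
    intro a b ha hb u v
    refine (intervalIntegrable_const (c := (1:ℝ))).mono_fun'
      ((ha.meas.sub hb.meas).abs).aestronglyMeasurable (Eventually.of_forall fun s => ?_)
    simp only
    rw [Real.norm_eq_abs, abs_abs, abs_le]
    constructor <;> linarith [ha.nonneg s, ha.le_one s, hb.nonneg s, hb.le_one s]
  have hcmp : ∀ n m, ∀ t ∈ Icc (0:ℝ) 1, ∀ x, g n t x - g m t x ≤ β ^ 2 * (d n + d m) := by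
    intro n m t ht x
    have h1 := PS.compare (hRC n) (hRC m) (hG n).toPS (hG m).toPS t ht x
    refine h1.trans ?_
    rw [one_pow, mul_one]
    refine mul_le_mul_of_nonneg_left ?_ (sq_nonneg β)
    calc ∫ s in t..1, |Z n s - Z m s| ≤ ∫ s in (0:ℝ)..1, |Z n s - Z m s| := by
          refine intervalIntegral.integral_mono_interval ht.1 ht.2 le_rfl
            (Eventually.of_forall fun s => abs_nonneg _) (hint _ _ (hRC n) (hRC m) 0 1)
      _ ≤ ∫ s in (0:ℝ)..1, (|Z n s - ζ s| + |Z m s - ζ s|) := by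
          refine intervalIntegral.integral_mono_on zero_le_one (hint _ _ (hRC n) (hRC m) 0 1)
            ((hint _ _ (hRC n) hζ.toRC 0 1).add (hint _ _ (hRC m) hζ.toRC 0 1)) fun s _ => ?_
          have := abs_sub_le (Z n s) (ζ s) (Z m s)
          rw [abs_sub_comm (ζ s)] at this
          exact this
      _ = d n + d m := intervalIntegral.integral_add (hint _ _ (hRC n) hζ.toRC 0 1)
          (hint _ _ (hRC m) hζ.toRC 0 1)
  have U0 : UniformCauchySeqOn (fun n (p : ℝ × ℝ) => g n p.1 p.2) atTop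
      (Icc (0:ℝ) 1 ×ˢ univ) := by
    rw [Metric.uniformCauchySeqOn_iff]
    intro ε hε
    have hβ2 : 0 < β ^ 2 := by positivity
    have hev : ∀ᶠ n in atTop, d n < ε / (4 * β ^ 2) :=
      hdt.eventually (gt_mem_nhds (by positivity))
    obtain ⟨N, hN⟩ := eventually_atTop.1 hev
    refine ⟨N, fun m hm n hn p hp => ?_⟩
    have h1 := hN m hm
    have h2 := hN n hn
    have h3 := hcmp m n p.1 hp.1 p.2
    have h4 := hcmp n m p.1 hp.1 p.2
    have h5 : β ^ 2 * (d m + d n) < ε := by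
      have : β ^ 2 * (d m + d n) < β ^ 2 * (ε / (4 * β ^ 2) + ε / (4 * β ^ 2)) :=
        mul_lt_mul_of_pos_left (by linarith) hβ2
      have e : β ^ 2 * (ε / (4 * β ^ 2) + ε / (4 * β ^ 2)) = ε / 2 := by field_simp; ring
      rw [e] at this; linarith
    rw [Real.dist_eq, abs_lt]
    constructor
    · have : β ^ 2 * (d n + d m) = β ^ 2 * (d m + d n) := by ring
      linarith
    · linarith
  have hK : ∀ t ∈ Icc (0:ℝ) 1, Kf β t ≤ Kf β 0 := fun t ht => Kf_anti ht.1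
  have hK0 : 0 ≤ Kf β 0 := Kf_nonneg zero_le_one
  have U1 := ucs_deriv (v := g) (v1 := g1) (v2 := g2) zero_le_one
    (fun n t ht x => ((hG n).b t ht).d1 x) (fun n t ht x => ((hG n).b t ht).d2 x)
    (fun n m t ht x => by
      have a1 := ((hG n).b t ht).b2 x
      have a2 := ((hG n).b t ht).b2a x
      have a3 := ((hG m).b t ht).b2 x
      have a4 := ((hG m).b t ht).b2a x
      rw [abs_of_nonneg a1] at a2
      rw [abs_of_nonneg a3] at a4
      rw [abs_le]; constructor <;> linarith) U0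
  have U2 := ucs_deriv (v := g1) (v1 := g2) (v2 := g3) (M := Kf β 0 + Kf β 0) (by linarith)
    (fun n t ht x => ((hG n).b t ht).d2 x) (fun n t ht x => ((hG n).b t ht).d3 x)
    (fun n m t ht x => (abs_sub _ _).trans (add_le_add
      ((((hG n).b t ht).b3 x).trans (hK t ht)) ((((hG m).b t ht).b3 x).trans (hK t ht)))) U1
  -- limits
  set f : ℝ → ℝ → ℝ := fun t x => limUnder atTop (fun n => g n t x) with hf
  set f1 : ℝ → ℝ → ℝ := fun t x => limUnder atTop (fun n => g1 n t x) with hf1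
  set f2 : ℝ → ℝ → ℝ := fun t x => limUnder atTop (fun n => g2 n t x) with hf2
  have p0 : ∀ t ∈ Icc (0:ℝ) 1, ∀ x, Tendsto (fun n => g n t x) atTop (𝓝 (f t x)) :=
    fun t ht x => (U0.cauchySeq (x := (t, x)) ⟨ht, mem_univ _⟩).tendsto_limUnder
  have p1 : ∀ t ∈ Icc (0:ℝ) 1, ∀ x, Tendsto (fun n => g1 n t x) atTop (𝓝 (f1 t x)) :=
    fun t ht x => (U1.cauchySeq (x := (t, x)) ⟨ht, mem_univ _⟩).tendsto_limUnder
  have p2 : ∀ t ∈ Icc (0:ℝ) 1, ∀ x, Tendsto (fun n => g2 n t x) atTop (𝓝 (f2 t x)) :=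
    fun t ht x => (U2.cauchySeq (x := (t, x)) ⟨ht, mem_univ _⟩).tendsto_limUnder
  have T0 : TendstoUniformlyOn (fun n (p : ℝ × ℝ) => g n p.1 p.2) (fun p => f p.1 p.2) atTop
      (Icc (0:ℝ) 1 ×ˢ univ) := U0.tendstoUniformlyOn_of_tendsto fun p hp => p0 p.1 hp.1 p.2
  have T1 : TendstoUniformlyOn (fun n (p : ℝ × ℝ) => g1 n p.1 p.2) (fun p => f1 p.1 p.2) atTop
      (Icc (0:ℝ) 1 ×ˢ univ) := U1.tendstoUniformlyOn_of_tendsto fun p hp => p1 p.1 hp.1 p.2
  have T2 : TendstoUniformlyOn (fun n (p : ℝ × ℝ) => g2 n p.1 p.2) (fun p => f2 p.1 p.2) atTop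
      (Icc (0:ℝ) 1 ×ˢ univ) := U2.tendstoUniformlyOn_of_tendsto fun p hp => p2 p.1 hp.1 p.2
  have sec : ∀ {h : ℕ → ℝ → ℝ → ℝ} {l : ℝ → ℝ → ℝ},
      TendstoUniformlyOn (fun n (p : ℝ × ℝ) => h n p.1 p.2) (fun p => l p.1 p.2) atTop
      (Icc (0:ℝ) 1 ×ˢ univ) → ∀ t ∈ Icc (0:ℝ) 1, TendstoUniformly (fun n x => h n t x)
        (fun x => l t x) atTop := by
    intro h l H t ht
    rw [← tendstoUniformlyOn_univ]
    have := H.comp (fun x : ℝ => ((t, x) : ℝ × ℝ))
    refine this.mono fun x _ => ?_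
    exact ⟨ht, mem_univ _⟩
  refine ⟨f, mk_sol' (fx := f1) (fxx := f2) ?_ ?_ ?_ ?_ ?_ ⟨1, ?_⟩ ?_ ?_⟩
  · intro t ht x
    exact hasDerivAt_of_tendstoUniformly (sec T1 t ht)
      (Eventually.of_forall fun n x => ((hG n).b t ht).d1 x) (p0 t ht) x
  · intro t ht x
    exact hasDerivAt_of_tendstoUniformly (sec T2 t ht)
      (Eventually.of_forall fun n x => ((hG n).b t ht).d2 x) (p1 t ht) x
  · exact T0.continuousOn (Frequently.of_forall fun n => (hG n).c0)
  · exact T1.continuousOn (Frequently.of_forall fun n => (hG n).c1)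
  · exact T2.continuousOn (Frequently.of_forall fun n => (hG n).c2)
  · intro t ht x
    exact le_of_tendsto (p1 t ht x).abs (Eventually.of_forall fun n => ((hG n).b t ht).b1 x)
  · intro x
    have := p0 1 (by simp) x
    refine tendsto_nhds_unique this ?_
    simp only [(hG _).term]
    exact tendsto_const_nhds
  · intro t ht x
    have l1 := p0 t ht x
    have l2 : Tendsto (fun n => Real.log (Real.cosh x) + β ^ 2 * ∫ s in t..1,
        (g2 n s x + Z n s * g1 n s x ^ 2)) atTop (𝓝 (Real.log (Real.cosh x) +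
          β ^ 2 * ∫ s in t..1, (f2 s x + ζ s * f1 s x ^ 2))) := by
      refine (Tendsto.const_mul _ ?_).const_add _
      refine intervalIntegral.tendsto_integral_filter_of_dominated_convergence (μ := volume)
        (l := (atTop : Filter ℕ)) (f := fun s => f2 s x + ζ s * f1 s x ^ 2)
        (F := fun (n : ℕ) s => g2 n s x + Z n s * g1 n s x ^ 2) (bound := fun _ => (2:ℝ))
        (Eventually.of_forall fun n => ?_) (Eventually.of_forall fun n =>
          Eventually.of_forall fun s hs => ?_) intervalIntegrable_const ?_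
      · have hsub : ∀ s ∈ Icc t 1, ((s, x) : ℝ × ℝ) ∈ (Icc (0:ℝ) 1 ×ˢ univ : Set (ℝ × ℝ)) :=
          fun s hs => ⟨⟨ht.1.trans hs.1, hs.2⟩, mem_univ _⟩
        have c1 : ContinuousOn (fun s => g2 n s x) (Icc t 1) :=
          (hG n).c2.comp (f := fun s : ℝ => ((s, x) : ℝ × ℝ)) (by fun_prop) hsub
        have c2 : ContinuousOn (fun s => g1 n s x ^ 2) (Icc t 1) :=
          ((hG n).c1.comp (f := fun s : ℝ => ((s, x) : ℝ × ℝ)) (by fun_prop) hsub).pow 2
        rw [uIoc_of_le ht.2]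
        refine AEStronglyMeasurable.add ?_ (AEStronglyMeasurable.mul ?_ ?_)
        · exact (c1.mono Ioc_subset_Icc_self).aestronglyMeasurable measurableSet_Ioc
        · exact (hRC n).meas.aestronglyMeasurable
        · exact (c2.mono Ioc_subset_Icc_self).aestronglyMeasurable measurableSet_Ioc
      · rw [uIoc_of_le ht.2] at hs
        have hs' : s ∈ Icc (0:ℝ) 1 := ⟨ht.1.trans hs.1.le, hs.2⟩
        have a1 := ((hG n).b s hs').b2a x
        have a2 := ((hG n).b s hs').b1 x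
        have a3 : g1 n s x ^ 2 ≤ 1 := by
          rw [← sq_abs]; exact pow_le_one₀ (abs_nonneg _) a2
        have a4 : |Z n s * g1 n s x ^ 2| ≤ 1 := by
          rw [abs_mul, abs_of_nonneg ((hRC n).nonneg s), abs_of_nonneg (sq_nonneg _)]
          exact mul_le_one₀ ((hRC n).le_one s) (sq_nonneg _) a3
        rw [Real.norm_eq_abs]
        have := abs_add_le (g2 n s x) (Z n s * g1 n s x ^ 2)
        linarith
      · filter_upwards [cdf_ae_cont hζ] with s hs hs2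
        rw [uIoc_of_le ht.2] at hs2
        have hs' : s ∈ Icc (0:ℝ) 1 := ⟨ht.1.trans hs2.1.le, hs2.2⟩
        exact (p2 s hs' x).add ((stepZ_tendsto hζ hs'.1 hs).mul ((p1 s hs' x).pow 2))
    refine tendsto_nhds_unique l1 (l2.congr fun n => ?_)
    exact ((hG n).pde (hRC n) ht x).symm

end Pool.Agent.Helper95A
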