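import Pool.Agent.Helper95A.LG
import Pool.Agent.Helper95A.Exist

set_option autoImplicit false

open MeasureTheory ProbabilityTheory Set Filter Topology

namespace Pool.Agent.Helper95A

theorem mix_isCdf {r l : ℝ} {ζ : ℝ → ℝ} (hr : r ∈ Icc (0:ℝ) 1) (hζ : IsCdf ζ)
    (hl0 : 0 ≤ l) (hl1 : l ≤ 1) : IsCdf (fun s => stp r s + l * (ζ s - stp r s)) where
  mono := by
    intro s t hst
    have h1 := stp_mono r hst
    have h2 := hζ.mono hst
    have h3 : (1 - l) * stp r s ≤ (1 - l) * stp r t :=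
      mul_le_mul_of_nonneg_left h1 (by linarith)
    have h4 : l * ζ s ≤ l * ζ t := mul_le_mul_of_nonneg_left h2 hl0
    change stp r s + l * (ζ s - stp r s) ≤ stp r t + l * (ζ t - stp r t)
    linarith
  rc := fun t => (stp_rc r t).add (((hζ.rc t).sub (stp_rc r t)).const_mul l)
  zero := fun t ht => by
    rw [hζ.zero t ht, (stp_isCdf hr).zero t ht]; ring
  one := fun t ht => by
    rw [hζ.one t ht, (stp_isCdf hr).one t ht]; ring

/-- Second order upper bound for a solution near the point mass solution. -/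
theorem upper_bound {β r : ℝ} (hβ : β ≠ 0) (hr : r ∈ Icc (0:ℝ) 1) {ζ : ℝ → ℝ} (hζ : IsCdf ζ)
    {l : ℝ} (hl0 : 0 ≤ l) (hl1 : l ≤ 1) {f : ℝ → ℝ → ℝ}
    (hf : IsParisiSol β (fun s => stp r s + l * (ζ s - stp r s)) f) (h : ℝ) :
    f 0 h ≤ gq β r 0 h + l * Wq β r (fun s => ζ s - stp r s) 0 h +
      l ^ 2 * (β ^ 2 * (8 * β ^ 2 + 16 * β ^ 4)) := by
  set a := fun s => ζ s - stp r s with ha
  have ham : Measurable a := diff_meas hζ r
  have hab : ∀ s, |a s| ≤ 1 := diff_bdd hζ r
  have hac : ∀ t, ContinuousWithinAt a (Ioi t) t := diff_rc hζ r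
  set C := β ^ 2 * (8 * β ^ 2 + 16 * β ^ 4) with hC
  have hC0 : 0 ≤ C := by positivity
  obtain ⟨A1, hA1, h1⟩ := (gq_sol hβ hr).growth
  have hβ2 : 0 ≤ β ^ 2 := sq_nonneg β
  have hcdf := mix_isCdf hr hζ hl0 hl1
  have hll : l ^ 2 ≤ 1 := pow_le_one₀ hl0 hl1
  have key := super_bound hcdf hf
    (P := fun t x => gq β r t x + l * Wq β r a t x + l ^ 2 * C * (1 - t))
    (P1 := fun t x => mq β r t x + l * Wqx β r a t x)
    (P2 := fun t x => mxq β r t x + l * Wqxx β r a t x)
    (Pt := fun t x => -β ^ 2 * (mxq β r t x + stp r t * mq β r t x ^ 2) +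
      l * (-β ^ 2 * (Wqxx β r a t x + 2 * stp r t * mq β r t x * Wqx β r a t x +
        a t * mq β r t x ^ 2)) + l ^ 2 * C * (-1))
    (A := A1 + 3 * β ^ 2 + C) (C := 1 + 4 * β ^ 2) ?_ ?_ ?_ ?_ ?_ ?_ ?_ ?_ 0 (by simp) h
  · simpa using key
  · refine Continuous.continuousOn ?_
    have c1 := continuous_gq β r
    have c2 := Wq_continuous (β := β) hr ham hab
    exact (c1.add (continuous_const.mul c2)).add (by fun_prop)
  · intro t ht x
    have k1 := h1 t ht x
    have k2 : |l * Wq β r a t x| ≤ 3 * β ^ 2 := by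
      rw [abs_mul, abs_of_nonneg hl0]
      calc l * |Wq β r a t x| ≤ 1 * (3 * β ^ 2) :=
            mul_le_mul hl1 (abs_Wq_le hr hab ht x) (abs_nonneg _) zero_le_one
        _ = 3 * β ^ 2 := one_mul _
    have k3 : |l ^ 2 * C * (1 - t)| ≤ C := by
      rw [abs_mul, abs_of_nonneg (mul_nonneg (sq_nonneg l) hC0), abs_of_nonneg (by linarith [ht.2])]
      calc l ^ 2 * C * (1 - t) ≤ l ^ 2 * C * 1 :=
            mul_le_mul_of_nonneg_left (by linarith [ht.1]) (mul_nonneg (sq_nonneg l) hC0)
        _ ≤ 1 * C * 1 := by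
            have := mul_le_mul_of_nonneg_right hll hC0
            linarith
        _ = C := by ring
    have k4 := abs_add_le (gq β r t x + l * Wq β r a t x) (l ^ 2 * C * (1 - t))
    have k5 := abs_add_le (gq β r t x) (l * Wq β r a t x)
    have k6 := abs_nonneg x
    nlinarith [mul_nonneg hβ2 k6, mul_nonneg hC0 k6]
  · intro t _ x
    exact ((hasDerivAt_gq_x β r t x).add ((Wq_hasDerivAt_x hr ham hab t x).const_mul l)).add_const _
  · intro t _ x
    exact (hasDerivAt_mq_x β r t x).add ((Wqx_hasDerivAt_x hr ham hab t x).const_mul l)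
  · intro t ht x
    have d1 := hasDerivWithinAt_gq_t (q := r) hβ t x
    have d2 := (Wq_right_deriv hβ hr ham hab ht.2 (hac t) x).const_mul l
    have d3 : HasDerivWithinAt (fun s : ℝ => l ^ 2 * C * (1 - s)) (l ^ 2 * C * (-1)) (Ici t) t :=
      (((hasDerivAt_id t).const_sub 1).const_mul (l ^ 2 * C)).hasDerivWithinAt
    exact (d1.add d2).add d3
  · intro t ht x
    have k1 := abs_mq_le β r t x
    have k2 : |l * Wqx β r a t x| ≤ 4 * β ^ 2 := by
      rw [abs_mul, abs_of_nonneg hl0]
      calc l * |Wqx β r a t x| ≤ 1 * (4 * β ^ 2) :=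
            mul_le_mul hl1 (abs_Wqx_le hr hab ht x) (abs_nonneg _) zero_le_one
        _ = 4 * β ^ 2 := one_mul _
    exact (abs_add_le _ _).trans (add_le_add k1 k2)
  · intro t ht x
    have htc : t ∈ Icc (0:ℝ) 1 := ⟨ht.1, ht.2.le⟩
    set m := mq β r t x with hm
    set w := Wqx β r a t x with hw
    have m1 : |m| ≤ 1 := abs_mq_le β r t x
    have w1 : |w| ≤ 4 * β ^ 2 := abs_Wqx_le hr hab htc x
    have z0 := hcdf.nonneg t
    have z1 := hcdf.le_one t
    set z := stp r t + l * (ζ t - stp r t) with hz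
    have w2 : w ^ 2 ≤ 16 * β ^ 4 := by
      have := pow_le_pow_left₀ (abs_nonneg w) w1 2
      rw [sq_abs] at this
      nlinarith
    have e1 : z * w ^ 2 ≤ 16 * β ^ 4 := by
      calc z * w ^ 2 ≤ 1 * (16 * β ^ 4) :=
            mul_le_mul z1 w2 (sq_nonneg _) zero_le_one
        _ = 16 * β ^ 4 := one_mul _
    have e2 : 2 * a t * m * w ≤ 8 * β ^ 2 := by
      have h1 : |a t * m| ≤ 1 := by
        rw [abs_mul]; exact mul_le_one₀ (hab t) (abs_nonneg _) m1
      have h2 : |a t * m * w| ≤ 4 * β ^ 2 := by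
        rw [abs_mul]
        calc |a t * m| * |w| ≤ 1 * (4 * β ^ 2) :=
              mul_le_mul h1 w1 (abs_nonneg _) zero_le_one
          _ = 4 * β ^ 2 := one_mul _
      have h3 := le_abs_self (a t * m * w)
      linarith
    have e3 : 0 ≤ β ^ 2 * (l ^ 2 * (8 * β ^ 2 + 16 * β ^ 4 - (z * w ^ 2 + 2 * a t * m * w))) := by
      have : 0 ≤ 8 * β ^ 2 + 16 * β ^ 4 - (z * w ^ 2 + 2 * a t * m * w) := by linarith
      positivity
    have e4 : -β ^ 2 * (mxq β r t x + stp r t * m ^ 2) +
      l * (-β ^ 2 * (Wqxx β r a t x + 2 * stp r t * m * w + a t * m ^ 2)) + l ^ 2 * C * (-1) +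
      β ^ 2 * (mxq β r t x + l * Wqxx β r a t x + z * (m + l * w) ^ 2) =
      -(β ^ 2 * (l ^ 2 * (8 * β ^ 2 + 16 * β ^ 4 - (z * w ^ 2 + 2 * a t * m * w)))) := by
      have : z = stp r t + l * a t := rfl
      rw [this, hC]; ring
    change -β ^ 2 * (mxq β r t x + stp r t * m ^ 2) +
      l * (-β ^ 2 * (Wqxx β r a t x + 2 * stp r t * m * w + a t * m ^ 2)) + l ^ 2 * C * (-1) +
      β ^ 2 * (mxq β r t x + l * Wqxx β r a t x + z * (m + l * w) ^ 2) ≤ 0
    rw [e4]; linarith
  · intro x
    have e1 : gq β r 1 x = Real.log (Real.cosh x) := (gq_sol hβ hr).terminal x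
    change Real.log (Real.cosh x) ≤ gq β r 1 x + l * Wq β r a 1 x + l ^ 2 * C * (1 - 1)
    rw [e1, Wq_one hr]
    simp

/-- First order condition at a minimising point mass. -/
theorem first_order {β r h : ℝ} (hβ : β ≠ 0) (hr : r ∈ Icc (0:ℝ) 1)
    (hmin : ∀ ζ : ℝ → ℝ, IsCdf ζ → ∀ f, IsParisiSol β ζ f →
      gq β r 0 h - β ^ 2 * (∫ s in (0:ℝ)..1, stp r s * s) ≤
        f 0 h - β ^ 2 * ∫ s in (0:ℝ)..1, ζ s * s)
    {ζ : ℝ → ℝ} (hζ : IsCdf ζ) :
    (β ^ 2 * ∫ s in (0:ℝ)..1, (ζ s - stp r s) * s) ≤ Wq β r (fun s => ζ s - stp r s) 0 h := by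
  set a := fun s => ζ s - stp r s with ha
  have ham : Measurable a := diff_meas hζ r
  have hab : ∀ s, |a s| ≤ 1 := diff_bdd hζ r
  set C := β ^ 2 * (8 * β ^ 2 + 16 * β ^ 4) with hC
  have hC0 : 0 ≤ C := by positivity
  have i1 : IntervalIntegrable (fun s => stp r s * s) volume 0 1 :=
    ii_of_bdd (stp_mono r).measurable (fun s => by
      rw [abs_of_nonneg (stp_mem r s).1]; exact (stp_mem r s).2) continuous_id 0 1
  have i2 : IntervalIntegrable (fun s => a s * s) volume 0 1 :=
    ii_of_bdd ham hab continuous_id 0 1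
  refine le_of_forall_pos_le_add fun ε hε => ?_
  set l := min 1 (ε / (C + 1)) with hl
  have hl0 : 0 < l := lt_min one_pos (by positivity)
  have hl1 : l ≤ 1 := min_le_left _ _
  have hlC : l * C ≤ ε := by
    have h1 : l ≤ ε / (C + 1) := min_le_right _ _
    have h2 : l * (C + 1) ≤ ε := by
      rwa [le_div_iff₀ (by positivity)] at h1
    nlinarith
  have hcdf := mix_isCdf hr hζ hl0.le hl1
  obtain ⟨f, hf⟩ := exists_sol hβ hcdf
  have h1 := hmin _ hcdf f hf
  have h2 := upper_bound hβ hr hζ hl0.le hl1 hf h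
  have h3 : ∫ s in (0:ℝ)..1, (stp r s + l * (ζ s - stp r s)) * s =
      (∫ s in (0:ℝ)..1, stp r s * s) + l * ∫ s in (0:ℝ)..1, a s * s := by
    rw [← intervalIntegral.integral_const_mul, ← intervalIntegral.integral_add i1
      (i2.const_mul l)]
    congr 1; ext s; simp only [ha]; ring
  rw [h3] at h1
  have h4 : l * (β ^ 2 * ∫ s in (0:ℝ)..1, a s * s) ≤ l * (Wq β r a 0 h + l * C) := by
    have : l * (Wq β r a 0 h + l * C) = l * Wq β r a 0 h + l ^ 2 * C := by ring
    rw [this]
    linarith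
  have h5 := le_of_mul_le_mul_left h4 hl0
  linarith

theorem int_congr_Ioo {f g : ℝ → ℝ} {a b : ℝ} (hab : a ≤ b) (h : ∀ x ∈ Ioo a b, f x = g x) :
    ∫ s in a..b, f s = ∫ s in a..b, g s := by
  refine intervalIntegral.integral_congr_ae ?_
  have : ∀ᵐ s ∂(volume : Measure ℝ), s ≠ b := by
    simp [ae_iff, measure_singleton]
  filter_upwards [this] with s hs hs2
  rw [uIoc_of_le hab] at hs2
  exact h s ⟨hs2.1, lt_of_le_of_ne hs2.2 hs⟩

theorem nonneg_right {g : ℝ → ℝ} (hg : Continuous g) {r : ℝ} (hr : r < 1)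
    (h : ∀ u ∈ Ioc r 1, 0 ≤ ∫ s in r..u, g s) : 0 ≤ g r := by
  by_contra hc
  push Not at hc
  have hev : ∀ᶠ s in 𝓝 r, g s < 0 := hg.continuousAt.eventually_lt_const hc
  have hev2 : ∀ᶠ s in 𝓝[>] r, s ∈ Ioc r 1 := Ioc_mem_nhdsGT hr
  obtain ⟨e, he, hb⟩ := Metric.eventually_nhds_iff.1 hev
  set u := min 1 (r + e / 2) with hu
  have hru : r < u := lt_min hr (by linarith)
  have h1 := h u ⟨hru, min_le_left _ _⟩
  have h2 : 0 < ∫ s in r..u, -g s := by
    refine intervalIntegral.intervalIntegral_pos_of_pos_on (hg.neg.intervalIntegrable _ _)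
      (fun s hs => ?_) hru
    have hs2 : s < r + e / 2 := lt_of_lt_of_le hs.2 (min_le_right _ _)
    have : g s < 0 := hb (by
      rw [Real.dist_eq, abs_of_pos (by linarith [hs.1])]
      linarith [hs.1])
    linarith
  rw [intervalIntegral.integral_neg] at h2
  linarith

theorem nonneg_left {g : ℝ → ℝ} (hg : Continuous g) {r : ℝ} (hr : 0 < r)
    (h : ∀ u ∈ Ico 0 r, 0 ≤ ∫ s in u..r, g s) : 0 ≤ g r := by
  by_contra hc
  push Not at hc
  have hev : ∀ᶠ s in 𝓝 r, g s < 0 := hg.continuousAt.eventually_lt_const hc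
  obtain ⟨e, he, hb⟩ := Metric.eventually_nhds_iff.1 hev
  set u := max 0 (r - e / 2) with hu
  have hru : u < r := max_lt hr (by linarith)
  have h1 := h u ⟨le_max_left _ _, hru⟩
  have h2 : 0 < ∫ s in u..r, -g s := by
    refine intervalIntegral.intervalIntegral_pos_of_pos_on (hg.neg.intervalIntegrable _ _)
      (fun s hs => ?_) hru
    have hs2 : r - e / 2 < s := lt_of_le_of_lt (le_max_right _ _) hs.1
    have : g s < 0 := hb (by
      rw [Real.dist_eq, abs_of_neg (by linarith [hs.2])]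
      linarith [hs.2])
    linarith
  rw [intervalIntegral.integral_neg] at h2
  linarith

theorem nonneg_right2 {g φ : ℝ → ℝ} (hg : Continuous g) (hφ : Continuous φ) {r : ℝ} (hr : r < 1)
    (hφg : ∀ s, r ≤ s → φ s = ∫ v in r..s, g v)
    (h : ∀ u ∈ Ioc r 1, 0 ≤ ∫ s in r..u, φ s) : 0 ≤ g r := by
  by_contra hc
  push Not at hc
  have hev : ∀ᶠ s in 𝓝 r, g s < 0 := hg.continuousAt.eventually_lt_const hc
  obtain ⟨e, he, hb⟩ := Metric.eventually_nhds_iff.1 hev
  set u := min 1 (r + e / 2) with hu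
  have hru : r < u := lt_min hr (by linarith)
  have h1 := h u ⟨hru, min_le_left _ _⟩
  have h2 : 0 < ∫ s in r..u, -φ s := by
    refine intervalIntegral.intervalIntegral_pos_of_pos_on (hφ.neg.intervalIntegrable _ _)
      (fun s hs => ?_) hru
    have hs2 : s < r + e / 2 := lt_of_lt_of_le hs.2 (min_le_right _ _)
    have h3 : 0 < ∫ v in r..s, -g v := by
      refine intervalIntegral.intervalIntegral_pos_of_pos_on (hg.neg.intervalIntegrable _ _)
        (fun v hv => ?_) hs.1
      have : g v < 0 := hb (by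
        rw [Real.dist_eq, abs_of_pos (by linarith [hv.1])]
        linarith [hv.1, hv.2])
      linarith
    rw [intervalIntegral.integral_neg, ← hφg s hs.1.le] at h3
    exact h3
  rw [intervalIntegral.integral_neg] at h2
  linarith

theorem Jf_zero (S h : ℝ) : Jf S h 0 = heat (fun y => sc y ^ 4) S h := by
  unfold Jf
  have : (fun y => sc y * heat (fun y => sc y ^ 3) 0 y) = fun y => sc y ^ 4 := by
    ext y
    rw [heat_of_nonpos _ le_rfl]
    ring
  rw [this]
  simp

theorem GamI_self (β r h : ℝ) :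
    GamI β r h r = heat (fun y => Real.tanh y ^ 2) (2 * β ^ 2 * r) h := by
  unfold GamI
  congr 1
  ext y
  unfold mq
  rw [heat_of_ge _ le_rfl]

/-- A minimising point mass satisfies the fixed point equation and the stability condition. -/
theorem conv {β r h : ℝ} (hβ : β ≠ 0) (hr : r ∈ Icc (0:ℝ) 1)
    (hmin : ∀ ζ : ℝ → ℝ, IsCdf ζ → ∀ f, IsParisiSol β ζ f →
      gq β r 0 h - β ^ 2 * (∫ s in (0:ℝ)..1, stp r s * s) ≤
        f 0 h - β ^ 2 * ∫ s in (0:ℝ)..1, ζ s * s) :
    r = heat (fun y => Real.tanh y ^ 2) (2 * β ^ 2 * r) h ∧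
      2 * β ^ 2 * heat (fun y => sc y ^ 4) (2 * β ^ 2 * r) h ≤ 1 := by
  have hβ2 : 0 < β ^ 2 := by positivity
  -- variation to the left
  have left : ∀ u ∈ Ico 0 r, 0 ≤ ∫ s in u..r, (GamI β r h s - s) := by
    intro u hu
    have hu1 : u ∈ Icc (0:ℝ) 1 := ⟨hu.1, (hu.2.le.trans hr.2)⟩
    have key := first_order hβ hr hmin (stp_isCdf hu1)
    have ham := diff_meas (stp_isCdf hu1) r
    have hab := diff_bdd (stp_isCdf hu1) r
    rw [Wq_zero hr ham hab] at key
    have e1 : ∀ g : ℝ → ℝ, Continuous g →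
        ∫ s in (0:ℝ)..r, (stp u s - stp r s) * g s = ∫ s in u..r, g s := by
      intro g hg
      rw [← intervalIntegral.integral_add_adjacent_intervals
        (ii_of_bdd ham hab hg 0 u) (ii_of_bdd ham hab hg u r)]
      have k1 : ∫ s in (0:ℝ)..u, (stp u s - stp r s) * g s = ∫ s in (0:ℝ)..u, (0:ℝ) := by
        refine int_congr_Ioo hu.1 fun s hs => ?_
        simp only [stp, if_neg (not_le.2 hs.2), if_neg (not_le.2 (hs.2.trans hu.2))]
        ring
      have k2 : ∫ s in u..r, (stp u s - stp r s) * g s = ∫ s in u..r, g s := by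
        refine int_congr_Ioo hu.2.le fun s hs => ?_
        simp only [stp, if_pos hs.1.le, if_neg (not_le.2 hs.2)]
        ring
      rw [k1, k2]; simp
    have e2 : ∀ g : ℝ → ℝ, ∫ s in r..1, (stp u s - stp r s) * g s = 0 := by
      intro g
      have : ∫ s in r..1, (stp u s - stp r s) * g s = ∫ s in r..1, (0:ℝ) := by
        refine int_congr_Ioo hr.2 fun s hs => ?_
        simp only [stp, if_pos hs.1.le, if_pos (hu.2.le.trans hs.1.le)]
        ring
      rw [this]; simp
    have e3 : ∫ s in (0:ℝ)..1, (stp u s - stp r s) * s = ∫ s in u..r, s := by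
      have hid : Continuous (fun s : ℝ => s) := continuous_id
      rw [← intervalIntegral.integral_add_adjacent_intervals
        (ii_of_bdd ham hab hid 0 r) (ii_of_bdd ham hab hid r 1)]
      have k1 := e1 (fun s => s) hid
      have k2 := e2 (fun s => s)
      rw [k1, k2, add_zero]
    rw [e1 _ (GamI_continuous β r h), e2, e3, mul_zero, zero_add] at key
    have hid : Continuous (fun s : ℝ => s) := continuous_id
    rw [intervalIntegral.integral_sub ((GamI_continuous β r h).intervalIntegrable _ _)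
      (hid.intervalIntegrable _ _)]
    have := le_of_mul_le_mul_left key hβ2
    linarith
  -- variation to the right
  have right : ∀ u ∈ Ioc r 1, 0 ≤ ∫ s in r..u, (s - GamII β r h s) := by
    intro u hu
    have hu1 : u ∈ Icc (0:ℝ) 1 := ⟨hr.1.trans hu.1.le, hu.2⟩
    have key := first_order hβ hr hmin (stp_isCdf hu1)
    have ham := diff_meas (stp_isCdf hu1) r
    have hab := diff_bdd (stp_isCdf hu1) r
    rw [Wq_zero hr ham hab] at key
    have e1 : ∀ g : ℝ → ℝ, Continuous g →
        ∫ s in r..1, (stp u s - stp r s) * g s = -∫ s in r..u, g s := by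
      intro g hg
      rw [← intervalIntegral.integral_add_adjacent_intervals
        (ii_of_bdd ham hab hg r u) (ii_of_bdd ham hab hg u 1)]
      have k1 : ∫ s in r..u, (stp u s - stp r s) * g s = ∫ s in r..u, -g s := by
        refine int_congr_Ioo hu.1.le fun s hs => ?_
        simp only [stp, if_neg (not_le.2 hs.2), if_pos hs.1.le]
        ring
      have k2 : ∫ s in u..1, (stp u s - stp r s) * g s = ∫ s in u..1, (0:ℝ) := by
        refine int_congr_Ioo hu.2 fun s hs => ?_
        simp only [stp, if_pos hs.1.le, if_pos (hu.1.le.trans hs.1.le)]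
        ring
      rw [k1, k2]; simp
    have e2 : ∀ g : ℝ → ℝ, ∫ s in (0:ℝ)..r, (stp u s - stp r s) * g s = 0 := by
      intro g
      have : ∫ s in (0:ℝ)..r, (stp u s - stp r s) * g s = ∫ s in (0:ℝ)..r, (0:ℝ) := by
        refine int_congr_Ioo hr.1 fun s hs => ?_
        simp only [stp, if_neg (not_le.2 hs.2), if_neg (not_le.2 (hs.2.trans hu.1))]
        ring
      rw [this]; simp
    have e3 : ∫ s in (0:ℝ)..1, (stp u s - stp r s) * s = -∫ s in r..u, s := by
      have hid : Continuous (fun s : ℝ => s) := continuous_id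
      rw [← intervalIntegral.integral_add_adjacent_intervals
        (ii_of_bdd ham hab hid 0 r) (ii_of_bdd ham hab hid r 1)]
      have k1 := e1 (fun s => s) hid
      have k2 := e2 (fun s => s)
      rw [k1, k2, zero_add]
    rw [e1 _ (GamII_continuous β r h), e2, e3, mul_zero, add_zero] at key
    have hid : Continuous (fun s : ℝ => s) := continuous_id
    rw [intervalIntegral.integral_sub (hid.intervalIntegrable _ _)
      ((GamII_continuous β r h).intervalIntegrable _ _)]
    have := le_of_mul_le_mul_left key hβ2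
    linarith
  have hlt1 := fp_lt_one (2 * β ^ 2 * r) h
  have hnn := fp_nonneg (2 * β ^ 2 * r) h
  have L : 0 < r → r ≤ heat (fun y => Real.tanh y ^ 2) (2 * β ^ 2 * r) h := by
    intro hr0
    have := nonneg_left ((GamI_continuous β r h).sub continuous_id) hr0 left
    rw [Pi.sub_apply, GamI_self] at this
    simp only [id] at this
    linarith
  have hr1 : r < 1 := by
    refine lt_of_le_of_ne hr.2 fun he => ?_
    have h1 := L (by rw [he]; exact one_pos)
    rw [← he] at hlt1
    linarith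
  have R : heat (fun y => Real.tanh y ^ 2) (2 * β ^ 2 * r) h ≤ r := by
    have := nonneg_right (continuous_id.sub (GamII_continuous β r h)) hr1 right
    rw [Pi.sub_apply, GamII_eq hβ le_rfl, intervalIntegral.integral_same] at this
    simp only [id] at this
    linarith
  have hfix : r = heat (fun y => Real.tanh y ^ 2) (2 * β ^ 2 * r) h := by
    rcases hr.1.lt_or_eq with h0 | h0
    · exact le_antisymm (L h0) R
    · refine le_antisymm ?_ R
      linarith
  refine ⟨hfix, ?_⟩
  have hc : Continuous (fun v => 2 * β ^ 2 * Jf (2 * β ^ 2 * r) h (2 * β ^ 2 * (v - r))) :=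
    continuous_const.mul ((Jf_continuous _ _).comp (by fun_prop))
  have fin := nonneg_right2 (g := fun v => 1 - 2 * β ^ 2 * Jf (2 * β ^ 2 * r) h (2 * β ^ 2 * (v - r)))
    (φ := fun s => s - GamII β r h s) (continuous_const.sub hc)
    (continuous_id.sub (GamII_continuous β r h)) hr1 (fun s hs => by
      rw [GamII_eq hβ hs, ← hfix, intervalIntegral.integral_sub
        (continuous_const.intervalIntegrable _ _) (hc.intervalIntegrable _ _)]
      simp only [intervalIntegral.integral_const, smul_eq_mul, mul_one]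
      ring) right
  simp only [sub_self, mul_zero, Jf_zero] at fin
  linarith

/-- The point of a minimising point mass is the largest fixed point. -/
theorem conv_greatest {β r h q : ℝ} (hβ : β ≠ 0) (hr : r ∈ Icc (0:ℝ) 1)
    (hfix : r = heat (fun y => Real.tanh y ^ 2) (2 * β ^ 2 * r) h)
    (hAT : 2 * β ^ 2 * heat (fun y => sc y ^ 4) (2 * β ^ 2 * r) h ≤ 1)
    (hq : IsGreatest {q : ℝ | q ∈ Icc (0:ℝ) 1 ∧
      q = heat (fun y => Real.tanh y ^ 2) (2 * β ^ 2 * q) h} q) : r = q := by
  have hle : r ≤ q := hq.2 ⟨hr, hfix⟩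
  rcases hr.1.lt_or_eq with h0 | h0
  · exact fp_unique hβ h0 (h0.trans_le hle) hfix hq.1.2
  · subst h0
    rcases hle.lt_or_eq with h1 | h1
    · exfalso
      rw [mul_zero, heat_of_nonpos _ le_rfl] at hfix hAT
      have hh : Real.tanh h = 0 := by
        have := hfix.symm
        exact pow_eq_zero_iff (two_ne_zero) |>.1 this
      have hh0 : h = 0 := by
        have h2 := tanh_eq h
        rw [hh] at h2
        have h3 : Real.sinh h = 0 := by
          rcases mul_eq_zero.1 h2.symm with h4 | h4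
          · exact h4
          · exact absurd h4 (sc_pos h).ne'
        exact Real.sinh_eq_zero.1 h3
      subst hh0
      have hsc : sc 0 = 1 := by simp [sc]
      rw [hsc] at hAT
      have h5 := tanh_sq_lt (S := 2 * β ^ 2 * q) (by positivity)
      rw [← hq.1.2] at h5
      nlinarith
    · exact h1

end Pool.Agent.Helper95A
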