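import Mathlib

set_option autoImplicit false

open MeasureTheory ProbabilityTheory Set Filter Topology
open scoped Interval

namespace Pool.Agent.Helper95A

theorem ii_of_bdd {a c : ℝ → ℝ} {A : ℝ} (ha : Measurable a) (hA : ∀ s, |a s| ≤ A)
    (hc : Continuous c) (u v : ℝ) : IntervalIntegrable (fun s => a s * c s) volume u v := by
  have h := hc.intervalIntegrable (μ := volume) u v
  rw [intervalIntegrable_iff] at h ⊢
  exact Integrable.bdd_mul h ha.aestronglyMeasurable
    (Eventually.of_forall fun s => by rw [Real.norm_eq_abs]; exact hA s)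

/-- Right derivative of a Duhamel integral. -/
theorem duhamel_right_deriv {a : ℝ → ℝ} {K Kt : ℝ → ℝ → ℝ} {b t A : ℝ} (htb : t < b)
    (ham : Measurable a) (hab : ∀ s, |a s| ≤ A) (hac : ContinuousWithinAt a (Ioi t) t)
    (hKc : Continuous fun s => K s s) (hKt : Continuous (fun p : ℝ × ℝ => Kt p.1 p.2))
    (hK : ∀ u s, u ≤ s → K s u = K s s - ∫ r in u..s, Kt s r) :
    HasDerivWithinAt (fun u => ∫ s in u..b, a s * K s u)
      (-(a t * K t t) + ∫ s in t..b, a s * Kt s t) (Ici t) t := by
  set L : ℝ → ℝ → ℝ := fun s u => K s s - ∫ r in u..s, Kt s r with hL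
  have hKts : ∀ s, Continuous (Kt s) := fun s =>
    hKt.comp (Continuous.prodMk continuous_const continuous_id)
  have hLc : ∀ u, Continuous (fun s => L s u) := by
    intro u
    refine hKc.sub ?_
    exact intervalIntegral.continuous_parametric_intervalIntegral_of_continuous (f := Kt)
      (μ := volume) (a₀ := u) hKt continuous_id
  have hLd : ∀ s u, HasDerivAt (L s) (Kt s u) u := by
    intro s u
    have h1 := intervalIntegral.integral_hasDerivAt_left ((hKts s).intervalIntegrable u s)
      (hKts s).stronglyMeasurable.stronglyMeasurableAtFilter (hKts s).continuousAt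
    have h2 := h1.const_sub (K s s)
    rw [neg_neg] at h2
    exact h2
  -- bound on the compact set
  have hcomp : IsCompact (Icc t b ×ˢ Icc (t - 1) (max b (t + 1)) : Set (ℝ × ℝ)) :=
    isCompact_Icc.prod isCompact_Icc
  obtain ⟨M, hM⟩ := hcomp.exists_bound_of_continuousOn hKt.continuousOn
  have hA0 : 0 ≤ A := (abs_nonneg _).trans (hab 0)
  have hM' : ∀ s ∈ Icc t b, ∀ r ∈ Icc (t - 1) (max b (t + 1)), |Kt s r| ≤ max M 0 := by
    intro s hs r hr
    have := hM (s, r) ⟨hs, hr⟩
    rw [Real.norm_eq_abs] at this
    exact this.trans (le_max_left _ _)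
  set M' := max M 0 with hM'd
  have hM0 : 0 ≤ M' := le_max_right _ _
  -- first term
  have T1 : HasDerivAt (fun u => ∫ s in t..b, a s * L s u) (∫ s in t..b, a s * Kt s t) t := by
    refine (intervalIntegral.hasDerivAt_integral_of_dominated_loc_of_deriv_le
      (F := fun u s => a s * L s u) (F' := fun u s => a s * Kt s u) (bound := fun _ => A * M')
      (Ioo_mem_nhds (show t - 1 < t by linarith) (show t < t + 1 by linarith))
      (Eventually.of_forall fun u => ?_) (ii_of_bdd ham hab (hLc t) t b) ?_ ?_
      intervalIntegrable_const ?_).2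
    · exact (ham.aestronglyMeasurable.mul (hLc u).aestronglyMeasurable)
    · exact ham.aestronglyMeasurable.mul (hKt.comp (Continuous.prodMk continuous_id
        continuous_const)).aestronglyMeasurable
    · refine Eventually.of_forall fun s hs u hu => ?_
      rw [uIoc_of_le htb.le] at hs
      rw [Real.norm_eq_abs, abs_mul]
      exact mul_le_mul (hab s) (hM' s ⟨hs.1.le, hs.2⟩ u ⟨hu.1.le, hu.2.le.trans (le_max_right _ _)⟩)
        (abs_nonneg _) hA0
    · exact Eventually.of_forall fun s _ u _ => (hLd s u).const_mul (a s)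
  -- second term
  have T2 : HasDerivWithinAt (fun u => ∫ s in t..u, a s * L s u) (a t * K t t) (Ici t) t := by
    have e1 : HasDerivWithinAt (fun u => ∫ s in t..u, a s * L s t) (a t * L t t) (Ici t) t := by
      refine intervalIntegral.integral_hasDerivWithinAt_right (s := Ici t) (t := Ioi t)
        (ii_of_bdd ham hab (hLc t) t t) ?_ ?_
      · exact (ham.stronglyMeasurable.mul
          (hLc t).stronglyMeasurable).stronglyMeasurableAtFilter
      · exact hac.mul (hLc t).continuousWithinAt
    have e2 : HasDerivWithinAt (fun u => ∫ s in t..u, a s * (L s u - L s t)) 0 (Ici t) t := by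
      rw [hasDerivWithinAt_iff_isLittleO]
      simp only [intervalIntegral.integral_same, sub_zero, smul_zero]
      have hO : (fun u => ∫ s in t..u, a s * (L s u - L s t)) =O[𝓝[Ici t] t]
          fun u => (u - t) * (u - t) := by
        refine Asymptotics.IsBigO.of_bound (A * M') ?_
        have : Ico t b ∈ 𝓝[Ici t] t := Ico_mem_nhdsGE htb
        filter_upwards [this] with u hu
        have hb : ∀ s ∈ Ι t u, ‖a s * (L s u - L s t)‖ ≤ A * (M' * (u - t)) := by
          intro s hs
          rw [uIoc_of_le hu.1] at hs
          rw [Real.norm_eq_abs, abs_mul]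
          refine mul_le_mul (hab s) ?_ (abs_nonneg _) hA0
          have e3 : L s u - L s t = ∫ r in t..u, Kt s r := by
            simp only [hL]
            have := intervalIntegral.integral_add_adjacent_intervals
              ((hKts s).intervalIntegrable (μ := volume) t u)
              ((hKts s).intervalIntegrable (μ := volume) u s)
            linarith
          rw [e3]
          have := intervalIntegral.norm_integral_le_of_norm_le_const (a := t) (b := u)
            (f := Kt s) (C := M') (fun r hr => by
              rw [uIoc_of_le hu.1] at hr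
              rw [Real.norm_eq_abs]
              exact hM' s ⟨hs.1.le, hs.2.trans hu.2.le⟩ r
                ⟨by linarith [hr.1], hr.2.trans (hu.2.le.trans (le_max_left _ _))⟩)
          rw [Real.norm_eq_abs, abs_of_nonneg (sub_nonneg.2 hu.1)] at this
          exact this
        have h5 := intervalIntegral.norm_integral_le_of_norm_le_const hb
        refine h5.trans (le_of_eq ?_)
        rw [norm_mul, Real.norm_eq_abs]
        ring_nf
        rw [sq_abs]
        rw [abs_of_nonneg (by linarith [hu.1] : (0:ℝ) ≤ u - t)]
        ring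
      refine hO.trans_isLittleO ?_
      have : Tendsto (fun u => u - t) (𝓝[Ici t] t) (𝓝 0) := by
        have : Tendsto (fun u => u - t) (𝓝 t) (𝓝 (t - t)) := by
          exact (continuous_id.sub continuous_const).continuousAt
        rw [sub_self] at this
        exact this.mono_left nhdsWithin_le_nhds
      have h6 : (fun u => (u - t) * (u - t)) =o[𝓝[Ici t] t] fun u => (1:ℝ) * (u - t) :=
        Asymptotics.IsLittleO.mul_isBigO ((Asymptotics.isLittleO_one_iff ℝ).2 this)
          (Asymptotics.isBigO_refl _ _)
      simpa using h6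
    have e4 := e1.add e2
    have e5 : L t t = K t t := by simp [hL]
    rw [e5, add_zero] at e4
    refine e4.congr_of_eventuallyEq (Eventually.of_forall fun u => ?_) (by simp)
    simp only [Pi.add_apply]
    rw [← intervalIntegral.integral_add]
    · congr 1; ext s; ring
    · exact ii_of_bdd ham hab (hLc t) t u
    · exact ii_of_bdd ham hab ((hLc u).sub (hLc t)) t u
  have T3 := (T1.hasDerivWithinAt (s := Ici t)).sub T2
  have e6 : (∫ s in t..b, a s * Kt s t) - a t * K t t =
      -(a t * K t t) + ∫ s in t..b, a s * Kt s t := by ring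
  rw [e6] at T3
  refine T3.congr_of_eventuallyEq_of_mem ?_ (by simp)
  have : Ico t b ∈ 𝓝[Ici t] t := Ico_mem_nhdsGE htb
  filter_upwards [this] with u hu
  simp only [Pi.sub_apply]
  have e7 : (∫ s in u..b, a s * K s u) = ∫ s in u..b, a s * L s u := by
    refine intervalIntegral.integral_congr fun s hs => ?_
    rw [uIcc_of_le hu.2.le] at hs
    simp only [hL]
    rw [hK u s hs.1]
  rw [e7]
  have := intervalIntegral.integral_add_adjacent_intervals (ii_of_bdd ham hab (hLc u) t u)
    (ii_of_bdd ham hab (hLc u) u b)
  linarith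

/-- Continuity of a Duhamel integral. -/
theorem duhamel_continuous {a : ℝ → ℝ} {K : ℝ → ℝ → ℝ → ℝ} {b A D : ℝ}
    (ham : Measurable a) (hab : ∀ s, |a s| ≤ A)
    (hKc : Continuous (fun p : ℝ × ℝ × ℝ => K p.1 p.2.1 p.2.2)) (hKb : ∀ s t x, |K s t x| ≤ D) :
    Continuous (fun p : ℝ × ℝ => ∫ s in p.1..b, a s * K s p.1 p.2) := by
  have hA0 : 0 ≤ A := (abs_nonneg _).trans (hab 0)
  have hD0 : 0 ≤ D := (abs_nonneg _).trans (hKb 0 0 0)
  have hsec : ∀ t x, Continuous (fun s => K s t x) := fun t x =>
    hKc.comp (f := fun s : ℝ => ((s, t, x) : ℝ × ℝ × ℝ)) (by fun_prop)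
  have key : Continuous (fun q : ℝ × (ℝ × ℝ) => ∫ s in q.1..b, a s * K s q.2.1 q.2.2) := by
    refine continuous_prod_of_continuous_lipschitzWith _ (Real.toNNReal (A * D)) ?_ ?_
    rotate_left
    · intro p
      refine LipschitzWith.of_dist_le_mul fun u v => ?_
      rw [Real.dist_eq, Real.dist_eq, Real.coe_toNNReal _ (mul_nonneg hA0 hD0)]
      simp only
      have h1 : (∫ s in u..b, a s * K s p.1 p.2) - ∫ s in v..b, a s * K s p.1 p.2 =
          ∫ s in u..v, a s * K s p.1 p.2 := by
        have := intervalIntegral.integral_add_adjacent_intervals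
          (ii_of_bdd ham hab (hsec p.1 p.2) u v) (ii_of_bdd ham hab (hsec p.1 p.2) v b)
        linarith
      rw [h1]
      have h2 := intervalIntegral.norm_integral_le_of_norm_le_const (a := u) (b := v)
        (f := fun s => a s * K s p.1 p.2) (C := A * D) (fun s _ => by
          rw [Real.norm_eq_abs, abs_mul]
          exact mul_le_mul (hab s) (hKb _ _ _) (abs_nonneg _) hA0)
      rw [Real.norm_eq_abs] at h2
      rw [abs_sub_comm u v]
      exact h2
    · intro u
      rw [continuous_iff_continuousAt]
      intro p0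
      refine intervalIntegral.continuousAt_of_dominated_interval (bound := fun _ => A * D)
        (Eventually.of_forall fun p => ?_) (Eventually.of_forall fun p =>
          Eventually.of_forall fun s _ => ?_) intervalIntegrable_const
        (Eventually.of_forall fun s _ => ?_)
      · exact ham.aestronglyMeasurable.mul (hsec _ _).aestronglyMeasurable
      · rw [Real.norm_eq_abs, abs_mul]
        exact mul_le_mul (hab s) (hKb _ _ _) (abs_nonneg _) hA0
      · refine ContinuousAt.mul continuousAt_const ?_
        exact (hKc.comp (f := fun p : ℝ × ℝ => ((s, p.1, p.2) : ℝ × ℝ × ℝ))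
          (by fun_prop)).continuousAt
  exact key.comp (Continuous.prodMk continuous_fst continuous_id)

/-- Space derivative of a Duhamel integral. -/
theorem duhamel_hasDerivAt_x {a : ℝ → ℝ} {K Kx : ℝ → ℝ → ℝ → ℝ} {b A D : ℝ}
    (ham : Measurable a) (hab : ∀ s, |a s| ≤ A)
    (hKc : Continuous (fun p : ℝ × ℝ × ℝ => K p.1 p.2.1 p.2.2))
    (hKxc : Continuous (fun p : ℝ × ℝ × ℝ => Kx p.1 p.2.1 p.2.2))
    (hKb : ∀ s t x, |Kx s t x| ≤ D) (hKx : ∀ s t x, HasDerivAt (K s t) (Kx s t x) x) (t x : ℝ) :
    HasDerivAt (fun y => ∫ s in t..b, a s * K s t y) (∫ s in t..b, a s * Kx s t x) x := by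
  have hA0 : 0 ≤ A := (abs_nonneg _).trans (hab 0)
  have hsec : ∀ t x, Continuous (fun s => K s t x) := fun t x =>
    hKc.comp (f := fun s : ℝ => ((s, t, x) : ℝ × ℝ × ℝ)) (by fun_prop)
  have hsecx : ∀ t x, Continuous (fun s => Kx s t x) := fun t x =>
    hKxc.comp (f := fun s : ℝ => ((s, t, x) : ℝ × ℝ × ℝ)) (by fun_prop)
  refine (intervalIntegral.hasDerivAt_integral_of_dominated_loc_of_deriv_le
      (F := fun y s => a s * K s t y) (F' := fun y s => a s * Kx s t y) (bound := fun _ => A * D)
      univ_mem (Eventually.of_forall fun y => ?_) (ii_of_bdd ham hab (hsec t x) t b) ?_ ?_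
      intervalIntegrable_const ?_).2
  · exact ham.aestronglyMeasurable.mul (hsec _ _).aestronglyMeasurable
  · exact ham.aestronglyMeasurable.mul (hsecx _ _).aestronglyMeasurable
  · refine Eventually.of_forall fun s _ y _ => ?_
    rw [Real.norm_eq_abs, abs_mul]
    exact mul_le_mul (hab s) (hKb _ _ _) (abs_nonneg _) hA0
  · exact Eventually.of_forall fun s _ y _ => (hKx s t y).const_mul (a s)

end Pool.Agent.Helper95A
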