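import Mathlib

set_option autoImplicit false

open MeasureTheory ProbabilityTheory Set Filter Topology

namespace Pool.Agent.Helper95A

/-- Hyperbolic secant. -/
noncomputable def sc (x : ℝ) : ℝ := (Real.cosh x)⁻¹

theorem sc_pos (x : ℝ) : 0 < sc x := inv_pos.2 (Real.cosh_pos x)

theorem sc_le_one (x : ℝ) : sc x ≤ 1 := inv_le_one_of_one_le₀ (Real.one_le_cosh x)

theorem tanh_eq (x : ℝ) : Real.tanh x = Real.sinh x * sc x := by
  rw [Real.tanh_eq_sinh_div_cosh, sc, div_eq_mul_inv]

theorem tanh_sq_add (x : ℝ) : Real.tanh x ^ 2 + sc x ^ 2 = 1 := by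
  rw [tanh_eq, sc]
  have h := Real.cosh_pos x
  have h2 := Real.cosh_sq x
  field_simp
  linarith

theorem tanh_sq (x : ℝ) : Real.tanh x ^ 2 = 1 - sc x ^ 2 := by linarith [tanh_sq_add x]

theorem abs_tanh_le (x : ℝ) : |Real.tanh x| ≤ 1 := by
  rw [← sq_le_one_iff_abs_le_one]
  have := tanh_sq_add x
  nlinarith [sq_nonneg (sc x)]

theorem abs_sc_le (x : ℝ) : |sc x| ≤ 1 := by
  rw [abs_of_pos (sc_pos x)]; exact sc_le_one x

theorem sc_neg (x : ℝ) : sc (-x) = sc x := by simp [sc]

theorem hasDerivAt_sc (x : ℝ) : HasDerivAt sc (-(sc x * Real.tanh x)) x := by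
  have h := (Real.hasDerivAt_cosh x).inv (Real.cosh_pos x).ne'
  refine h.congr_deriv ?_
  rw [tanh_eq, sc]
  have := Real.cosh_pos x
  field_simp

theorem hasDerivAt_tanh (x : ℝ) : HasDerivAt Real.tanh (sc x ^ 2) x := by
  have h := (Real.hasDerivAt_sinh x).mul (hasDerivAt_sc x)
  have e : Real.tanh = fun x => Real.sinh x * sc x := funext tanh_eq
  rw [e]
  refine h.congr_deriv ?_
  have h2 := Real.cosh_sq x
  rw [tanh_eq, sc]
  have := Real.cosh_pos x
  field_simp
  linarith

theorem continuous_sc : Continuous sc :=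
  continuous_iff_continuousAt.2 fun x => (hasDerivAt_sc x).continuousAt

theorem continuous_tanh : Continuous Real.tanh :=
  continuous_iff_continuousAt.2 fun x => (hasDerivAt_tanh x).continuousAt

theorem hasDerivAt_logcosh (x : ℝ) :
    HasDerivAt (fun x => Real.log (Real.cosh x)) (Real.tanh x) x := by
  have h := (Real.hasDerivAt_cosh x).log (Real.cosh_pos x).ne'
  rwa [← Real.tanh_eq_sinh_div_cosh] at h

theorem logcosh_nonneg (x : ℝ) : 0 ≤ Real.log (Real.cosh x) := Real.log_nonneg (Real.one_le_cosh x)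

theorem logcosh_le (x : ℝ) : Real.log (Real.cosh x) ≤ |x| := by
  rw [Real.log_le_iff_le_exp (Real.cosh_pos x), Real.cosh_eq]
  have h1 : Real.exp x ≤ Real.exp |x| := Real.exp_le_exp.2 (le_abs_self x)
  have h2 : Real.exp (-x) ≤ Real.exp |x| := Real.exp_le_exp.2 (neg_le_abs x)
  linarith

theorem abs_logcosh_le (x : ℝ) : |Real.log (Real.cosh x)| ≤ |x| := by
  rw [abs_of_nonneg (logcosh_nonneg x)]; exact logcosh_le x

theorem continuous_logcosh : Continuous (fun x => Real.log (Real.cosh x)) :=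
  continuous_iff_continuousAt.2 fun x => (hasDerivAt_logcosh x).continuousAt

/-- `sech ^ n` derivative. -/
theorem hasDerivAt_sc_pow (n : ℕ) (x : ℝ) :
    HasDerivAt (fun x => sc x ^ n) (-(n * sc x ^ n * Real.tanh x)) x := by
  rcases n with _ | n
  · simpa using hasDerivAt_const x (1:ℝ)
  · have h := (hasDerivAt_sc x).fun_pow (n + 1)
    refine h.congr_deriv ?_
    simp only [Nat.add_sub_cancel]
    push_cast
    ring

/-- The derivative of `-sech ^ n * tanh`. -/
theorem hasDerivAt_sc_pow_tanh (n : ℕ) (x : ℝ) :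
    HasDerivAt (fun x => -(n * sc x ^ n * Real.tanh x))
      (n ^ 2 * sc x ^ n - n * (n + 1) * sc x ^ (n + 2)) x := by
  have h := (((hasDerivAt_sc_pow n x).const_mul (n:ℝ)).mul (hasDerivAt_tanh x)).neg
  refine h.congr_deriv ?_
  have e : Real.tanh x ^ 2 = 1 - sc x ^ 2 := tanh_sq x
  have : -((n:ℝ) * -(↑n * sc x ^ n * Real.tanh x) * Real.tanh x + ↑n * sc x ^ n * sc x ^ 2) =
    n ^ 2 * sc x ^ n * Real.tanh x ^ 2 - n * sc x ^ (n + 2) := by ring
  rw [this, e]; ring

theorem abs_sc_pow_le (n : ℕ) (x : ℝ) : |sc x ^ n| ≤ 1 := by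
  rw [abs_pow]; exact pow_le_one₀ (abs_nonneg _) (abs_sc_le x)

theorem sc_pow_nonneg (n : ℕ) (x : ℝ) : 0 ≤ sc x ^ n := pow_nonneg (sc_pos x).le n

theorem abs_sc_pow_tanh_le (n : ℕ) (x : ℝ) : |-(n * sc x ^ n * Real.tanh x)| ≤ n := by
  rw [abs_neg, abs_mul, abs_mul, Nat.abs_cast]
  have h1 := abs_sc_pow_le n x
  have h2 := abs_tanh_le x
  have h3 : (0:ℝ) ≤ n := Nat.cast_nonneg n
  calc (n:ℝ) * |sc x ^ n| * |Real.tanh x| ≤ n * 1 * 1 := by gcongr
    _ = n := by ring

theorem abs_sc_pow'' (n : ℕ) (x : ℝ) :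
    |(n:ℝ) ^ 2 * sc x ^ n - n * (n + 1) * sc x ^ (n + 2)| ≤ (n:ℝ) ^ 2 + n * (n + 1) := by
  have h1 := abs_sc_pow_le n x
  have h2 := abs_sc_pow_le (n + 2) x
  have h3 : (0:ℝ) ≤ n := Nat.cast_nonneg n
  refine (abs_sub _ _).trans (add_le_add ?_ ?_)
  · rw [abs_mul, abs_of_nonneg (by positivity : (0:ℝ) ≤ n ^ 2)]
    nlinarith [mul_nonneg h3 h3]
  · rw [abs_mul, abs_of_nonneg (by positivity : (0:ℝ) ≤ n * (n + 1))]
    nlinarith [mul_nonneg h3 h3]

theorem tanh_nonneg {x : ℝ} (hx : 0 ≤ x) : 0 ≤ Real.tanh x := by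
  rw [tanh_eq]; exact mul_nonneg (Real.sinh_nonneg_iff.2 hx) (sc_pos x).le

/-- Convexity of `log cosh`, in tangent form. -/
theorem logcosh_tangent (x y : ℝ) :
    Real.log (Real.cosh x) + (y - x) * Real.tanh x ≤ Real.log (Real.cosh y) := by
  have hd : ∀ z, HasDerivAt (fun z => Real.log (Real.cosh z) - (Real.log (Real.cosh x) +
      (z - x) * Real.tanh x)) (Real.tanh z - Real.tanh x) z := by
    intro z
    have := (hasDerivAt_logcosh z).sub ((((hasDerivAt_id z).sub_const x).mul_const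
      (Real.tanh x)).const_add (Real.log (Real.cosh x)))
    refine this.congr_deriv ?_
    simp
  have hmono : Monotone Real.tanh := by
    refine monotone_of_deriv_nonneg (fun x => (hasDerivAt_tanh x).differentiableAt) fun x => ?_
    rw [(hasDerivAt_tanh x).deriv]; positivity
  set φ := fun z => Real.log (Real.cosh z) - (Real.log (Real.cosh x) + (z - x) * Real.tanh x)
    with hφ
  have h0 : φ x = 0 := by simp [hφ]
  have hc : Continuous φ := continuous_iff_continuousAt.2 fun z => (hd z).continuousAt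
  have : 0 ≤ φ y := by
    rw [← h0]
    rcases le_total x y with h | h
    · refine monotoneOn_of_deriv_nonneg (convex_Ici x) hc.continuousOn
        (fun z _ => (hd z).differentiableAt.differentiableWithinAt) (fun z hz => ?_)
        (self_mem_Ici) h h
      rw [interior_Ici] at hz
      rw [(hd z).deriv]
      exact sub_nonneg.2 (hmono (le_of_lt hz))
    · refine antitoneOn_of_deriv_nonpos (convex_Iic x) hc.continuousOn
        (fun z _ => (hd z).differentiableAt.differentiableWithinAt) (fun z hz => ?_)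
        h (self_mem_Iic) h
      rw [interior_Iic] at hz
      rw [(hd z).deriv]
      exact sub_nonpos.2 (hmono (le_of_lt hz))
  simp only [hφ] at this
  linarith

end Pool.Agent.Helper95A
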