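import Pool.Agent.Helper95A.Heat
import Pool.Agent.Helper95A.Hyp
import Pool.Agent.Helper95A.Duhamel

set_option autoImplicit false

open MeasureTheory ProbabilityTheory Set Filter Topology
open scoped Interval

namespace Pool.Agent.Helper95A

/-! ### The solution for a point mass -/

/-- the distribution function of the point mass at `q` -/
noncomputable def stp (q t : ℝ) : ℝ := if q ≤ t then 1 else 0

noncomputable def gq (β q t x : ℝ) : ℝ :=
  heat (fun y => Real.log (Real.cosh y)) (2 * β ^ 2 * (q - t)) x + β ^ 2 * (1 - max q t)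
noncomputable def mq (β q t x : ℝ) : ℝ := heat Real.tanh (2 * β ^ 2 * (q - t)) x
noncomputable def mxq (β q t x : ℝ) : ℝ := heat (fun y => sc y ^ 2) (2 * β ^ 2 * (q - t)) x
noncomputable def mxxq (β q t x : ℝ) : ℝ :=
  heat (fun y => -((2 : ℕ) * sc y ^ 2 * Real.tanh y)) (2 * β ^ 2 * (q - t)) x

theorem EG_logcosh : EG (fun x => Real.log (Real.cosh x)) :=
  ⟨1, 1, by norm_num, by norm_num, fun x => by
    rw [one_mul, one_mul]; exact (abs_logcosh_le x).trans (abs_le_exp_abs x)⟩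
theorem EG_tanh : EG Real.tanh := EG.of_bdd abs_tanh_le
theorem EG_sc_pow (n : ℕ) : EG (fun x => sc x ^ n) := EG.of_bdd (abs_sc_pow_le n)
theorem EG_sc_pow' (n : ℕ) : EG (fun x => -(n * sc x ^ n * Real.tanh x)) :=
  EG.of_bdd (abs_sc_pow_tanh_le n)
theorem EG_sc_pow'' (n : ℕ) : EG (fun x => (n:ℝ) ^ 2 * sc x ^ n - n * (n + 1) * sc x ^ (n + 2)) :=
  EG.of_bdd (abs_sc_pow'' n)
theorem cont_sc_pow (n : ℕ) : Continuous (fun x => sc x ^ n) := continuous_sc.pow n
theorem cont_sc_pow' (n : ℕ) : Continuous (fun x => -(n * sc x ^ n * Real.tanh x)) :=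
  ((continuous_const.mul (continuous_sc.pow n)).mul continuous_tanh).neg
theorem cont_sc_pow'' (n : ℕ) :
    Continuous (fun x => (n:ℝ) ^ 2 * sc x ^ n - n * (n + 1) * sc x ^ (n + 2)) :=
  (continuous_const.mul (continuous_sc.pow n)).sub (continuous_const.mul (continuous_sc.pow _))

theorem hasDerivAt_time {β q t : ℝ} (hβ : β ≠ 0) {F F' F'' : ℝ → ℝ}
    (hF : ∀ x, HasDerivAt F (F' x) x) (hg : EG F)
    (hF' : ∀ x, HasDerivAt F' (F'' x) x) (hg' : EG F') (hF'' : Continuous F'') (hg'' : EG F'')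
    (ht : t < q) (x : ℝ) :
    HasDerivAt (fun s => heat F (2 * β ^ 2 * (q - s)) x)
      (-β ^ 2 * heat F'' (2 * β ^ 2 * (q - t)) x) t := by
  have hβ2 : 0 < β ^ 2 := by positivity
  have hσ : 0 < 2 * β ^ 2 * (q - t) := by
    have : 0 < q - t := by linarith
    positivity
  have h1 := heat_hasDerivAt_σ hF hg hF' hg' hF'' hg'' hσ x
  have h2 : HasDerivAt (fun s : ℝ => 2 * β ^ 2 * (q - s)) (-(2 * β ^ 2)) t := by
    have := ((hasDerivAt_id t).const_sub q).const_mul (2 * β ^ 2)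
    refine this.congr_deriv ?_
    ring
  have h3 := h1.comp t h2
  refine h3.congr_deriv ?_
  ring

theorem right_const_of_ge {β q t : ℝ} {F : ℝ → ℝ} (ht : q ≤ t) (x : ℝ) :
    HasDerivWithinAt (fun s => heat F (2 * β ^ 2 * (q - s)) x) 0 (Ici t) t := by
  have hb : 0 ≤ β ^ 2 := sq_nonneg β
  refine (hasDerivWithinAt_const t (Ici t) (F x)).congr (fun s hs => ?_) ?_
  · refine heat_of_nonpos F ?_ x
    have : q - s ≤ 0 := by have := mem_Ici.1 hs; linarith
    nlinarith
  · refine heat_of_nonpos F ?_ x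
    have : q - t ≤ 0 := by linarith
    nlinarith

theorem heat_of_ge {β q t : ℝ} (F : ℝ → ℝ) (ht : q ≤ t) (x : ℝ) :
    heat F (2 * β ^ 2 * (q - t)) x = F x := by
  refine heat_of_nonpos F ?_ x
  have hb : 0 ≤ β ^ 2 := sq_nonneg β
  have : q - t ≤ 0 := by linarith
  nlinarith

theorem hasDerivAt_gq_x (β q t x : ℝ) : HasDerivAt (gq β q t) (mq β q t x) x :=
  (heat_hasDerivAt_x hasDerivAt_logcosh EG_logcosh continuous_tanh EG_tanh _ x).add_const _

theorem hasDerivAt_mq_x (β q t x : ℝ) : HasDerivAt (mq β q t) (mxq β q t x) x :=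
  heat_hasDerivAt_x hasDerivAt_tanh EG_tanh (cont_sc_pow 2) (EG_sc_pow 2) _ x

theorem hasDerivAt_mxq_x (β q t x : ℝ) : HasDerivAt (mxq β q t) (mxxq β q t x) x :=
  heat_hasDerivAt_x (hasDerivAt_sc_pow 2) (EG_sc_pow 2) (cont_sc_pow' 2) (EG_sc_pow' 2) _ x

theorem abs_mq_le (β q t x : ℝ) : |mq β q t x| ≤ 1 := heat_abs_le abs_tanh_le _ _
theorem abs_mxq_le (β q t x : ℝ) : |mxq β q t x| ≤ 1 := heat_abs_le (abs_sc_pow_le 2) _ _
theorem abs_mxxq_le (β q t x : ℝ) : |mxxq β q t x| ≤ 2 := by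
  have := heat_abs_le (abs_sc_pow_tanh_le 2) (2 * β ^ 2 * (q - t)) x
  unfold mxxq
  exact_mod_cast this

theorem continuous_heat_time {F : ℝ → ℝ} (hF : Continuous F) (hg : EG F) (β q : ℝ) :
    Continuous (fun p : ℝ × ℝ => heat F (2 * β ^ 2 * (q - p.1)) p.2) :=
  (heat_continuous hF hg).comp (f := fun p : ℝ × ℝ => ((2 * β ^ 2 * (q - p.1), p.2) : ℝ × ℝ))
    (by fun_prop)

theorem continuous_mq (β q : ℝ) : Continuous (fun p : ℝ × ℝ => mq β q p.1 p.2) :=
  continuous_heat_time continuous_tanh EG_tanh β q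
theorem continuous_mxq (β q : ℝ) : Continuous (fun p : ℝ × ℝ => mxq β q p.1 p.2) :=
  continuous_heat_time (cont_sc_pow 2) (EG_sc_pow 2) β q
theorem continuous_mxxq (β q : ℝ) : Continuous (fun p : ℝ × ℝ => mxxq β q p.1 p.2) :=
  continuous_heat_time (cont_sc_pow' 2) (EG_sc_pow' 2) β q
theorem continuous_gq (β q : ℝ) : Continuous (fun p : ℝ × ℝ => gq β q p.1 p.2) :=
  (continuous_heat_time continuous_logcosh EG_logcosh β q).add (by fun_prop)

theorem hasDerivWithinAt_mq_t {β q : ℝ} (hβ : β ≠ 0) (t x : ℝ) :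
    HasDerivWithinAt (fun s => mq β q s x)
      (-β ^ 2 * (mxxq β q t x + 2 * stp q t * mq β q t x * mxq β q t x)) (Ici t) t := by
  rcases lt_or_ge t q with h | h
  · have := (hasDerivAt_time hβ hasDerivAt_tanh EG_tanh (hasDerivAt_sc_pow 2) (EG_sc_pow 2)
      (cont_sc_pow' 2) (EG_sc_pow' 2) h x).hasDerivWithinAt (s := Ici t)
    simp only [stp, if_neg (not_le.2 h)]
    simpa [mq, mxxq] using this
  · have := right_const_of_ge (β := β) (F := Real.tanh) h x
    have e : -β ^ 2 * (mxxq β q t x + 2 * stp q t * mq β q t x * mxq β q t x) = 0 := by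
      simp only [stp, if_pos h, mq, mxq, mxxq, heat_of_ge _ h]
      push_cast; ring
    rw [e]; exact this

theorem hasDerivWithinAt_gq_t {β q : ℝ} (hβ : β ≠ 0) (t x : ℝ) :
    HasDerivWithinAt (fun s => gq β q s x)
      (-β ^ 2 * (mxq β q t x + stp q t * mq β q t x ^ 2)) (Ici t) t := by
  rcases lt_or_ge t q with h | h
  · have h1 := (hasDerivAt_time hβ hasDerivAt_logcosh EG_logcosh hasDerivAt_tanh EG_tanh
      (cont_sc_pow 2) (EG_sc_pow 2) h x)
    have h2 : HasDerivAt (fun s : ℝ => β ^ 2 * (1 - max q s)) 0 t := by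
      refine (hasDerivAt_const t (β ^ 2 * (1 - q))).congr_of_eventuallyEq ?_
      filter_upwards [Iio_mem_nhds h] with s hs
      rw [max_eq_left (le_of_lt hs)]
    have h3 := (h1.add h2).hasDerivWithinAt (s := Ici t)
    simp only [stp, if_neg (not_le.2 h)]
    refine h3.congr_deriv ?_
    simp only [mxq]; ring
  · have h1 := right_const_of_ge (β := β) (F := fun y => Real.log (Real.cosh y)) h x
    have h2 : HasDerivWithinAt (fun s : ℝ => β ^ 2 * (1 - max q s)) (-β ^ 2) (Ici t) t := by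
      have h3 : HasDerivWithinAt (fun s : ℝ => β ^ 2 * (1 - s)) (-β ^ 2) (Ici t) t := by
        have := (((hasDerivAt_id t).const_sub 1).const_mul (β ^ 2)).hasDerivWithinAt (s := Ici t)
        refine this.congr_deriv ?_
        ring
      refine h3.congr (fun s hs => ?_) ?_
      · rw [max_eq_right (h.trans hs)]
      · rw [max_eq_right h]
    refine (h1.add h2).congr_deriv ?_
    simp only [stp, if_pos h, mq, mxq, heat_of_ge _ h, tanh_sq]
    ring

/-! ### The second stage kernel -/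

/-- `sech` and its first two derivatives -/
noncomputable def kq (β : ℝ) (F : ℝ → ℝ) (s t x : ℝ) : ℝ :=
  Real.exp (-β ^ 2 * max (s - t) 0) * heat F (2 * β ^ 2 * (s - t)) x

theorem continuous_kq (β : ℝ) {F : ℝ → ℝ} (hF : Continuous F) (hg : EG F) :
    Continuous (fun p : ℝ × ℝ × ℝ => kq β F p.1 p.2.1 p.2.2) := by
  refine Continuous.mul (by fun_prop) ?_
  exact (heat_continuous hF hg).comp
    (f := fun p : ℝ × ℝ × ℝ => ((2 * β ^ 2 * (p.1 - p.2.1), p.2.2) : ℝ × ℝ)) (by fun_prop)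

theorem abs_kq_le (β : ℝ) {F : ℝ → ℝ} {D : ℝ} (h : ∀ x, |F x| ≤ D) (s t x : ℝ) :
    |kq β F s t x| ≤ D := by
  unfold kq
  rw [abs_mul, abs_of_pos (Real.exp_pos _)]
  have h1 : Real.exp (-β ^ 2 * max (s - t) 0) ≤ 1 := by
    rw [Real.exp_le_one_iff]
    have : 0 ≤ max (s - t) 0 := le_max_right _ _
    nlinarith [sq_nonneg β]
  have h2 := heat_abs_le h (2 * β ^ 2 * (s - t)) x
  calc _ ≤ 1 * D := mul_le_mul h1 h2 (abs_nonneg _) zero_le_one
    _ = D := one_mul _

theorem kq_hasDerivAt_x (β : ℝ) {F F' : ℝ → ℝ} (hF : ∀ x, HasDerivAt F (F' x) x) (hg : EG F)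
    (hF' : Continuous F') (hg' : EG F') (s t x : ℝ) :
    HasDerivAt (kq β F s t) (kq β F' s t x) x :=
  (heat_hasDerivAt_x hF hg hF' hg' _ x).const_mul _

theorem kq_eq_integral {β : ℝ} (hβ : β ≠ 0) {F F' F'' : ℝ → ℝ} (hF : ∀ x, HasDerivAt F (F' x) x)
    (hg : EG F) (hF' : ∀ x, HasDerivAt F' (F'' x) x) (hg' : EG F') (hF'' : Continuous F'')
    (hg'' : EG F'') {u s : ℝ} (hus : u ≤ s) (x : ℝ) :
    kq β F s u x = kq β F s s x - ∫ r in u..s, β ^ 2 * (kq β F s r x - kq β F'' s r x) := by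
  have hFc : Continuous F := continuous_iff_continuousAt.2 fun x => (hF x).continuousAt
  have c1 : Continuous (fun r => kq β F s r x) :=
    (continuous_kq β hFc hg).comp (f := fun r : ℝ => ((s, r, x) : ℝ × ℝ × ℝ)) (by fun_prop)
  have c2 : Continuous (fun r => kq β F'' s r x) :=
    (continuous_kq β hF'' hg'').comp (f := fun r : ℝ => ((s, r, x) : ℝ × ℝ × ℝ)) (by fun_prop)
  have hd : ∀ r ∈ Ioo u s, HasDerivAt (fun r => kq β F s r x)
      (β ^ 2 * (kq β F s r x - kq β F'' s r x)) r := by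
    intro r hr
    have h1 := hasDerivAt_time hβ hF hg hF' hg' hF'' hg'' hr.2 x
    have h2 : HasDerivAt (fun r : ℝ => Real.exp (-β ^ 2 * (s - r)))
        (β ^ 2 * Real.exp (-β ^ 2 * (s - r))) r := by
      have := (((hasDerivAt_id r).const_sub s).const_mul (-β ^ 2)).exp
      refine this.congr_deriv ?_
      simp only [id_eq]; ring
    have h3 := h2.mul h1
    have e : (fun r => kq β F s r x) =ᶠ[𝓝 r]
        (fun r => Real.exp (-β ^ 2 * (s - r))) * (fun r => heat F (2 * β ^ 2 * (s - r)) x) := by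
      filter_upwards [Iio_mem_nhds hr.2] with y hy
      have : 0 ≤ s - y := sub_nonneg.2 (le_of_lt hy)
      simp only [kq, max_eq_left this, Pi.mul_apply]
    refine (h3.congr_of_eventuallyEq e).congr_deriv ?_
    have : 0 ≤ s - r := by linarith [hr.2]
    simp only [kq, max_eq_left this]
    ring
  have := intervalIntegral.integral_eq_sub_of_hasDerivAt_of_le hus c1.continuousOn hd
    ((continuous_const.mul (c1.sub c2)).intervalIntegrable _ _)
  rw [this]; ring

end Pool.Agent.Helper95A
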