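import Pool.Agent.Helper95A.DataW

set_option autoImplicit false

open MeasureTheory ProbabilityTheory Set Filter Topology
open scoped Interval

namespace Pool.Agent.Helper95A

theorem clq_mem {q t : ℝ} (hq : q ∈ Icc (0:ℝ) 1) : clq q t ∈ Icc (0:ℝ) 1 :=
  ⟨le_max_of_le_left hq.1, max_le hq.2 (min_le_right _ _)⟩

theorem clq_of_lt {q t : ℝ} (ht : t ≤ q) : clq q t = q :=
  max_eq_left ((min_le_left _ _).trans ht)

theorem clq_of_ge {q t : ℝ} (ht : q ≤ t) (ht1 : t ≤ 1) : clq q t = t := by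
  rw [clq, min_eq_left ht1, max_eq_right ht]

section

variable {β q : ℝ} {a : ℝ → ℝ} (hβ : β ≠ 0) (hq : q ∈ Icc (0:ℝ) 1) (ham : Measurable a)
  (hab : ∀ s, |a s| ≤ 1)

include hq ham hab

theorem heatpart_continuous {Φ : ℝ → ℝ → ℝ} {D : ℝ} (hΦ : Continuous (fun p : ℝ × ℝ => Φ p.1 p.2))
    (hD : ∀ t ∈ Icc (0:ℝ) 1, ∀ x, |Φ t x| ≤ D) :
    Continuous (fun p : ℝ × ℝ => heat (Φ (clq q p.1)) (2 * β ^ 2 * (q - p.1)) p.2) := by
  have hD0 : 0 ≤ D := (abs_nonneg _).trans (hD q hq 0)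
  have hc : Continuous (clq q) := by unfold clq; fun_prop
  have := heat_continuous_param (Ψ := fun t x => Φ (clq q t) x) (C := D) (a := 0)
    (hΦ.comp (f := fun p : ℝ × ℝ => ((clq q p.1, p.2) : ℝ × ℝ))
      ((hc.comp continuous_fst).prodMk continuous_snd)) hD0 le_rfl
    (fun s x => by simpa using hD _ (clq_mem hq) x)
  exact this.comp (f := fun p : ℝ × ℝ => ((p.1, 2 * β ^ 2 * (q - p.1), p.2) : ℝ × ℝ × ℝ))
    (by fun_prop)

omit hq in
theorem intpart_continuous {K : ℝ → ℝ → ℝ → ℝ} {D : ℝ}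
    (hK : Continuous (fun p : ℝ × ℝ × ℝ => K p.1 p.2.1 p.2.2)) (hD : ∀ s t x, |K s t x| ≤ D) :
    Continuous (fun p : ℝ × ℝ => β ^ 2 * ∫ s in (min p.1 q)..q, a s * K s (min p.1 q) p.2) := by
  have := duhamel_continuous (b := q) ham hab hK hD
  exact continuous_const.mul (this.comp (f := fun p : ℝ × ℝ => ((min p.1 q, p.2) : ℝ × ℝ))
    (by fun_prop))

theorem Wq_continuous : Continuous (fun p : ℝ × ℝ => Wq β q a p.1 p.2) :=
  (heatpart_continuous hq ham hab (WII_continuous ham hab) (fun _ ht x => abs_WII_le hab ht x)).add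
    (intpart_continuous ham hab (continuous_KI β q) (abs_KI_le β q))

theorem Wqx_continuous : Continuous (fun p : ℝ × ℝ => Wqx β q a p.1 p.2) :=
  (heatpart_continuous hq ham hab (WIIx_continuous ham hab)
    (fun _ ht x => abs_WIIx_le hab ht x)).add
    (intpart_continuous ham hab (continuous_KIx β q) (abs_KIx_le β q))

theorem Wqxx_continuous : Continuous (fun p : ℝ × ℝ => Wqxx β q a p.1 p.2) :=
  (heatpart_continuous hq ham hab (WIIxx_continuous ham hab)
    (fun _ ht x => abs_WIIxx_le hab ht x)).add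
    (intpart_continuous ham hab (continuous_KIxx β q) (abs_KIxx_le β q))

omit hq in
theorem WII_sec (t : ℝ) : Continuous (WII β a t) :=
  (WII_continuous ham hab).comp (f := fun y : ℝ => ((t, y) : ℝ × ℝ)) (by fun_prop)
omit hq in
theorem WIIx_sec (t : ℝ) : Continuous (WIIx β a t) :=
  (WIIx_continuous ham hab).comp (f := fun y : ℝ => ((t, y) : ℝ × ℝ)) (by fun_prop)
omit hq in
theorem WIIxx_sec (t : ℝ) : Continuous (WIIxx β a t) :=
  (WIIxx_continuous ham hab).comp (f := fun y : ℝ => ((t, y) : ℝ × ℝ)) (by fun_prop)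

theorem Wq_hasDerivAt_x (t x : ℝ) : HasDerivAt (Wq β q a t) (Wqx β q a t x) x := by
  have h1 := heat_hasDerivAt_x (WII_hasDerivAt_x (β := β) ham hab (clq q t))
    (EG.of_bdd (abs_WII_le hab (clq_mem hq))) (WIIx_sec ham hab _)
    (EG.of_bdd (abs_WIIx_le hab (clq_mem hq))) (2 * β ^ 2 * (q - t)) x
  have h2 := duhamel_hasDerivAt_x (b := q) ham hab (continuous_KI β q) (continuous_KIx β q)
    (abs_KIx_le β q) (KI_hasDerivAt_x β q) (min t q) x
  exact h1.add (h2.const_mul _)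

theorem Wqx_hasDerivAt_x (t x : ℝ) : HasDerivAt (Wqx β q a t) (Wqxx β q a t x) x := by
  have h1 := heat_hasDerivAt_x (WIIx_hasDerivAt_x (β := β) ham hab (clq q t))
    (EG.of_bdd (abs_WIIx_le hab (clq_mem hq))) (WIIxx_sec ham hab _)
    (EG.of_bdd (abs_WIIxx_le hab (clq_mem hq))) (2 * β ^ 2 * (q - t)) x
  have h2 := duhamel_hasDerivAt_x (b := q) ham hab (continuous_KIx β q) (continuous_KIxx β q)
    (abs_KIxx_le β q) (KIx_hasDerivAt_x β q) (min t q) x
  exact h1.add (h2.const_mul _)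

include hβ in
theorem Wq_right_deriv {t : ℝ} (ht1 : t < 1) (hac : ContinuousWithinAt a (Ioi t) t) (x : ℝ) :
    HasDerivWithinAt (fun s => Wq β q a s x)
      (-β ^ 2 * (Wqxx β q a t x + 2 * stp q t * mq β q t x * Wqx β q a t x +
        a t * mq β q t x ^ 2)) (Ici t) t := by
  rcases lt_or_ge t q with h | h
  · have h1 := hasDerivAt_time hβ (WII_hasDerivAt_x (β := β) ham hab q)
      (EG.of_bdd (abs_WII_le hab hq)) (WIIx_hasDerivAt_x (β := β) ham hab q)
      (EG.of_bdd (abs_WIIx_le hab hq)) (WIIxx_sec ham hab q)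
      (EG.of_bdd (abs_WIIxx_le hab hq)) h x
    have h2 := duhamel_right_deriv (a := a) (K := fun s u => KI β q s u x)
      (Kt := fun s r => -β ^ 2 * KIxx β q s r x) h ham hab hac
      ((continuous_KI β q).comp (f := fun s : ℝ => ((s, s, x) : ℝ × ℝ × ℝ)) (by fun_prop))
      (continuous_const.mul ((continuous_KIxx β q).comp
        (f := fun p : ℝ × ℝ => ((p.1, p.2, x) : ℝ × ℝ × ℝ)) (by fun_prop)))
      (fun u s hus => KI_eq_integral hβ q hus x)
    have h3 := (h1.hasDerivWithinAt (s := Ici t)).add (h2.const_mul (β ^ 2))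
    have hev : (fun s => Wq β q a s x) =ᶠ[𝓝[Ici t] t]
        (fun s => heat (WII β a q) (2 * β ^ 2 * (q - s)) x) +
          fun u => β ^ 2 * ∫ s in u..q, a s * KI β q s u x := by
      have : Ico t q ∈ 𝓝[Ici t] t := Ico_mem_nhdsGE h
      filter_upwards [this] with s hs
      simp only [Wq, Pi.add_apply, clq_of_lt hs.2.le, min_eq_left hs.2.le]
    refine (h3.congr_of_eventuallyEq_of_mem hev (by simp)).congr_deriv ?_
    have e1 : KI β q t t x = mq β q t x ^ 2 := by simp [KI]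
    have e2 : ∀ s, a s * (-β ^ 2 * KIxx β q s t x) = -β ^ 2 * (a s * KIxx β q s t x) :=
      fun s => by ring
    simp only [e1, e2, intervalIntegral.integral_const_mul, stp, if_neg (not_le.2 h), Wqxx,
      clq_of_lt h.le, min_eq_left h.le]
    ring
  · have h1 := WII_right_deriv (β := β) ham hab hβ ht1 hac x
    have hev : (fun s => Wq β q a s x) =ᶠ[𝓝[Ici t] t] (fun s => WII β a s x) := by
      have : Ico t 1 ∈ 𝓝[Ici t] t := Ico_mem_nhdsGE ht1
      filter_upwards [this] with s hs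
      have hs' : q ≤ s := h.trans hs.1
      simp only [Wq, clq_of_ge hs' hs.2.le, min_eq_right hs', heat_of_ge _ hs',
        intervalIntegral.integral_same, mul_zero, add_zero]
    refine (h1.congr_of_eventuallyEq_of_mem hev (by simp)).congr_deriv ?_
    simp only [stp, if_pos h, Wqxx, Wqx, mq, clq_of_ge h ht1.le, min_eq_right h, heat_of_ge _ h,
        intervalIntegral.integral_same, mul_zero, add_zero, mul_one]

omit ham in
theorem abs_Wq_le {t : ℝ} (ht : t ∈ Icc (0:ℝ) 1) (x : ℝ) : |Wq β q a t x| ≤ 3 * β ^ 2 := by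
  have h1 := heat_abs_le (abs_WII_le (β := β) hab (clq_mem hq (t := t))) (2 * β ^ 2 * (q - t)) x
  have h2 : |∫ s in (min t q)..q, a s * KI β q s (min t q) x| ≤ 1 := by
    refine abs_int_le hab (fun s => abs_KI_le β q s _ x) (min_le_right _ _) ?_
    have : 0 ≤ min t q := le_min ht.1 hq.1
    linarith [hq.2]
  unfold Wq
  refine (abs_add_le _ _).trans ?_
  rw [abs_mul, abs_of_nonneg (sq_nonneg β)]
  have := sq_nonneg β
  nlinarith

omit ham in
theorem abs_Wqx_le {t : ℝ} (ht : t ∈ Icc (0:ℝ) 1) (x : ℝ) : |Wqx β q a t x| ≤ 4 * β ^ 2 := by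
  have h1 := heat_abs_le (abs_WIIx_le (β := β) hab (clq_mem hq (t := t))) (2 * β ^ 2 * (q - t)) x
  have h2 : |∫ s in (min t q)..q, a s * KIx β q s (min t q) x| ≤ 2 := by
    refine abs_int_le hab (fun s => abs_KIx_le β q s _ x) (min_le_right _ _) ?_
    have : 0 ≤ min t q := le_min ht.1 hq.1
    linarith [hq.2]
  unfold Wqx
  refine (abs_add_le _ _).trans ?_
  rw [abs_mul, abs_of_nonneg (sq_nonneg β)]
  have := sq_nonneg β
  nlinarith

omit ham hab in
theorem Wq_one (x : ℝ) : Wq β q a 1 x = 0 := by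
  simp only [Wq, clq_of_ge hq.2 le_rfl, min_eq_right hq.2, heat_of_ge _ hq.2,
    intervalIntegral.integral_same, mul_zero, add_zero, WII, Iq, sub_zero]

end

end Pool.Agent.Helper95A
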