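import Pool.Agent.Helper95A.Data

set_option autoImplicit false

open MeasureTheory ProbabilityTheory Set Filter Topology
open scoped Interval

namespace Pool.Agent.Helper95A

noncomputable def s1 (x : ℝ) : ℝ := -(sc x * Real.tanh x)
noncomputable def s2 (x : ℝ) : ℝ := sc x - 2 * sc x ^ 3

theorem hasDerivAt_sc' (x : ℝ) : HasDerivAt sc (s1 x) x := hasDerivAt_sc x
theorem hasDerivAt_s1 (x : ℝ) : HasDerivAt s1 (s2 x) x := by
  have := ((hasDerivAt_sc x).mul (hasDerivAt_tanh x)).neg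
  refine this.congr_deriv ?_
  have e : Real.tanh x ^ 2 = 1 - sc x ^ 2 := tanh_sq x
  unfold s2
  linear_combination sc x * e

theorem continuous_s1 : Continuous s1 := (continuous_sc.mul continuous_tanh).neg
theorem continuous_s2 : Continuous s2 := continuous_sc.sub (continuous_const.mul (continuous_sc.pow 3))
theorem abs_s1_le (x : ℝ) : |s1 x| ≤ 1 := by
  rw [s1, abs_neg, abs_mul]
  exact mul_le_one₀ (abs_sc_le x) (abs_nonneg _) (abs_tanh_le x)
theorem abs_s2_le (x : ℝ) : |s2 x| ≤ 3 := by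
  rw [s2, abs_le]
  have h1 := (sc_pos x).le
  have h2 := sc_le_one x
  have h3 := abs_le.1 (abs_sc_pow_le 3 x)
  constructor <;> linarith [h3.1, h3.2]
theorem EG_sc : EG sc := EG.of_bdd abs_sc_le
theorem EG_s1 : EG s1 := EG.of_bdd abs_s1_le
theorem EG_s2 : EG s2 := EG.of_bdd abs_s2_le

section W

variable (β q : ℝ) (a : ℝ → ℝ)

noncomputable def Iq (F : ℝ → ℝ) (t x : ℝ) : ℝ := ∫ s in t..1, a s * kq β F s t x

noncomputable def WII (t x : ℝ) : ℝ := β ^ 2 * (∫ s in t..1, a s * 1) - β ^ 2 * (sc x * Iq β a sc t x)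
noncomputable def WIIx (t x : ℝ) : ℝ := -(β ^ 2 * (s1 x * Iq β a sc t x + sc x * Iq β a s1 t x))
noncomputable def WIIxx (t x : ℝ) : ℝ :=
  -(β ^ 2 * ((s2 x * Iq β a sc t x + s1 x * Iq β a s1 t x) +
    (s1 x * Iq β a s1 t x + sc x * Iq β a s2 t x)))

noncomputable def KI (s t x : ℝ) : ℝ := heat (fun y => mq β q s y ^ 2) (2 * β ^ 2 * (s - t)) x
noncomputable def KIx (s t x : ℝ) : ℝ :=
  heat (fun y => 2 * mq β q s y * mxq β q s y) (2 * β ^ 2 * (s - t)) x
noncomputable def KIxx (s t x : ℝ) : ℝ :=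
  heat (fun y => 2 * mxq β q s y ^ 2 + 2 * mq β q s y * mxxq β q s y) (2 * β ^ 2 * (s - t)) x

noncomputable def clq (q t : ℝ) : ℝ := max q (min t 1)

noncomputable def Wq (t x : ℝ) : ℝ :=
  heat (WII β a (clq q t)) (2 * β ^ 2 * (q - t)) x +
    β ^ 2 * ∫ s in (min t q)..q, a s * KI β q s (min t q) x
noncomputable def Wqx (t x : ℝ) : ℝ :=
  heat (WIIx β a (clq q t)) (2 * β ^ 2 * (q - t)) x +
    β ^ 2 * ∫ s in (min t q)..q, a s * KIx β q s (min t q) x
noncomputable def Wqxx (t x : ℝ) : ℝ :=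
  heat (WIIxx β a (clq q t)) (2 * β ^ 2 * (q - t)) x +
    β ^ 2 * ∫ s in (min t q)..q, a s * KIxx β q s (min t q) x

end W

theorem abs_int_le {a c : ℝ → ℝ} {D u v : ℝ} (hab : ∀ s, |a s| ≤ 1) (hc : ∀ s, |c s| ≤ D)
    (huv : u ≤ v) (hv : v - u ≤ 1) : |∫ s in u..v, a s * c s| ≤ D := by
  have hD0 : 0 ≤ D := (abs_nonneg _).trans (hc 0)
  have := intervalIntegral.norm_integral_le_of_norm_le_const (a := u) (b := v)
    (f := fun s => a s * c s) (C := D) (fun s _ => by
      rw [Real.norm_eq_abs, abs_mul]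
      calc |a s| * |c s| ≤ 1 * D := mul_le_mul (hab s) (hc s) (abs_nonneg _) zero_le_one
        _ = D := one_mul D)
  rw [Real.norm_eq_abs, abs_of_nonneg (sub_nonneg.2 huv)] at this
  exact this.trans (mul_le_of_le_one_right hD0 hv)

section

variable {β q : ℝ} {a : ℝ → ℝ} (ham : Measurable a) (hab : ∀ s, |a s| ≤ 1)

include ham hab

theorem Iq_continuous {F : ℝ → ℝ} {D : ℝ} (hF : Continuous F) (hD : ∀ x, |F x| ≤ D) :
    Continuous (fun p : ℝ × ℝ => Iq β a F p.1 p.2) :=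
  duhamel_continuous ham hab (continuous_kq β hF (EG.of_bdd hD)) (abs_kq_le β hD)

omit ham in
theorem abs_Iq_le {F : ℝ → ℝ} {D : ℝ} (hD : ∀ x, |F x| ≤ D) {t : ℝ} (ht : t ∈ Icc (0:ℝ) 1)
    (x : ℝ) : |Iq β a F t x| ≤ D :=
  abs_int_le hab (fun s => abs_kq_le β hD s t x) ht.2 (by linarith [ht.1])

theorem Iq_hasDerivAt_x {F F' : ℝ → ℝ} {D D' : ℝ} (hF : ∀ x, HasDerivAt F (F' x) x)
    (hD : ∀ x, |F x| ≤ D) (hF' : Continuous F') (hD' : ∀ x, |F' x| ≤ D') (t x : ℝ) :
    HasDerivAt (Iq β a F t) (Iq β a F' t x) x := by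
  have hFc : Continuous F := continuous_iff_continuousAt.2 fun x => (hF x).continuousAt
  exact duhamel_hasDerivAt_x ham hab (continuous_kq β hFc (EG.of_bdd hD))
    (continuous_kq β hF' (EG.of_bdd hD')) (abs_kq_le β hD')
    (fun s t x => kq_hasDerivAt_x β hF (EG.of_bdd hD) hF' (EG.of_bdd hD') s t x) t x

theorem Iq_right_deriv (hβ : β ≠ 0) {F F' F'' : ℝ → ℝ} {D D' D'' : ℝ}
    (hF : ∀ x, HasDerivAt F (F' x) x) (hD : ∀ x, |F x| ≤ D)
    (hF' : ∀ x, HasDerivAt F' (F'' x) x) (hD' : ∀ x, |F' x| ≤ D') (hF'' : Continuous F'')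
    (hD'' : ∀ x, |F'' x| ≤ D'') {t : ℝ} (ht1 : t < 1) (hac : ContinuousWithinAt a (Ioi t) t)
    (x : ℝ) :
    HasDerivWithinAt (fun u => Iq β a F u x)
      (-(a t * F x) + β ^ 2 * (Iq β a F t x - Iq β a F'' t x)) (Ici t) t := by
  have hFc : Continuous F := continuous_iff_continuousAt.2 fun x => (hF x).continuousAt
  have c1 := continuous_kq β hFc (EG.of_bdd hD)
  have c2 := continuous_kq β hF'' (EG.of_bdd hD'')
  have h := duhamel_right_deriv (a := a) (K := fun s u => kq β F s u x)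
    (Kt := fun s r => β ^ 2 * (kq β F s r x - kq β F'' s r x)) ht1 ham hab hac ?_ ?_
    (fun u s hus => kq_eq_integral hβ hF (EG.of_bdd hD) hF' (EG.of_bdd hD') hF''
      (EG.of_bdd hD'') hus x)
  · refine h.congr_deriv ?_
    have e1 : kq β F t t x = F x := by simp [kq]
    rw [e1]
    congr 1
    have e2 : ∀ s, a s * (β ^ 2 * (kq β F s t x - kq β F'' s t x)) =
        β ^ 2 * (a s * kq β F s t x - a s * kq β F'' s t x) := fun s => by ring
    simp only [e2, Iq]
    rw [intervalIntegral.integral_const_mul, intervalIntegral.integral_sub]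
    · exact ii_of_bdd ham hab (c1.comp (f := fun s : ℝ => ((s, t, x) : ℝ × ℝ × ℝ))
        (by fun_prop)) _ _
    · exact ii_of_bdd ham hab (c2.comp (f := fun s : ℝ => ((s, t, x) : ℝ × ℝ × ℝ))
        (by fun_prop)) _ _
  · exact c1.comp (f := fun s : ℝ => ((s, s, x) : ℝ × ℝ × ℝ)) (by fun_prop)
  · refine continuous_const.mul (Continuous.sub ?_ ?_)
    · exact c1.comp (f := fun p : ℝ × ℝ => ((p.1, p.2, x) : ℝ × ℝ × ℝ)) (by fun_prop)
    · exact c2.comp (f := fun p : ℝ × ℝ => ((p.1, p.2, x) : ℝ × ℝ × ℝ)) (by fun_prop)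

theorem int_right_deriv {t : ℝ} (ht1 : t < 1) (hac : ContinuousWithinAt a (Ioi t) t) :
    HasDerivWithinAt (fun u => ∫ s in u..1, a s * 1) (-(a t)) (Ici t) t := by
  have h := duhamel_right_deriv (a := a) (K := fun _ _ => (1:ℝ)) (Kt := fun _ _ => (0:ℝ)) ht1 ham
    hab hac continuous_const continuous_const (fun u s _ => by simp)
  simpa using h

theorem WII_continuous : Continuous (fun p : ℝ × ℝ => WII β a p.1 p.2) := by
  have h1 := duhamel_continuous (K := fun _ _ _ => (1:ℝ)) (b := 1) (D := 1) ham hab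
    continuous_const (fun _ _ _ => by simp)
  have h2 := Iq_continuous (β := β) ham hab continuous_sc abs_sc_le
  exact (continuous_const.mul h1).sub (continuous_const.mul
    ((continuous_sc.comp continuous_snd).mul h2))

theorem WIIx_continuous : Continuous (fun p : ℝ × ℝ => WIIx β a p.1 p.2) := by
  have h0 := Iq_continuous (β := β) ham hab continuous_sc abs_sc_le
  have h1 := Iq_continuous (β := β) ham hab continuous_s1 abs_s1_le
  exact (continuous_const.mul (((continuous_s1.comp continuous_snd).mul h0).add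
    ((continuous_sc.comp continuous_snd).mul h1))).neg

theorem WIIxx_continuous : Continuous (fun p : ℝ × ℝ => WIIxx β a p.1 p.2) := by
  have h0 := Iq_continuous (β := β) ham hab continuous_sc abs_sc_le
  have h1 := Iq_continuous (β := β) ham hab continuous_s1 abs_s1_le
  have h2 := Iq_continuous (β := β) ham hab continuous_s2 abs_s2_le
  exact (continuous_const.mul ((((continuous_s2.comp continuous_snd).mul h0).add
    ((continuous_s1.comp continuous_snd).mul h1)).add (((continuous_s1.comp continuous_snd).mul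
      h1).add ((continuous_sc.comp continuous_snd).mul h2)))).neg

theorem WII_hasDerivAt_x (t x : ℝ) : HasDerivAt (WII β a t) (WIIx β a t x) x := by
  have h0 := Iq_hasDerivAt_x (β := β) ham hab hasDerivAt_sc' abs_sc_le continuous_s1 abs_s1_le t x
  have := (((hasDerivAt_sc' x).mul h0).const_mul (β ^ 2)).const_sub
    (β ^ 2 * (∫ s in t..1, a s * 1))
  exact this

theorem WIIx_hasDerivAt_x (t x : ℝ) : HasDerivAt (WIIx β a t) (WIIxx β a t x) x := by
  have h0 := Iq_hasDerivAt_x (β := β) ham hab hasDerivAt_sc' abs_sc_le continuous_s1 abs_s1_le t x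
  have h1 := Iq_hasDerivAt_x (β := β) ham hab hasDerivAt_s1 abs_s1_le continuous_s2 abs_s2_le t x
  exact ((((hasDerivAt_s1 x).mul h0).add ((hasDerivAt_sc' x).mul h1)).const_mul (β ^ 2)).neg

theorem WII_right_deriv (hβ : β ≠ 0) {t : ℝ} (ht1 : t < 1)
    (hac : ContinuousWithinAt a (Ioi t) t) (x : ℝ) :
    HasDerivWithinAt (fun u => WII β a u x)
      (-β ^ 2 * (WIIxx β a t x + 2 * Real.tanh x * WIIx β a t x + a t * Real.tanh x ^ 2))
      (Ici t) t := by
  have h0 := Iq_right_deriv (β := β) ham hab hβ hasDerivAt_sc' abs_sc_le hasDerivAt_s1 abs_s1_le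
    continuous_s2 abs_s2_le ht1 hac x
  have h1 := int_right_deriv ham hab ht1 hac
  have h2 := (h1.const_mul (β ^ 2)).sub ((h0.const_mul (sc x)).const_mul (β ^ 2))
  refine h2.congr_deriv ?_
  have e : Real.tanh x ^ 2 = 1 - sc x ^ 2 := tanh_sq x
  simp only [WIIxx, WIIx, s1, s2]
  linear_combination (β ^ 2 * a t + 2 * β ^ 4 * sc x * Iq β a sc t x) * e

omit ham in
theorem abs_WII_le {t : ℝ} (ht : t ∈ Icc (0:ℝ) 1) (x : ℝ) : |WII β a t x| ≤ 2 * β ^ 2 := by
  have h1 : |∫ s in t..1, a s * 1| ≤ 1 :=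
    abs_int_le hab (fun _ => by simp) ht.2 (by linarith [ht.1])
  have h2 := abs_Iq_le (β := β) hab abs_sc_le ht x
  have h3 : |sc x * Iq β a sc t x| ≤ 1 := by
    rw [abs_mul]; exact mul_le_one₀ (abs_sc_le x) (abs_nonneg _) h2
  unfold WII
  refine (abs_sub _ _).trans ?_
  rw [abs_mul, abs_mul (β ^ 2), abs_of_nonneg (sq_nonneg β)]
  have := sq_nonneg β
  nlinarith

omit ham in
theorem abs_WIIx_le {t : ℝ} (ht : t ∈ Icc (0:ℝ) 1) (x : ℝ) : |WIIx β a t x| ≤ 2 * β ^ 2 := by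
  have h2 := abs_Iq_le (β := β) hab abs_sc_le ht x
  have h3 := abs_Iq_le (β := β) hab abs_s1_le ht x
  have h4 : |s1 x * Iq β a sc t x| ≤ 1 := by
    rw [abs_mul]; exact mul_le_one₀ (abs_s1_le x) (abs_nonneg _) h2
  have h5 : |sc x * Iq β a s1 t x| ≤ 1 := by
    rw [abs_mul]; exact mul_le_one₀ (abs_sc_le x) (abs_nonneg _) h3
  unfold WIIx
  rw [abs_neg, abs_mul, abs_of_nonneg (sq_nonneg β)]
  have := abs_add_le (s1 x * Iq β a sc t x) (sc x * Iq β a s1 t x)
  have := sq_nonneg β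
  nlinarith

omit ham in
theorem abs_WIIxx_le {t : ℝ} (ht : t ∈ Icc (0:ℝ) 1) (x : ℝ) : |WIIxx β a t x| ≤ 8 * β ^ 2 := by
  have h2 := abs_Iq_le (β := β) hab abs_sc_le ht x
  have h3 := abs_Iq_le (β := β) hab abs_s1_le ht x
  have h3' := abs_Iq_le (β := β) hab abs_s2_le ht x
  have h4 : |s2 x * Iq β a sc t x| ≤ 3 * 1 := by
    rw [abs_mul]; exact mul_le_mul (abs_s2_le x) h2 (abs_nonneg _) (by norm_num)
  have h5 : |s1 x * Iq β a s1 t x| ≤ 1 := by
    rw [abs_mul]; exact mul_le_one₀ (abs_s1_le x) (abs_nonneg _) h3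
  have h6 : |sc x * Iq β a s2 t x| ≤ 1 * 3 := by
    rw [abs_mul]; exact mul_le_mul (abs_sc_le x) h3' (abs_nonneg _) (by norm_num)
  unfold WIIxx
  rw [abs_neg, abs_mul, abs_of_nonneg (sq_nonneg β)]
  have k1 := abs_add_le (s2 x * Iq β a sc t x + s1 x * Iq β a s1 t x)
    (s1 x * Iq β a s1 t x + sc x * Iq β a s2 t x)
  have k2 := abs_add_le (s2 x * Iq β a sc t x) (s1 x * Iq β a s1 t x)
  have k3 := abs_add_le (s1 x * Iq β a s1 t x) (sc x * Iq β a s2 t x)
  have := sq_nonneg β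
  nlinarith

end

/-! ### First stage kernel -/

theorem continuous_mq_sec (β q s : ℝ) : Continuous (mq β q s) :=
  (continuous_mq β q).comp (f := fun y : ℝ => ((s, y) : ℝ × ℝ)) (by fun_prop)
theorem continuous_mxq_sec (β q s : ℝ) : Continuous (mxq β q s) :=
  (continuous_mxq β q).comp (f := fun y : ℝ => ((s, y) : ℝ × ℝ)) (by fun_prop)
theorem continuous_mxxq_sec (β q s : ℝ) : Continuous (mxxq β q s) :=
  (continuous_mxxq β q).comp (f := fun y : ℝ => ((s, y) : ℝ × ℝ)) (by fun_prop)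

theorem hasDerivAt_msq (β q s y : ℝ) :
    HasDerivAt (fun y => mq β q s y ^ 2) (2 * mq β q s y * mxq β q s y) y := by
  have := (hasDerivAt_mq_x β q s y).fun_pow 2
  refine this.congr_deriv ?_
  norm_num

theorem hasDerivAt_msq' (β q s y : ℝ) :
    HasDerivAt (fun y => 2 * mq β q s y * mxq β q s y)
      (2 * mxq β q s y ^ 2 + 2 * mq β q s y * mxxq β q s y) y := by
  have := ((hasDerivAt_mq_x β q s y).const_mul 2).mul (hasDerivAt_mxq_x β q s y)
  refine this.congr_deriv ?_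
  ring

theorem abs_msq (β q s y : ℝ) : |mq β q s y ^ 2| ≤ 1 := by
  rw [abs_pow]; exact pow_le_one₀ (abs_nonneg _) (abs_mq_le β q s y)

theorem abs_msq' (β q s y : ℝ) : |2 * mq β q s y * mxq β q s y| ≤ 2 := by
  rw [abs_mul, abs_mul, abs_two]
  have h1 := abs_mq_le β q s y
  have h2 := abs_mxq_le β q s y
  nlinarith [abs_nonneg (mq β q s y), abs_nonneg (mxq β q s y)]

theorem abs_msq'' (β q s y : ℝ) :
    |2 * mxq β q s y ^ 2 + 2 * mq β q s y * mxxq β q s y| ≤ 6 := by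
  refine (abs_add_le _ _).trans ?_
  rw [abs_mul, abs_mul, abs_mul, abs_two, abs_pow]
  have h1 := abs_mq_le β q s y
  have h2 := abs_mxq_le β q s y
  have h3 := abs_mxxq_le β q s y
  have h4 : |mxq β q s y| ^ 2 ≤ 1 := pow_le_one₀ (abs_nonneg _) h2
  have h5 : |mq β q s y| * |mxxq β q s y| ≤ 1 * 2 :=
    mul_le_mul h1 h3 (abs_nonneg _) zero_le_one
  nlinarith

theorem continuous_param {Ψ : ℝ → ℝ → ℝ} {D : ℝ} (hΨ : Continuous (fun p : ℝ × ℝ => Ψ p.1 p.2))
    (hD : ∀ s x, |Ψ s x| ≤ D) (β : ℝ) :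
    Continuous (fun p : ℝ × ℝ × ℝ => heat (Ψ p.1) (2 * β ^ 2 * (p.1 - p.2.1)) p.2.2) := by
  have hD0 : 0 ≤ D := (abs_nonneg _).trans (hD 0 0)
  have := heat_continuous_param hΨ (C := D) (a := 0) hD0 le_rfl (fun s x => by simpa using hD s x)
  exact this.comp (f := fun p : ℝ × ℝ × ℝ =>
    ((p.1, 2 * β ^ 2 * (p.1 - p.2.1), p.2.2) : ℝ × ℝ × ℝ)) (by fun_prop)

theorem continuous_KI (β q : ℝ) : Continuous (fun p : ℝ × ℝ × ℝ => KI β q p.1 p.2.1 p.2.2) :=
  continuous_param (Ψ := fun s y => mq β q s y ^ 2) ((continuous_mq β q).pow 2) (abs_msq β q) β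

theorem continuous_KIx (β q : ℝ) : Continuous (fun p : ℝ × ℝ × ℝ => KIx β q p.1 p.2.1 p.2.2) :=
  continuous_param (Ψ := fun s y => 2 * mq β q s y * mxq β q s y)
    ((continuous_const.mul (continuous_mq β q)).mul (continuous_mxq β q)) (abs_msq' β q) β

theorem continuous_KIxx (β q : ℝ) : Continuous (fun p : ℝ × ℝ × ℝ => KIxx β q p.1 p.2.1 p.2.2) :=
  continuous_param (Ψ := fun s y => 2 * mxq β q s y ^ 2 + 2 * mq β q s y * mxxq β q s y)
    ((continuous_const.mul ((continuous_mxq β q).pow 2)).add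
      ((continuous_const.mul (continuous_mq β q)).mul (continuous_mxxq β q))) (abs_msq'' β q) β

theorem abs_KI_le (β q s t x : ℝ) : |KI β q s t x| ≤ 1 := heat_abs_le (abs_msq β q s) _ _
theorem abs_KIx_le (β q s t x : ℝ) : |KIx β q s t x| ≤ 2 := heat_abs_le (abs_msq' β q s) _ _
theorem abs_KIxx_le (β q s t x : ℝ) : |KIxx β q s t x| ≤ 6 := heat_abs_le (abs_msq'' β q s) _ _

theorem continuous_msq' (β q s : ℝ) : Continuous (fun y => 2 * mq β q s y * mxq β q s y) :=
  (continuous_const.mul (continuous_mq_sec β q s)).mul (continuous_mxq_sec β q s)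
theorem continuous_msq'' (β q s : ℝ) :
    Continuous (fun y => 2 * mxq β q s y ^ 2 + 2 * mq β q s y * mxxq β q s y) :=
  (continuous_const.mul ((continuous_mxq_sec β q s).pow 2)).add
      ((continuous_const.mul (continuous_mq_sec β q s)).mul (continuous_mxxq_sec β q s))

theorem KI_hasDerivAt_x (β q s t x : ℝ) : HasDerivAt (KI β q s t) (KIx β q s t x) x :=
  heat_hasDerivAt_x (hasDerivAt_msq β q s) (EG.of_bdd (abs_msq β q s)) (continuous_msq' β q s)
    (EG.of_bdd (abs_msq' β q s)) _ x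

theorem KIx_hasDerivAt_x (β q s t x : ℝ) : HasDerivAt (KIx β q s t) (KIxx β q s t x) x :=
  heat_hasDerivAt_x (hasDerivAt_msq' β q s) (EG.of_bdd (abs_msq' β q s)) (continuous_msq'' β q s)
    (EG.of_bdd (abs_msq'' β q s)) _ x

theorem KI_eq_integral {β : ℝ} (hβ : β ≠ 0) (q : ℝ) {u s : ℝ} (hus : u ≤ s) (x : ℝ) :
    KI β q s u x = KI β q s s x - ∫ r in u..s, -β ^ 2 * KIxx β q s r x := by
  have c1 : Continuous (fun r => KI β q s r x) :=
    (continuous_KI β q).comp (f := fun r : ℝ => ((s, r, x) : ℝ × ℝ × ℝ)) (by fun_prop)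
  have c2 : Continuous (fun r => KIxx β q s r x) :=
    (continuous_KIxx β q).comp (f := fun r : ℝ => ((s, r, x) : ℝ × ℝ × ℝ)) (by fun_prop)
  have hd : ∀ r ∈ Ioo u s, HasDerivAt (fun r => KI β q s r x) (-β ^ 2 * KIxx β q s r x) r :=
    fun r hr => hasDerivAt_time hβ (hasDerivAt_msq β q s) (EG.of_bdd (abs_msq β q s))
      (hasDerivAt_msq' β q s) (EG.of_bdd (abs_msq' β q s)) (continuous_msq'' β q s)
      (EG.of_bdd (abs_msq'' β q s)) hr.2 x
  have := intervalIntegral.integral_eq_sub_of_hasDerivAt_of_le hus c1.continuousOn hd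
    ((continuous_const.mul c2).intervalIntegrable _ _)
  rw [this]; ring

end Pool.Agent.Helper95A
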