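import Mathlib

set_option autoImplicit false

open MeasureTheory ProbabilityTheory Set Filter Topology

namespace Pool.Agent.Helper95A

/-- The function `ζ` is the distribution function of a probability measure on `[0,1]`. -/
structure IsCdf (ζ : ℝ → ℝ) : Prop where
  mono : Monotone ζ
  rc : ∀ t, ContinuousWithinAt ζ (Ici t) t
  zero : ∀ t, t < 0 → ζ t = 0
  one : ∀ t, 1 ≤ t → ζ t = 1

/-- The function `f` is a solution on `[0,1] × ℝ` of the Parisi equation with parameter `ζ`: it is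
twice continuously differentiable in space with jointly continuous derivatives and bounded slope,
it equals `log cosh` at time one, and it satisfies the equation integrated in time. -/
structure IsParisiSol (β : ℝ) (ζ : ℝ → ℝ) (f : ℝ → ℝ → ℝ) : Prop where
  smooth : ∀ t ∈ Icc (0:ℝ) 1, ContDiff ℝ 2 (f t)
  cont : ContinuousOn (fun p : ℝ × ℝ => f p.1 p.2) (Icc (0:ℝ) 1 ×ˢ univ)
  cont_x : ContinuousOn (fun p : ℝ × ℝ => deriv (f p.1) p.2) (Icc (0:ℝ) 1 ×ˢ univ)
  cont_xx : ContinuousOn (fun p : ℝ × ℝ => deriv (deriv (f p.1)) p.2) (Icc (0:ℝ) 1 ×ˢ univ)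
  slope : ∃ C : ℝ, ∀ t ∈ Icc (0:ℝ) 1, ∀ x, |deriv (f t) x| ≤ C
  terminal : ∀ x, f 1 x = Real.log (Real.cosh x)
  pde : ∀ t ∈ Icc (0:ℝ) 1, ∀ x, f t x = Real.log (Real.cosh x) +
    β ^ 2 * ∫ s in t..1, (deriv (deriv (f s)) x + ζ s * deriv (f s) x ^ 2)

section

variable {β : ℝ} {ζ : ℝ → ℝ}

theorem IsCdf.nonneg (hζ : IsCdf ζ) (t : ℝ) : 0 ≤ ζ t := by
  have h1 := hζ.mono (min_le_left t (-1))
  rw [hζ.zero _ (lt_of_le_of_lt (min_le_right t (-1)) (by norm_num))] at h1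
  exact h1

theorem IsCdf.le_one (hζ : IsCdf ζ) (t : ℝ) : ζ t ≤ 1 := by
  have h1 := hζ.mono (le_max_left t 1)
  rwa [hζ.one _ (le_max_right t 1)] at h1

variable {f : ℝ → ℝ → ℝ}

theorem IsParisiSol.hx (hf : IsParisiSol β ζ f) {t : ℝ} (ht : t ∈ Icc (0:ℝ) 1) (x : ℝ) :
    HasDerivAt (f t) (deriv (f t) x) x :=
  ((hf.smooth t ht).differentiable (by norm_num) x).hasDerivAt

theorem IsParisiSol.hxx (hf : IsParisiSol β ζ f) {t : ℝ} (ht : t ∈ Icc (0:ℝ) 1) (x : ℝ) :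
    HasDerivAt (deriv (f t)) (deriv (deriv (f t)) x) x := by
  have h1 : ContDiff ℝ 1 (deriv (f t)) := by
    have := (hf.smooth t ht)
    rw [show (2 : WithTop ℕ∞) = 1 + 1 by norm_num, contDiff_succ_iff_deriv] at this
    exact this.2.2
  exact (h1.differentiable (by norm_num) x).hasDerivAt

theorem IsParisiSol.int_cont (hf : IsParisiSol β ζ f) (hm : Monotone ζ) {C : ℝ}
    (hC : ∀ t, |ζ t| ≤ C) (x : ℝ) {t : ℝ} (ht : t ∈ Icc (0:ℝ) 1) :
    IntervalIntegrable (fun s => deriv (deriv (f s)) x + ζ s * deriv (f s) x ^ 2) volume t 1 := by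
  have c1 : ContinuousOn (fun s => deriv (deriv (f s)) x) (uIcc t 1) := by
    rw [uIcc_of_le ht.2]
    exact hf.cont_xx.comp (f := fun s : ℝ => ((s, x) : ℝ × ℝ)) (by fun_prop)
      (fun s hs => ⟨⟨ht.1.trans hs.1, hs.2⟩, mem_univ _⟩)
  have c2 : ContinuousOn (fun s => deriv (f s) x ^ 2) (uIcc t 1) := by
    rw [uIcc_of_le ht.2]
    exact (hf.cont_x.comp (f := fun s : ℝ => ((s, x) : ℝ × ℝ)) (by fun_prop)
      (fun s hs => ⟨⟨ht.1.trans hs.1, hs.2⟩, mem_univ _⟩)).pow 2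
  refine c1.intervalIntegrable.add ?_
  have h2 := c2.intervalIntegrable (μ := volume)
  rw [intervalIntegrable_iff] at h2 ⊢
  exact Integrable.bdd_mul h2 hm.measurable.aestronglyMeasurable
    (Eventually.of_forall fun s => by rw [Real.norm_eq_abs]; exact hC s)

theorem IsParisiSol.ht (hf : IsParisiSol β ζ f) (hζ : IsCdf ζ) {t : ℝ} (ht : t ∈ Ico (0:ℝ) 1)
    (x : ℝ) : HasDerivWithinAt (fun s => f s x)
      (-β ^ 2 * (deriv (deriv (f t)) x + ζ t * deriv (f t) x ^ 2)) (Ici t) t := by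
  have htc : t ∈ Icc (0:ℝ) 1 := ⟨ht.1, ht.2.le⟩
  have hint := hf.int_cont hζ.mono (C := 1) (fun t => by
    rw [abs_of_nonneg (hζ.nonneg t)]; exact hζ.le_one t) x htc
  have hmem : Icc (0:ℝ) 1 ∈ 𝓝[Ioi t] t :=
    mem_of_superset (Ioo_mem_nhdsGT ht.2) fun s hs => ⟨ht.1.trans hs.1.le, hs.2.le⟩
  have c1 : ContinuousWithinAt (fun s => deriv (deriv (f s)) x) (Ioi t) t := by
    have : ContinuousOn (fun s => deriv (deriv (f s)) x) (Icc (0:ℝ) 1) :=
      hf.cont_xx.comp (f := fun s : ℝ => ((s, x) : ℝ × ℝ)) (by fun_prop)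
        (fun s hs => ⟨hs, mem_univ _⟩)
    exact (this t htc).mono_of_mem_nhdsWithin hmem
  have c2 : ContinuousWithinAt (fun s => deriv (f s) x ^ 2) (Ioi t) t := by
    have : ContinuousOn (fun s => deriv (f s) x ^ 2) (Icc (0:ℝ) 1) :=
      (hf.cont_x.comp (f := fun s : ℝ => ((s, x) : ℝ × ℝ)) (by fun_prop)
        (fun s hs => ⟨hs, mem_univ _⟩)).pow 2
    exact (this t htc).mono_of_mem_nhdsWithin hmem
  have c3 : ContinuousWithinAt ζ (Ioi t) t := (hζ.rc t).mono Ioi_subset_Ici_self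
  have key := intervalIntegral.integral_hasDerivWithinAt_left (s := Ici t) (t := Ioi t) hint
    ⟨Ioc t 1, Ioc_mem_nhdsGT ht.2, by
      have := hint.aestronglyMeasurable
      exact this⟩ (c1.add (c3.mul c2))
  have k2 := (key.const_mul (β ^ 2)).const_add (Real.log (Real.cosh x))
  have hev : (fun s => f s x) =ᶠ[𝓝[Ici t] t] fun s => Real.log (Real.cosh x) +
      β ^ 2 * ∫ r in s..1, (deriv (deriv (f r)) x + ζ r * deriv (f r) x ^ 2) := by
    have : Ico t 1 ∈ 𝓝[Ici t] t := Ico_mem_nhdsGE ht.2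
    filter_upwards [this] with s hs
    exact hf.pde s ⟨ht.1.trans hs.1, hs.2.le⟩ x
  refine (k2.congr_of_eventuallyEq_of_mem hev (by simp)).congr_deriv ?_
  ring

/-- growth of a solution -/
theorem IsParisiSol.growth (hf : IsParisiSol β ζ f) :
    ∃ A : ℝ, 0 ≤ A ∧ ∀ t ∈ Icc (0:ℝ) 1, ∀ x, |f t x| ≤ A * (1 + |x|) := by
  obtain ⟨C, hC⟩ := hf.slope
  have c1 : ContinuousOn (fun s => f s 0) (Icc (0:ℝ) 1) :=
    hf.cont.comp (f := fun s : ℝ => ((s, 0) : ℝ × ℝ)) (by fun_prop)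
      (fun s hs => ⟨hs, mem_univ _⟩)
  obtain ⟨M, hM⟩ := isCompact_Icc.exists_bound_of_continuousOn c1
  have hC0 : 0 ≤ C := (abs_nonneg _).trans (hC 0 (by simp) 0)
  have hM0 : 0 ≤ M := (norm_nonneg _).trans (hM 0 (by simp))
  refine ⟨max M C, le_max_of_le_left hM0, fun t ht x => ?_⟩
  have h1 : |f t x - f t 0| ≤ C * |x - 0| := by
    have := Convex.norm_image_sub_le_of_norm_hasDerivWithin_le (f := f t) (f' := deriv (f t))
      (s := univ) (C := C) (fun y _ => (hf.hx ht y).hasDerivWithinAt)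
      (fun y _ => by rw [Real.norm_eq_abs]; exact hC t ht y) convex_univ (mem_univ 0) (mem_univ x)
    rwa [Real.norm_eq_abs, Real.norm_eq_abs] at this
  have h2 : |f t 0| ≤ M := by have := hM t ht; rwa [Real.norm_eq_abs] at this
  rw [sub_zero] at h1
  have h3 : |f t x| ≤ |f t x - f t 0| + |f t 0| := by
    have := abs_add_le (f t x - f t 0) (f t 0)
    rwa [sub_add_cancel] at this
  have h4 : C * |x| ≤ max M C * |x| := mul_le_mul_of_nonneg_right (le_max_right _ _) (abs_nonneg _)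
  have h5 : M ≤ max M C := le_max_left _ _
  nlinarith

end

end Pool.Agent.Helper95A
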