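import Pool.Agent.Helper95A.MaxP

set_option autoImplicit false

open MeasureTheory ProbabilityTheory Set Filter Topology

namespace Pool.Agent.Helper95A

/-- Doubling of variables: the lower bound for a solution of the Parisi equation. -/
theorem doubling {β a b A : ℝ} (hA : 0 ≤ A)
    {g m mx mxx w wx wxx f fx fxx : ℝ → ℝ → ℝ} {ζ0 ζ : ℝ → ℝ}
    (hζ0 : ∀ t ∈ Ico a b, 0 ≤ ζ0 t ∧ ζ0 t ≤ 1) (hζ : ∀ t ∈ Ico a b, 0 ≤ ζ t ∧ ζ t ≤ 1)
    (cg : ContinuousOn (fun p : ℝ × ℝ => g p.1 p.2) (Icc a b ×ˢ univ))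
    (cm : ContinuousOn (fun p : ℝ × ℝ => m p.1 p.2) (Icc a b ×ˢ univ))
    (cw : ContinuousOn (fun p : ℝ × ℝ => w p.1 p.2) (Icc a b ×ˢ univ))
    (cf : ContinuousOn (fun p : ℝ × ℝ => f p.1 p.2) (Icc a b ×ˢ univ))
    (bg : ∀ t ∈ Icc a b, ∀ x, g t x ≤ A * (1 + |x|)) (bm : ∀ t ∈ Icc a b, ∀ x, |m t x| ≤ 1)
    (bw : ∀ t ∈ Icc a b, ∀ x, w t x ≤ A) (bf : ∀ t ∈ Icc a b, ∀ x, -(A * (1 + |x|)) ≤ f t x)
    (hgx : ∀ t ∈ Ico a b, ∀ x, HasDerivAt (g t) (m t x) x)
    (hmx : ∀ t ∈ Ico a b, ∀ x, HasDerivAt (m t) (mx t x) x)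
    (hmxx : ∀ t ∈ Ico a b, ∀ x, HasDerivAt (mx t) (mxx t x) x)
    (hwx : ∀ t ∈ Ico a b, ∀ x, HasDerivAt (w t) (wx t x) x)
    (hwxx : ∀ t ∈ Ico a b, ∀ x, HasDerivAt (wx t) (wxx t x) x)
    (hfx : ∀ t ∈ Ico a b, ∀ x, HasDerivAt (f t) (fx t x) x)
    (hfxx : ∀ t ∈ Ico a b, ∀ x, HasDerivAt (fx t) (fxx t x) x)
    (hgt : ∀ t ∈ Ico a b, ∀ x, HasDerivWithinAt (fun s => g s x)
      (-β ^ 2 * (mx t x + ζ0 t * m t x ^ 2)) (Ici t) t)
    (hmt : ∀ t ∈ Ico a b, ∀ x, HasDerivWithinAt (fun s => m s x)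
      (-β ^ 2 * (mxx t x + 2 * ζ0 t * m t x * mx t x)) (Ici t) t)
    (hwt : ∀ t ∈ Ico a b, ∀ x, HasDerivWithinAt (fun s => w s x)
      (-β ^ 2 * (wxx t x + 2 * ζ0 t * m t x * wx t x + (ζ t - ζ0 t) * m t x ^ 2)) (Ici t) t)
    (hft : ∀ t ∈ Ico a b, ∀ x, HasDerivWithinAt (fun s => f s x)
      (-β ^ 2 * (fxx t x + ζ t * fx t x ^ 2)) (Ici t) t)
    (hterm : ∀ x y, g b x + (y - x) * m b x + w b x ≤ f b y) :
    ∀ t ∈ Icc a b, ∀ x y, g t x + (y - x) * m t x + w t x ≤ f t y := by
  set C := 8 * β ^ 2 + 1 with hC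
  have hβ2 : 0 ≤ β ^ 2 := sq_nonneg β
  have key : ∀ ε > 0, ∀ t ∈ Icc a b, ∀ e : ℝ × ℝ,
      (g t e.1 + (e.2 - e.1) * m t e.1 + w t e.1 - f t e.2) -
        ε * (Real.exp (C * (b - t)) * (1 + e.1 ^ 2 + e.2 ^ 2)) ≤ 0 := by
    intro ε hε
    refine abstract_max (E := ℝ × ℝ) (e0 := 0) (R := max 1 ((6 * A + 4) / ε)) ?_ ?_ ?_ ?_
    · have c1 : ContinuousOn (fun p : ℝ × ℝ × ℝ => g p.1 p.2.1) (Icc a b ×ˢ univ) :=
        cg.comp (f := fun p : ℝ × ℝ × ℝ => (p.1, p.2.1)) (by fun_prop)
          (fun p hp => ⟨hp.1, mem_univ _⟩)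
      have c2 : ContinuousOn (fun p : ℝ × ℝ × ℝ => m p.1 p.2.1) (Icc a b ×ˢ univ) :=
        cm.comp (f := fun p : ℝ × ℝ × ℝ => (p.1, p.2.1)) (by fun_prop)
          (fun p hp => ⟨hp.1, mem_univ _⟩)
      have c3 : ContinuousOn (fun p : ℝ × ℝ × ℝ => w p.1 p.2.1) (Icc a b ×ˢ univ) :=
        cw.comp (f := fun p : ℝ × ℝ × ℝ => (p.1, p.2.1)) (by fun_prop)
          (fun p hp => ⟨hp.1, mem_univ _⟩)
      have c4 : ContinuousOn (fun p : ℝ × ℝ × ℝ => f p.1 p.2.2) (Icc a b ×ˢ univ) :=
        cf.comp (f := fun p : ℝ × ℝ × ℝ => (p.1, p.2.2)) (by fun_prop)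
          (fun p hp => ⟨hp.1, mem_univ _⟩)
      refine ContinuousOn.sub (((c1.add (ContinuousOn.mul (by fun_prop) c2)).add c3).sub c4)
        (by fun_prop)
    · rintro t htt ⟨x, y⟩ hd
      have hd' : max 1 ((6 * A + 4) / ε) < max |x| |y| := by
        have : dist ((x, y) : ℝ × ℝ) 0 = max |x| |y| := by
          rw [show (0 : ℝ × ℝ) = (0, 0) from rfl, Prod.dist_eq]
          simp [Real.dist_eq]
        rwa [this] at hd
      rw [max_lt_iff] at hd'
      set M := max |x| |y| with hM
      have hx : |x| ≤ M := le_max_left _ _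
      have hy : |y| ≤ M := le_max_right _ _
      have h1 := bg t htt x
      have h2 := bw t htt x
      have h3 := bf t htt y
      have h4 : (y - x) * m t x ≤ |x| + |y| := by
        calc (y - x) * m t x ≤ |(y - x) * m t x| := le_abs_self _
          _ = |y - x| * |m t x| := abs_mul _ _
          _ ≤ |y - x| * 1 := mul_le_mul_of_nonneg_left (bm t htt x) (abs_nonneg _)
          _ ≤ |x| + |y| := by rw [mul_one]; have := abs_sub y x; linarith
      have h5 : A * |x| ≤ A * M := mul_le_mul_of_nonneg_left hx hA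
      have h6 : A * |y| ≤ A * M := mul_le_mul_of_nonneg_left hy hA
      have h7 : (6 * A + 4) < ε * M := by
        have := hd'.2
        rw [div_lt_iff₀ hε] at this
        linarith
      have h8 : M ^ 2 ≤ x ^ 2 + y ^ 2 := by
        rcases le_total |x| |y| with h | h
        · rw [hM, max_eq_right h, sq_abs]; nlinarith [sq_nonneg x]
        · rw [hM, max_eq_left h, sq_abs]; nlinarith [sq_nonneg y]
      have h9 : ε * (1 + x ^ 2 + y ^ 2) ≤
          ε * (Real.exp (C * (b - t)) * (1 + x ^ 2 + y ^ 2)) := by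
        refine mul_le_mul_of_nonneg_left ?_ hε.le
        have : 1 ≤ Real.exp (C * (b - t)) := by
          refine Real.one_le_exp (mul_nonneg (by positivity) (by linarith [htt.2]))
        nlinarith [sq_nonneg x, sq_nonneg y]
      have h10 : (6 * A + 4) * M ≤ ε * M * M :=
        mul_le_mul_of_nonneg_right h7.le (by linarith [hd'.1])
      have h11 : ε * M ^ 2 ≤ ε * (x ^ 2 + y ^ 2) := mul_le_mul_of_nonneg_left h8 hε.le
      simp only
      nlinarith [hd'.1, mul_nonneg hA (sub_nonneg.2 hd'.1.le)]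
    · rintro ⟨x, y⟩
      have := hterm x y
      have h2 : 0 ≤ ε * (Real.exp (C * (b - b)) * (1 + x ^ 2 + y ^ 2)) := by positivity
      simp only
      linarith
    · rintro t htt ⟨x, y⟩ hpos hmax htmax
      simp only at hpos hmax htmax
      have hp : 0 < Real.exp (C * (b - t)) := Real.exp_pos _
      set P := Real.exp (C * (b - t)) with hP
      have htc : t ∈ Icc a b := ⟨htt.1, htt.2.le⟩
      -- x derivative
      have dx : HasDerivAt (fun x' => (g t x' + (y - x') * m t x' + w t x' - f t y) -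
          ε * (P * (1 + x' ^ 2 + y ^ 2)))
          ((m t x + ((-1) * m t x + (y - x) * mx t x) + wx t x) - ε * (P * (2 * x))) x := by
        have e1 : HasDerivAt (fun x' : ℝ => y - x') (-1) x := (hasDerivAt_id x).const_sub y
        have e2 : HasDerivAt (fun x' : ℝ => ε * (P * (1 + x' ^ 2 + y ^ 2))) (ε * (P * (2 * x))) x := by
          have := (((hasDerivAt_pow 2 x).const_add 1).add_const (y ^ 2)).const_mul P
            |>.const_mul ε
          refine this.congr_deriv ?_
          norm_num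
        exact ((((hgx t htt x).add (e1.mul (hmx t htt x))).add (hwx t htt x)).sub_const _).sub e2
      have dy : HasDerivAt (fun y' => (g t x + (y' - x) * m t x + w t x - f t y') -
          ε * (P * (1 + x ^ 2 + y' ^ 2)))
          ((m t x - fx t y) - ε * (P * (2 * y))) y := by
        have e1 : HasDerivAt (fun y' : ℝ => g t x + (y' - x) * m t x + w t x) (m t x) y := by
          have := (((hasDerivAt_id y).sub_const x).mul_const (m t x)).const_add (g t x)
            |>.add_const (w t x)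
          refine this.congr_deriv ?_
          simp
        have e2 : HasDerivAt (fun y' : ℝ => ε * (P * (1 + x ^ 2 + y' ^ 2))) (ε * (P * (2 * y))) y := by
          have := ((hasDerivAt_pow 2 y).const_add (1 + x ^ 2)).const_mul P |>.const_mul ε
          refine this.congr_deriv ?_
          norm_num
        exact (e1.sub (hfx t htt y)).sub e2
      have zx := IsLocalMax.hasDerivAt_eq_zero
        (Eventually.of_forall fun x' => hmax (x', y)) dx
      have zy := IsLocalMax.hasDerivAt_eq_zero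
        (Eventually.of_forall fun y' => hmax (x, y')) dy
      -- diagonal derivative
      have sh : ∀ {H H' : ℝ → ℝ} (c r : ℝ), (∀ z, HasDerivAt H (H' z) z) →
          HasDerivAt (fun r => H (c + r)) (H' (c + r)) r := by
        intro H H' c r h
        have h1 : HasDerivAt (fun r : ℝ => c + r) 1 r := (hasDerivAt_id r).const_add c
        have h2 := (h (c + r)).comp r h1
        rw [mul_one] at h2
        exact h2
      have sq' : ∀ c r : ℝ, HasDerivAt (fun r : ℝ => (c + r) ^ 2) (2 * (c + r)) r := by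
        intro c r
        have h1 : HasDerivAt (fun r : ℝ => c + r) 1 r := (hasDerivAt_id r).const_add c
        have := h1.fun_pow 2
        refine this.congr_deriv ?_
        norm_num
      have d1 : ∀ r, HasDerivAt (fun r => (g t (x + r) + (y - x) * m t (x + r) + w t (x + r) -
          f t (y + r)) - ε * (P * (1 + (x + r) ^ 2 + (y + r) ^ 2)))
          ((m t (x + r) + (y - x) * mx t (x + r) + wx t (x + r) - fx t (y + r)) -
            ε * (P * (2 * (x + r) + 2 * (y + r)))) r := by
        intro r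
        refine ((((sh x r (hgx t htt)).add ((sh x r (hmx t htt)).const_mul (y - x))).add
          (sh x r (hwx t htt))).sub (sh y r (hfx t htt))).sub ?_
        exact ((((sq' x r).const_add 1).add (sq' y r)).const_mul P).const_mul ε
      have d2 : HasDerivAt (fun r => (m t (x + r) + (y - x) * mx t (x + r) + wx t (x + r) -
            fx t (y + r)) - ε * (P * (2 * (x + r) + 2 * (y + r))))
          ((mx t (x + 0) + (y - x) * mxx t (x + 0) + wxx t (x + 0) - fxx t (y + 0)) -
            ε * (P * (2 + 2))) 0 := by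
        refine ((((sh x 0 (hmx t htt)).add ((sh x 0 (hmxx t htt)).const_mul (y - x))).add
          (sh x 0 (hwxx t htt))).sub (sh y 0 (hfxx t htt))).sub ?_
        have h1 : HasDerivAt (fun r : ℝ => 2 * (x + r)) 2 0 := by
          have := (((hasDerivAt_id (0:ℝ)).const_add x).const_mul 2)
          refine this.congr_deriv ?_
          norm_num
        have h2 : HasDerivAt (fun r : ℝ => 2 * (y + r)) 2 0 := by
          have := (((hasDerivAt_id (0:ℝ)).const_add y).const_mul 2)
          refine this.congr_deriv ?_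
          norm_num
        exact ((h1.add h2).const_mul P).const_mul ε
      have zd : ((mx t (x + 0) + (y - x) * mxx t (x + 0) + wxx t (x + 0) - fxx t (y + 0)) -
            ε * (P * (2 + 2))) ≤ 0 := by
        refine second_deriv_nonpos d1 d2 fun r => ?_
        have := hmax (x + r, y + r)
        simp only [add_sub_add_right_eq_sub] at this
        simpa using this
      simp only [add_zero] at zd
      -- time derivative
      have d3 : HasDerivWithinAt (fun s => (g s x + (y - x) * m s x + w s x - f s y) -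
          ε * (Real.exp (C * (b - s)) * (1 + x ^ 2 + y ^ 2)))
          (((-β ^ 2 * (mx t x + ζ0 t * m t x ^ 2)) +
            (y - x) * (-β ^ 2 * (mxx t x + 2 * ζ0 t * m t x * mx t x)) +
            (-β ^ 2 * (wxx t x + 2 * ζ0 t * m t x * wx t x + (ζ t - ζ0 t) * m t x ^ 2)) -
            (-β ^ 2 * (fxx t y + ζ t * fx t y ^ 2))) -
            ε * ((-C * P) * (1 + x ^ 2 + y ^ 2))) (Ici t) t := by
        have e2 : HasDerivAt (fun s : ℝ => Real.exp (C * (b - s))) (-C * P) t := by
          have := (((hasDerivAt_id t).const_sub b).const_mul C).exp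
          refine this.congr_deriv ?_
          simp [hP, mul_comm]
        exact ((((hgt t htt x).add ((hmt t htt x).const_mul (y - x))).add (hwt t htt x)).sub
          (hft t htt y)).sub (((e2.mul_const (1 + x ^ 2 + y ^ 2)).const_mul ε).hasDerivWithinAt)
      have z3 := right_deriv_nonpos d3 htt.2 htmax
      -- combine
      have hz0 := hζ0 t htt
      have hz1 := hζ t htt
      have hmb := bm t htc x
      have hfx : fx t y = m t x - ε * (P * (2 * y)) := by linarith
      have hwx' : (y - x) * mx t x + wx t x = ε * (P * (2 * x)) := by linarith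
      have hq : 0 < ε * P := by positivity
      have hzd := mul_le_mul_of_nonneg_left zd hβ2
      rw [mul_zero] at hzd
      have main : ε * P * (C * (1 + x ^ 2 + y ^ 2)) ≤
          ε * P * (β ^ 2 * 4 + 4 * β ^ 2 * (ζ0 t * m t x * x) + 4 * β ^ 2 * (ζ t * m t x * y)) -
          β ^ 2 * ζ t * (ε * (P * (2 * y))) ^ 2 := by
        have e1 : β ^ 2 * ζ t * fx t y ^ 2 = β ^ 2 * ζ t * m t x ^ 2 -
          4 * β ^ 2 * (ζ t * m t x * y) * (ε * P) + β ^ 2 * ζ t * (ε * (P * (2 * y))) ^ 2 := by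
          rw [hfx]; ring
        have e2 : 2 * β ^ 2 * ζ0 t * m t x * ((y - x) * mx t x + wx t x) =
          4 * β ^ 2 * (ζ0 t * m t x * x) * (ε * P) := by rw [hwx']; ring
        linarith [z3, hzd, e1, e2]
      have b1 : ζ0 t * m t x * x ≤ |x| := by
        calc ζ0 t * m t x * x ≤ |ζ0 t * m t x * x| := le_abs_self _
          _ = ζ0 t * |m t x| * |x| := by rw [abs_mul, abs_mul, abs_of_nonneg hz0.1]
          _ ≤ 1 * 1 * |x| := by
            refine mul_le_mul_of_nonneg_right ?_ (abs_nonneg _)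
            exact mul_le_mul hz0.2 hmb (abs_nonneg _) zero_le_one
          _ = |x| := by ring
      have b2 : ζ t * m t x * y ≤ |y| := by
        calc ζ t * m t x * y ≤ |ζ t * m t x * y| := le_abs_self _
          _ = ζ t * |m t x| * |y| := by rw [abs_mul, abs_mul, abs_of_nonneg hz1.1]
          _ ≤ 1 * 1 * |y| := by
            refine mul_le_mul_of_nonneg_right ?_ (abs_nonneg _)
            exact mul_le_mul hz1.2 hmb (abs_nonneg _) zero_le_one
          _ = |y| := by ring
      have b3 : 0 ≤ β ^ 2 * ζ t * (ε * (P * (2 * y))) ^ 2 :=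
        mul_nonneg (mul_nonneg hβ2 hz1.1) (sq_nonneg _)
      have b4 : β ^ 2 * 4 + 4 * β ^ 2 * (ζ0 t * m t x * x) + 4 * β ^ 2 * (ζ t * m t x * y) ≤
          8 * β ^ 2 * (1 + x ^ 2 + y ^ 2) := by
        have k1 : |x| ≤ (1 + x ^ 2) / 2 := by nlinarith [sq_nonneg (|x| - 1), sq_abs x]
        have k2 : |y| ≤ (1 + y ^ 2) / 2 := by nlinarith [sq_nonneg (|y| - 1), sq_abs y]
        have k3 : β ^ 2 * (ζ0 t * m t x * x) ≤ β ^ 2 * ((1 + x ^ 2) / 2) :=
          mul_le_mul_of_nonneg_left (b1.trans k1) hβ2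
        have k4 : β ^ 2 * (ζ t * m t x * y) ≤ β ^ 2 * ((1 + y ^ 2) / 2) :=
          mul_le_mul_of_nonneg_left (b2.trans k2) hβ2
        nlinarith [mul_nonneg hβ2 (sq_nonneg x), mul_nonneg hβ2 (sq_nonneg y)]
      have b5 := mul_le_mul_of_nonneg_left b4 hq.le
      have b6 : ε * P * (C * (1 + x ^ 2 + y ^ 2)) =
          ε * P * (8 * β ^ 2 * (1 + x ^ 2 + y ^ 2)) + ε * P * (1 + x ^ 2 + y ^ 2) := by
        rw [hC]; ring
      have b7 : 0 < ε * P * (1 + x ^ 2 + y ^ 2) := by positivity
      linarith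
  intro t ht x y
  by_contra hcon
  push Not at hcon
  set F := g t x + (y - x) * m t x + w t x - f t y with hF
  have hFp : 0 < F := by rw [hF]; linarith
  set D := Real.exp (C * (b - t)) * (1 + x ^ 2 + y ^ 2) with hD
  have hD0 : 0 < D := by positivity
  have := key (F / (2 * D)) (by positivity) t ht (x, y)
  simp only at this
  rw [← hD, ← hF] at this
  have e : F / (2 * D) * D = F / 2 := by field_simp
  rw [e] at this
  linarith

end Pool.Agent.Helper95A
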