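import Pool.Agent.Helper95A.Heat2
import Pool.Agent.Helper95A.Hyp

set_option autoImplicit false

open MeasureTheory ProbabilityTheory Set Filter Topology

namespace Pool.Agent.Helper95A

theorem abs_mul_le' {a b A B : ℝ} (ha : |a| ≤ A) (hb : |b| ≤ B) : |a * b| ≤ A * B := by
  rw [abs_mul]; exact mul_le_mul ha hb (abs_nonneg _) ((abs_nonneg _).trans ha)

/-- Refined Gaussian Poincaré inequality. -/
theorem poincare {F F1 F2 F3 : ℝ → ℝ} {C0 C1 C2 C3 : ℝ} (h1 : ∀ x, HasDerivAt F (F1 x) x)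
    (h2 : ∀ x, HasDerivAt F1 (F2 x) x) (h3 : ∀ x, HasDerivAt F2 (F3 x) x)
    (c3 : Continuous F3) (b0 : ∀ x, |F x| ≤ C0) (b1 : ∀ x, |F1 x| ≤ C1) (b2 : ∀ x, |F2 x| ≤ C2)
    (b3 : ∀ x, |F3 x| ≤ C3) {S : ℝ} (hS : 0 ≤ S) (x : ℝ) :
    heat (fun y => F y ^ 2) S x - heat F S x ^ 2 ≤
      S / 2 * (heat (fun y => F1 y ^ 2) S x + heat F1 S x ^ 2) := by
  have c0 : Continuous F := continuous_iff_continuousAt.2 fun x => (h1 x).continuousAt
  have c1 : Continuous F1 := continuous_iff_continuousAt.2 fun x => (h2 x).continuousAt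
  have c2 : Continuous F2 := continuous_iff_continuousAt.2 fun x => (h3 x).continuousAt
  have hC0 : 0 ≤ C0 := (abs_nonneg _).trans (b0 0)
  have hC1 : 0 ≤ C1 := (abs_nonneg _).trans (b1 0)
  have hC2 : 0 ≤ C2 := (abs_nonneg _).trans (b2 0)
  have hC3 : 0 ≤ C3 := (abs_nonneg _).trans (b3 0)
  -- squares
  have dA : ∀ x, HasDerivAt (fun y => F y ^ 2) (2 * (F x * F1 x)) x := fun x => by
    refine ((h1 x).fun_pow 2).congr_deriv ?_
    norm_num; ring
  have dA' : ∀ x, HasDerivAt (fun y => 2 * (F y * F1 y)) (2 * (F1 x * F1 x + F x * F2 x)) x :=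
    fun x => ((h1 x).mul (h2 x)).const_mul 2
  have dP : ∀ x, HasDerivAt (fun y => F1 y ^ 2) (2 * (F1 x * F2 x)) x := fun x => by
    refine ((h2 x).fun_pow 2).congr_deriv ?_
    norm_num; ring
  have dP' : ∀ x, HasDerivAt (fun y => 2 * (F1 y * F2 y)) (2 * (F2 x * F2 x + F1 x * F3 x)) x :=
    fun x => ((h2 x).mul (h3 x)).const_mul 2
  have cA'' : Continuous (fun x => 2 * (F1 x * F1 x + F x * F2 x)) := by fun_prop
  have cP'' : Continuous (fun x => 2 * (F2 x * F2 x + F1 x * F3 x)) := by fun_prop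
  have cA' : Continuous (fun x => 2 * (F x * F1 x)) := by fun_prop
  have cP' : Continuous (fun x => 2 * (F1 x * F2 x)) := by fun_prop
  have bA : ∀ x, |F x ^ 2| ≤ C0 * C0 := fun x => by rw [sq]; exact abs_mul_le' (b0 x) (b0 x)
  have bP : ∀ x, |F1 x ^ 2| ≤ C1 * C1 := fun x => by rw [sq]; exact abs_mul_le' (b1 x) (b1 x)
  have two : ∀ {u U : ℝ}, |u| ≤ U → |2 * u| ≤ 2 * U := by
    intro u U h; rw [abs_mul, abs_two]; linarith
  have bA' : ∀ x, |2 * (F x * F1 x)| ≤ 2 * (C0 * C1) := fun x => two (abs_mul_le' (b0 x) (b1 x))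
  have bP' : ∀ x, |2 * (F1 x * F2 x)| ≤ 2 * (C1 * C2) := fun x => two (abs_mul_le' (b1 x) (b2 x))
  have bA'' : ∀ x, |2 * (F1 x * F1 x + F x * F2 x)| ≤ 2 * (C1 * C1 + C0 * C2) := fun x =>
    two ((abs_add_le _ _).trans (add_le_add (abs_mul_le' (b1 x) (b1 x))
      (abs_mul_le' (b0 x) (b2 x))))
  have bP'' : ∀ x, |2 * (F2 x * F2 x + F1 x * F3 x)| ≤ 2 * (C2 * C2 + C1 * C3) := fun x =>
    two ((abs_add_le _ _).trans (add_le_add (abs_mul_le' (b2 x) (b2 x))
      (abs_mul_le' (b1 x) (b3 x))))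
  have e0 := EG.of_bdd b0
  have e1 := EG.of_bdd b1
  have e2 := EG.of_bdd b2
  have e3 := EG.of_bdd b3
  have eA := EG.of_bdd bA
  have eA' := EG.of_bdd bA'
  have eA'' := EG.of_bdd bA''
  have eP := EG.of_bdd bP
  have eP' := EG.of_bdd bP'
  have eP'' := EG.of_bdd bP''
  have hc : ∀ {H : ℝ → ℝ}, Continuous H → EG H →
      Continuous (fun p : ℝ × ℝ => heat H (S - p.1) p.2) := fun hH he =>
    (heat_continuous hH he).comp (f := fun p : ℝ × ℝ => ((S - p.1, p.2) : ℝ × ℝ)) (by fun_prop)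
  have ht : ∀ {H H' H'' : ℝ → ℝ}, (∀ x, HasDerivAt H (H' x) x) → EG H →
      (∀ x, HasDerivAt H' (H'' x) x) → EG H' → Continuous H'' → EG H'' →
      ∀ {t : ℝ}, t < S → ∀ x, HasDerivAt (fun s => heat H (S - s) x)
        (-(heat H'' (S - t) x / 2)) t := by
    intro H H' H'' k1 k2 k3 k4 k5 k6 t htS x
    have := (heat_hasDerivAt_σ k1 k2 k3 k4 k5 k6 (sub_pos.2 htS) x).comp t
      ((hasDerivAt_id t).const_sub S)
    refine this.congr_deriv ?_
    ring
  have key := max1 (a := 0) (b := S) (κ := 1 / 2) (B0 := 0) (c0 := 0)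
    (A := C0 * C0 + S / 2 * (C1 * C1))
    (v := fun t x => (heat (fun y => F y ^ 2) (S - t) x - heat F (S - t) x ^ 2) -
      (S - t) / 2 * (heat (fun y => F1 y ^ 2) (S - t) x + heat F1 (S - t) x ^ 2))
    (vx := fun t x => (heat (fun y => 2 * (F y * F1 y)) (S - t) x -
        2 * heat F (S - t) x * heat F1 (S - t) x) -
      (S - t) / 2 * (heat (fun y => 2 * (F1 y * F2 y)) (S - t) x +
        2 * heat F1 (S - t) x * heat F2 (S - t) x))
    (vxx := fun t x => (heat (fun y => 2 * (F1 y * F1 y + F y * F2 y)) (S - t) x -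
        (2 * heat F1 (S - t) x * heat F1 (S - t) x + 2 * heat F (S - t) x * heat F2 (S - t) x)) -
      (S - t) / 2 * (heat (fun y => 2 * (F2 y * F2 y + F1 y * F3 y)) (S - t) x +
        (2 * heat F2 (S - t) x * heat F2 (S - t) x + 2 * heat F1 (S - t) x * heat F3 (S - t) x)))
    (vt := fun t x => (-(heat (fun y => 2 * (F1 y * F1 y + F y * F2 y)) (S - t) x / 2) -
        2 * heat F (S - t) x * (-(heat F2 (S - t) x / 2))) -
      ((-1 / 2) * (heat (fun y => F1 y ^ 2) (S - t) x + heat F1 (S - t) x ^ 2) +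
        (S - t) / 2 * (-(heat (fun y => 2 * (F2 y * F2 y + F1 y * F3 y)) (S - t) x / 2) +
          2 * heat F1 (S - t) x * (-(heat F3 (S - t) x / 2)))))
    (B := fun _ _ => 0) (c := fun _ _ => 0) (by norm_num) le_rfl le_rfl (by positivity)
    ?_ ?_ ?_ ?_ ?_ (fun _ _ _ => by simp) (fun _ _ _ => le_rfl) ?_ ?_ 0 ⟨le_rfl, hS⟩ x
  · simp only [sub_zero] at key
    linarith
  · exact Continuous.continuousOn (((hc (c0.pow 2) eA).sub ((hc c0 e0).pow 2)).sub
      (Continuous.mul (by fun_prop) ((hc (c1.pow 2) eP).add ((hc c1 e1).pow 2))))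
  · intro t ht x
    have k1 := abs_le.1 (heat_abs_le bA (S - t) x)
    have k2 : 0 ≤ heat (fun y => F1 y ^ 2) (S - t) x := heat_nonneg (fun y => sq_nonneg _) _ _
    have k3 : 0 ≤ heat F (S - t) x ^ 2 := sq_nonneg _
    have k4 : 0 ≤ heat F1 (S - t) x ^ 2 := sq_nonneg _
    have k5 : 0 ≤ (S - t) / 2 := by linarith [ht.2]
    have k6 : 0 ≤ (S - t) / 2 * (heat (fun y => F1 y ^ 2) (S - t) x + heat F1 (S - t) x ^ 2) :=
      mul_nonneg k5 (add_nonneg k2 k4)
    have k7 : C0 * C0 ≤ (C0 * C0 + S / 2 * (C1 * C1)) * (1 + |x|) := by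
      have : 0 ≤ S / 2 * (C1 * C1) := by positivity
      have := abs_nonneg x
      nlinarith [mul_nonneg (mul_nonneg hC0 hC0) (abs_nonneg x)]
    linarith [k1.2]
  · intro t _ x
    have q0 := heat_hasDerivAt_x dA eA cA' eA' (S - t) x
    have q1 := (heat_hasDerivAt_x h1 e0 c1 e1 (S - t) x).fun_pow 2
    have q2 := heat_hasDerivAt_x dP eP cP' eP' (S - t) x
    have q3 := (heat_hasDerivAt_x h2 e1 c2 e2 (S - t) x).fun_pow 2
    refine ((q0.sub q1).sub ((q2.add q3).const_mul _)).congr_deriv ?_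
    norm_num
  · intro t _ x
    have q0 := heat_hasDerivAt_x dA' eA' cA'' eA'' (S - t) x
    have q1 := ((heat_hasDerivAt_x h1 e0 c1 e1 (S - t) x).const_mul 2).mul
      (heat_hasDerivAt_x h2 e1 c2 e2 (S - t) x)
    have q2 := heat_hasDerivAt_x dP' eP' cP'' eP'' (S - t) x
    have q3 := ((heat_hasDerivAt_x h2 e1 c2 e2 (S - t) x).const_mul 2).mul
      (heat_hasDerivAt_x h3 e2 c3 e3 (S - t) x)
    exact (q0.sub q1).sub ((q2.add q3).const_mul _)
  · intro t htt x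
    have q0 := ht dA eA dA' eA' cA'' eA'' htt.2 x
    have q1 := (ht h1 e0 h2 e1 c2 e2 htt.2 x).fun_pow 2
    have q2 := ht dP eP dP' eP' cP'' eP'' htt.2 x
    have q3 := (ht h2 e1 h3 e2 c3 e3 htt.2 x).fun_pow 2
    have q4 : HasDerivAt (fun s : ℝ => (S - s) / 2) (-1 / 2) t :=
      ((hasDerivAt_id t).const_sub S).div_const 2
    have := ((q0.sub q1).sub (q4.mul (q2.add q3))).hasDerivWithinAt (s := Ici t)
    refine this.congr_deriv ?_
    norm_num
  · intro t htt x _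
    have k := heat_deriv_sq_le h2 b1 c2 b2 (sub_nonneg.2 htt.2.le) x
    nlinarith [k]
  · intro x
    simp

end Pool.Agent.Helper95A
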