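import Pool.Agent.Helper95A.Prod
import Pool.Agent.Helper95A.Poinc
import Pool.Agent.Helper95A.DataF

set_option autoImplicit false

open MeasureTheory ProbabilityTheory Set Filter Topology

namespace Pool.Agent.Helper95A

theorem heat_sec_continuous {F : ℝ → ℝ} (hF : Continuous F) (hg : EG F) (σ : ℝ) :
    Continuous (heat F σ) :=
  (heat_continuous hF hg).comp (f := fun y : ℝ => ((σ, y) : ℝ × ℝ)) (by fun_prop)

theorem heat_time_continuous {F : ℝ → ℝ} (hF : Continuous F) (hg : EG F) (x : ℝ) :
    Continuous (fun σ => heat F σ x) :=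
  (heat_continuous hF hg).comp (f := fun σ : ℝ => ((σ, x) : ℝ × ℝ)) (by fun_prop)

/-- tilt for even functions -/
theorem even_tilt {F : ℝ → ℝ} (hF : Continuous F) (hg : EG F) (he : ∀ y, F (-y) = F y)
    {S : ℝ} (hS : 0 < S) (h : ℝ) :
    heat F S h = Real.exp (-(h / Real.sqrt S) ^ 2 / 2) *
      heat (fun y => Real.cosh (h / S * y) * F y) S 0 := by
  rw [heat_tilt F hS]
  congr 1
  have hr0 : 0 < Real.sqrt S := Real.sqrt_pos.2 hS
  set r := Real.sqrt S with hr
  have hr2 : r ^ 2 = S := Real.sq_sqrt hS.le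
  set c := h / r with hc
  have i1 : Integrable (fun z => F (r * z) * Real.exp (c * z)) gam :=
    integrable_gam ((hF.comp (continuous_const.mul continuous_id)).mul (by fun_prop))
      ((hg.comp_mul r).mul (EG_exp c))
  have i2 : Integrable (fun z => F (r * z) * Real.exp (-c * z)) gam :=
    integrable_gam ((hF.comp (continuous_const.mul continuous_id)).mul (by fun_prop))
      ((hg.comp_mul r).mul (EG_exp (-c)))
  have e : ∫ z, F (r * z) * Real.exp (c * z) ∂gam = ∫ z, F (r * z) * Real.exp (-c * z) ∂gam := by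
    rw [← gam_neg]
    congr 1; ext z
    have : r * -z = -(r * z) := by ring
    rw [this, he]
    congr 2; ring
  have e2 : 2 * ∫ z, F (r * z) * Real.exp (c * z) ∂gam =
      ∫ z, F (r * z) * Real.exp (c * z) + F (r * z) * Real.exp (-c * z) ∂gam := by
    rw [integral_add i1 i2, two_mul]
    linarith
  have e3 : heat (fun y => Real.cosh (h / S * y) * F y) S 0 =
      (∫ z, F (r * z) * Real.exp (c * z) + F (r * z) * Real.exp (-c * z) ∂gam) / 2 := by
    rw [← integral_div]
    unfold heat
    congr 1; ext z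
    rw [zero_add, ← hr]
    have : h / S * (r * z) = c * z := by
      rw [hc, ← hr2]; field_simp
    simp only
    rw [this, Real.cosh_eq]
    have : -(c * z) = -c * z := by ring
    rw [this]; ring
  rw [e3, ← e2]; ring

theorem EG_mul_bdd {F G : ℝ → ℝ} {D : ℝ} (hF : EG F) (hG : ∀ x, |G x| ≤ D) :
    EG (fun x => F x * G x) := hF.mul (EG.of_bdd hG)

theorem sc3_heat_even (r y : ℝ) : heat (fun y => sc y ^ 3) r (-y) = heat (fun y => sc y ^ 3) r y :=
  heat_neg_arg (fun y => by rw [sc_neg]) r y

theorem abs_sc3_heat (r y : ℝ) : |heat (fun y => sc y ^ 3) r y| ≤ 1 :=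
  heat_abs_le (abs_sc_pow_le 3) r y

theorem sc3_heat_nonneg (r y : ℝ) : 0 ≤ heat (fun y => sc y ^ 3) r y :=
  heat_nonneg (fun y => sc_pow_nonneg 3 y) r y

theorem cont_sc3_heat (r : ℝ) : Continuous (heat (fun y => sc y ^ 3) r) :=
  heat_sec_continuous (cont_sc_pow 3) (EG_sc_pow 3) r

noncomputable def Jf (S h r : ℝ) : ℝ :=
  Real.exp (-r / 2) * heat (fun y => sc y * heat (fun y => sc y ^ 3) r y) S h

noncomputable def jf (τ : ℝ) : ℝ := Real.exp (-τ / 2) * heat (fun y => sc y ^ 3) τ 0

theorem jf_pos (τ : ℝ) : 0 < jf τ :=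
  mul_pos (Real.exp_pos _) (heat_pos (cont_sc_pow 3) (EG_sc_pow 3)
    (fun x => pow_pos (sc_pos x) 3) τ 0)

theorem cosh_mono {x y : ℝ} (h : |x| ≤ |y|) : Real.cosh x ≤ Real.cosh y := Real.cosh_le_cosh.2 h

theorem sc_anti {x y : ℝ} (h : |x| ≤ |y|) : sc y ≤ sc x :=
  inv_anti₀ (Real.cosh_pos x) (cosh_mono h)

theorem heat_sc3_anti {τ1 τ2 : ℝ} (h12 : τ1 ≤ τ2) :
    heat (fun y => sc y ^ 3) τ2 0 ≤ heat (fun y => sc y ^ 3) τ1 0 := by
  refine integral_mono (heat_integrable (cont_sc_pow 3) (EG_sc_pow 3) τ2 0)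
    (heat_integrable (cont_sc_pow 3) (EG_sc_pow 3) τ1 0) fun z => ?_
  simp only [zero_add]
  refine pow_le_pow_left₀ (sc_pos _).le (sc_anti ?_) 3
  rw [abs_mul, abs_mul, abs_of_nonneg (Real.sqrt_nonneg _), abs_of_nonneg (Real.sqrt_nonneg _)]
  exact mul_le_mul_of_nonneg_right (Real.sqrt_le_sqrt h12) (abs_nonneg z)

theorem jf_anti {τ1 τ2 : ℝ} (h12 : τ1 ≤ τ2) : jf τ2 ≤ jf τ1 := by
  unfold jf
  refine mul_le_mul (Real.exp_le_exp.2 (by linarith)) (heat_sc3_anti h12)
    (sc3_heat_nonneg _ _) (Real.exp_pos _).le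

theorem jf_strict {τ1 τ2 : ℝ} (h12 : τ1 < τ2) : jf τ2 < jf τ1 := by
  unfold jf
  have h1 := heat_sc3_anti h12.le
  have h2 : 0 < heat (fun y => sc y ^ 3) τ1 0 :=
    heat_pos (cont_sc_pow 3) (EG_sc_pow 3) (fun x => pow_pos (sc_pos x) 3) τ1 0
  have h3 : Real.exp (-τ2 / 2) < Real.exp (-τ1 / 2) := Real.exp_lt_exp.2 (by linarith)
  calc _ ≤ Real.exp (-τ2 / 2) * heat (fun y => sc y ^ 3) τ1 0 :=
        mul_le_mul_of_nonneg_left h1 (Real.exp_pos _).le
    _ < _ := mul_lt_mul_of_pos_right h3 h2

theorem jf_continuous : Continuous jf := by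
  unfold jf
  exact Continuous.mul (by fun_prop) (heat_time_continuous (cont_sc_pow 3) (EG_sc_pow 3) 0)

/-- `Q(S) = 1 - exp(-S/2) E sech(sqrt S z)` dominates `S j(S)`. -/
theorem Q_ge {S : ℝ} (hS : 0 ≤ S) : S * jf S ≤ 1 - Real.exp (-S / 2) * heat sc S 0 := by
  have hd : ∀ τ ∈ Ioo (0:ℝ) S, HasDerivAt (fun τ => -(Real.exp (-τ / 2) * heat sc τ 0)) (jf τ) τ := by
    intro τ hτ
    have h1 := heat_hasDerivAt_σ hasDerivAt_sc' EG_sc hasDerivAt_s1 EG_s1 continuous_s2 EG_s2
      hτ.1 0
    have h2 : HasDerivAt (fun τ : ℝ => Real.exp (-τ / 2)) (Real.exp (-τ / 2) * (-1 / 2)) τ := by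
      exact ((hasDerivAt_id τ).neg.div_const 2).exp
    refine (h2.mul h1).neg.congr_deriv ?_
    have h3 : heat s2 τ 0 = heat sc τ 0 - 2 * heat (fun y => sc y ^ 3) τ 0 := by
      unfold s2
      rw [heat_sub (G := fun y => 2 * sc y ^ 3) continuous_sc EG_sc (by
        exact continuous_const.mul (cont_sc_pow 3)) (EG.of_bdd (C := 2) (fun x => by
        rw [abs_mul, abs_two]; linarith [abs_sc_pow_le 3 x])), heat_const_mul]
    rw [h3]; unfold jf; ring
  have hc : Continuous (fun τ => -(Real.exp (-τ / 2) * heat sc τ 0)) :=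
    (Continuous.mul (by fun_prop) (heat_time_continuous continuous_sc EG_sc 0)).neg
  have h1 := intervalIntegral.integral_eq_sub_of_hasDerivAt_of_le hS hc.continuousOn hd
    (jf_continuous.intervalIntegrable _ _)
  have h2 : ∫ _ in (0:ℝ)..S, jf S ≤ ∫ τ in (0:ℝ)..S, jf τ := by
    refine intervalIntegral.integral_mono_on hS intervalIntegrable_const
      (jf_continuous.intervalIntegrable _ _) fun τ hτ => jf_anti hτ.2
  rw [h1, intervalIntegral.integral_const, smul_eq_mul, sub_zero] at h2
  have h3 : Real.exp (-(0:ℝ) / 2) * heat sc 0 0 = 1 := by simp [sc]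
  rw [h3] at h2
  linarith

theorem cosh_mul_sc (y : ℝ) : Real.cosh y * sc y = 1 := mul_inv_cancel₀ (Real.cosh_pos y).ne'

/-- The main estimate on the correlation derivative. -/
theorem Jf_lt {θ S h r : ℝ} (hθ : 0 < θ) (hS : 0 ≤ S) (hh : 0 ≤ h) (hr : 0 < r)
    (hfix : S = θ * heat (fun y => Real.tanh y ^ 2) S h)
    (hAT : θ * heat (fun y => sc y ^ 4) S h ≤ 1) : θ * Jf S h r < 1 := by
  have her : Real.exp (-r / 2) < 1 := by rw [Real.exp_lt_one_iff]; linarith
  have hep : 0 < Real.exp (-r / 2) := Real.exp_pos _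
  rcases le_or_gt h S with hle | hgt
  · -- case h ≤ S
    have main : heat (fun y => sc y * heat (fun y => sc y ^ 3) r y) S h ≤
        heat (fun y => sc y ^ 4) S h := by
      rcases hS.eq_or_lt with hS0 | hSpos
      · have hh0 : h = 0 := le_antisymm (by rw [← hS0] at hle; exact hle) hh
        rw [hh0, ← hS0, heat_zero, heat_zero]
        have : sc 0 = 1 := by simp [sc]
        rw [this, one_mul, one_pow]
        exact (le_abs_self _).trans (abs_sc3_heat r 0)
      · have c1 : Continuous (fun y => sc y * heat (fun y => sc y ^ 3) r y) :=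
          continuous_sc.mul (cont_sc3_heat r)
        rw [even_tilt c1 (EG_sc.mul (EG.of_bdd (abs_sc3_heat r)))
          (fun y => by rw [sc_neg, sc3_heat_even]) hSpos h,
          even_tilt (cont_sc_pow 4) (EG_sc_pow 4) (fun y => by rw [sc_neg]) hSpos h]
        refine mul_le_mul_of_nonneg_left ?_ (Real.exp_pos _).le
        have ha : (h / S) ^ 2 ≤ 1 := by
          rw [sq_le_one_iff_abs_le_one, abs_of_nonneg (div_nonneg hh hSpos.le)]
          exact (div_le_one hSpos).2 hle
        have := corr_le ha hr.le hSpos.le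
        have e1 : (fun y => Real.cosh (h / S * y) * (sc y * heat (fun y => sc y ^ 3) r y)) =
            fun y => Real.cosh (h / S * y) * sc y * heat (fun y => sc y ^ 3) r y := by
          ext y; ring
        have e2 : (fun y => Real.cosh (h / S * y) * sc y ^ 4) =
            fun y => Real.cosh (h / S * y) * sc y * sc y ^ 3 := by
          ext y; ring
        rw [e1, e2]; exact this
    have h1 : θ * Jf S h r ≤ Real.exp (-r / 2) * (θ * heat (fun y => sc y ^ 4) S h) := by
      unfold Jf
      calc θ * (Real.exp (-r / 2) * heat (fun y => sc y * heat (fun y => sc y ^ 3) r y) S h)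
          = (θ * Real.exp (-r / 2)) * heat (fun y => sc y * heat (fun y => sc y ^ 3) r y) S h := by
            ring
        _ ≤ (θ * Real.exp (-r / 2)) * heat (fun y => sc y ^ 4) S h :=
            mul_le_mul_of_nonneg_left main (by positivity)
        _ = _ := by ring
    calc θ * Jf S h r ≤ Real.exp (-r / 2) * (θ * heat (fun y => sc y ^ 4) S h) := h1
      _ ≤ Real.exp (-r / 2) * 1 := mul_le_mul_of_nonneg_left hAT hep.le
      _ < 1 := by linarith
  · -- case S < h
    have hSpos : 0 < S := by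
      rcases hS.eq_or_lt with hS0 | hSpos
      · exfalso
        rw [← hS0, heat_zero] at hfix
        have : Real.tanh h ≠ 0 := by
          rw [tanh_eq]
          exact mul_ne_zero (fun hc => by
            have := Real.sinh_eq_zero.1 hc
            linarith) (sc_pos h).ne'
        have : 0 < θ * Real.tanh h ^ 2 := by positivity
        linarith
      · exact hSpos
    -- monotonicity in h
    have e3 : EG (fun y => sc y ^ 3) := EG_sc_pow 3
    set H := heat (fun y => sc y ^ 3) r with hH
    set H' := heat (fun y => -((3:ℕ) * sc y ^ 3 * Real.tanh y)) r with hH'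
    have dH : ∀ y, HasDerivAt H (H' y) y := fun y =>
      heat_hasDerivAt_x (hasDerivAt_sc_pow 3) e3 (cont_sc_pow' 3) (EG_sc_pow' 3) r y
    have cH' : Continuous H' := heat_sec_continuous (cont_sc_pow' 3) (EG_sc_pow' 3) r
    have H'odd : ∀ y, H' (-y) = -H' y := by
      intro y
      have h1 : H' y = -heat (fun y => ((3:ℕ) * sc y ^ 3 * Real.tanh y)) r y := by
        rw [hH', ← heat_neg]
      have h2 : H' (-y) = -heat (fun y => ((3:ℕ) * sc y ^ 3 * Real.tanh y)) r (-y) := by
        rw [hH', ← heat_neg]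
      have h3 : heat (fun y => ((3:ℕ) * sc y ^ 3 * Real.tanh y)) r (-y) =
          -heat (fun y => ((3:ℕ) * sc y ^ 3 * Real.tanh y)) r y := by
        rw [← heat_neg]
        unfold heat
        rw [← gam_neg]
        congr 1; ext z
        have : -y + Real.sqrt r * -z = -(y + Real.sqrt r * z) := by ring
        simp only
        rw [this, sc_neg, Real.tanh_neg]; ring
      rw [h2, h3, h1]
    have H'neg : ∀ y, 0 ≤ y → H' y ≤ 0 := by
      intro y hy
      have h1 : H' y = -heat (fun y => ((3:ℕ) * sc y ^ 3 * Real.tanh y)) r y := by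
        rw [hH', ← heat_neg]
      rw [h1, neg_nonpos]
      refine heat_odd_nonneg ?_ ?_ ?_ ?_ r hy
      · exact (continuous_const.mul (continuous_sc.pow 3)).mul continuous_tanh
      · exact EG.of_bdd (C := (3:ℕ)) (fun x => by
          have := abs_sc_pow_tanh_le 3 x
          rwa [abs_neg] at this)
      · intro y; rw [sc_neg, Real.tanh_neg]; ring
      · intro y hy
        exact mul_nonneg (mul_nonneg (by norm_num) (sc_pow_nonneg 3 y)) (tanh_nonneg hy)
    have B1 : heat (fun y => sc y * H y) S h ≤ heat (fun y => sc y * H y) S S := by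
      refine heat_antitone (u' := fun y => s1 y * H y + sc y * H' y)
        (fun y => (hasDerivAt_sc' y).mul (dH y)) (EG_sc.mul (EG.of_bdd (abs_sc3_heat r)))
        ((continuous_s1.mul (cont_sc3_heat r)).add (continuous_sc.mul cH')) ?_ ?_ ?_ S hSpos.le
        hgt.le
      · exact (EG_s1.mul (EG.of_bdd (abs_sc3_heat r))).add
          (EG_sc.mul (EG.of_bdd (heat_abs_le (abs_sc_pow_tanh_le 3) r)))
      · intro y
        rw [show H (-y) = H y from sc3_heat_even r y, H'odd, sc_neg]
        have : s1 (-y) = -s1 y := by unfold s1; rw [sc_neg, Real.tanh_neg]; ring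
        rw [this]; ring
      · intro y hy
        have h1 : s1 y ≤ 0 := by
          unfold s1
          exact neg_nonpos.2 (mul_nonneg (sc_pos y).le (tanh_nonneg hy))
        have h2 := sc3_heat_nonneg r y
        have h3 := H'neg y hy
        have h4 := (sc_pos y).le
        have h5 : s1 y * H y ≤ 0 := mul_nonpos_of_nonpos_of_nonneg h1 h2
        have h6 : sc y * H' y ≤ 0 := mul_nonpos_of_nonneg_of_nonpos h4 h3
        linarith
    have B2 : heat (fun y => sc y * H y) S S =
        Real.exp (-S / 2) * heat (fun y => sc y ^ 3) (r + S) 0 := by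
      have c1 : Continuous (fun y => sc y * H y) := continuous_sc.mul (cont_sc3_heat r)
      rw [even_tilt c1 (EG_sc.mul (EG.of_bdd (abs_sc3_heat r)))
        (fun y => by rw [sc_neg, show H (-y) = H y from sc3_heat_even r y]) hSpos S]
      have e1 : (fun y => Real.cosh (S / S * y) * (sc y * H y)) = fun y => H y := by
        ext y
        rw [div_self hSpos.ne', one_mul, ← mul_assoc, cosh_mul_sc, one_mul]
      rw [e1]
      have e2 : -(S / Real.sqrt S) ^ 2 / 2 = -S / 2 := by
        rw [div_pow, Real.sq_sqrt hSpos.le]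
        field_simp
      rw [e2]
      congr 1
      exact heat_semigroup (cont_sc_pow 3) e3 hr.le hSpos.le 0
    have B3 : Jf S h r ≤ jf (r + S) := by
      unfold Jf jf
      calc Real.exp (-r / 2) * heat (fun y => sc y * H y) S h
          ≤ Real.exp (-r / 2) * (Real.exp (-S / 2) * heat (fun y => sc y ^ 3) (r + S) 0) := by
            rw [← B2]; exact mul_le_mul_of_nonneg_left B1 hep.le
        _ = Real.exp (-(r + S) / 2) * heat (fun y => sc y ^ 3) (r + S) 0 := by
            rw [← mul_assoc, ← Real.exp_add]; congr 2; ring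
    have B4 := Q_ge hSpos.le
    have B5 : heat (fun y => sc y ^ 2) S h ≤ Real.exp (-S / 2) * heat sc S 0 := by
      have k1 : heat (fun y => sc y ^ 2) S h ≤ heat (fun y => sc y ^ 2) S S := by
        refine heat_antitone (hasDerivAt_sc_pow 2) (EG_sc_pow 2) (cont_sc_pow' 2) (EG_sc_pow' 2)
          (fun y => by rw [sc_neg, Real.tanh_neg]; ring) (fun y hy => ?_) S hSpos.le hgt.le
        exact neg_nonpos.2 (mul_nonneg (mul_nonneg (by norm_num) (sc_pow_nonneg 2 y))
          (tanh_nonneg hy))
      refine k1.trans (le_of_eq ?_)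
      rw [even_tilt (cont_sc_pow 2) (EG_sc_pow 2) (fun y => by rw [sc_neg]) hSpos S]
      have e1 : (fun y => Real.cosh (S / S * y) * sc y ^ 2) = sc := by
        ext y
        rw [div_self hSpos.ne', one_mul, sq, ← mul_assoc, cosh_mul_sc, one_mul]
      have e2 : -(S / Real.sqrt S) ^ 2 / 2 = -S / 2 := by
        rw [div_pow, Real.sq_sqrt hSpos.le]
        field_simp
      rw [e1, e2]
    have B6 : heat (fun y => Real.tanh y ^ 2) S h = 1 - heat (fun y => sc y ^ 2) S h := by
      have : (fun y => Real.tanh y ^ 2) = fun y => 1 - sc y ^ 2 := funext tanh_sq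
      rw [this, heat_sub continuous_const (EG.of_bdd (C := 1) (fun _ => by simp)) (cont_sc_pow 2)
        (EG_sc_pow 2), heat_const]
    have B7 : S * (θ * jf S) ≤ S * 1 := by
      calc S * (θ * jf S) = θ * (S * jf S) := by ring
        _ ≤ θ * (1 - Real.exp (-S / 2) * heat sc S 0) := mul_le_mul_of_nonneg_left B4 hθ.le
        _ ≤ θ * heat (fun y => Real.tanh y ^ 2) S h := by
            refine mul_le_mul_of_nonneg_left ?_ hθ.le
            rw [B6]; linarith
        _ = S * 1 := by rw [← hfix, mul_one]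
    have B8 : θ * jf S ≤ 1 := le_of_mul_le_mul_left B7 hSpos
    calc θ * Jf S h r ≤ θ * jf (r + S) := mul_le_mul_of_nonneg_left B3 hθ.le
      _ < θ * jf S := mul_lt_mul_of_pos_left (jf_strict (by linarith)) hθ
      _ ≤ 1 := B8

end Pool.Agent.Helper95A
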