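import Pool.Agent.Helper95A.Gam

set_option autoImplicit false

open MeasureTheory ProbabilityTheory Set Filter Topology

namespace Pool.Agent.Helper95A

noncomputable def GamII (β q h s : ℝ) : ℝ :=
  heat (fun y => 1 - sc y * kq β sc s q y) (2 * β ^ 2 * q) h

noncomputable def GamI (β q h s : ℝ) : ℝ :=
  heat (fun y => mq β q s y ^ 2) (2 * β ^ 2 * s) h

theorem tanh_sq_heat (σ x : ℝ) :
    heat (fun y => Real.tanh y ^ 2) σ x = 1 - heat (fun y => sc y ^ 2) σ x := by
  have : (fun y => Real.tanh y ^ 2) = fun y => 1 - sc y ^ 2 := funext tanh_sq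
  rw [this, heat_sub continuous_const (EG.of_bdd (C := 1) (fun _ => by simp)) (cont_sc_pow 2)
    (EG_sc_pow 2), heat_const]

theorem abs_tanh_sq (x : ℝ) : |Real.tanh x ^ 2| ≤ 1 := by
  rw [abs_pow]; exact pow_le_one₀ (abs_nonneg _) (abs_tanh_le x)

theorem sc_sq_ne : sc 0 ^ 2 ≠ sc 1 ^ 2 := by
  have h0 : sc 0 = 1 := by simp [sc]
  have h1 : sc 1 < 1 := by
    rw [sc]
    exact inv_lt_one_of_one_lt₀ (Real.one_lt_cosh.2 one_ne_zero)
  have h2 := sc_pos 1
  rw [h0]
  nlinarith

theorem GamI_gt {β q h s : ℝ} (hβ : β ≠ 0) (hs0 : 0 ≤ s) (hsq : s < q)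
    (hfix : q = heat (fun y => Real.tanh y ^ 2) (2 * β ^ 2 * q) h)
    (hAT : 2 * β ^ 2 * heat (fun y => sc y ^ 4) (2 * β ^ 2 * q) h ≤ 1) :
    s < GamI β q h s := by
  have hβ2 : 0 < β ^ 2 := by positivity
  set σ := 2 * β ^ 2 * (q - s) with hσ
  have hσ0 : 0 < σ := by
    have : 0 < q - s := by linarith
    positivity
  have hτ0 : 0 ≤ 2 * β ^ 2 * s := by positivity
  have hsum : σ + 2 * β ^ 2 * s = 2 * β ^ 2 * q := by rw [hσ]; ring
  have point : ∀ y, heat (fun y => Real.tanh y ^ 2) σ y - mq β q s y ^ 2 <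
      σ * heat (fun y => sc y ^ 4) σ y := by
    intro y
    have h1 := poincare hasDerivAt_tanh (hasDerivAt_sc_pow 2) (hasDerivAt_sc_pow_tanh 2)
      (cont_sc_pow'' 2) abs_tanh_le (abs_sc_pow_le 2) (abs_sc_pow_tanh_le 2) (abs_sc_pow'' 2)
      hσ0.le y
    have h2 := heat_sq_lt (cont_sc_pow 2) (abs_sc_pow_le 2) sc_sq_ne hσ0 y
    have e : (fun y => (sc y ^ 2) ^ 2) = fun y => sc y ^ 4 := by ext y; ring
    rw [e] at h1 h2
    have h3 : mq β q s y = heat Real.tanh σ y := rfl
    rw [h3]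
    have : σ / 2 * heat (fun y => sc y ^ 2) σ y ^ 2 < σ / 2 * heat (fun y => sc y ^ 4) σ y :=
      mul_lt_mul_of_pos_left h2 (by linarith)
    linarith
  have ct2 : Continuous (fun y => Real.tanh y ^ 2) := continuous_tanh.pow 2
  have et2 : EG (fun y => Real.tanh y ^ 2) := EG.of_bdd abs_tanh_sq
  have cA : Continuous (heat (fun y => Real.tanh y ^ 2) σ) := heat_sec_continuous ct2 et2 σ
  have eA : EG (heat (fun y => Real.tanh y ^ 2) σ) := EG.of_bdd (heat_abs_le abs_tanh_sq σ)
  have cB : Continuous (fun y => mq β q s y ^ 2) := (continuous_mq_sec β q s).pow 2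
  have eB : EG (fun y => mq β q s y ^ 2) := EG.of_bdd (abs_msq β q s)
  have cC : Continuous (heat (fun y => sc y ^ 4) σ) :=
    heat_sec_continuous (cont_sc_pow 4) (EG_sc_pow 4) σ
  have eC : EG (heat (fun y => sc y ^ 4) σ) := EG.of_bdd (heat_abs_le (abs_sc_pow_le 4) σ)
  have eAB : EG (fun y => heat (fun y => Real.tanh y ^ 2) σ y - mq β q s y ^ 2) :=
    EG.of_bdd (C := 1 + 1) fun y => (abs_sub _ _).trans
      (add_le_add (heat_abs_le abs_tanh_sq σ y) (abs_msq β q s y))
  have cAB : Continuous (fun y => heat (fun y => Real.tanh y ^ 2) σ y - mq β q s y ^ 2) :=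
    cA.sub cB
  have cC' : Continuous (fun y => σ * heat (fun y => sc y ^ 4) σ y) := continuous_const.mul cC
  have key := heat_lt cAB eAB cC'
    ((EG.of_bdd (C := |σ|) (F := fun _ => σ) (fun _ => le_rfl)).mul eC) point (2 * β ^ 2 * s) h
  rw [heat_sub cA eA cB eB, heat_const_mul] at key
  have s1 : heat (fun y => heat (fun y => Real.tanh y ^ 2) σ y) (2 * β ^ 2 * s) h =
      heat (fun y => Real.tanh y ^ 2) (2 * β ^ 2 * q) h := by
    rw [heat_semigroup ct2 et2 hσ0.le hτ0, hsum]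
  have s2 : heat (fun y => heat (fun y => sc y ^ 4) σ y) (2 * β ^ 2 * s) h =
      heat (fun y => sc y ^ 4) (2 * β ^ 2 * q) h := by
    rw [heat_semigroup (cont_sc_pow 4) (EG_sc_pow 4) hσ0.le hτ0, hsum]
  change heat (fun y => heat (fun y => Real.tanh y ^ 2) σ y) (2 * β ^ 2 * s) h -
    GamI β q h s < σ * heat (fun y => heat (fun y => sc y ^ 4) σ y) (2 * β ^ 2 * s) h at key
  rw [s1, s2, ← hfix] at key
  have h5 : σ * heat (fun y => sc y ^ 4) (2 * β ^ 2 * q) h ≤ q - s := by
    have : σ * heat (fun y => sc y ^ 4) (2 * β ^ 2 * q) h =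
      (q - s) * (2 * β ^ 2 * heat (fun y => sc y ^ 4) (2 * β ^ 2 * q) h) := by rw [hσ]; ring
    rw [this]
    exact (mul_le_mul_of_nonneg_left hAT (by linarith)).trans (by rw [mul_one])
  linarith

theorem kq_forward {β : ℝ} (hβ : β ≠ 0) {q s : ℝ} (hqs : q ≤ s) (x : ℝ) :
    kq β sc s q x = sc x - ∫ r in q..s, 2 * β ^ 2 * kq β (fun y => sc y ^ 3) r q x := by
  have c1 : Continuous (fun r => kq β sc r q x) :=
    (continuous_kq β continuous_sc EG_sc).comp (f := fun r : ℝ => ((r, q, x) : ℝ × ℝ × ℝ))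
      (by fun_prop)
  have c2 : Continuous (fun r => kq β (fun y => sc y ^ 3) r q x) :=
    (continuous_kq β (cont_sc_pow 3) (EG_sc_pow 3)).comp
      (f := fun r : ℝ => ((r, q, x) : ℝ × ℝ × ℝ)) (by fun_prop)
  have hβ2 : 0 < β ^ 2 := by positivity
  have hd : ∀ r ∈ Ioo q s, HasDerivAt (fun r => kq β sc r q x)
      (-(2 * β ^ 2 * kq β (fun y => sc y ^ 3) r q x)) r := by
    intro r hr
    have hσ : 0 < 2 * β ^ 2 * (r - q) := by
      have : 0 < r - q := by linarith [hr.1]
      positivity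
    have h0 := heat_hasDerivAt_σ hasDerivAt_sc' EG_sc hasDerivAt_s1 EG_s1 continuous_s2 EG_s2 hσ x
    have h1 : HasDerivAt (fun r : ℝ => 2 * β ^ 2 * (r - q)) (2 * β ^ 2) r := by
      have := ((hasDerivAt_id r).sub_const q).const_mul (2 * β ^ 2)
      refine this.congr_deriv ?_
      ring
    have h2 := h0.comp r h1
    have h3 : HasDerivAt (fun r : ℝ => Real.exp (-β ^ 2 * (r - q)))
        (-β ^ 2 * Real.exp (-β ^ 2 * (r - q))) r := by
      have := (((hasDerivAt_id r).sub_const q).const_mul (-β ^ 2)).exp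
      refine this.congr_deriv ?_
      simp only [id_eq]; ring
    have h4 := h3.mul h2
    have e : (fun r => kq β sc r q x) =ᶠ[𝓝 r] (fun r : ℝ => Real.exp (-β ^ 2 * (r - q))) *
        ((fun s => heat sc s x) ∘ fun r : ℝ => 2 * β ^ 2 * (r - q)) := by
      filter_upwards [Ioi_mem_nhds hr.1] with y hy
      have : 0 ≤ y - q := sub_nonneg.2 (le_of_lt hy)
      simp only [kq, max_eq_left this, Pi.mul_apply, Function.comp]
    refine (h4.congr_of_eventuallyEq e).congr_deriv ?_
    have h5 : 0 ≤ r - q := by linarith [hr.1]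
    have h6 : heat s2 (2 * β ^ 2 * (r - q)) x = heat sc (2 * β ^ 2 * (r - q)) x -
        2 * heat (fun y => sc y ^ 3) (2 * β ^ 2 * (r - q)) x := by
      unfold s2
      rw [heat_sub (G := fun y => 2 * sc y ^ 3) continuous_sc EG_sc (by
        exact continuous_const.mul (cont_sc_pow 3)) (EG.of_bdd (C := 2) (fun x => by
        rw [abs_mul, abs_two]; linarith [abs_sc_pow_le 3 x])), heat_const_mul]
    simp only [kq, max_eq_left h5, Function.comp]
    rw [h6]; ring
  have h1 := intervalIntegral.integral_eq_sub_of_hasDerivAt_of_le hqs c1.continuousOn hd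
    ((continuous_const.mul c2).neg.intervalIntegrable _ _)
  rw [intervalIntegral.integral_neg] at h1
  have h2 : kq β sc q q x = sc x := by simp [kq]
  rw [h2] at h1
  linarith

theorem GamII_eq {β q h s : ℝ} (hβ : β ≠ 0) (hqs : q ≤ s) :
    GamII β q h s = heat (fun y => Real.tanh y ^ 2) (2 * β ^ 2 * q) h +
      ∫ r in q..s, 2 * β ^ 2 * Jf (2 * β ^ 2 * q) h (2 * β ^ 2 * (r - q)) := by
  set S := 2 * β ^ 2 * q with hS
  have c0 := continuous_kq β (cont_sc_pow 3) (EG_sc_pow 3)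
  have e1 : (fun y => 1 - sc y * kq β sc s q y) = fun y => Real.tanh y ^ 2 +
      ∫ r in q..s, (2 * β ^ 2) * (sc y * kq β (fun y => sc y ^ 3) r q y) := by
    ext y
    rw [kq_forward hβ hqs y, tanh_sq, mul_sub, ← intervalIntegral.integral_const_mul]
    have : ∀ r, sc y * (2 * β ^ 2 * kq β (fun y => sc y ^ 3) r q y) =
      (2 * β ^ 2) * (sc y * kq β (fun y => sc y ^ 3) r q y) := fun r => by ring
    simp only [this]; ring
  have cΦ : Continuous (fun p : ℝ × ℝ => sc p.2 * kq β (fun y => sc y ^ 3) p.1 q p.2) :=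
    (continuous_sc.comp continuous_snd).mul (c0.comp
      (f := fun p : ℝ × ℝ => ((p.1, q, p.2) : ℝ × ℝ × ℝ)) (by fun_prop))
  have bΦ : ∀ r y, |sc y * kq β (fun y => sc y ^ 3) r q y| ≤ 1 := fun r y => by
    rw [abs_mul]
    exact mul_le_one₀ (abs_sc_le y) (abs_nonneg _) (abs_kq_le β (abs_sc_pow_le 3) r q y)
  have csw : Continuous (fun y => ∫ r in q..s, (2 * β ^ 2) *
      (sc y * kq β (fun y => sc y ^ 3) r q y)) := by
    have : Continuous (fun p : ℝ × ℝ => (2 * β ^ 2) * (sc p.1 * kq β (fun y => sc y ^ 3) p.2 q p.1)) :=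
      continuous_const.mul (cΦ.comp (f := fun p : ℝ × ℝ => ((p.2, p.1) : ℝ × ℝ)) (by fun_prop))
    exact intervalIntegral.continuous_parametric_intervalIntegral_of_continuous' this q s
  have bsw : ∀ y, |∫ r in q..s, (2 * β ^ 2) * (sc y * kq β (fun y => sc y ^ 3) r q y)| ≤
      2 * β ^ 2 * |s - q| := by
    intro y
    have := intervalIntegral.norm_integral_le_of_norm_le_const (a := q) (b := s)
      (f := fun r => (2 * β ^ 2) * (sc y * kq β (fun y => sc y ^ 3) r q y)) (C := 2 * β ^ 2)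
      (fun r _ => by
        rw [Real.norm_eq_abs, abs_mul, abs_of_nonneg (by positivity : 0 ≤ 2 * β ^ 2)]
        exact mul_le_of_le_one_right (by positivity) (bΦ r y))
    rwa [Real.norm_eq_abs] at this
  unfold GamII
  have ct2 : Continuous (fun y => Real.tanh y ^ 2) := continuous_tanh.pow 2
  rw [e1, heat_add ct2 (EG.of_bdd abs_tanh_sq) csw (EG.of_bdd bsw)]
  congr 1
  have := heat_interval_swap (a := fun _ => 2 * β ^ 2)
    (Φ := fun r y => sc y * kq β (fun y => sc y ^ 3) r q y) (A := |2 * β ^ 2|) (D := 1) hqs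
    measurable_const (fun _ => le_rfl) cΦ bΦ S h
  rw [this]
  refine intervalIntegral.integral_congr fun r hr => ?_
  rw [uIcc_of_le hqs] at hr
  congr 1
  have h5 : 0 ≤ r - q := by linarith [hr.1]
  have e2 : (fun y => sc y * kq β (fun y => sc y ^ 3) r q y) = fun y =>
      Real.exp (-(2 * β ^ 2 * (r - q)) / 2) *
        (sc y * heat (fun y => sc y ^ 3) (2 * β ^ 2 * (r - q)) y) := by
    ext y
    simp only [kq, max_eq_left h5]
    have : -(2 * β ^ 2 * (r - q)) / 2 = -β ^ 2 * (r - q) := by ring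
    rw [this]; ring
  rw [e2, heat_const_mul]
  rfl

theorem Jf_continuous (S h : ℝ) : Continuous (Jf S h) := by
  unfold Jf
  refine Continuous.mul (by fun_prop) ?_
  have hc : Continuous (fun p : ℝ × ℝ => sc p.2 * heat (fun y => sc y ^ 3) p.1 p.2) :=
    (continuous_sc.comp continuous_snd).mul (heat_continuous (cont_sc_pow 3) (EG_sc_pow 3))
  have := heat_continuous_param (Ψ := fun r y => sc y * heat (fun y => sc y ^ 3) r y) (C := 1)
    (a := 0) hc zero_le_one le_rfl (fun r y => by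
      rw [abs_mul]
      simpa using mul_le_one₀ (abs_sc_le y) (abs_nonneg _) (abs_sc3_heat r y))
  exact this.comp (f := fun r : ℝ => ((r, S, h) : ℝ × ℝ × ℝ)) (by fun_prop)

theorem GamII_lt {β q h s : ℝ} (hβ : β ≠ 0) (hq : 0 ≤ q) (hh : 0 ≤ h) (hqs : q < s)
    (hfix : q = heat (fun y => Real.tanh y ^ 2) (2 * β ^ 2 * q) h)
    (hAT : 2 * β ^ 2 * heat (fun y => sc y ^ 4) (2 * β ^ 2 * q) h ≤ 1) :
    GamII β q h s < s := by
  have hβ2 : 0 < β ^ 2 := by positivity
  rw [GamII_eq hβ hqs.le, ← hfix]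
  have hc : Continuous (fun r => 2 * β ^ 2 * Jf (2 * β ^ 2 * q) h (2 * β ^ 2 * (r - q))) :=
    continuous_const.mul ((Jf_continuous _ _).comp (by fun_prop))
  have hlt : ∀ r, q < r → 2 * β ^ 2 * Jf (2 * β ^ 2 * q) h (2 * β ^ 2 * (r - q)) < 1 := by
    intro r hr
    refine Jf_lt (by positivity) (by positivity) hh ?_ ?_ hAT
    · have : 0 < r - q := by linarith
      positivity
    · rw [← hfix]
  have key : ∫ r in q..s, 2 * β ^ 2 * Jf (2 * β ^ 2 * q) h (2 * β ^ 2 * (r - q)) <
      ∫ _ in q..s, (1:ℝ) := by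
    refine intervalIntegral.integral_lt_integral_of_continuousOn_of_le_of_exists_lt hqs
      hc.continuousOn continuousOn_const (fun r hr => (hlt r hr.1).le)
      ⟨s, ⟨hqs.le, le_rfl⟩, hlt s hqs⟩
  rw [intervalIntegral.integral_const, smul_eq_mul, mul_one] at key
  linarith

theorem Wq_zero {β q : ℝ} {a : ℝ → ℝ} (hq : q ∈ Icc (0:ℝ) 1) (ham : Measurable a)
    (hab : ∀ s, |a s| ≤ 1) (h : ℝ) :
    Wq β q a 0 h = β ^ 2 * (∫ s in q..1, a s * GamII β q h s) +
      β ^ 2 * ∫ s in (0:ℝ)..q, a s * GamI β q h s := by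
  unfold Wq
  rw [clq_of_lt hq.1, min_eq_left hq.1, sub_zero]
  congr 1
  · have c1 := continuous_kq β continuous_sc EG_sc
    have cΦ : Continuous (fun p : ℝ × ℝ => 1 - sc p.2 * kq β sc p.1 q p.2) :=
      continuous_const.sub ((continuous_sc.comp continuous_snd).mul (c1.comp
        (f := fun p : ℝ × ℝ => ((p.1, q, p.2) : ℝ × ℝ × ℝ)) (by fun_prop)))
    have bΦ : ∀ r y, |1 - sc y * kq β sc r q y| ≤ 2 := fun r y => by
      refine (abs_sub _ _).trans ?_
      rw [abs_one, abs_mul]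
      have := mul_le_one₀ (abs_sc_le y) (abs_nonneg _) (abs_kq_le β abs_sc_le r q y)
      linarith
    have e1 : WII β a q = fun y => β ^ 2 * ∫ s in q..1, a s * (1 - sc y * kq β sc s q y) := by
      ext y
      unfold WII Iq
      rw [← mul_sub, ← intervalIntegral.integral_const_mul, ← intervalIntegral.integral_sub]
      · congr 1
        refine intervalIntegral.integral_congr fun s _ => ?_
        ring
      · exact ii_of_bdd ham hab continuous_const _ _
      · exact (ii_of_bdd ham hab (c1.comp (f := fun s : ℝ => ((s, q, y) : ℝ × ℝ × ℝ))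
          (by fun_prop)) _ _).const_mul _
    rw [e1, heat_const_mul, heat_interval_swap hq.2 ham hab cΦ bΦ]
    rfl
  · congr 1
    refine intervalIntegral.integral_congr fun s _ => ?_
    simp only [KI, GamI, sub_zero]

theorem GamII_continuous (β q h : ℝ) : Continuous (GamII β q h) := by
  have c1 := continuous_kq β continuous_sc EG_sc
  have cΦ : Continuous (fun p : ℝ × ℝ => 1 - sc p.2 * kq β sc p.1 q p.2) :=
    continuous_const.sub ((continuous_sc.comp continuous_snd).mul (c1.comp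
      (f := fun p : ℝ × ℝ => ((p.1, q, p.2) : ℝ × ℝ × ℝ)) (by fun_prop)))
  have := heat_continuous_param (Ψ := fun s y => 1 - sc y * kq β sc s q y) (C := 2)
    (a := 0) cΦ zero_le_two le_rfl (fun r y => by
      simp only [zero_mul, Real.exp_zero, mul_one]
      refine (abs_sub _ _).trans ?_
      rw [abs_one, abs_mul]
      have := mul_le_one₀ (abs_sc_le y) (abs_nonneg _) (abs_kq_le β abs_sc_le r q y)
      linarith)
  exact this.comp (f := fun s : ℝ => ((s, 2 * β ^ 2 * q, h) : ℝ × ℝ × ℝ)) (by fun_prop)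

theorem GamI_continuous (β q h : ℝ) : Continuous (GamI β q h) := by
  have := (continuous_KI β q).comp (f := fun s : ℝ => ((s, 0, h) : ℝ × ℝ × ℝ)) (by fun_prop)
  refine this.congr fun s => ?_
  simp [KI, GamI]

end Pool.Agent.Helper95A
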