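import Pool.Agent.Helper95A.Compare

set_option autoImplicit false

open MeasureTheory ProbabilityTheory Set Filter Topology

namespace Pool.Agent.Helper95A

open B3

/-- growth rate of the third derivative -/
noncomputable def Kf (β t : ℝ) : ℝ :=
  Real.exp (6 * CC (2 * β ^ 2) * (2 * β ^ 2 * (1 - t))) * (10 / 3) - 4 / 3

theorem Kf_nonneg {β t : ℝ} (ht : t ≤ 1) : 0 ≤ Kf β t := by
  unfold Kf
  have h := CC_nonneg (2 * β ^ 2)
  have h2 : 0 ≤ 6 * CC (2 * β ^ 2) * (2 * β ^ 2 * (1 - t)) := by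
    have : 0 ≤ 1 - t := by linarith
    positivity
  have := Real.one_le_exp h2
  linarith

theorem Kf_anti {β s t : ℝ} (hst : s ≤ t) : Kf β t ≤ Kf β s := by
  unfold Kf
  have h := CC_nonneg (2 * β ^ 2)
  have : Real.exp (6 * CC (2 * β ^ 2) * (2 * β ^ 2 * (1 - t))) ≤
      Real.exp (6 * CC (2 * β ^ 2) * (2 * β ^ 2 * (1 - s))) := by
    refine Real.exp_le_exp.2 ?_
    have : 1 - t ≤ 1 - s := by linarith
    gcongr
  linarith

/-- Solutions with full control on `[a,1]`. -/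
structure Good (β a : ℝ) (ζ : ℝ → ℝ) (f f1 f2 f3 : ℝ → ℝ → ℝ) : Prop where
  c0 : ContinuousOn (fun p : ℝ × ℝ => f p.1 p.2) (Icc a 1 ×ˢ univ)
  c1 : ContinuousOn (fun p : ℝ × ℝ => f1 p.1 p.2) (Icc a 1 ×ˢ univ)
  c2 : ContinuousOn (fun p : ℝ × ℝ => f2 p.1 p.2) (Icc a 1 ×ˢ univ)
  b : ∀ t ∈ Icc a 1, B3 (Kf β t) (f t) (f1 t) (f2 t) (f3 t)
  term : ∀ x, f 1 x = Real.log (Real.cosh x)
  dt : ∀ t ∈ Ico a 1, ∀ x, HasDerivWithinAt (fun s => f s x)
    (-β ^ 2 * (f2 t x + ζ t * f1 t x ^ 2)) (Ici t) t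

theorem good_one (β : ℝ) (ζ : ℝ → ℝ) : Good β 1 ζ (fun _ x => Real.log (Real.cosh x))
    (fun _ => Real.tanh) (fun _ x => sc x ^ 2)
    (fun _ x => -((2:ℕ) * sc x ^ 2 * Real.tanh x)) where
  c0 := (continuous_logcosh.comp continuous_snd).continuousOn
  c1 := (continuous_tanh.comp continuous_snd).continuousOn
  c2 := ((cont_sc_pow 2).comp continuous_snd).continuousOn
  b := fun t ht => by
    have e : t = 1 := le_antisymm ht.2 ht.1
    have : Kf β t = 2 := by rw [e]; unfold Kf; simp; norm_num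
    rw [this]; exact logcosh_B3
  term := fun _ => rfl
  dt := fun t ht => absurd ht.2 (not_lt.2 ht.1)

theorem glue_cont {a b : ℝ} {f g : ℝ → ℝ → ℝ}
    (hf : Continuous (fun p : ℝ × ℝ => f p.1 p.2))
    (hg : ContinuousOn (fun p : ℝ × ℝ => g p.1 p.2) (Icc b 1 ×ˢ univ))
    (heq : ∀ x, f b x = g b x) :
    ContinuousOn (fun p : ℝ × ℝ => (if p.1 < b then f p.1 else g p.1) p.2) (Icc a 1 ×ˢ univ) := by
  have hsub : (Icc a 1 ×ˢ univ : Set (ℝ × ℝ)) ⊆ (Icc a b ×ˢ univ) ∪ (Icc b 1 ×ˢ univ) := by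
    rintro ⟨t, x⟩ ⟨ht, _⟩
    rcases le_total t b with h | h
    · exact Or.inl ⟨⟨ht.1, h⟩, mem_univ _⟩
    · exact Or.inr ⟨⟨h, ht.2⟩, mem_univ _⟩
  refine ContinuousOn.mono ?_ hsub
  refine ContinuousOn.union_of_isClosed ?_ ?_ (isClosed_Icc.prod isClosed_univ)
    (isClosed_Icc.prod isClosed_univ)
  · refine hf.continuousOn.congr ?_
    rintro ⟨t, x⟩ ⟨ht, _⟩
    simp only
    split_ifs with h
    · rfl
    · have : t = b := le_antisymm ht.2 (not_lt.1 h)
      rw [this, heq]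
  · refine hg.congr ?_
    rintro ⟨t, x⟩ ⟨ht, _⟩
    simp only [if_neg (not_lt.2 ht.1)]

theorem good_extend {β a b c : ℝ} {ζ : ℝ → ℝ} (hβ : β ≠ 0) (ha : 0 ≤ a) (_hab : a ≤ b)
    (hb1 : b ≤ 1) (hc0 : 0 < c) (hc1 : c ≤ 1) (hζ : ∀ t ∈ Ico a b, ζ t = c)
    {f f1 f2 f3 : ℝ → ℝ → ℝ} (h : Good β b ζ f f1 f2 f3) :
    ∃ g g1 g2 g3 : ℝ → ℝ → ℝ, Good β a ζ g g1 g2 g3 := by
  have hβ2 : 0 < β ^ 2 := by positivity
  have hbb : b ∈ Icc b 1 := ⟨le_rfl, hb1⟩
  have hB := h.b b hbb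
  have hline : Continuous (fun p : ℝ × ℝ => ((2 * β ^ 2 * (b - p.1), p.2) : ℝ × ℝ)) := by fun_prop
  refine ⟨fun t => if t < b then st c (f b) (2 * β ^ 2 * (b - t)) else f t,
    fun t => if t < b then st1 c (f b) (f1 b) (2 * β ^ 2 * (b - t)) else f1 t,
    fun t => if t < b then st2 c (f b) (f1 b) (f2 b) (2 * β ^ 2 * (b - t)) else f2 t,
    fun t => if t < b then st3 c (f b) (f1 b) (f2 b) (f3 b) (2 * β ^ 2 * (b - t)) else f3 t,
    ?_, ?_, ?_, ?_, ?_, ?_⟩
  · refine glue_cont (f := fun t x => st c (f b) (2 * β ^ 2 * (b - t)) x)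
      ((hB.cst hc0).comp hline) h.c0 fun x => ?_
    simp only [sub_self, mul_zero]
    exact st_zero hc0 x le_rfl
  · refine glue_cont (f := fun t x => st1 c (f b) (f1 b) (2 * β ^ 2 * (b - t)) x)
      ((hB.cst1 hc0).comp hline) h.c1 fun x => ?_
    simp only [sub_self, mul_zero, st1, heat_zero, E1, E0]
    have := (Real.exp_pos (c * f b x)).ne'
    field_simp
  · refine glue_cont (f := fun t x => st2 c (f b) (f1 b) (f2 b) (2 * β ^ 2 * (b - t)) x)
      ((hB.cst2 hc0).comp hline) h.c2 fun x => ?_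
    simp only [sub_self, mul_zero, st2, heat_zero, E1, E0, E2]
    have := (Real.exp_pos (c * f b x)).ne'
    field_simp
    ring
  · intro t ht
    rcases lt_or_ge t b with htb | htb
    · simp only [if_pos htb]
      have hσ : 0 ≤ 2 * β ^ 2 * (b - t) := by
        have : 0 ≤ b - t := by linarith
        positivity
      have hσS : 2 * β ^ 2 * (b - t) ≤ 2 * β ^ 2 := by
        have : b - t ≤ 1 := by linarith [ht.1]
        nlinarith
      refine (hB.step hc0 hc1 hσ hσS).mono ?_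
      have hC := CC_nonneg (2 * β ^ 2)
      set X := CC (2 * β ^ 2) * (2 * β ^ 2 * (b - t)) with hX
      have hX0 : 0 ≤ X := mul_nonneg hC hσ
      have h1 : Kf β b + (6 * Kf β b + 8) * X = (Kf β b + 4 / 3) * (1 + 6 * X) - 4 / 3 := by ring
      rw [h1]
      have h2 : 1 + 6 * X ≤ Real.exp (6 * X) := by
        have := Real.add_one_le_exp (6 * X)
        linarith
      have h3 : 0 ≤ Kf β b + 4 / 3 := by have := Kf_nonneg (β := β) hb1; linarith
      have h4 : Kf β t = (Kf β b + 4 / 3) * Real.exp (6 * X) - 4 / 3 := by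
        unfold Kf
        have : 6 * CC (2 * β ^ 2) * (2 * β ^ 2 * (1 - t)) =
          6 * CC (2 * β ^ 2) * (2 * β ^ 2 * (1 - b)) + 6 * X := by rw [hX]; ring
        rw [this, Real.exp_add]; ring
      rw [h4]
      have := mul_le_mul_of_nonneg_left h2 h3
      linarith
    · simp only [if_neg (not_lt.2 htb)]
      exact h.b t ⟨htb, ht.2⟩
  · intro x
    simp only [if_neg (not_lt.2 hb1)]
    exact h.term x
  · intro t ht x
    rcases lt_or_ge t b with htb | htb
    · simp only [if_pos htb]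
      have hσ : 0 < 2 * β ^ 2 * (b - t) := by
        have : 0 < b - t := by linarith
        positivity
      have d1 := hB.dst_σ hc0 hσ x
      have d2 : HasDerivAt (fun s : ℝ => 2 * β ^ 2 * (b - s)) (-(2 * β ^ 2)) t := by
        have := ((hasDerivAt_id t).const_sub b).const_mul (2 * β ^ 2)
        refine this.congr_deriv ?_
        ring
      have d3 := (d1.comp t d2).hasDerivWithinAt (s := Ici t)
      have hev : (fun s => (if s < b then st c (f b) (2 * β ^ 2 * (b - s)) else f s) x) =ᶠ[𝓝[Ici t] t]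
          (fun s => st c (f b) s x) ∘ fun s : ℝ => 2 * β ^ 2 * (b - s) := by
        have : Ico t b ∈ 𝓝[Ici t] t := Ico_mem_nhdsGE htb
        filter_upwards [this] with s hs
        simp only [if_pos hs.2, Function.comp]
      refine (d3.congr_of_eventuallyEq_of_mem hev (by simp)).congr_deriv ?_
      rw [hζ t ⟨ht.1, htb⟩]
      ring
    · simp only [if_neg (not_lt.2 htb)]
      refine (h.dt t ⟨htb, ht.2⟩ x).congr (fun s hs => ?_) ?_
      · simp only [if_neg (not_lt.2 (htb.trans hs))]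
      · simp only [if_neg (not_lt.2 htb)]

/-- Piecewise constant orders. -/
noncomputable def stepZ (N : ℕ) (c : ℕ → ℝ) (t : ℝ) : ℝ := c ⌊(N:ℝ) * t⌋₊

theorem good_step {β : ℝ} (hβ : β ≠ 0) {N : ℕ} (hN : 0 < N) {c : ℕ → ℝ}
    (hc : ∀ k, 0 < c k ∧ c k ≤ 1) :
    ∃ g g1 g2 g3 : ℝ → ℝ → ℝ, Good β 0 (stepZ N c) g g1 g2 g3 := by
  have hN' : (0:ℝ) < N := by exact_mod_cast hN
  have key : ∀ j : ℕ, j ≤ N → ∃ g g1 g2 g3 : ℝ → ℝ → ℝ,
      Good β (((N - j : ℕ) : ℝ) / N) (stepZ N c) g g1 g2 g3 := by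
    intro j
    induction j with
    | zero =>
      intro _
      rw [Nat.sub_zero, div_self hN'.ne']
      exact ⟨_, _, _, _, good_one β _⟩
    | succ j ih =>
      intro hj
      obtain ⟨g, g1, g2, g3, hg⟩ := ih (by omega)
      have e : N - j = (N - (j + 1)) + 1 := by omega
      set k := N - (j + 1) with hk
      rw [e] at hg
      refine good_extend (b := ((k + 1 : ℕ) : ℝ) / N) (c := c k) hβ (by positivity) ?_ ?_
        (hc k).1 (hc k).2 ?_ hg
      · push_cast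
        gcongr
        linarith
      · rw [div_le_one hN']
        have : k + 1 ≤ N := by omega
        exact_mod_cast this
      · intro t ht
        unfold stepZ
        have ht0 : 0 ≤ t := le_trans (by positivity) ht.1
        have h1 : ⌊(N:ℝ) * t⌋₊ = k := by
          rw [Nat.floor_eq_iff (mul_nonneg hN'.le ht0)]
          have h2 := ht.1
          have h3 := ht.2
          rw [div_le_iff₀ hN'] at h2
          rw [lt_div_iff₀ hN'] at h3
          push_cast at h3
          constructor <;> linarith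
        rw [h1]
  obtain ⟨g, g1, g2, g3, hg⟩ := key N le_rfl
  rw [Nat.sub_self, Nat.cast_zero, zero_div] at hg
  exact ⟨g, g1, g2, g3, hg⟩

end Pool.Agent.Helper95A
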