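import Mathlib

set_option autoImplicit false

open MeasureTheory ProbabilityTheory Set Filter Topology

namespace Pool.Agent.Helper95A

/-- The standard Gaussian law. -/
noncomputable abbrev gam : Measure ℝ := gaussianReal 0 1

/-- The heat evolution `E F(x + sqrt σ z)`. -/
noncomputable def heat (F : ℝ → ℝ) (σ x : ℝ) : ℝ := ∫ z, F (x + Real.sqrt σ * z) ∂gam

/-- Exponential growth. -/
def EG (F : ℝ → ℝ) : Prop := ∃ C a : ℝ, 0 ≤ C ∧ 0 ≤ a ∧ ∀ x, |F x| ≤ C * Real.exp (a * |x|)

theorem integrable_exp_abs (a : ℝ) : Integrable (fun z : ℝ => Real.exp (a * |z|)) gam := by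
  have h1 : Integrable (fun z : ℝ => Real.exp (a * z)) gam := integrable_exp_mul_gaussianReal a
  have h2 : Integrable (fun z : ℝ => Real.exp (-a * z)) gam := integrable_exp_mul_gaussianReal (-a)
  refine (h1.add h2).mono' (by fun_prop) (Eventually.of_forall fun z => ?_)
  rw [Real.norm_of_nonneg (Real.exp_pos _).le]
  simp only [Pi.add_apply]
  rcases le_total 0 z with h | h
  · rw [abs_of_nonneg h]; linarith [Real.exp_pos (-a * z)]
  · rw [abs_of_nonpos h]
    have : a * -z = -a * z := by ring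
    rw [this]; linarith [Real.exp_pos (a * z)]

theorem abs_le_exp_abs (z : ℝ) : |z| ≤ Real.exp |z| := by
  have := Real.add_one_le_exp |z|
  linarith

theorem integrable_exp_abs_mul (a : ℝ) :
    Integrable (fun z : ℝ => Real.exp (a * |z|) * |z|) gam := by
  refine (integrable_exp_abs (a + 1)).mono' (by fun_prop) (Eventually.of_forall fun z => ?_)
  rw [Real.norm_of_nonneg (mul_nonneg (Real.exp_pos _).le (abs_nonneg _)), add_mul, Real.exp_add,
    one_mul]
  exact mul_le_mul_of_nonneg_left (abs_le_exp_abs z) (Real.exp_pos _).le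

theorem EG.bound {C a : ℝ} {F : ℝ → ℝ} (hC : 0 ≤ C) (ha : 0 ≤ a)
    (h : ∀ x, |F x| ≤ C * Real.exp (a * |x|)) {x X s S : ℝ} (hx : |x| ≤ X) (hs : 0 ≤ s)
    (hsS : s ≤ S) (z : ℝ) :
    |F (x + s * z)| ≤ C * Real.exp (a * X) * Real.exp (a * S * |z|) := by
  refine (h _).trans ?_
  rw [mul_assoc, ← Real.exp_add]
  refine mul_le_mul_of_nonneg_left (Real.exp_le_exp.2 ?_) hC
  have h1 : |x + s * z| ≤ X + S * |z| := by
    refine (abs_add_le _ _).trans (add_le_add hx ?_)
    rw [abs_mul, abs_of_nonneg hs]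
    exact mul_le_mul_of_nonneg_right hsS (abs_nonneg z)
  calc a * |x + s * z| ≤ a * (X + S * |z|) := mul_le_mul_of_nonneg_left h1 ha
    _ = a * X + a * S * |z| := by ring

theorem EG.of_bdd {F : ℝ → ℝ} {C : ℝ} (h : ∀ x, |F x| ≤ C) : EG F :=
  ⟨C, 0, (abs_nonneg _).trans (h 0), le_rfl, fun x => by simpa using h x⟩

theorem EG.add {F G : ℝ → ℝ} (hF : EG F) (hG : EG G) : EG (fun x => F x + G x) := by
  obtain ⟨C, a, hC, ha, h⟩ := hF
  obtain ⟨D, b, hD, hb, k⟩ := hG
  refine ⟨C + D, max a b, by positivity, le_max_of_le_left ha, fun x => ?_⟩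
  refine (abs_add_le _ _).trans ?_
  rw [add_mul]
  refine add_le_add ((h x).trans ?_) ((k x).trans ?_)
  · exact mul_le_mul_of_nonneg_left (Real.exp_le_exp.2
      (mul_le_mul_of_nonneg_right (le_max_left _ _) (abs_nonneg _))) hC
  · exact mul_le_mul_of_nonneg_left (Real.exp_le_exp.2
      (mul_le_mul_of_nonneg_right (le_max_right _ _) (abs_nonneg _))) hD

theorem EG.mul {F G : ℝ → ℝ} (hF : EG F) (hG : EG G) : EG (fun x => F x * G x) := by
  obtain ⟨C, a, hC, ha, h⟩ := hF
  obtain ⟨D, b, hD, hb, k⟩ := hG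
  refine ⟨C * D, a + b, by positivity, by positivity, fun x => ?_⟩
  rw [abs_mul, add_mul, Real.exp_add]
  calc |F x| * |G x| ≤ (C * Real.exp (a * |x|)) * (D * Real.exp (b * |x|)) :=
        mul_le_mul (h x) (k x) (abs_nonneg _) ((abs_nonneg _).trans (h x))
    _ = C * D * (Real.exp (a * |x|) * Real.exp (b * |x|)) := by ring

theorem heat_integrable {F : ℝ → ℝ} (hF : Continuous F) (hg : EG F) (σ x : ℝ) :
    Integrable (fun z => F (x + Real.sqrt σ * z)) gam := by
  obtain ⟨C, a, hC, ha, h⟩ := hg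
  refine ((integrable_exp_abs (a * Real.sqrt σ)).const_mul (C * Real.exp (a * |x|))).mono'
    (by fun_prop) (Eventually.of_forall fun z => ?_)
  rw [Real.norm_eq_abs]
  exact EG.bound hC ha h le_rfl (Real.sqrt_nonneg _) le_rfl z

theorem heat_of_nonpos (F : ℝ → ℝ) {σ : ℝ} (hσ : σ ≤ 0) (x : ℝ) : heat F σ x = F x := by
  simp [heat, Real.sqrt_eq_zero_of_nonpos hσ]

@[simp] theorem heat_zero (F : ℝ → ℝ) (x : ℝ) : heat F 0 x = F x := heat_of_nonpos F le_rfl x

theorem heat_const (c σ x : ℝ) : heat (fun _ => c) σ x = c := by simp [heat]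

theorem heat_add {F G : ℝ → ℝ} (hF : Continuous F) (hg : EG F) (hG : Continuous G) (hg' : EG G)
    (σ x : ℝ) : heat (fun y => F y + G y) σ x = heat F σ x + heat G σ x :=
  integral_add (heat_integrable hF hg σ x) (heat_integrable hG hg' σ x)

theorem heat_sub {F G : ℝ → ℝ} (hF : Continuous F) (hg : EG F) (hG : Continuous G) (hg' : EG G)
    (σ x : ℝ) : heat (fun y => F y - G y) σ x = heat F σ x - heat G σ x :=
  integral_sub (heat_integrable hF hg σ x) (heat_integrable hG hg' σ x)

theorem heat_const_mul (F : ℝ → ℝ) (c σ x : ℝ) : heat (fun y => c * F y) σ x = c * heat F σ x :=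
  integral_const_mul c _

theorem heat_neg (F : ℝ → ℝ) (σ x : ℝ) : heat (fun y => - F y) σ x = - heat F σ x :=
  integral_neg _

theorem heat_mono {F G : ℝ → ℝ} (hF : Continuous F) (hg : EG F) (hG : Continuous G) (hg' : EG G)
    (h : ∀ x, F x ≤ G x) (σ x : ℝ) : heat F σ x ≤ heat G σ x :=
  integral_mono (heat_integrable hF hg σ x) (heat_integrable hG hg' σ x) fun _ => h _

theorem heat_abs_le {F : ℝ → ℝ} {C : ℝ} (h : ∀ x, |F x| ≤ C) (σ x : ℝ) : |heat F σ x| ≤ C := by
  have h1 : ‖∫ z, F (x + Real.sqrt σ * z) ∂gam‖ ≤ C * gam.real univ :=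
    norm_integral_le_of_norm_le_const (Eventually.of_forall fun _ => by
      rw [Real.norm_eq_abs]; exact h _)
  simpa [heat] using h1

theorem heat_nonneg {F : ℝ → ℝ} (h : ∀ x, 0 ≤ F x) (σ x : ℝ) : 0 ≤ heat F σ x :=
  integral_nonneg fun _ => h _

/-- Joint continuity of the heat evolution of a parametrised family. -/
theorem heat_continuous_param {X : Type*} [TopologicalSpace X] [FirstCountableTopology X]
    {Ψ : X → ℝ → ℝ} (hΨ : Continuous (fun p : X × ℝ => Ψ p.1 p.2)) {C a : ℝ} (hC : 0 ≤ C)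
    (ha : 0 ≤ a) (h : ∀ p x, |Ψ p x| ≤ C * Real.exp (a * |x|)) :
    Continuous (fun p : X × ℝ × ℝ => heat (Ψ p.1) p.2.1 p.2.2) := by
  rw [continuous_iff_continuousAt]
  rintro ⟨p0, σ0, x0⟩
  unfold heat
  refine continuousAt_of_dominated
    (bound := fun z => C * Real.exp (a * (|x0| + 1)) * Real.exp (a * (Real.sqrt σ0 + 1) * |z|))
    ?_ ?_ ?_ ?_
  · refine Eventually.of_forall fun q => ?_
    have : Continuous (fun z : ℝ => Ψ q.1 (q.2.2 + Real.sqrt q.2.1 * z)) :=
      hΨ.comp (Continuous.prodMk continuous_const (by fun_prop))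
    exact this.aestronglyMeasurable
  · have h1 : ∀ᶠ q : X × ℝ × ℝ in 𝓝 (p0, σ0, x0), |q.2.2| < |x0| + 1 := by
      have : Continuous (fun q : X × ℝ × ℝ => |q.2.2|) := by fun_prop
      exact this.continuousAt.eventually_lt continuousAt_const (by simp)
    have h2 : ∀ᶠ q : X × ℝ × ℝ in 𝓝 (p0, σ0, x0), Real.sqrt q.2.1 < Real.sqrt σ0 + 1 := by
      have : Continuous (fun q : X × ℝ × ℝ => Real.sqrt q.2.1) := by fun_prop
      exact this.continuousAt.eventually_lt continuousAt_const (by simp)
    filter_upwards [h1, h2] with q hq1 hq2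
    refine Eventually.of_forall fun z => ?_
    rw [Real.norm_eq_abs]
    exact EG.bound hC ha (h q.1) hq1.le (Real.sqrt_nonneg _) hq2.le z
  · exact (integrable_exp_abs _).const_mul _
  · refine Eventually.of_forall fun z => ?_
    have : Continuous (fun q : X × ℝ × ℝ => Ψ q.1 (q.2.2 + Real.sqrt q.2.1 * z)) :=
      hΨ.comp (Continuous.prodMk (by fun_prop) (by fun_prop))
    exact this.continuousAt

theorem heat_continuous {F : ℝ → ℝ} (hF : Continuous F) (hg : EG F) :
    Continuous (fun p : ℝ × ℝ => heat F p.1 p.2) := by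
  obtain ⟨C, a, hC, ha, h⟩ := hg
  have := heat_continuous_param (X := Unit) (Ψ := fun _ => F) (hF.comp continuous_snd) hC ha
    (fun _ => h)
  exact this.comp (Continuous.prodMk (continuous_const (y := ())) continuous_id)

theorem heat_hasDerivAt_x {F F' : ℝ → ℝ} (hF : ∀ x, HasDerivAt F (F' x) x) (hg : EG F)
    (hF' : Continuous F') (hg' : EG F') (σ x : ℝ) :
    HasDerivAt (fun y => heat F σ y) (heat F' σ x) x := by
  have hFc : Continuous F := continuous_iff_continuousAt.2 fun x => (hF x).continuousAt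
  obtain ⟨C, a, hC, ha, h⟩ := hg'
  unfold heat
  refine (hasDerivAt_integral_of_dominated_loc_of_deriv_le
    (bound := fun z => C * Real.exp (a * (|x| + 1)) * Real.exp (a * Real.sqrt σ * |z|))
    (F' := fun y z => F' (y + Real.sqrt σ * z)) (Metric.ball_mem_nhds x one_pos)
    (Eventually.of_forall fun y => ?_) (heat_integrable hFc hg σ x) ?_ ?_
    ((integrable_exp_abs _).const_mul _) ?_).2
  · exact (show Continuous (fun z : ℝ => F (y + Real.sqrt σ * z)) by fun_prop).aestronglyMeasurable
  · exact (show Continuous (fun z : ℝ => F' (x + Real.sqrt σ * z)) by fun_prop).aestronglyMeasurable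
  · refine Eventually.of_forall fun z y hy => ?_
    rw [Real.norm_eq_abs]
    refine EG.bound hC ha h ?_ (Real.sqrt_nonneg _) le_rfl z
    rw [Metric.mem_ball, Real.dist_eq] at hy
    have := abs_sub_abs_le_abs_sub y x
    linarith
  · refine Eventually.of_forall fun z y _ => ?_
    have h1 : HasDerivAt (fun y : ℝ => y + Real.sqrt σ * z) 1 y := (hasDerivAt_id y).add_const _
    have h2 := (hF (y + Real.sqrt σ * z)).comp y h1
    rw [mul_one] at h2
    exact h2

/-! ### Stein's formula -/

theorem gpdf (z : ℝ) : gaussianPDFReal 0 1 z = (Real.sqrt (2 * Real.pi))⁻¹ * Real.exp (-z ^ 2 / 2) := by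
  simp [gaussianPDFReal_def]

theorem integrable_gam_iff {f : ℝ → ℝ} :
    Integrable f gam ↔ Integrable (fun z => gaussianPDFReal 0 1 z * f z) volume := by
  have h0 : gam = volume.withDensity (gaussianPDF 0 1) :=
    gaussianReal_of_var_ne_zero 0 one_ne_zero
  rw [h0, integrable_withDensity_iff_integrable_smul' (measurable_gaussianPDF 0 1)
    (Eventually.of_forall fun x => gaussianPDF_lt_top)]
  simp only [toReal_gaussianPDF, smul_eq_mul]

theorem integral_gam (f : ℝ → ℝ) : ∫ z, f z ∂gam = ∫ z, gaussianPDFReal 0 1 z * f z := by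
  rw [integral_gaussianReal_eq_integral_smul (by simp)]
  simp only [smul_eq_mul]

theorem hasDerivAt_gpdf (z : ℝ) :
    HasDerivAt (fun y => gaussianPDFReal 0 1 y) (-z * gaussianPDFReal 0 1 z) z := by
  simp only [gpdf]
  have h1 : HasDerivAt (fun y : ℝ => -y ^ 2 / 2) (-z) z := by
    have := ((hasDerivAt_pow 2 z).neg).div_const 2
    refine this.congr_deriv ?_
    norm_num; ring
  have h2 := (h1.exp).const_mul (Real.sqrt (2 * Real.pi))⁻¹
  refine h2.congr_deriv ?_
  ring

theorem stein {G G' : ℝ → ℝ} (hG : ∀ x, HasDerivAt G (G' x) x) (hg : EG G)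
    (hG' : Continuous G') (hg' : EG G') : ∫ z, G z * z ∂gam = ∫ z, G' z ∂gam := by
  have hGc : Continuous G := continuous_iff_continuousAt.2 fun x => (hG x).continuousAt
  have i1 : Integrable G gam := by simpa using heat_integrable hGc hg 1 0
  have i2 : Integrable G' gam := by simpa using heat_integrable hG' hg' 1 0
  have hid : EG (fun z : ℝ => z) := ⟨1, 1, by norm_num, by norm_num, fun x => by
    simpa using abs_le_exp_abs x⟩
  have i3 : Integrable (fun z => G z * z) gam := by
    simpa using heat_integrable (hGc.mul continuous_id) (hg.mul hid) 1 0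
  rw [integral_gam, integral_gam]
  have key := integral_mul_deriv_eq_deriv_mul_of_integrable (u := G) (u' := G')
    (v := fun y => gaussianPDFReal 0 1 y) (v' := fun z => -z * gaussianPDFReal 0 1 z)
    (fun x _ => hG x) (fun x _ => hasDerivAt_gpdf x) ?_ ?_ ?_
  · have e1 : (fun z => gaussianPDFReal 0 1 z * (G z * z)) =
        fun z => -(G z * (-z * gaussianPDFReal 0 1 z)) := by ext z; ring
    rw [e1, integral_neg, key, neg_neg]
    congr 1; ext z; ring
  · have := (integrable_gam_iff.1 i3).neg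
    refine this.congr (Eventually.of_forall fun z => ?_)
    simp only [Pi.neg_apply, Pi.mul_apply]; ring
  · refine (integrable_gam_iff.1 i2).congr (Eventually.of_forall fun z => ?_)
    simp only [Pi.mul_apply]; ring
  · refine (integrable_gam_iff.1 i1).congr (Eventually.of_forall fun z => ?_)
    simp only [Pi.mul_apply]; ring

/-- Scaled Stein formula. -/
theorem stein_scaled {F F' : ℝ → ℝ} (hF : ∀ x, HasDerivAt F (F' x) x) (hg : EG F)
    (hF' : Continuous F') (hg' : EG F') (c x : ℝ) :
    ∫ z, F (x + c * z) * z ∂gam = c * ∫ z, F' (x + c * z) ∂gam := by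
  have hFc : Continuous F := continuous_iff_continuousAt.2 fun x => (hF x).continuousAt
  have eg : ∀ {H : ℝ → ℝ}, EG H → EG (fun z => H (x + c * z)) := by
    intro H hH
    obtain ⟨C, a, hC, ha, h⟩ := hH
    refine ⟨C * Real.exp (a * |x|), a * |c|, by positivity, by positivity, fun z => ?_⟩
    refine (h _).trans ?_
    rw [mul_assoc, ← Real.exp_add]
    refine mul_le_mul_of_nonneg_left (Real.exp_le_exp.2 ?_) hC
    calc a * |x + c * z| ≤ a * (|x| + |c| * |z|) := by
          refine mul_le_mul_of_nonneg_left ?_ ha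
          rw [← abs_mul]; exact abs_add_le _ _
      _ = a * |x| + a * |c| * |z| := by ring
  have h1 : ∀ z, HasDerivAt (fun z => F (x + c * z)) (c * F' (x + c * z)) z := by
    intro z
    have h2 : HasDerivAt (fun z : ℝ => x + c * z) c z := by
      simpa using ((hasDerivAt_id z).const_mul c).const_add x
    have := (hF (x + c * z)).comp z h2
    rw [mul_comm] at this
    exact this
  rw [stein h1 (eg hg) (by fun_prop) ((EG.of_bdd (C := |c|) (F := fun _ => c)
    (fun _ => le_rfl)).mul (eg hg')), integral_const_mul]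

theorem heat_hasDerivAt_σ {F F' F'' : ℝ → ℝ} (hF : ∀ x, HasDerivAt F (F' x) x) (hg : EG F)
    (hF' : ∀ x, HasDerivAt F' (F'' x) x) (hg' : EG F') (hF'' : Continuous F'') (hg'' : EG F'')
    {σ : ℝ} (hσ : 0 < σ) (x : ℝ) :
    HasDerivAt (fun s => heat F s x) (heat F'' σ x / 2) σ := by
  have hFc : Continuous F := continuous_iff_continuousAt.2 fun x => (hF x).continuousAt
  have hF'c : Continuous F' := continuous_iff_continuousAt.2 fun x => (hF' x).continuousAt
  have hs : 0 < Real.sqrt σ := Real.sqrt_pos.2 hσ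
  obtain ⟨C, a, hC, ha, h⟩ := id hg'
  have key : HasDerivAt (fun s => heat F s x)
      (∫ z, F' (x + Real.sqrt σ * z) * ((1 / (2 * Real.sqrt σ)) * z) ∂gam) σ := by
    unfold heat
    refine (hasDerivAt_integral_of_dominated_loc_of_deriv_le
      (bound := fun z => (C * Real.exp (a * |x|)) * (1 / (2 * Real.sqrt (σ / 2))) *
        (Real.exp (a * Real.sqrt (2 * σ) * |z|) * |z|))
      (F' := fun s z => F' (x + Real.sqrt s * z) * ((1 / (2 * Real.sqrt s)) * z))
      (Ioo_mem_nhds (show σ / 2 < σ by linarith) (show σ < 2 * σ by linarith))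
      (Eventually.of_forall fun y => ?_) (heat_integrable hFc hg σ x) ?_ ?_
      ((integrable_exp_abs_mul _).const_mul _) ?_).2
    · exact (show Continuous (fun z : ℝ => F (x + Real.sqrt y * z)) by
        fun_prop).aestronglyMeasurable
    · exact (show Continuous (fun z : ℝ => F' (x + Real.sqrt σ * z) * ((1 / (2 * Real.sqrt σ)) * z))
        by fun_prop).aestronglyMeasurable
    · refine Eventually.of_forall fun z s hs' => ?_
      have hs0 : 0 < s := lt_trans (by linarith) hs'.1
      rw [Real.norm_eq_abs, abs_mul]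
      have b1 := EG.bound hC ha h (x := x) le_rfl (Real.sqrt_nonneg s)
        (Real.sqrt_le_sqrt hs'.2.le) z
      have b2 : |(1 / (2 * Real.sqrt s)) * z| ≤ (1 / (2 * Real.sqrt (σ / 2))) * |z| := by
        rw [abs_mul, abs_of_nonneg (by positivity)]
        refine mul_le_mul_of_nonneg_right ?_ (abs_nonneg _)
        refine one_div_le_one_div_of_le (by positivity) ?_
        exact mul_le_mul_of_nonneg_left (Real.sqrt_le_sqrt hs'.1.le) (by norm_num)
      calc |F' (x + Real.sqrt s * z)| * |(1 / (2 * Real.sqrt s)) * z|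
          ≤ (C * Real.exp (a * |x|) * Real.exp (a * Real.sqrt (2 * σ) * |z|)) *
            ((1 / (2 * Real.sqrt (σ / 2))) * |z|) :=
            mul_le_mul b1 b2 (abs_nonneg _) (by positivity)
        _ = _ := by ring
    · refine Eventually.of_forall fun z s hs' => ?_
      have hs0 : 0 < s := lt_trans (by linarith) hs'.1
      have h1 : HasDerivAt (fun s : ℝ => x + Real.sqrt s * z) ((1 / (2 * Real.sqrt s)) * z) s :=
        ((Real.hasDerivAt_sqrt hs0.ne').mul_const z).const_add x
      exact (hF (x + Real.sqrt s * z)).comp s h1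
  convert key using 1
  have e1 : ∀ z, F' (x + Real.sqrt σ * z) * ((1 / (2 * Real.sqrt σ)) * z) =
      (1 / (2 * Real.sqrt σ)) * (F' (x + Real.sqrt σ * z) * z) := fun z => by ring
  simp only [e1]
  rw [integral_const_mul, stein_scaled hF' hg' hF'' hg'']
  unfold heat
  field_simp

/-- Integrated form. -/
theorem heat_eq_integral {F F' F'' : ℝ → ℝ} (hF : ∀ x, HasDerivAt F (F' x) x) (hg : EG F)
    (hF' : ∀ x, HasDerivAt F' (F'' x) x) (hg' : EG F') (hF'' : Continuous F'') (hg'' : EG F'')
    {σ : ℝ} (hσ : 0 ≤ σ) (x : ℝ) :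
    heat F σ x - F x = ∫ s in (0:ℝ)..σ, heat F'' s x / 2 := by
  have hFc : Continuous F := continuous_iff_continuousAt.2 fun x => (hF x).continuousAt
  have c1 : Continuous (fun s => heat F s x) :=
    (heat_continuous hFc hg).comp (Continuous.prodMk continuous_id continuous_const)
  have c2 : Continuous (fun s => heat F'' s x / 2) :=
    ((heat_continuous hF'' hg'').comp (Continuous.prodMk continuous_id continuous_const)).div_const 2
  rw [intervalIntegral.integral_eq_sub_of_hasDerivAt_of_le hσ c1.continuousOn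
    (fun s hs => heat_hasDerivAt_σ hF hg hF' hg' hF'' hg'' hs.1 x) (c2.intervalIntegrable _ _)]
  simp

end Pool.Agent.Helper95A
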