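import Mathlib

set_option autoImplicit false

open MeasureTheory ProbabilityTheory Set Filter Topology

namespace Pool.Agent.Helper95A

theorem second_deriv_nonpos {φ φ' : ℝ → ℝ} {c x0 : ℝ} (h1 : ∀ x, HasDerivAt φ (φ' x) x)
    (h2 : HasDerivAt φ' c x0) (hmax : ∀ x, φ x ≤ φ x0) : c ≤ 0 := by
  by_contra hc
  push Not at hc
  have h0 : φ' x0 = 0 :=
    IsLocalMax.hasDerivAt_eq_zero (Eventually.of_forall hmax) (h1 x0)
  have hs : ∀ᶠ x in 𝓝[>] x0, 0 < slope φ' x0 x := by
    have := (hasDerivAt_iff_tendsto_slope.1 h2).mono_left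
      (nhdsWithin_mono x0 (fun x (hx : x0 < x) => ne_of_gt hx) : 𝓝[>] x0 ≤ 𝓝[≠] x0)
    exact this.eventually (lt_mem_nhds hc)
  obtain ⟨u, hu, hsub⟩ := mem_nhdsGT_iff_exists_Ioo_subset.1 hs
  have hu' : x0 < u := hu
  obtain ⟨ξ, hξ, he⟩ := exists_hasDerivAt_eq_slope φ φ' (show x0 < (x0 + u) / 2 by linarith)
    (fun x _ => (h1 x).continuousAt.continuousWithinAt) (fun x _ => h1 x)
  have hξ' : ξ ∈ Ioo x0 u := ⟨hξ.1, by linarith [hξ.2]⟩
  have h3 : 0 < slope φ' x0 ξ := hsub hξ'
  rw [slope_def_field, h0, sub_zero] at h3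
  have h4 : 0 < φ' ξ := by
    have h5 : 0 < ξ - x0 := by linarith [hξ.1]
    have := mul_pos h3 h5
    rwa [div_mul_cancel₀ _ h5.ne'] at this
  have h6 := hmax ((x0 + u) / 2)
  rw [he] at h4
  have h7 : 0 < (x0 + u) / 2 - x0 := by linarith
  have := mul_pos h4 h7
  rw [div_mul_cancel₀ _ h7.ne'] at this
  linarith

theorem right_deriv_nonpos {φ : ℝ → ℝ} {c t b : ℝ} (h : HasDerivWithinAt φ c (Ici t) t)
    (htb : t < b) (hmax : ∀ s ∈ Icc t b, φ s ≤ φ t) : c ≤ 0 := by
  have h1 : HasDerivWithinAt φ c (Ioi t) t := h.mono Ioi_subset_Ici_self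
  rw [hasDerivWithinAt_iff_tendsto_slope' (by simp)] at h1
  refine le_of_tendsto h1 ?_
  have : Ioo t b ∈ 𝓝[>] t := Ioo_mem_nhdsGT htb
  filter_upwards [this] with s hs
  rw [slope_def_field]
  exact div_nonpos_of_nonpos_of_nonneg (by linarith [hmax s ⟨hs.1.le, hs.2.le⟩])
    (by linarith [hs.1])

/-- Abstract form of the maximum principle. -/
theorem abstract_max {E : Type*} [PseudoMetricSpace E] [ProperSpace E] {a b : ℝ}
    {G : ℝ → E → ℝ} (hG : ContinuousOn (fun p : ℝ × E => G p.1 p.2) (Icc a b ×ˢ univ))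
    {e0 : E} {R : ℝ} (hcoer : ∀ t ∈ Icc a b, ∀ e, R < dist e e0 → G t e ≤ 0)
    (hterm : ∀ e, G b e ≤ 0)
    (hstep : ∀ t ∈ Ico a b, ∀ e, 0 < G t e → (∀ e', G t e' ≤ G t e) →
      (∀ s ∈ Icc t b, G s e ≤ G t e) → False) : ∀ t ∈ Icc a b, ∀ e, G t e ≤ 0 := by
  intro t1 ht1 e1
  by_contra hpos
  push Not at hpos
  set R' := max R (dist e1 e0) with hR'
  have hK : IsCompact (Icc a b ×ˢ Metric.closedBall e0 R' : Set (ℝ × E)) :=
    isCompact_Icc.prod (isCompact_closedBall e0 R')
  have hne : (Icc a b ×ˢ Metric.closedBall e0 R' : Set (ℝ × E)).Nonempty :=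
    ⟨(t1, e1), ht1, by rw [Metric.mem_closedBall]; exact le_max_right _ _⟩
  obtain ⟨⟨t, e⟩, ⟨ht, he⟩, hmax⟩ := hK.exists_isMaxOn hne
    (hG.mono (prod_mono_right (subset_univ _)))
  simp only at ht he
  have hm : ∀ s ∈ Icc a b, ∀ e', G s e' ≤ max (G t e) 0 := by
    intro s hs e'
    by_cases hd : dist e' e0 ≤ R'
    · exact le_max_of_le_left (hmax (show ((s, e') : ℝ × E) ∈ _ from ⟨hs, hd⟩))
    · push Not at hd
      exact le_max_of_le_right (hcoer s hs e' (lt_of_le_of_lt (le_max_left _ _) hd))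
  have hge : 0 < G t e := by
    have h1 := hm t1 ht1 e1
    by_contra h
    push Not at h
    rw [max_eq_right h] at h1
    linarith
  rw [max_eq_left hge.le] at hm
  have htb : t < b := by
    refine lt_of_le_of_ne ht.2 fun h => ?_
    subst h
    linarith [hterm e]
  exact hstep t ⟨ht.1, htb⟩ e hge (fun e' => hm t ht e')
    (fun s hs => hm s ⟨ht.1.trans hs.1, hs.2⟩ e)

/-- One dimensional maximum principle for the backward parabolic inequality. -/
theorem max1 {a b κ B0 c0 A : ℝ} (hκ : 0 ≤ κ) (hB0 : 0 ≤ B0) (hc0 : 0 ≤ c0) (hA : 0 ≤ A)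
    {v vt vx vxx B c : ℝ → ℝ → ℝ}
    (hv : ContinuousOn (fun p : ℝ × ℝ => v p.1 p.2) (Icc a b ×ˢ univ))
    (hgr : ∀ t ∈ Icc a b, ∀ x, v t x ≤ A * (1 + |x|))
    (hx : ∀ t ∈ Ico a b, ∀ x, HasDerivAt (v t) (vx t x) x)
    (hxx : ∀ t ∈ Ico a b, ∀ x, HasDerivAt (vx t) (vxx t x) x)
    (ht : ∀ t ∈ Ico a b, ∀ x, HasDerivWithinAt (fun s => v s x) (vt t x) (Ici t) t)
    (hB : ∀ t ∈ Ico a b, ∀ x, |B t x| ≤ B0) (hc : ∀ t ∈ Ico a b, ∀ x, c t x ≤ c0)
    (hin : ∀ t ∈ Ico a b, ∀ x, 0 < v t x →
      0 ≤ vt t x + κ * vxx t x + B t x * vx t x + c t x * v t x)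
    (hterm : ∀ x, v b x ≤ 0) : ∀ t ∈ Icc a b, ∀ x, v t x ≤ 0 := by
  intro t1 ht1 x1
  set C := B0 + 2 * κ + 1 with hC
  have key : ∀ ε > 0, ∀ t ∈ Icc a b, ∀ x,
      Real.exp (c0 * t) * v t x - ε * (Real.exp (C * (b - t)) * (1 + x ^ 2)) ≤ 0 := by
    intro ε hε
    set A' := Real.exp (c0 * max |a| |b|) * A with hA'
    have hA'0 : 0 ≤ A' := by positivity
    refine abstract_max (E := ℝ) (e0 := 0) (R := max 1 (2 * A' / ε)) ?_ ?_ ?_ ?_
    · refine ContinuousOn.sub (ContinuousOn.mul (by fun_prop) hv) (by fun_prop)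
    · intro t htt x hd
      rw [Real.dist_eq, sub_zero, max_lt_iff] at hd
      have h1 : Real.exp (c0 * t) * v t x ≤ A' * (1 + |x|) := by
        by_cases hvp : v t x ≤ 0
        · exact (mul_nonpos_of_nonneg_of_nonpos (Real.exp_pos _).le hvp).trans (by positivity)
        · push Not at hvp
          calc Real.exp (c0 * t) * v t x ≤ Real.exp (c0 * max |a| |b|) * (A * (1 + |x|)) := by
                refine mul_le_mul (Real.exp_le_exp.2 (mul_le_mul_of_nonneg_left ?_ hc0))
                  (hgr t htt x) hvp.le (Real.exp_pos _).le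
                exact htt.2.trans ((le_abs_self b).trans (le_max_right _ _))
            _ = A' * (1 + |x|) := by rw [hA']; ring
      have h2 : A' * (1 + |x|) ≤ ε * (1 + x ^ 2) := by
        have h3 : 2 * A' < ε * |x| := by
          have := hd.2
          rw [div_lt_iff₀ hε] at this
          linarith
        have h4 : x ^ 2 = |x| * |x| := by rw [← sq, sq_abs]
        have h5 : 2 * A' * |x| ≤ ε * |x| * |x| :=
          mul_le_mul_of_nonneg_right h3.le (abs_nonneg _)
        rw [h4]
        nlinarith [hd.1, mul_nonneg hA'0 (sub_nonneg.2 hd.1.le)]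
      have h3 : ε * (1 + x ^ 2) ≤ ε * (Real.exp (C * (b - t)) * (1 + x ^ 2)) := by
        refine mul_le_mul_of_nonneg_left ?_ hε.le
        have : 1 ≤ Real.exp (C * (b - t)) := by
          refine Real.one_le_exp (mul_nonneg (by positivity) (by linarith [htt.2]))
        nlinarith [sq_nonneg x]
      linarith
    · intro x
      have h1 : Real.exp (c0 * b) * v b x ≤ 0 :=
        mul_nonpos_of_nonneg_of_nonpos (Real.exp_pos _).le (hterm x)
      have h2 : 0 ≤ ε * (Real.exp (C * (b - b)) * (1 + x ^ 2)) := by positivity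
      linarith
    · intro t htt x hpos hmax htmax
      have hp : 0 < Real.exp (C * (b - t)) := Real.exp_pos _
      set P := Real.exp (C * (b - t)) with hP
      set L := Real.exp (c0 * t) with hL
      have hL0 : 0 < L := Real.exp_pos _
      have hvpos : 0 < v t x := by
        have h2 : 0 ≤ ε * (P * (1 + x ^ 2)) := by positivity
        have : 0 < L * v t x := by linarith
        exact (mul_pos_iff_of_pos_left hL0).1 this
      have d1 : ∀ y, HasDerivAt (fun y => L * v t y - ε * (P * (1 + y ^ 2)))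
          (L * vx t y - ε * (P * (2 * y))) y := by
        intro y
        have e1 := (hx t htt y).const_mul L
        have e2 : HasDerivAt (fun y : ℝ => ε * (P * (1 + y ^ 2))) (ε * (P * (2 * y))) y := by
          have := ((hasDerivAt_pow 2 y).const_add 1).const_mul P |>.const_mul ε
          refine this.congr_deriv ?_
          norm_num
        exact e1.sub e2
      have d2 : HasDerivAt (fun y => L * vx t y - ε * (P * (2 * y)))
          (L * vxx t x - ε * (P * 2)) x := by
        have e1 := (hxx t htt x).const_mul L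
        have e2 : HasDerivAt (fun y : ℝ => ε * (P * (2 * y))) (ε * (P * 2)) x := by
          have := ((hasDerivAt_id x).const_mul 2).const_mul P |>.const_mul ε
          refine this.congr_deriv ?_
          norm_num
        exact e1.sub e2
      have z1 : L * vx t x - ε * (P * (2 * x)) = 0 :=
        IsLocalMax.hasDerivAt_eq_zero (Eventually.of_forall hmax) (d1 x)
      have z2 : L * vxx t x - ε * (P * 2) ≤ 0 := second_deriv_nonpos d1 d2 hmax
      have d3 : HasDerivWithinAt (fun s => Real.exp (c0 * s) * v s x -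
          ε * (Real.exp (C * (b - s)) * (1 + x ^ 2)))
          ((c0 * L) * v t x + L * vt t x - ε * ((-C * P) * (1 + x ^ 2))) (Ici t) t := by
        have e1 : HasDerivAt (fun s : ℝ => Real.exp (c0 * s)) (c0 * L) t := by
          have := ((hasDerivAt_id t).const_mul c0).exp
          refine this.congr_deriv ?_
          simp [hL, mul_comm]
        have e2 : HasDerivAt (fun s : ℝ => Real.exp (C * (b - s))) (-C * P) t := by
          have := (((hasDerivAt_id t).const_sub b).const_mul C).exp
          refine this.congr_deriv ?_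
          simp [hP, mul_comm]
        have e3 := (e1.hasDerivWithinAt (s := Ici t)).mul (ht t htt x)
        exact e3.sub (((e2.mul_const (1 + x ^ 2)).const_mul ε).hasDerivWithinAt)
      have z3 := right_deriv_nonpos d3 htt.2 htmax
      have h1 := hin t htt x hvpos
      have h2 := mul_nonneg hL0.le h1
      have h3 : |B t x| ≤ B0 := hB t htt x
      have h4 : B t x * (2 * x) ≤ B0 * (1 + x ^ 2) := by
        calc B t x * (2 * x) ≤ |B t x * (2 * x)| := le_abs_self _
          _ = |B t x| * |2 * x| := abs_mul _ _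
          _ ≤ B0 * (1 + x ^ 2) := by
              refine mul_le_mul h3 ?_ (abs_nonneg _) hB0
              rw [abs_le]; constructor <;> nlinarith [sq_nonneg (x - 1), sq_nonneg (x + 1)]
      have h5 : c t x ≤ c0 := hc t htt x
      -- combine
      have h6 : L * (B t x * vx t x) ≤ ε * (P * (B0 * (1 + x ^ 2))) := by
        have : L * vx t x = ε * (P * (2 * x)) := by linarith
        calc L * (B t x * vx t x) = B t x * (L * vx t x) := by ring
          _ = ε * (P * (B t x * (2 * x))) := by rw [this]; ring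
          _ ≤ _ := mul_le_mul_of_nonneg_left (mul_le_mul_of_nonneg_left h4 hp.le) hε.le
      have h7 : L * (κ * vxx t x) ≤ κ * (ε * (P * 2)) := by
        calc L * (κ * vxx t x) = κ * (L * vxx t x) := by ring
          _ ≤ κ * (ε * (P * 2)) := mul_le_mul_of_nonneg_left (by linarith) hκ
      have h8 : L * (c t x * v t x) ≤ c0 * L * v t x := by
        calc L * (c t x * v t x) = c t x * (L * v t x) := by ring
          _ ≤ c0 * (L * v t x) := mul_le_mul_of_nonneg_right h5 (by positivity)
          _ = _ := by ring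
      have h9 : L * (vt t x + κ * vxx t x + B t x * vx t x + c t x * v t x) =
        L * vt t x + L * (κ * vxx t x) + L * (B t x * vx t x) + L * (c t x * v t x) := by ring
      rw [h9] at h2
      have h10 : 0 < ε * P := by positivity
      have h11 : 0 ≤ ε * P * (2 * κ * x ^ 2) := by positivity
      have h12 : 0 < ε * P * (1 + x ^ 2) := by positivity
      have h13 : ε * ((-C * P) * (1 + x ^ 2)) =
        - (ε * (P * (B0 * (1 + x ^ 2)))) - κ * (ε * (P * 2)) - ε * P * (2 * κ * x ^ 2)
          - ε * P * (1 + x ^ 2) := by rw [hC]; ring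
      rw [h13] at z3
      linarith
  by_contra hcon
  push Not at hcon
  have hpos : 0 < Real.exp (c0 * t1) * v t1 x1 := mul_pos (Real.exp_pos _) hcon
  set D := Real.exp (C * (b - t1)) * (1 + x1 ^ 2) with hD
  have hD0 : 0 < D := by positivity
  have := key (Real.exp (c0 * t1) * v t1 x1 / (2 * D)) (by positivity) t1 ht1 x1
  rw [← hD] at this
  have e : Real.exp (c0 * t1) * v t1 x1 / (2 * D) * D = Real.exp (c0 * t1) * v t1 x1 / 2 := by
    field_simp
  rw [e] at this
  linarith

end Pool.Agent.Helper95A
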