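import Pool.Agent.Helper95A.Heat
import Pool.Agent.Helper95A.MaxP

set_option autoImplicit false

open MeasureTheory ProbabilityTheory Set Filter Topology

namespace Pool.Agent.Helper95A

theorem gam_shift (φ : ℝ → ℝ) (c : ℝ) :
    ∫ z, φ (z + c) ∂gam = Real.exp (-c ^ 2 / 2) * ∫ z, φ z * Real.exp (c * z) ∂gam := by
  rw [integral_gam, integral_gam, ← integral_const_mul]
  rw [← integral_add_right_eq_self (fun z => Real.exp (-c ^ 2 / 2) *
    (gaussianPDFReal 0 1 z * (φ z * Real.exp (c * z)))) c]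
  congr 1; ext z
  rw [gpdf, gpdf]
  have : Real.exp (-z ^ 2 / 2) = Real.exp (-c ^ 2 / 2) * Real.exp (-(z + c) ^ 2 / 2) *
      Real.exp (c * (z + c)) := by
    rw [← Real.exp_add, ← Real.exp_add]; congr 1; ring
  rw [this]; ring

theorem gam_neg (φ : ℝ → ℝ) : ∫ z, φ (-z) ∂gam = ∫ z, φ z ∂gam := by
  rw [integral_gam, integral_gam, ← integral_neg_eq_self (fun z => gaussianPDFReal 0 1 z * φ z)]
  congr 1; ext z
  rw [gpdf, gpdf]; simp

theorem heat_neg_arg {F : ℝ → ℝ} (hF : ∀ y, F (-y) = F y) (σ x : ℝ) :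
    heat F σ (-x) = heat F σ x := by
  unfold heat
  rw [← gam_neg (fun z => F (x + Real.sqrt σ * z))]
  congr 1; ext z
  rw [← hF]; congr 1; ring

/-- The exponential change of measure. -/
theorem heat_tilt (F : ℝ → ℝ) {σ : ℝ} (hσ : 0 < σ) (x : ℝ) :
    heat F σ x = Real.exp (-(x / Real.sqrt σ) ^ 2 / 2) *
      ∫ z, F (Real.sqrt σ * z) * Real.exp (x / Real.sqrt σ * z) ∂gam := by
  have hs : 0 < Real.sqrt σ := Real.sqrt_pos.2 hσ
  rw [← gam_shift (fun z => F (Real.sqrt σ * z))]
  unfold heat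
  congr 1; ext z
  congr 1
  field_simp
  ring

theorem EG.comp_mul {F : ℝ → ℝ} (hF : EG F) (c : ℝ) : EG (fun z => F (c * z)) := by
  obtain ⟨C, a, hC, ha, h⟩ := hF
  refine ⟨C, a * |c|, hC, by positivity, fun z => ?_⟩
  refine (h _).trans (le_of_eq ?_)
  rw [abs_mul]; ring_nf

theorem EG_exp (c : ℝ) : EG (fun z => Real.exp (c * z)) :=
  ⟨1, |c|, zero_le_one, abs_nonneg _, fun z => by
    rw [one_mul, abs_of_pos (Real.exp_pos _), ← abs_mul]
    exact Real.exp_le_exp.2 (le_abs_self _)⟩

theorem integrable_gam {F : ℝ → ℝ} (hF : Continuous F) (hg : EG F) : Integrable F gam := by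
  simpa using heat_integrable hF hg 1 0

/-- Odd functions which are nonnegative on the half line. -/
theorem heat_odd_nonneg {v : ℝ → ℝ} (hv : Continuous v) (hg : EG v) (hodd : ∀ y, v (-y) = -v y)
    (hpos : ∀ y, 0 ≤ y → 0 ≤ v y) (σ : ℝ) {h : ℝ} (hh : 0 ≤ h) : 0 ≤ heat v σ h := by
  rcases le_or_gt σ 0 with hσ | hσ
  · rw [heat_of_nonpos v hσ]; exact hpos h hh
  · rw [heat_tilt v hσ]
    refine mul_nonneg (Real.exp_pos _).le ?_
    set r := Real.sqrt σ with hr
    have hr0 : 0 < r := Real.sqrt_pos.2 hσ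
    set c := h / r with hc
    have hc0 : 0 ≤ c := div_nonneg hh hr0.le
    have i1 : Integrable (fun z => v (r * z) * Real.exp (c * z)) gam :=
      integrable_gam ((hv.comp (continuous_const.mul continuous_id)).mul (by fun_prop))
        ((hg.comp_mul r).mul (EG_exp c))
    have i2 : Integrable (fun z => v (r * z) * Real.exp (-c * z)) gam :=
      integrable_gam ((hv.comp (continuous_const.mul continuous_id)).mul (by fun_prop))
        ((hg.comp_mul r).mul (EG_exp (-c)))
    have e : ∫ z, v (r * z) * Real.exp (c * z) ∂gam = -∫ z, v (r * z) * Real.exp (-c * z) ∂gam := by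
      rw [← gam_neg, ← integral_neg]
      congr 1; ext z
      have : r * -z = -(r * z) := by ring
      rw [this, hodd]
      have : c * -z = -c * z := by ring
      rw [this]; ring
    have e2 : 2 * ∫ z, v (r * z) * Real.exp (c * z) ∂gam =
        ∫ z, v (r * z) * Real.exp (c * z) - v (r * z) * Real.exp (-c * z) ∂gam := by
      rw [integral_sub i1 i2, two_mul]
      linarith
    have : 0 ≤ ∫ z, v (r * z) * Real.exp (c * z) - v (r * z) * Real.exp (-c * z) ∂gam := by
      refine integral_nonneg fun z => ?_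
      simp only [Pi.zero_apply]
      rw [← mul_sub]
      rcases le_total 0 z with hz | hz
      · refine mul_nonneg (hpos _ (mul_nonneg hr0.le hz)) (sub_nonneg.2 (Real.exp_le_exp.2 ?_))
        nlinarith [mul_nonneg hc0 hz]
      · have h1 : v (r * z) ≤ 0 := by
          have h2 : v (r * z) = -v (r * (-z)) := by
            rw [← hodd]; congr 1; ring
          rw [h2]
          exact neg_nonpos.2 (hpos _ (mul_nonneg hr0.le (neg_nonneg.2 hz)))
        refine mul_nonneg_of_nonpos_of_nonpos h1 (sub_nonpos.2 (Real.exp_le_exp.2 ?_))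
        nlinarith [mul_nonneg hc0 (neg_nonneg.2 hz)]
    linarith

/-- Heat evolution of even unimodal functions is unimodal. -/
theorem heat_antitone {u u' : ℝ → ℝ} (hu : ∀ x, HasDerivAt u (u' x) x) (hg : EG u)
    (hu' : Continuous u') (hg' : EG u') (hodd : ∀ y, u' (-y) = -u' y)
    (hneg : ∀ y, 0 ≤ y → u' y ≤ 0) (σ : ℝ) {h1 h2 : ℝ} (h0 : 0 ≤ h1) (h12 : h1 ≤ h2) :
    heat u σ h2 ≤ heat u σ h1 := by
  have hd : ∀ x, HasDerivAt (heat u σ) (heat u' σ x) x := fun x =>
    heat_hasDerivAt_x hu hg hu' hg' σ x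
  have hc : Continuous (heat u σ) := continuous_iff_continuousAt.2 fun x => (hd x).continuousAt
  refine antitoneOn_of_deriv_nonpos (convex_Ici 0) hc.continuousOn
    (fun x _ => (hd x).differentiableAt.differentiableWithinAt) (fun x hx => ?_)
    (mem_Ici.2 h0) (mem_Ici.2 (h0.trans h12)) h12
  rw [interior_Ici] at hx
  rw [(hd x).deriv]
  have := heat_odd_nonneg (v := fun y => -u' y) hu'.neg ?_ (fun y => by rw [hodd])
    (fun y hy => by linarith [hneg y hy]) σ (le_of_lt hx)
  · rw [heat_neg] at this; linarith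
  · obtain ⟨C, a, hC, ha, h⟩ := hg'
    exact ⟨C, a, hC, ha, fun x => by rw [abs_neg]; exact h x⟩

/-- Fubini for the heat evolution. -/
theorem heat_integral_swap {α : Type*} [MeasurableSpace α] {ν : Measure α} [IsFiniteMeasure ν]
    {Φ : α → ℝ → ℝ} {D : ℝ}
    (hΦ : Measurable (fun p : α × ℝ => Φ p.1 p.2)) (hD : ∀ v y, |Φ v y| ≤ D) (σ x : ℝ) :
    heat (fun y => ∫ v, Φ v y ∂ν) σ x = ∫ v, heat (Φ v) σ x ∂ν := by
  unfold heat
  refine integral_integral_swap ?_
  have hm : Measurable (fun p : ℝ × α => Φ p.2 (x + Real.sqrt σ * p.1)) :=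
    hΦ.comp (measurable_snd.prodMk (by fun_prop))
  refine (integrable_const D).mono' hm.aestronglyMeasurable (Eventually.of_forall fun p => ?_)
  rw [Real.norm_eq_abs]
  exact hD _ _

theorem heat_interval_swap {a : ℝ → ℝ} {Φ : ℝ → ℝ → ℝ} {A D u v : ℝ} (huv : u ≤ v)
    (ham : Measurable a) (hab : ∀ s, |a s| ≤ A)
    (hΦ : Continuous (fun p : ℝ × ℝ => Φ p.1 p.2)) (hD : ∀ v y, |Φ v y| ≤ D) (σ x : ℝ) :
    heat (fun y => ∫ r in u..v, a r * Φ r y) σ x = ∫ r in u..v, a r * heat (Φ r) σ x := by
  have hA0 : 0 ≤ A := (abs_nonneg _).trans (hab 0)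
  simp only [intervalIntegral.integral_of_le huv]
  rw [heat_integral_swap (D := A * D)]
  · simp only [heat_const_mul]
  · exact (ham.comp measurable_fst).mul hΦ.measurable
  · intro r y
    rw [abs_mul]
    exact mul_le_mul (hab r) (hD r y) (abs_nonneg _) hA0

/-- Semigroup property. -/
theorem heat_semigroup {F : ℝ → ℝ} (hF : Continuous F) (hg : EG F) {a b : ℝ} (ha : 0 ≤ a)
    (hb : 0 ≤ b) (x : ℝ) : heat (fun y => heat F a y) b x = heat F (a + b) x := by
  have hmap : ∀ (σ : ℝ) (_ : 0 ≤ σ), gaussianReal 0 (Real.toNNReal σ) =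
      gam.map (Real.sqrt σ * ·) := by
    intro σ hσ
    rw [gaussianReal_map_const_mul]
    congr 1
    · simp
    · rw [mul_one]
      ext
      rw [Real.coe_toNNReal _ hσ]
      change σ = Real.sqrt σ ^ 2
      rw [Real.sq_sqrt hσ]
  have key : ∀ (σ : ℝ) (_ : 0 ≤ σ) (G : ℝ → ℝ) (_ : Continuous G),
      ∫ z, G (Real.sqrt σ * z) ∂gam = ∫ y, G y ∂(gaussianReal 0 (Real.toNNReal σ)) := by
    intro σ hσ G hG
    rw [hmap σ hσ, integral_map (by fun_prop) hG.aestronglyMeasurable]
  have hFs : ∀ x, Continuous (fun y => F (x + y)) := fun x => by fun_prop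
  have e0 : heat F (a + b) x = ∫ y, F (x + y) ∂(gaussianReal 0 (Real.toNNReal (a + b))) :=
    key (a + b) (add_nonneg ha hb) (fun y => F (x + y)) (hFs x)
  have e1 : ∀ y, heat F a y = ∫ u, F (y + u) ∂(gaussianReal 0 (Real.toNNReal a)) := fun y =>
    key a ha (fun u => F (y + u)) (hFs y)
  have hhc : Continuous (fun y => heat F a y) :=
    (heat_continuous hF hg).comp (Continuous.prodMk continuous_const continuous_id)
  have e2 : heat (fun y => heat F a y) b x =
      ∫ v, heat F a (x + v) ∂(gaussianReal 0 (Real.toNNReal b)) :=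
    key b hb (fun v => heat F a (x + v)) (by fun_prop)
  rw [e2, e0]
  have e3 : gaussianReal 0 (Real.toNNReal (a + b)) =
      (gaussianReal 0 (Real.toNNReal b)) ∗ (gaussianReal 0 (Real.toNNReal a)) := by
    rw [gaussianReal_conv_gaussianReal, add_zero, Real.toNNReal_add ha hb, add_comm]
  have hint : Integrable (fun y => F (x + y)) (gaussianReal 0 (Real.toNNReal (a + b))) := by
    rw [hmap _ (add_nonneg ha hb),
      integrable_map_measure (hFs x).aestronglyMeasurable (by fun_prop)]
    exact heat_integrable hF hg (a + b) x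
  rw [e3] at hint ⊢
  rw [integral_conv hint]
  refine integral_congr_ae (Eventually.of_forall fun v => ?_)
  simp only
  rw [e1]
  congr 1; ext u
  congr 1; ring

/-- Jensen. -/
theorem heat_sq_le {G : ℝ → ℝ} (hG : Continuous G) {C : ℝ} (hC : ∀ x, |G x| ≤ C) (σ x : ℝ) :
    heat G σ x ^ 2 ≤ heat (fun y => G y ^ 2) σ x := by
  set m := heat G σ x with hm
  have hg : EG G := EG.of_bdd hC
  have hg2 : EG (fun y => G y ^ 2) := by
    have := hg.mul hg
    simpa [sq] using this
  have i1 := heat_integrable hG hg σ x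
  have i2 : Integrable (fun z => G (x + Real.sqrt σ * z) ^ 2) gam :=
    heat_integrable (F := fun y => G y ^ 2) (hG.pow 2) hg2 σ x
  have h0 : 0 ≤ ∫ z, (G (x + Real.sqrt σ * z) - m) ^ 2 ∂gam := integral_nonneg fun z => sq_nonneg _
  have e : ∫ z, (G (x + Real.sqrt σ * z) - m) ^ 2 ∂gam = heat (fun y => G y ^ 2) σ x - m ^ 2 := by
    have e1 : (fun z => (G (x + Real.sqrt σ * z) - m) ^ 2) =
        fun z => (G (x + Real.sqrt σ * z) ^ 2 - (2 * m) * G (x + Real.sqrt σ * z)) + m ^ 2 := by
      ext z; ring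
    have i3 : Integrable (fun z => G (x + Real.sqrt σ * z) ^ 2 -
        (2 * m) * G (x + Real.sqrt σ * z)) gam := i2.sub (i1.const_mul _)
    have i4 : Integrable (fun z => (2 * m) * G (x + Real.sqrt σ * z)) gam := i1.const_mul _
    rw [e1, integral_add i3 (integrable_const _), integral_sub i2 i4, integral_const_mul]
    simp only [integral_const, probReal_univ, one_smul]
    change heat (fun y => G y ^ 2) σ x - 2 * m * heat G σ x + m ^ 2 = _
    rw [← hm]; ring
  linarith

/-- Integral of a positive continuous function is positive. -/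
theorem gam_integral_pos {G : ℝ → ℝ} (hG : Continuous G) (hg : EG G) (h0 : ∀ x, 0 ≤ G x)
    {y : ℝ} (hy : G y ≠ 0) : 0 < ∫ z, G z ∂gam := by
  rw [integral_gam]
  have hi : Integrable (fun z => gaussianPDFReal 0 1 z * G z) :=
    integrable_gam_iff.1 (integrable_gam hG hg)
  have hp : ∀ z, 0 < gaussianPDFReal 0 1 z := fun z => gaussianPDFReal_pos _ _ _ one_ne_zero
  rw [integral_pos_iff_support_of_nonneg (fun z => mul_nonneg (hp z).le (h0 z)) hi]
  have hc : Continuous (fun z => gaussianPDFReal 0 1 z * G z) := by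
    refine Continuous.mul ?_ hG
    exact continuous_iff_continuousAt.2 fun z => (hasDerivAt_gpdf z).continuousAt
  have ho : IsOpen (Function.support (fun z => gaussianPDFReal 0 1 z * G z)) :=
    hc.isOpen_support
  refine ho.measure_pos _ ⟨y, ?_⟩
  exact mul_ne_zero (hp y).ne' hy

theorem heat_pos {G : ℝ → ℝ} (hG : Continuous G) (hg : EG G) (h0 : ∀ x, 0 < G x) (σ x : ℝ) :
    0 < heat G σ x := by
  unfold heat
  have eg : EG (fun z => G (x + Real.sqrt σ * z)) := by
    obtain ⟨C, a, hC, ha, h⟩ := hg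
    exact ⟨C * Real.exp (a * |x|), a * Real.sqrt σ, by positivity, by positivity, fun z =>
      EG.bound hC ha h le_rfl (Real.sqrt_nonneg _) le_rfl z⟩
  exact gam_integral_pos (by fun_prop) eg (fun z => (h0 _).le) (y := 0) (h0 _).ne'

theorem heat_lt {F G : ℝ → ℝ} (hF : Continuous F) (hg : EG F) (hG : Continuous G) (hg' : EG G)
    (h : ∀ x, F x < G x) (σ x : ℝ) : heat F σ x < heat G σ x := by
  have hn : EG (fun y => -F y) := by
    obtain ⟨C, a, hC, ha, k⟩ := hg
    exact ⟨C, a, hC, ha, fun y => by rw [abs_neg]; exact k y⟩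
  have := heat_pos (G := fun y => G y - F y) (hG.sub hF)
    (by simpa [sub_eq_add_neg] using hg'.add hn) (fun y => sub_pos.2 (h y)) σ x
  rw [heat_sub hG hg' hF hg] at this
  linarith

/-- Strict Jensen. -/
theorem heat_sq_lt {G : ℝ → ℝ} (hG : Continuous G) {C : ℝ} (hC : ∀ x, |G x| ≤ C)
    {y1 y2 : ℝ} (hne : G y1 ≠ G y2) {σ : ℝ} (hσ : 0 < σ) (x : ℝ) :
    heat G σ x ^ 2 < heat (fun y => G y ^ 2) σ x := by
  have hs : 0 < Real.sqrt σ := Real.sqrt_pos.2 hσ
  set m := heat G σ x with hm
  have hg : EG G := EG.of_bdd hC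
  have hg2 : EG (fun y => G y ^ 2) := by
    have := hg.mul hg
    simpa [sq] using this
  have i1 := heat_integrable hG hg σ x
  have i2 : Integrable (fun z => G (x + Real.sqrt σ * z) ^ 2) gam :=
    heat_integrable (F := fun y => G y ^ 2) (hG.pow 2) hg2 σ x
  have h0 : 0 < ∫ z, (G (x + Real.sqrt σ * z) - m) ^ 2 ∂gam := by
    have hex : ∃ y, G y ≠ m := by
      by_contra hcon
      push Not at hcon
      exact hne ((hcon y1).trans (hcon y2).symm)
    obtain ⟨y, hy⟩ := hex
    refine gam_integral_pos (G := fun z => (G (x + Real.sqrt σ * z) - m) ^ 2) (by fun_prop) ?_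
      (fun z => sq_nonneg _) (y := (y - x) / Real.sqrt σ) ?_
    · refine EG.of_bdd (C := (C + |m|) ^ 2) fun z => ?_
      rw [abs_pow]
      refine pow_le_pow_left₀ (abs_nonneg _) ?_ 2
      exact (abs_sub _ _).trans (add_le_add (hC _) le_rfl)
    · have : x + Real.sqrt σ * ((y - x) / Real.sqrt σ) = y := by field_simp; ring
      rw [this]
      exact pow_ne_zero 2 (sub_ne_zero.2 hy)
  have e : ∫ z, (G (x + Real.sqrt σ * z) - m) ^ 2 ∂gam = heat (fun y => G y ^ 2) σ x - m ^ 2 := by
    have e1 : (fun z => (G (x + Real.sqrt σ * z) - m) ^ 2) =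
        fun z => (G (x + Real.sqrt σ * z) ^ 2 - (2 * m) * G (x + Real.sqrt σ * z)) + m ^ 2 := by
      ext z; ring
    have i3 : Integrable (fun z => G (x + Real.sqrt σ * z) ^ 2 -
        (2 * m) * G (x + Real.sqrt σ * z)) gam := i2.sub (i1.const_mul _)
    have i4 : Integrable (fun z => (2 * m) * G (x + Real.sqrt σ * z)) gam := i1.const_mul _
    rw [e1, integral_add i3 (integrable_const _), integral_sub i2 i4, integral_const_mul]
    simp only [integral_const, probReal_univ, one_smul]
    change heat (fun y => G y ^ 2) σ x - 2 * m * heat G σ x + m ^ 2 = _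
    rw [← hm]; ring
  linarith

theorem integral_z : ∫ z, z ∂gam = 0 := by
  simp

theorem integral_z_sq : ∫ z, z * z ∂gam = 1 := by
  have := stein (G := fun z => z) (G' := fun _ => 1) (fun x => hasDerivAt_id x)
    ⟨1, 1, by norm_num, by norm_num, fun x => by simpa using abs_le_exp_abs x⟩
    continuous_const (EG.of_bdd (C := 1) (fun _ => by simp))
  simpa using this

/-- Reverse Poincaré type inequality. -/
theorem heat_deriv_sq_le {G G' : ℝ → ℝ} (hG : ∀ x, HasDerivAt G (G' x) x) {C C' : ℝ}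
    (hC : ∀ x, |G x| ≤ C) (hG' : Continuous G') (hC' : ∀ x, |G' x| ≤ C') {σ : ℝ} (hσ : 0 ≤ σ)
    (x : ℝ) : σ * heat G' σ x ^ 2 ≤ heat (fun y => G y ^ 2) σ x - heat G σ x ^ 2 := by
  have hGc : Continuous G := continuous_iff_continuousAt.2 fun x => (hG x).continuousAt
  have hg : EG G := EG.of_bdd hC
  have hg2 : EG (fun y => G y ^ 2) := by
    have := hg.mul hg
    simpa [sq] using this
  set m := heat G σ x with hm
  set m' := heat G' σ x with hm'
  set r := Real.sqrt σ with hr
  have hr2 : r ^ 2 = σ := Real.sq_sqrt hσ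
  have i1 : Integrable (fun z => G (x + r * z)) gam := heat_integrable hGc hg σ x
  have i2 : Integrable (fun z => G (x + r * z) ^ 2) gam :=
    heat_integrable (F := fun y => G y ^ 2) (hGc.pow 2) hg2 σ x
  have hid : EG (fun z : ℝ => z) :=
    ⟨1, 1, by norm_num, by norm_num, fun x => by simpa using abs_le_exp_abs x⟩
  have i3 : Integrable (fun z : ℝ => z) gam := integrable_gam continuous_id hid
  have i4 : Integrable (fun z : ℝ => z * z) gam :=
    integrable_gam (continuous_id.mul continuous_id) (hid.mul hid)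
  have i5 : Integrable (fun z => G (x + r * z) * z) gam := by
    refine integrable_gam (by fun_prop) (EG.mul ?_ hid)
    exact EG.of_bdd (fun z => hC _)
  have s1 : ∫ z, G (x + r * z) * z ∂gam = r * m' :=
    stein_scaled hG hg hG' (EG.of_bdd hC') r x
  have h0 : 0 ≤ ∫ z, (G (x + r * z) - m - r * m' * z) ^ 2 ∂gam :=
    integral_nonneg fun z => sq_nonneg _
  have e1 : (fun z => (G (x + r * z) - m - r * m' * z) ^ 2) =
      fun z => (((G (x + r * z) ^ 2 - (2 * m) * G (x + r * z)) -
        (2 * (r * m')) * (G (x + r * z) * z)) + (2 * m * (r * m')) * z) +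
        ((r * m') ^ 2 * (z * z) + m ^ 2) := by
    ext z; ring
  have e : ∫ z, (G (x + r * z) - m - r * m' * z) ^ 2 ∂gam =
      heat (fun y => G y ^ 2) σ x - m ^ 2 - σ * m' ^ 2 := by
    have j1 : Integrable (fun z => (2 * m) * G (x + r * z)) gam := i1.const_mul _
    have j2 : Integrable (fun z => G (x + r * z) ^ 2 - (2 * m) * G (x + r * z)) gam := i2.sub j1
    have j3 : Integrable (fun z => (2 * (r * m')) * (G (x + r * z) * z)) gam := i5.const_mul _
    have j4 : Integrable (fun z => (G (x + r * z) ^ 2 - (2 * m) * G (x + r * z)) -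
        (2 * (r * m')) * (G (x + r * z) * z)) gam := j2.sub j3
    have j5 : Integrable (fun z => (2 * m * (r * m')) * z) gam := i3.const_mul _
    have j6 : Integrable (fun z => ((G (x + r * z) ^ 2 - (2 * m) * G (x + r * z)) -
        (2 * (r * m')) * (G (x + r * z) * z)) + (2 * m * (r * m')) * z) gam := j4.add j5
    have j7 : Integrable (fun z => (r * m') ^ 2 * (z * z)) gam := i4.const_mul _
    have j8 : Integrable (fun z => (r * m') ^ 2 * (z * z) + m ^ 2) gam :=
      j7.add (integrable_const _)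
    rw [e1, integral_add j6 j8, integral_add j4 j5, integral_sub j2 j3, integral_sub i2 j1,
      integral_add j7 (integrable_const _),
      integral_const_mul, integral_const_mul, integral_const_mul, integral_const_mul, s1,
      integral_z, integral_z_sq]
    simp only [integral_const, probReal_univ, one_smul]
    change heat (fun y => G y ^ 2) σ x - 2 * m * heat G σ x - _ + _ + _ = _
    rw [← hm, ← hr2]; ring
  linarith

end Pool.Agent.Helper95A
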