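import Pool.Agent.Helper95A.Gam2

set_option autoImplicit false

open MeasureTheory ProbabilityTheory Set Filter Topology

namespace Pool.Agent.Helper95A

noncomputable def GG (y : ℝ) : ℝ := Real.tanh y ^ 2 - Real.tanh y * sc y ^ 2 * y

theorem GG_even (y : ℝ) : GG (-y) = GG y := by
  unfold GG; rw [Real.tanh_neg, sc_neg]; ring

theorem GG_pos {y : ℝ} (hy : 0 < y) : 0 < GG y := by
  have h1 : y < Real.sinh y := Real.self_lt_sinh_iff.2 hy
  have h2 : 1 ≤ Real.cosh y := Real.one_le_cosh y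
  have h3 : 0 < sc y := sc_pos y
  have h4 : GG y = Real.sinh y * sc y ^ 3 * (Real.sinh y * Real.cosh y - y) := by
    unfold GG
    rw [tanh_eq]
    have h5 : Real.cosh y * sc y = 1 := mul_inv_cancel₀ (Real.cosh_pos y).ne'
    linear_combination (-(Real.sinh y ^ 2 * sc y ^ 2)) * h5
  rw [h4]
  have h5 : 0 < Real.sinh y := lt_trans hy h1
  have h6 : y < Real.sinh y * Real.cosh y := by nlinarith
  have : 0 < Real.sinh y * Real.cosh y - y := by linarith
  positivity

theorem GG_nonneg (y : ℝ) : 0 ≤ GG y := by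
  rcases lt_trichotomy y 0 with h | h | h
  · rw [← GG_even]; exact (GG_pos (by linarith)).le
  · rw [h]; simp [GG]
  · exact (GG_pos h).le

theorem GG_cont : Continuous GG := by
  unfold GG
  have := continuous_tanh
  have := continuous_sc
  fun_prop

theorem EG_id : EG (fun z : ℝ => z) :=
  ⟨1, 1, by norm_num, by norm_num, fun x => by simpa using abs_le_exp_abs x⟩

theorem EG_ts : EG (fun y => Real.tanh y * sc y ^ 2) :=
  EG.of_bdd (C := 1 * 1) fun y => abs_mul_le' (abs_tanh_le y) (abs_sc_pow_le 2 y)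

theorem c_ts : Continuous (fun y => Real.tanh y * sc y ^ 2) :=
  continuous_tanh.mul (continuous_sc.pow 2)

theorem EG.neg {F : ℝ → ℝ} (hF : EG F) : EG (fun y => -F y) := by
  obtain ⟨C, a, hC, ha, k⟩ := hF
  exact ⟨C, a, hC, ha, fun y => by rw [abs_neg]; exact k y⟩

theorem EG_GG : EG GG := by
  have h1 : EG (fun y => Real.tanh y ^ 2) := EG.of_bdd abs_tanh_sq
  have h2 := (EG_ts.mul EG_id).neg
  have := h1.add h2
  unfold GG
  simpa [sub_eq_add_neg] using this

theorem d_tanh_sq (y : ℝ) :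
    HasDerivAt (fun y => Real.tanh y ^ 2) (2 * (Real.tanh y * sc y ^ 2)) y := by
  refine ((hasDerivAt_tanh y).fun_pow 2).congr_deriv ?_
  norm_num; ring

theorem d_tanh_sq' (y : ℝ) : HasDerivAt (fun y => 2 * (Real.tanh y * sc y ^ 2))
    (2 * (sc y ^ 2 * sc y ^ 2 + Real.tanh y * -((2:ℕ) * sc y ^ 2 * Real.tanh y))) y :=
  ((hasDerivAt_tanh y).mul (hasDerivAt_sc_pow 2 y)).const_mul 2

theorem lg_deriv {h x : ℝ} (hx : 0 < x) :
    ∃ D : ℝ, HasDerivAt (fun s => heat (fun y => Real.tanh y ^ 2) s h) D x ∧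
      x * D - heat (fun y => Real.tanh y ^ 2) x h =
        -(heat GG x h + h * heat (fun y => Real.tanh y * sc y ^ 2) x h) := by
  have e1 : EG (fun y => 2 * (Real.tanh y * sc y ^ 2)) :=
    EG.of_bdd (C := 2) fun y => by
      rw [abs_mul, abs_two]
      have := abs_mul_le' (abs_tanh_le y) (abs_sc_pow_le 2 y)
      linarith
  have c2 : Continuous (fun y => 2 * (sc y ^ 2 * sc y ^ 2 +
      Real.tanh y * -((2:ℕ) * sc y ^ 2 * Real.tanh y))) := by
    have := continuous_tanh
    have := continuous_sc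
    fun_prop
  have e2 : EG (fun y => 2 * (sc y ^ 2 * sc y ^ 2 +
      Real.tanh y * -((2:ℕ) * sc y ^ 2 * Real.tanh y))) :=
    EG.of_bdd (C := 6) fun y => by
      rw [abs_mul, abs_two]
      have h1 := abs_mul_le' (abs_sc_pow_le 2 y) (abs_sc_pow_le 2 y)
      have h2 := abs_mul_le' (abs_tanh_le y) (abs_sc_pow_tanh_le 2 y)
      have h3 := abs_add_le (sc y ^ 2 * sc y ^ 2) (Real.tanh y * -((2:ℕ) * sc y ^ 2 * Real.tanh y))
      push_cast at h2 h3 ⊢
      linarith
  refine ⟨_, heat_hasDerivAt_σ d_tanh_sq (EG.of_bdd abs_tanh_sq) d_tanh_sq' e1 c2 e2 hx h, ?_⟩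
  set r := Real.sqrt x with hr
  have hr2 : r * r = x := Real.mul_self_sqrt hx.le
  have st := stein_scaled d_tanh_sq' e1 c2 e2 r h
  have i1 : Integrable (fun z => (Real.tanh (h + r * z) * sc (h + r * z) ^ 2) * z) gam := by
    refine integrable_gam ?_ (EG.mul (EG.of_bdd (C := 1 * 1) fun y =>
      abs_mul_le' (abs_tanh_le _) (abs_sc_pow_le 2 _)) EG_id)
    have := continuous_tanh
    have := continuous_sc
    fun_prop
  have i2 : Integrable (fun z => GG (h + r * z)) gam := heat_integrable GG_cont EG_GG x h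
  have i3 : Integrable (fun z => Real.tanh (h + r * z) * sc (h + r * z) ^ 2) gam :=
    heat_integrable c_ts EG_ts x h
  have i4 : Integrable (fun z => Real.tanh (h + r * z) ^ 2) gam :=
    heat_integrable (F := fun y => Real.tanh y ^ 2) (continuous_tanh.pow 2)
      (EG.of_bdd abs_tanh_sq) x h
  have k1 : ∫ z, (fun y => 2 * (Real.tanh y * sc y ^ 2)) (h + r * z) * z ∂gam =
      2 * ∫ z, (Real.tanh (h + r * z) * sc (h + r * z) ^ 2) * z ∂gam := by
    rw [← integral_const_mul]
    congr 1; ext z; ring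
  rw [k1] at st
  -- T^2 = GG + ts * Y
  have k2 : ∫ z, Real.tanh (h + r * z) ^ 2 ∂gam = ∫ z, GG (h + r * z) ∂gam +
      (h * ∫ z, Real.tanh (h + r * z) * sc (h + r * z) ^ 2 ∂gam +
        r * ∫ z, (Real.tanh (h + r * z) * sc (h + r * z) ^ 2) * z ∂gam) := by
    rw [← integral_const_mul, ← integral_const_mul]
    have j1 : Integrable (fun z => h * (Real.tanh (h + r * z) * sc (h + r * z) ^ 2)) gam :=
      i3.const_mul h
    have j2 : Integrable (fun z => r * ((Real.tanh (h + r * z) * sc (h + r * z) ^ 2) * z)) gam :=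
      i1.const_mul r
    have j3 : Integrable (fun z => h * (Real.tanh (h + r * z) * sc (h + r * z) ^ 2) +
      r * ((Real.tanh (h + r * z) * sc (h + r * z) ^ 2) * z)) gam := j1.add j2
    rw [← integral_add j1 j2, ← integral_add i2 j3]
    congr 1; ext z
    unfold GG; ring
  change x * ((∫ z, (fun y => 2 * (sc y ^ 2 * sc y ^ 2 +
      Real.tanh y * -((2:ℕ) * sc y ^ 2 * Real.tanh y))) (h + r * z) ∂gam) / 2) -
    (∫ z, Real.tanh (h + r * z) ^ 2 ∂gam) = -((∫ z, GG (h + r * z) ∂gam) +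
      h * ∫ z, Real.tanh (h + r * z) * sc (h + r * z) ^ 2 ∂gam)
  rw [k2]
  set I := ∫ z, (fun y => 2 * (sc y ^ 2 * sc y ^ 2 +
      Real.tanh y * -((2:ℕ) * sc y ^ 2 * Real.tanh y))) (h + r * z) ∂gam
  have : x * (I / 2) = r * ∫ z, (Real.tanh (h + r * z) * sc (h + r * z) ^ 2) * z ∂gam := by
    rw [← hr2]
    linear_combination (-(r / 2)) * st
  rw [this]; ring

theorem lg_neg {h x D : ℝ} (hh : 0 ≤ h) (hx : 0 < x)
    (hD : x * D - heat (fun y => Real.tanh y ^ 2) x h =
        -(heat GG x h + h * heat (fun y => Real.tanh y * sc y ^ 2) x h)) :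
    x * D - heat (fun y => Real.tanh y ^ 2) x h < 0 := by
  rw [hD]
  have h1 : 0 ≤ heat (fun y => Real.tanh y * sc y ^ 2) x h := by
    refine heat_odd_nonneg c_ts EG_ts (fun y => ?_) (fun y hy => ?_) x hh
    · rw [Real.tanh_neg, sc_neg]; ring
    · exact mul_nonneg (tanh_nonneg hy) (sc_pow_nonneg 2 y)
  have h2 : 0 < heat GG x h := by
    have hr : 0 < Real.sqrt x := Real.sqrt_pos.2 hx
    unfold heat
    have hc : Continuous (fun z => GG (h + Real.sqrt x * z)) := GG_cont.comp (by fun_prop)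
    refine gam_integral_pos hc ?_ (fun z => GG_nonneg _) (y := (1 - h) / Real.sqrt x) ?_
    · obtain ⟨C, a, hC, ha, k⟩ := EG_GG
      exact ⟨C * Real.exp (a * |h|), a * Real.sqrt x, by positivity, by positivity, fun z =>
        EG.bound hC ha k le_rfl (Real.sqrt_nonneg _) le_rfl z⟩
    · have : h + Real.sqrt x * ((1 - h) / Real.sqrt x) = 1 := by field_simp; ring
      rw [this]; exact (GG_pos one_pos).ne'
  have := mul_nonneg hh h1
  linarith

/-- Latala Guerra: strict monotonicity. -/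
theorem lg_strict (h : ℝ) {x1 x2 : ℝ} (h1 : 0 < x1) (h12 : x1 < x2) :
    heat (fun y => Real.tanh y ^ 2) x2 h / x2 < heat (fun y => Real.tanh y ^ 2) x1 h / x1 := by
  have hev : ∀ σ, heat (fun y => Real.tanh y ^ 2) σ h = heat (fun y => Real.tanh y ^ 2) σ |h| := by
    intro σ
    rcases abs_choice h with e | e
    · rw [e]
    · rw [e]; exact (heat_neg_arg (fun y => by rw [Real.tanh_neg]; ring) _ _).symm
  rw [hev, hev]
  have hh := abs_nonneg h
  generalize |h| = k at hh
  have hd : ∀ x, 0 < x → ∃ D, HasDerivAt (fun s => heat (fun y => Real.tanh y ^ 2) s k / s) D x ∧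
      D < 0 := by
    intro x hx
    obtain ⟨D, hD1, hD2⟩ := lg_deriv (h := k) hx
    have hn := lg_neg hh hx hD2
    refine ⟨_, hD1.div (hasDerivAt_id x) hx.ne', ?_⟩
    refine div_neg_of_neg_of_pos ?_ (pow_pos hx 2)
    change D * x - heat (fun y => Real.tanh y ^ 2) x k * 1 < 0
    linarith
  have key : StrictAntiOn (fun s => heat (fun y => Real.tanh y ^ 2) s k / s) (Ioi 0) := by
    refine strictAntiOn_of_deriv_neg (convex_Ioi 0) (fun x hx => ?_) (fun x hx => ?_)
    · obtain ⟨D, hD, _⟩ := hd x hx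
      exact hD.continuousAt.continuousWithinAt
    · rw [interior_Ioi] at hx
      obtain ⟨D, hD, hneg⟩ := hd x hx
      rw [hD.deriv]; exact hneg
  exact key h1 (h1.trans h12) h12

theorem fp_unique {β h q1 q2 : ℝ} (hβ : β ≠ 0) (h1 : 0 < q1) (h2 : 0 < q2)
    (e1 : q1 = heat (fun y => Real.tanh y ^ 2) (2 * β ^ 2 * q1) h)
    (e2 : q2 = heat (fun y => Real.tanh y ^ 2) (2 * β ^ 2 * q2) h) : q1 = q2 := by
  have hβ2 : 0 < β ^ 2 := by positivity
  have key : ∀ {a b : ℝ}, 0 < a → a < b →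
      a = heat (fun y => Real.tanh y ^ 2) (2 * β ^ 2 * a) h →
      b = heat (fun y => Real.tanh y ^ 2) (2 * β ^ 2 * b) h → False := by
    intro a b ha hab ea eb
    have hlt : 2 * β ^ 2 * a < 2 * β ^ 2 * b := mul_lt_mul_of_pos_left hab (by positivity)
    have := lg_strict h (by positivity : 0 < 2 * β ^ 2 * a) hlt
    rw [← ea, ← eb] at this
    have hb : 0 < b := ha.trans hab
    have k1 : b / (2 * β ^ 2 * b) = 1 / (2 * β ^ 2) := by field_simp
    have k2 : a / (2 * β ^ 2 * a) = 1 / (2 * β ^ 2) := by field_simp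
    rw [k1, k2] at this
    exact lt_irrefl _ this
  rcases lt_trichotomy q1 q2 with hl | hl | hl
  · exact (key h1 hl e1 e2).elim
  · exact hl
  · exact (key h2 hl e2 e1).elim

theorem fp_continuous (β h : ℝ) :
    Continuous (fun q => heat (fun y => Real.tanh y ^ 2) (2 * β ^ 2 * q) h) :=
  (heat_time_continuous (continuous_tanh.pow 2) (EG.of_bdd abs_tanh_sq) h).comp (by fun_prop)

theorem fp_lt_one (σ h : ℝ) : heat (fun y => Real.tanh y ^ 2) σ h < 1 := by
  rw [tanh_sq_heat]
  have := heat_pos (cont_sc_pow 2) (EG_sc_pow 2) (fun x => pow_pos (sc_pos x) 2) σ h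
  linarith

theorem fp_nonneg (σ h : ℝ) : 0 ≤ heat (fun y => Real.tanh y ^ 2) σ h :=
  heat_nonneg (fun _ => sq_nonneg _) σ h

/-- There is a largest fixed point. -/
theorem exists_greatest (β h : ℝ) : ∃ q, IsGreatest {q : ℝ | q ∈ Icc (0:ℝ) 1 ∧
    q = heat (fun y => Real.tanh y ^ 2) (2 * β ^ 2 * q) h} q := by
  have hc := fp_continuous β h
  have hcl : IsClosed {q : ℝ | q = heat (fun y => Real.tanh y ^ 2) (2 * β ^ 2 * q) h} :=
    isClosed_eq continuous_id hc
  have hcomp : IsCompact {q : ℝ | q ∈ Icc (0:ℝ) 1 ∧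
      q = heat (fun y => Real.tanh y ^ 2) (2 * β ^ 2 * q) h} := by
    have := isCompact_Icc.inter_right (s := Icc (0:ℝ) 1) hcl
    exact this
  refine hcomp.exists_isGreatest ?_
  have hivt : (0:ℝ) ∈ (fun q => q - heat (fun y => Real.tanh y ^ 2) (2 * β ^ 2 * q) h) '' Icc 0 1 := by
    refine intermediate_value_Icc zero_le_one (continuous_id.sub hc).continuousOn ⟨?_, ?_⟩
    · have := fp_nonneg (2 * β ^ 2 * 0) h
      change (0:ℝ) - heat (fun y => Real.tanh y ^ 2) (2 * β ^ 2 * 0) h ≤ 0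
      linarith
    · have := fp_lt_one (2 * β ^ 2 * 1) h
      change 0 ≤ (1:ℝ) - heat (fun y => Real.tanh y ^ 2) (2 * β ^ 2 * 1) h
      linarith
  obtain ⟨q, hq, he⟩ := hivt
  exact ⟨q, hq, by simp only at he; linarith⟩

/-- `E tanh(sqrt S z)^2 < S`. -/
theorem tanh_sq_lt {S : ℝ} (hS : 0 < S) : heat (fun y => Real.tanh y ^ 2) S 0 < S := by
  have hr : 0 < Real.sqrt S := Real.sqrt_pos.2 hS
  have key : ∀ y : ℝ, Real.tanh y ^ 2 ≤ y ^ 2 := by
    intro y
    have h1 : GG y = Real.tanh y ^ 2 - Real.tanh y * sc y ^ 2 * y := rfl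
    have hpos : ∀ z : ℝ, 0 ≤ z → Real.tanh z ≤ z := by
      intro z hz
      have hd : ∀ u, HasDerivAt (fun u => u - Real.tanh u) (1 - sc u ^ 2) u := fun u =>
        (hasDerivAt_id u).sub (hasDerivAt_tanh u)
      have hmono : Monotone (fun u => u - Real.tanh u) := by
        refine monotone_of_deriv_nonneg (fun u => (hd u).differentiableAt) fun u => ?_
        rw [(hd u).deriv]
        have := tanh_sq u
        nlinarith [sq_nonneg (Real.tanh u)]
      have := hmono hz
      simp only [Real.tanh_zero, sub_zero] at this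
      linarith
    rcases le_total 0 y with h | h
    · exact pow_le_pow_left₀ (tanh_nonneg h) (hpos y h) 2
    · have h2 := hpos (-y) (by linarith)
      have h3 := tanh_nonneg (show 0 ≤ -y by linarith)
      rw [Real.tanh_neg] at h2 h3
      nlinarith
  have hsq : heat (fun y => y ^ 2) S 0 = S := by
    unfold heat
    have : ∀ z : ℝ, (0 + Real.sqrt S * z) ^ 2 = S * (z * z) := by
      intro z; rw [zero_add, mul_pow, Real.sq_sqrt hS.le]; ring
    simp only [this]
    rw [integral_const_mul, integral_z_sq, mul_one]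
  have e2 : EG (fun y : ℝ => y ^ 2) := by
    have := EG_id.mul EG_id
    simpa [sq] using this
  have h1 : heat (fun y => Real.tanh y ^ 2) S 0 ≤ heat (fun y => y ^ 2) S 0 :=
    heat_mono (continuous_tanh.pow 2) (EG.of_bdd abs_tanh_sq) (continuous_pow 2) e2 key S 0
  rw [hsq] at h1
  refine lt_of_le_of_ne h1 fun heq => ?_
  have h3 : heat (fun y => y ^ 2 - Real.tanh y ^ 2) S 0 = 0 := by
    have ct : Continuous (fun y => Real.tanh y ^ 2) := continuous_tanh.pow 2
    rw [heat_sub (continuous_pow 2) e2 ct (EG.of_bdd abs_tanh_sq), hsq, heq]; ring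
  have h4 : 0 < heat (fun y => y ^ 2 - Real.tanh y ^ 2) S 0 := by
    unfold heat
    have hc : Continuous (fun z => (0 + Real.sqrt S * z) ^ 2 -
        Real.tanh (0 + Real.sqrt S * z) ^ 2) := by
      have := continuous_tanh
      fun_prop
    refine gam_integral_pos hc ?_ (fun z => sub_nonneg.2 (key _)) (y := 2 / Real.sqrt S) ?_
    · have a1 : EG (fun z : ℝ => (0 + Real.sqrt S * z) ^ 2) := by
        have := ((EG_id.mul EG_id).mul (EG.of_bdd (C := |S|) (F := fun _ => S)
          (fun _ => le_rfl)))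
        refine (show (fun z : ℝ => (0 + Real.sqrt S * z) ^ 2) = fun z => z * z * S from ?_) ▸ this
        ext z; rw [zero_add, mul_pow, Real.sq_sqrt hS.le]; ring
      have a2 : EG (fun z : ℝ => -(Real.tanh (0 + Real.sqrt S * z) ^ 2)) :=
        EG.neg (EG.of_bdd fun z => abs_tanh_sq _)
      simpa [sub_eq_add_neg] using a1.add a2
    · have : 0 + Real.sqrt S * (2 / Real.sqrt S) = 2 := by field_simp; ring
      rw [this]
      have := abs_tanh_sq 2
      rw [abs_of_nonneg (sq_nonneg _)] at this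
      intro h0
      linarith
  linarith

end Pool.Agent.Helper95A
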