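import Pool.Agent.Helper95A.Glue

set_option autoImplicit false

open MeasureTheory ProbabilityTheory Set Filter Topology

namespace Pool.Agent.Helper95A

open B3

theorem mk_sol' {β : ℝ} {ζ : ℝ → ℝ} {f fx fxx : ℝ → ℝ → ℝ}
    (hx : ∀ t ∈ Icc (0:ℝ) 1, ∀ x, HasDerivAt (f t) (fx t x) x)
    (hxx : ∀ t ∈ Icc (0:ℝ) 1, ∀ x, HasDerivAt (fx t) (fxx t x) x)
    (cf : ContinuousOn (fun p : ℝ × ℝ => f p.1 p.2) (Icc (0:ℝ) 1 ×ˢ univ))
    (cx : ContinuousOn (fun p : ℝ × ℝ => fx p.1 p.2) (Icc (0:ℝ) 1 ×ˢ univ))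
    (cxx : ContinuousOn (fun p : ℝ × ℝ => fxx p.1 p.2) (Icc (0:ℝ) 1 ×ˢ univ))
    (hC : ∃ C : ℝ, ∀ t ∈ Icc (0:ℝ) 1, ∀ x, |fx t x| ≤ C)
    (h1 : ∀ x, f 1 x = Real.log (Real.cosh x))
    (hp : ∀ t ∈ Icc (0:ℝ) 1, ∀ x, f t x = Real.log (Real.cosh x) +
      β ^ 2 * ∫ s in t..1, (fxx s x + ζ s * fx s x ^ 2)) : IsParisiSol β ζ f := by
  have dx : ∀ t ∈ Icc (0:ℝ) 1, deriv (f t) = fx t := fun t ht => funext fun x => (hx t ht x).deriv
  have dxx : ∀ t ∈ Icc (0:ℝ) 1, deriv (deriv (f t)) = fxx t := fun t ht => by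
    rw [dx t ht]; exact funext fun x => (hxx t ht x).deriv
  refine ⟨fun t ht => ?_, cf, ?_, ?_, ?_, h1, fun t ht' x => ?_⟩
  · have c2 : Continuous (fxx t) := by
      have := cxx.comp (f := fun y : ℝ => ((t, y) : ℝ × ℝ)) (s := univ) (by fun_prop)
        (fun y _ => ⟨ht, mem_univ _⟩)
      exact continuousOn_univ.1 this
    rw [show (2 : WithTop ℕ∞) = 1 + 1 by norm_num, contDiff_succ_iff_deriv]
    refine ⟨fun x => (hx t ht x).differentiableAt, fun h => by simp at h, ?_⟩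
    rw [dx t ht, show (1 : WithTop ℕ∞) = 0 + 1 by norm_num, contDiff_succ_iff_deriv]
    refine ⟨fun x => (hxx t ht x).differentiableAt, fun h => by simp at h, ?_⟩
    have : deriv (fx t) = fxx t := funext fun x => (hxx t ht x).deriv
    rw [this]
    exact contDiff_zero.2 c2
  · refine cx.congr fun p hp => ?_
    rw [dx p.1 hp.1]
  · refine cxx.congr fun p hp => ?_
    rw [dxx p.1 hp.1]
  · obtain ⟨C, hC⟩ := hC
    exact ⟨C, fun t ht x => by rw [dx t ht]; exact hC t ht x⟩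
  · rw [hp t ht' x]
    congr 2
    refine intervalIntegral.integral_congr fun s hs => ?_
    rw [uIcc_of_le ht'.2] at hs
    have hs' : s ∈ Icc (0:ℝ) 1 := ⟨ht'.1.trans hs.1, hs.2⟩
    rw [dxx s hs', dx s hs']

/-- Interpolation inequality. -/
theorem interp {v v' v'' : ℝ → ℝ} (h1 : ∀ x, HasDerivAt v (v' x) x)
    (h2 : ∀ x, HasDerivAt v' (v'' x) x) {δ M : ℝ} (hδ : 0 < δ) (bv : ∀ x, |v x| ≤ δ)
    (bv'' : ∀ x, |v'' x| ≤ M) (x : ℝ) : |v' x| ≤ (2 + M) * Real.sqrt δ := by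
  set s := Real.sqrt δ with hs
  have hs0 : 0 < s := Real.sqrt_pos.2 hδ
  have hs2 : s * s = δ := Real.mul_self_sqrt hδ.le
  obtain ⟨ξ, hξ, he⟩ := exists_hasDerivAt_eq_slope v v' (show x < x + s by linarith)
    (fun y _ => (h1 y).continuousAt.continuousWithinAt) (fun y _ => h1 y)
  have h3 : |v' ξ| ≤ 2 * s := by
    rw [he, add_sub_cancel_left, abs_div, abs_of_pos hs0, div_le_iff₀ hs0]
    have := (abs_sub (v (x + s)) (v x)).trans (add_le_add (bv _) (bv _))
    nlinarith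
  have h4 : |v' ξ - v' x| ≤ M * |ξ - x| := by
    have := Convex.norm_image_sub_le_of_norm_hasDerivWithin_le (f := v') (f' := v'')
      (s := univ) (C := M) (fun y _ => (h2 y).hasDerivWithinAt)
      (fun y _ => by rw [Real.norm_eq_abs]; exact bv'' y) convex_univ (mem_univ x) (mem_univ ξ)
    rwa [Real.norm_eq_abs, Real.norm_eq_abs] at this
  have hM0 : 0 ≤ M := (abs_nonneg _).trans (bv'' 0)
  have h5 : |ξ - x| ≤ s := by
    rw [abs_of_pos (by linarith [hξ.1])]; linarith [hξ.2]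
  have h6 : M * |ξ - x| ≤ M * s := mul_le_mul_of_nonneg_left h5 hM0
  have h7 : |v' x| ≤ |v' ξ| + |v' ξ - v' x| := by
    have := abs_sub_abs_le_abs_sub (v' x) (v' ξ)
    rw [abs_sub_comm (v' x)] at this
    linarith
  nlinarith

/-- the approximating sequence -/
noncomputable def cN (ζ : ℝ → ℝ) (N k : ℕ) : ℝ := max (ζ ((k:ℝ) / N)) (1 / (N:ℝ))

theorem cN_pos {ζ : ℝ → ℝ} (hζ : IsCdf ζ) {N : ℕ} (hN : 0 < N) (k : ℕ) :
    0 < cN ζ N k ∧ cN ζ N k ≤ 1 := by
  have hN' : (0:ℝ) < N := by exact_mod_cast hN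
  refine ⟨lt_max_of_lt_right (by positivity), max_le (hζ.le_one _) ?_⟩
  rw [div_le_one hN']
  exact_mod_cast hN

theorem stepZ_RC {N : ℕ} (hN : 0 < N) {c : ℕ → ℝ} (hc : ∀ k, 0 < c k ∧ c k ≤ 1) :
    RC (stepZ N c) where
  meas := by
    unfold stepZ
    exact (measurable_of_countable c).comp (Nat.measurable_floor.comp (by fun_prop))
  nonneg := fun _ => (hc _).1.le
  le_one := fun _ => (hc _).2
  rc := by
    intro t
    have hN' : (0:ℝ) < N := by exact_mod_cast hN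
    have : stepZ N c =ᶠ[𝓝[Ioi t] t] fun _ => stepZ N c t := by
      rcases lt_or_ge t 0 with h | h
      · filter_upwards [Ioo_mem_nhdsGT h] with s hs
        unfold stepZ
        rw [Nat.floor_of_nonpos (mul_nonpos_of_nonneg_of_nonpos hN'.le hs.2.le),
          Nat.floor_of_nonpos (mul_nonpos_of_nonneg_of_nonpos hN'.le h.le)]
      · have h1 : t < (⌊(N:ℝ) * t⌋₊ + 1) / N := by
          rw [lt_div_iff₀ hN', mul_comm]
          exact Nat.lt_floor_add_one _
        filter_upwards [Ioo_mem_nhdsGT h1] with s hs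
        unfold stepZ
        congr 1
        rw [Nat.floor_eq_iff (mul_nonneg hN'.le (h.trans hs.1.le))]
        constructor
        · have h2 := Nat.floor_le (mul_nonneg hN'.le h)
          have h3 : (N:ℝ) * t ≤ N * s := mul_le_mul_of_nonneg_left hs.1.le hN'.le
          linarith
        · have h2 := hs.2
          rw [lt_div_iff₀ hN', mul_comm] at h2
          exact h2
    exact (continuousWithinAt_const (b := stepZ N c t)).congr_of_eventuallyEq this rfl

theorem stepZ_tendsto {ζ : ℝ → ℝ} (hζ : IsCdf ζ) {s : ℝ} (hs0 : 0 ≤ s) (hs : ContinuousAt ζ s) :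
    Tendsto (fun n : ℕ => stepZ (n + 1) (cN ζ (n + 1)) s) atTop (𝓝 (ζ s)) := by
  have h1 : Tendsto (fun n : ℕ => ((⌊((n + 1 : ℕ) : ℝ) * s⌋₊ : ℝ) / ((n + 1 : ℕ) : ℝ))) atTop
      (𝓝 s) := by
    have := (tendsto_nat_floor_mul_div_atTop (R := ℝ) hs0).comp
      (tendsto_natCast_atTop_atTop (R := ℝ) |>.comp (tendsto_add_atTop_nat 1))
    refine this.congr fun n => ?_
    simp only [Function.comp]
    rw [mul_comm]
  have h2 := hs.tendsto.comp h1
  have h3 : Tendsto (fun n : ℕ => 1 / ((n + 1 : ℕ) : ℝ)) atTop (𝓝 0) := by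
    have := tendsto_one_div_add_atTop_nhds_zero_nat (𝕜 := ℝ)
    refine this.congr fun n => ?_
    push_cast; rfl
  have h4 := h2.max h3
  rw [max_eq_left (hζ.nonneg s)] at h4
  exact h4

theorem cdf_ae_cont {ζ : ℝ → ℝ} (hζ : IsCdf ζ) : ∀ᵐ s ∂(volume : Measure ℝ), ContinuousAt ζ s := by
  have := hζ.mono.countable_not_continuousAt
  have h2 : volume {s | ¬ ContinuousAt ζ s} = 0 := this.measure_zero _
  exact h2

theorem L1_tendsto {ζ : ℝ → ℝ} (hζ : IsCdf ζ) :
    Tendsto (fun n : ℕ => ∫ s in (0:ℝ)..1, |stepZ (n + 1) (cN ζ (n + 1)) s - ζ s|) atTop (𝓝 0) := by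
  suffices h : Tendsto (fun n : ℕ => ∫ s in (0:ℝ)..1, |stepZ (n + 1) (cN ζ (n + 1)) s - ζ s|) atTop
      (𝓝 (∫ _ in (0:ℝ)..1, (0:ℝ))) by simpa using h
  refine intervalIntegral.tendsto_integral_filter_of_dominated_convergence (μ := volume)
    (l := (atTop : Filter ℕ)) (f := fun _ => (0:ℝ))
    (F := fun (n : ℕ) s => |stepZ (n + 1) (cN ζ (n + 1)) s - ζ s|) (bound := fun _ => (1:ℝ))
    (Eventually.of_forall fun n => ?_) (Eventually.of_forall fun n =>
      Eventually.of_forall fun s _ => ?_) intervalIntegrable_const ?_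
  · exact (((stepZ_RC n.succ_pos (cN_pos hζ n.succ_pos)).meas.sub
      hζ.mono.measurable).abs).aestronglyMeasurable
  · have h := stepZ_RC n.succ_pos (cN_pos hζ n.succ_pos)
    have h1 := h.nonneg s
    have h2 := h.le_one s
    rw [Real.norm_eq_abs, abs_abs, abs_le]
    constructor <;> linarith [hζ.nonneg s, hζ.le_one s]
  · filter_upwards [cdf_ae_cont hζ] with s hs hs2
    rw [uIoc_of_le zero_le_one] at hs2
    have := (stepZ_tendsto hζ hs2.1.le hs).sub_const (ζ s)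
    rw [sub_self] at this
    simpa using this.abs

end Pool.Agent.Helper95A
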