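import Pool.Agent.Helper95A.Defs
import Pool.Agent.Helper95A.Gam2
import Pool.Agent.Helper95A.Doubling

set_option autoImplicit false

open MeasureTheory ProbabilityTheory Set Filter Topology

namespace Pool.Agent.Helper95A

theorem stp_mono (q : ℝ) : Monotone (stp q) := by
  intro s t hst
  unfold stp
  split_ifs with h1 h2
  · exact le_rfl
  · exact absurd (h1.trans hst) h2
  · exact zero_le_one
  · exact le_rfl

theorem stp_rc (q t : ℝ) : ContinuousWithinAt (stp q) (Ici t) t := by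
  rcases lt_or_ge t q with h | h
  · have : stp q =ᶠ[𝓝[Ici t] t] fun _ => 0 := by
      filter_upwards [Ico_mem_nhdsGE h] with s hs
      simp only [stp, if_neg (not_le.2 hs.2)]
    exact (continuousWithinAt_const (b := (0:ℝ))).congr_of_eventuallyEq this
      (by simp only [stp, if_neg (not_le.2 h)])
  · refine (continuousWithinAt_const (b := (1:ℝ))).congr (fun s hs => ?_) ?_
    · simp only [stp, if_pos (h.trans hs)]
    · simp only [stp, if_pos h]

theorem stp_isCdf {q : ℝ} (hq : q ∈ Icc (0:ℝ) 1) : IsCdf (stp q) where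
  mono := stp_mono q
  rc := stp_rc q
  zero := fun t ht => by simp only [stp, if_neg (not_le.2 (lt_of_lt_of_le ht hq.1))]
  one := fun t ht => by simp only [stp, if_pos (hq.2.trans ht)]

theorem mk_sol {β : ℝ} {ζ : ℝ → ℝ} (hζ : IsCdf ζ) {f fx fxx : ℝ → ℝ → ℝ}
    (hx : ∀ t ∈ Icc (0:ℝ) 1, ∀ x, HasDerivAt (f t) (fx t x) x)
    (hxx : ∀ t ∈ Icc (0:ℝ) 1, ∀ x, HasDerivAt (fx t) (fxx t x) x)
    (cf : ContinuousOn (fun p : ℝ × ℝ => f p.1 p.2) (Icc (0:ℝ) 1 ×ˢ univ))
    (cx : ContinuousOn (fun p : ℝ × ℝ => fx p.1 p.2) (Icc (0:ℝ) 1 ×ˢ univ))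
    (cxx : ContinuousOn (fun p : ℝ × ℝ => fxx p.1 p.2) (Icc (0:ℝ) 1 ×ˢ univ))
    (hC : ∃ C : ℝ, ∀ t ∈ Icc (0:ℝ) 1, ∀ x, |fx t x| ≤ C)
    (h1 : ∀ x, f 1 x = Real.log (Real.cosh x))
    (ht : ∀ t ∈ Ico (0:ℝ) 1, ∀ x, HasDerivWithinAt (fun s => f s x)
      (-β ^ 2 * (fxx t x + ζ t * fx t x ^ 2)) (Ici t) t) : IsParisiSol β ζ f := by
  have dx : ∀ t ∈ Icc (0:ℝ) 1, deriv (f t) = fx t := fun t ht => funext fun x => (hx t ht x).deriv
  have dxx : ∀ t ∈ Icc (0:ℝ) 1, deriv (deriv (f t)) = fxx t := fun t ht => by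
    rw [dx t ht]; exact funext fun x => (hxx t ht x).deriv
  refine ⟨fun t ht => ?_, cf, ?_, ?_, ?_, h1, fun t ht' x => ?_⟩
  · have c2 : Continuous (fxx t) := by
      have := cxx.comp (f := fun y : ℝ => ((t, y) : ℝ × ℝ)) (s := univ) (by fun_prop)
        (fun y _ => ⟨ht, mem_univ _⟩)
      exact continuousOn_univ.1 this
    rw [show (2 : WithTop ℕ∞) = 1 + 1 by norm_num, contDiff_succ_iff_deriv]
    refine ⟨fun x => (hx t ht x).differentiableAt, fun h => by simp at h, ?_⟩
    rw [dx t ht, show (1 : WithTop ℕ∞) = 0 + 1 by norm_num, contDiff_succ_iff_deriv]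
    refine ⟨fun x => (hxx t ht x).differentiableAt, fun h => by simp at h, ?_⟩
    have : deriv (fx t) = fxx t := funext fun x => (hxx t ht x).deriv
    rw [this]
    exact contDiff_zero.2 c2
  · refine cx.congr fun p hp => ?_
    rw [dx p.1 hp.1]
  · refine cxx.congr fun p hp => ?_
    rw [dxx p.1 hp.1]
  · obtain ⟨C, hC⟩ := hC
    exact ⟨C, fun t ht x => by rw [dx t ht]; exact hC t ht x⟩
  · have c1 : ContinuousOn (fun s => fxx s x) (Icc t 1) :=
      cxx.comp (f := fun s : ℝ => ((s, x) : ℝ × ℝ)) (by fun_prop)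
        (fun s hs => ⟨⟨ht'.1.trans hs.1, hs.2⟩, mem_univ _⟩)
    have c2 : ContinuousOn (fun s => fx s x ^ 2) (Icc t 1) :=
      (cx.comp (f := fun s : ℝ => ((s, x) : ℝ × ℝ)) (by fun_prop)
        (fun s hs => ⟨⟨ht'.1.trans hs.1, hs.2⟩, mem_univ _⟩)).pow 2
    have i1 : IntervalIntegrable (fun s => fxx s x) volume t 1 := by
      refine ContinuousOn.intervalIntegrable ?_
      rwa [uIcc_of_le ht'.2]
    have i2 : IntervalIntegrable (fun s => ζ s * fx s x ^ 2) volume t 1 := by
      have h2 : IntervalIntegrable (fun s => fx s x ^ 2) volume t 1 := by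
        refine ContinuousOn.intervalIntegrable ?_
        rwa [uIcc_of_le ht'.2]
      rw [intervalIntegrable_iff] at h2 ⊢
      exact Integrable.bdd_mul h2 hζ.mono.measurable.aestronglyMeasurable (c := 1)
        (Eventually.of_forall fun s => by
          rw [Real.norm_eq_abs, abs_of_nonneg (hζ.nonneg s)]; exact hζ.le_one s)
    have hcf : ContinuousOn (fun s => f s x) (Icc t 1) :=
      cf.comp (f := fun s : ℝ => ((s, x) : ℝ × ℝ)) (by fun_prop)
        (fun s hs => ⟨⟨ht'.1.trans hs.1, hs.2⟩, mem_univ _⟩)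
    have key := intervalIntegral.integral_eq_sub_of_hasDeriv_right_of_le ht'.2 hcf
      (f' := fun s => -β ^ 2 * (fxx s x + ζ s * fx s x ^ 2))
      (fun s hs => (ht s ⟨ht'.1.trans hs.1.le, hs.2⟩ x).mono Ioi_subset_Ici_self)
      ((i1.add i2).const_mul _)
    rw [intervalIntegral.integral_const_mul] at key
    have e : ∫ s in t..1, (deriv (deriv (f s)) x + ζ s * deriv (f s) x ^ 2) =
        ∫ s in t..1, (fxx s x + ζ s * fx s x ^ 2) := by
      refine intervalIntegral.integral_congr fun s hs => ?_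
      rw [uIcc_of_le ht'.2] at hs
      have hs' : s ∈ Icc (0:ℝ) 1 := ⟨ht'.1.trans hs.1, hs.2⟩
      rw [dxx s hs', dx s hs']
    rw [e, ← h1 x]
    linarith

theorem gq_sol {β q : ℝ} (hβ : β ≠ 0) (hq : q ∈ Icc (0:ℝ) 1) :
    IsParisiSol β (stp q) (gq β q) := by
  refine mk_sol (stp_isCdf hq) (fun t _ x => hasDerivAt_gq_x β q t x)
    (fun t _ x => hasDerivAt_mq_x β q t x) (continuous_gq β q).continuousOn
    (continuous_mq β q).continuousOn (continuous_mxq β q).continuousOn
    ⟨1, fun t _ x => abs_mq_le β q t x⟩ (fun x => ?_)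
    (fun t _ x => hasDerivWithinAt_gq_t hβ t x)
  unfold gq
  rw [heat_of_ge _ hq.2, max_eq_right hq.2]
  ring

section

variable {ζ : ℝ → ℝ}

theorem diff_meas (hζ : IsCdf ζ) (q : ℝ) : Measurable (fun s => ζ s - stp q s) :=
  hζ.mono.measurable.sub (stp_mono q).measurable

theorem stp_mem (q s : ℝ) : 0 ≤ stp q s ∧ stp q s ≤ 1 := by
  unfold stp; split_ifs <;> norm_num

theorem diff_bdd (hζ : IsCdf ζ) (q s : ℝ) : |ζ s - stp q s| ≤ 1 := by
  have h1 := hζ.nonneg s
  have h2 := hζ.le_one s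
  have h3 := stp_mem q s
  rw [abs_le]; constructor <;> linarith [h3.1, h3.2]

theorem diff_rc (hζ : IsCdf ζ) (q t : ℝ) :
    ContinuousWithinAt (fun s => ζ s - stp q s) (Ioi t) t :=
  ((hζ.rc t).mono Ioi_subset_Ici_self).sub ((stp_rc q t).mono Ioi_subset_Ici_self)

/-- The linear lower bound for a solution of the Parisi equation. -/
theorem lower_bound {β q : ℝ} (hβ : β ≠ 0) (hq : q ∈ Icc (0:ℝ) 1) (hζ : IsCdf ζ)
    {f : ℝ → ℝ → ℝ} (hf : IsParisiSol β ζ f) (h : ℝ) :
    gq β q 0 h + Wq β q (fun s => ζ s - stp q s) 0 h ≤ f 0 h := by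
  obtain ⟨A1, hA1, h1⟩ := (gq_sol hβ hq).growth
  obtain ⟨A2, hA2, h2⟩ := hf.growth
  set a := fun s => ζ s - stp q s with ha
  have ham : Measurable a := diff_meas hζ q
  have hab : ∀ s, |a s| ≤ 1 := diff_bdd hζ q
  have hac : ∀ t, ContinuousWithinAt a (Ioi t) t := diff_rc hζ q
  set A := A1 + A2 + 3 * β ^ 2 with hA
  have hA0 : 0 ≤ A := by positivity
  have l1 : A1 ≤ A := by rw [hA]; nlinarith [sq_nonneg β]
  have l2 : A2 ≤ A := by rw [hA]; nlinarith [sq_nonneg β]
  have key := doubling (β := β) (a := 0) (b := 1) (A := A) hA0 (g := gq β q) (m := mq β q)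
    (mx := mxq β q) (mxx := mxxq β q) (w := Wq β q a) (wx := Wqx β q a) (wxx := Wqxx β q a)
    (f := f) (fx := fun t => deriv (f t)) (fxx := fun t => deriv (deriv (f t)))
    (ζ0 := stp q) (ζ := ζ)
    (fun t _ => stp_mem q t) (fun t _ => ⟨hζ.nonneg t, hζ.le_one t⟩)
    (continuous_gq β q).continuousOn (continuous_mq β q).continuousOn
    (Wq_continuous hq ham hab).continuousOn hf.cont
    (fun t ht x => ((le_abs_self _).trans (h1 t ht x)).trans
      (mul_le_mul_of_nonneg_right l1 (by positivity)))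
    (fun t _ x => abs_mq_le β q t x)
    (fun t ht x => by
      have := (le_abs_self _).trans (abs_Wq_le (β := β) hq hab ht x)
      rw [hA]; linarith)
    (fun t ht x => by
      have k1 := neg_abs_le (f t x)
      have k2 := h2 t ht x
      have k3 : A2 * (1 + |x|) ≤ A * (1 + |x|) := mul_le_mul_of_nonneg_right l2 (by positivity)
      linarith)
    (fun t _ x => hasDerivAt_gq_x β q t x) (fun t _ x => hasDerivAt_mq_x β q t x)
    (fun t _ x => hasDerivAt_mxq_x β q t x) (fun t _ x => Wq_hasDerivAt_x hq ham hab t x)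
    (fun t _ x => Wqx_hasDerivAt_x hq ham hab t x) (fun t ht x => hf.hx ⟨ht.1, ht.2.le⟩ x)
    (fun t ht x => hf.hxx ⟨ht.1, ht.2.le⟩ x)
    (fun t _ x => hasDerivWithinAt_gq_t hβ t x) (fun t _ x => hasDerivWithinAt_mq_t hβ t x)
    (fun t ht x => Wq_right_deriv hβ hq ham hab ht.2 (hac t) x)
    (fun t ht x => hf.ht hζ ht x) ?_ 0 (by simp) h h
  · simp only [sub_self, zero_mul, add_zero] at key
    exact key
  · intro x y
    rw [Wq_one hq, add_zero, hf.terminal]
    have e1 : gq β q 1 x = Real.log (Real.cosh x) := (gq_sol hβ hq).terminal x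
    have e2 : mq β q 1 x = Real.tanh x := heat_of_ge _ hq.2 x
    rw [e1, e2]
    exact logcosh_tangent x y

theorem GamII_abs (β q h s : ℝ) : GamII β q |h| s = GamII β q h s := by
  have he : ∀ y, (fun y => 1 - sc y * kq β sc s q y) (-y) = (fun y => 1 - sc y * kq β sc s q y) y := by
    intro y
    simp only [kq]
    rw [sc_neg, heat_neg_arg sc_neg]
  rcases abs_choice h with e | e
  · rw [e]
  · rw [e]; exact heat_neg_arg he _ _

theorem heat_abs_arg {F : ℝ → ℝ} (he : ∀ y, F (-y) = F y) (S h : ℝ) : heat F S |h| = heat F S h := by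
  rcases abs_choice h with e | e
  · rw [e]
  · rw [e]; exact heat_neg_arg he _ _

theorem tanh_sq_even (y : ℝ) : Real.tanh (-y) ^ 2 = Real.tanh y ^ 2 := by rw [Real.tanh_neg]; ring
theorem sc4_even (y : ℝ) : sc (-y) ^ 4 = sc y ^ 4 := by rw [sc_neg]

/-- In the AT region the functional is minimal at the point mass at `q`, strictly. -/
theorem W_zero_gt {β q h : ℝ} (hβ : β ≠ 0) (hq : q ∈ Icc (0:ℝ) 1) (hζ : IsCdf ζ)
    (hfix : q = heat (fun y => Real.tanh y ^ 2) (2 * β ^ 2 * q) h)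
    (hAT : 2 * β ^ 2 * heat (fun y => sc y ^ 4) (2 * β ^ 2 * q) h ≤ 1) :
    (β ^ 2 * ∫ s in (0:ℝ)..1, (ζ s - stp q s) * s) ≤ Wq β q (fun s => ζ s - stp q s) 0 h ∧
    ((∃ t, ζ t ≠ stp q t) →
      (β ^ 2 * ∫ s in (0:ℝ)..1, (ζ s - stp q s) * s) < Wq β q (fun s => ζ s - stp q s) 0 h) := by
  set a := fun s => ζ s - stp q s with ha
  have ham : Measurable a := diff_meas hζ q
  have hab : ∀ s, |a s| ≤ 1 := diff_bdd hζ q
  have hβ2 : 0 < β ^ 2 := by positivity
  have hfix' : q = heat (fun y => Real.tanh y ^ 2) (2 * β ^ 2 * q) |h| := by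
    rw [heat_abs_arg tanh_sq_even]; exact hfix
  have hAT' : 2 * β ^ 2 * heat (fun y => sc y ^ 4) (2 * β ^ 2 * q) |h| ≤ 1 := by
    rw [heat_abs_arg sc4_even]; exact hAT
  rw [Wq_zero hq ham hab]
  have hint : ∀ u v, IntervalIntegrable (fun s => a s * s) volume u v := fun u v =>
    ii_of_bdd ham hab continuous_id u v
  have hintII : ∀ u v, IntervalIntegrable (fun s => a s * GamII β q h s) volume u v := fun u v =>
    ii_of_bdd ham hab (GamII_continuous β q h) u v
  have hintI : ∀ u v, IntervalIntegrable (fun s => a s * GamI β q h s) volume u v := fun u v =>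
    ii_of_bdd ham hab (GamI_continuous β q h) u v
  have split : ∫ s in (0:ℝ)..1, a s * s = (∫ s in (0:ℝ)..q, a s * s) + ∫ s in q..1, a s * s :=
    (intervalIntegral.integral_add_adjacent_intervals (hint 0 q) (hint q 1)).symm
  have d1 : β ^ 2 * (∫ s in q..1, a s * GamII β q h s) +
      β ^ 2 * (∫ s in (0:ℝ)..q, a s * GamI β q h s) - β ^ 2 * ∫ s in (0:ℝ)..1, a s * s =
      β ^ 2 * ((∫ s in q..1, a s * (GamII β q h s - s)) +
        ∫ s in (0:ℝ)..q, a s * (GamI β q h s - s)) := by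
    have e1 : ∫ s in q..1, a s * (GamII β q h s - s) =
        (∫ s in q..1, a s * GamII β q h s) - ∫ s in q..1, a s * s := by
      rw [← intervalIntegral.integral_sub (hintII q 1) (hint q 1)]
      congr 1; ext s; ring
    have e2 : ∫ s in (0:ℝ)..q, a s * (GamI β q h s - s) =
        (∫ s in (0:ℝ)..q, a s * GamI β q h s) - ∫ s in (0:ℝ)..q, a s * s := by
      rw [← intervalIntegral.integral_sub (hintI 0 q) (hint 0 q)]
      congr 1; ext s; ring
    rw [split, e1, e2]; ring
  -- pointwise signs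
  have pII : ∀ s, q < s → s < 1 → 0 ≤ a s * (GamII β q h s - s) ∧
      (a s ≠ 0 → 0 < a s * (GamII β q h s - s)) := by
    intro s hs hs1
    have h1 : GamII β q h s - s < 0 := by
      have := GamII_lt hβ hq.1 (abs_nonneg h) hs hfix' hAT'
      rw [GamII_abs] at this; linarith
    have h2 : a s ≤ 0 := by
      simp only [ha, stp, if_pos hs.le]
      linarith [hζ.le_one s]
    refine ⟨mul_nonneg_of_nonpos_of_nonpos h2 h1.le, fun h3 => ?_⟩
    exact mul_pos_of_neg_of_neg (lt_of_le_of_ne h2 h3) h1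
  have pI : ∀ s, 0 ≤ s → s < q → 0 ≤ a s * (GamI β q h s - s) ∧
      (a s ≠ 0 → 0 < a s * (GamI β q h s - s)) := by
    intro s hs0 hs
    have h1 : 0 < GamI β q h s - s := by
      have := GamI_gt hβ hs0 hs hfix hAT
      linarith
    have h2 : 0 ≤ a s := by
      simp only [ha, stp, if_neg (not_le.2 hs)]
      linarith [hζ.nonneg s]
    refine ⟨mul_nonneg h2 h1.le, fun h3 => ?_⟩
    exact mul_pos (lt_of_le_of_ne h2 (Ne.symm h3)) h1
  have iII : ∀ u v, IntervalIntegrable (fun s => a s * (GamII β q h s - s)) volume u v :=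
    fun u v => ii_of_bdd ham hab ((GamII_continuous β q h).sub continuous_id) u v
  have iI : ∀ u v, IntervalIntegrable (fun s => a s * (GamI β q h s - s)) volume u v :=
    fun u v => ii_of_bdd ham hab ((GamI_continuous β q h).sub continuous_id) u v
  have aeII : ∀ᵐ s ∂(volume.restrict (Ioc q 1)), 0 ≤ a s * (GamII β q h s - s) := by
    rw [ae_restrict_iff' measurableSet_Ioc]
    have : ∀ᵐ s ∂(volume : Measure ℝ), s ≠ 1 := by
      simp [ae_iff, measure_singleton]
    filter_upwards [this] with s hs1 hs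
    exact (pII s hs.1 (lt_of_le_of_ne hs.2 hs1)).1
  have aeI : ∀ᵐ s ∂(volume.restrict (Ioc 0 q)), 0 ≤ a s * (GamI β q h s - s) := by
    rw [ae_restrict_iff' measurableSet_Ioc]
    have : ∀ᵐ s ∂(volume : Measure ℝ), s ≠ q := by
      simp [ae_iff, measure_singleton]
    filter_upwards [this] with s hs1 hs
    exact (pI s hs.1.le (lt_of_le_of_ne hs.2 hs1)).1
  have nII : 0 ≤ ∫ s in q..1, a s * (GamII β q h s - s) := by
    rw [intervalIntegral.integral_of_le hq.2]
    exact integral_nonneg_of_ae aeII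
  have nI : 0 ≤ ∫ s in (0:ℝ)..q, a s * (GamI β q h s - s) := by
    rw [intervalIntegral.integral_of_le hq.1]
    exact integral_nonneg_of_ae aeI
  refine ⟨by nlinarith [mul_nonneg hβ2.le (add_nonneg nII nI)], ?_⟩
  rintro ⟨t, ht⟩
  have hat : a t ≠ 0 := sub_ne_zero.2 ht
  have ht0 : 0 ≤ t := by
    by_contra hc
    push Not at hc
    exact ht (by rw [hζ.zero t hc, (stp_isCdf hq).zero t hc])
  have ht1 : t < 1 := by
    by_contra hc
    push Not at hc
    exact ht (by rw [hζ.one t hc, (stp_isCdf hq).one t hc])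
  have hev : ∀ᶠ s in 𝓝[Ioi t] t, a s ≠ 0 := (diff_rc hζ q t).eventually_ne hat
  obtain ⟨u, hu, hsub⟩ := mem_nhdsGT_iff_exists_Ioo_subset.1 hev
  have hu' : t < u := hu
  have main : 0 < (∫ s in q..1, a s * (GamII β q h s - s)) +
        ∫ s in (0:ℝ)..q, a s * (GamI β q h s - s) := by
    rcases lt_or_ge t q with htq | htq
    · refine add_pos_of_nonneg_of_pos nII ?_
      rw [intervalIntegral.integral_of_le hq.1]
      refine (integral_pos_iff_support_of_nonneg_ae aeI ?_).2 ?_
      · have := iI 0 q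
        rwa [intervalIntegrable_iff, uIoc_of_le hq.1] at this
      · have hsub2 : Ioo t (min u q) ⊆ Function.support (fun s => a s * (GamI β q h s - s)) ∩
            Ioc 0 q := by
          intro s hs
          have hs1 : s < q := lt_of_lt_of_le hs.2 (min_le_right _ _)
          have hs2 : s < u := lt_of_lt_of_le hs.2 (min_le_left _ _)
          refine ⟨((pI s (ht0.trans hs.1.le) hs1).2 (hsub ⟨hs.1, hs2⟩)).ne', ?_, hs1.le⟩
          exact lt_of_le_of_lt ht0 hs.1
        rw [Measure.restrict_apply' measurableSet_Ioc]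
        refine lt_of_lt_of_le ?_ (measure_mono hsub2)
        rw [Real.volume_Ioo]
        simp [lt_min hu' htq]
    · refine add_pos_of_pos_of_nonneg ?_ nI
      rw [intervalIntegral.integral_of_le hq.2]
      refine (integral_pos_iff_support_of_nonneg_ae aeII ?_).2 ?_
      · have := iII q 1
        rwa [intervalIntegrable_iff, uIoc_of_le hq.2] at this
      · have hsub2 : Ioo t (min u 1) ⊆ Function.support (fun s => a s * (GamII β q h s - s)) ∩
            Ioc q 1 := by
          intro s hs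
          have hs1 : s < 1 := lt_of_lt_of_le hs.2 (min_le_right _ _)
          have hs2 : s < u := lt_of_lt_of_le hs.2 (min_le_left _ _)
          have hs3 : q < s := lt_of_le_of_lt htq hs.1
          exact ⟨((pII s hs3 hs1).2 (hsub ⟨hs.1, hs2⟩)).ne', hs3, hs1.le⟩
        rw [Measure.restrict_apply' measurableSet_Ioc]
        refine lt_of_lt_of_le ?_ (measure_mono hsub2)
        rw [Real.volume_Ioo]
        simp [lt_min hu' ht1]
  nlinarith [mul_pos hβ2 main]

end

end Pool.Agent.Helper95A
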