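import Pool.Agent.Helper95A.Heat2
import Pool.Agent.Helper95A.Hyp

set_option autoImplicit false

open MeasureTheory ProbabilityTheory Set Filter Topology

namespace Pool.Agent.Helper95A

/-- Gaussian profile. -/
noncomputable def Ev (v y : ℝ) : ℝ := Real.exp (-(|v| * y ^ 2))

theorem continuous_Ev : Continuous (fun p : ℝ × ℝ => Ev p.1 p.2) := by unfold Ev; fun_prop
theorem Ev_pos (v y : ℝ) : 0 < Ev v y := Real.exp_pos _
theorem Ev_le_one (v y : ℝ) : Ev v y ≤ 1 := by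
  unfold Ev; rw [Real.exp_le_one_iff]
  have := mul_nonneg (abs_nonneg v) (sq_nonneg y); linarith
theorem abs_Ev_le (v y : ℝ) : |Ev v y| ≤ 1 := by rw [abs_of_pos (Ev_pos v y)]; exact Ev_le_one v y

/-- Mixtures of centred Gaussian profiles. -/
def IsGM (φ : ℝ → ℝ) : Prop :=
  ∃ ν : Measure ℝ, IsFiniteMeasure ν ∧ ∀ y, φ y = ∫ v, Ev v y ∂ν

theorem measurable_Ev_left (y : ℝ) : Measurable (fun v => Ev v y) :=
  (continuous_Ev.comp (f := fun v : ℝ => ((v, y) : ℝ × ℝ)) (by fun_prop)).measurable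

theorem integrable_Ev (ν : Measure ℝ) [IsFiniteMeasure ν] (y : ℝ) :
    Integrable (fun v => Ev v y) ν :=
  (integrable_const (1:ℝ)).mono' (measurable_Ev_left y).aestronglyMeasurable
    (Eventually.of_forall fun v => by rw [Real.norm_eq_abs]; exact abs_Ev_le v y)

theorem IsGM.mul {φ ψ : ℝ → ℝ} (hφ : IsGM φ) (hψ : IsGM ψ) : IsGM (fun y => φ y * ψ y) := by
  obtain ⟨ν, hν, h1⟩ := hφ
  obtain ⟨ρ, hρ, h2⟩ := hψ
  refine ⟨(ν.prod ρ).map (fun p => |p.1| + |p.2|), inferInstance, fun y => ?_⟩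
  rw [integral_map (by fun_prop) (measurable_Ev_left y).aestronglyMeasurable]
  change φ y * ψ y = _
  rw [h1, h2, ← integral_prod_mul (fun v => Ev v y) (fun v => Ev v y)]
  congr 1; ext p
  simp only [Ev]
  rw [← Real.exp_add, abs_of_nonneg (add_nonneg (abs_nonneg p.1) (abs_nonneg p.2))]
  congr 1; ring

theorem IsGM.add {φ ψ : ℝ → ℝ} (hφ : IsGM φ) (hψ : IsGM ψ) : IsGM (fun y => φ y + ψ y) := by
  obtain ⟨ν, hν, h1⟩ := hφ
  obtain ⟨ρ, hρ, h2⟩ := hψ
  refine ⟨ν + ρ, inferInstance, fun y => ?_⟩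
  rw [integral_add_measure (integrable_Ev ν y) (integrable_Ev ρ y), ← h1, ← h2]

theorem IsGM.smul {φ : ℝ → ℝ} (hφ : IsGM φ) {c : ℝ} (hc : 0 ≤ c) : IsGM (fun y => c * φ y) := by
  obtain ⟨ν, hν, h1⟩ := hφ
  refine ⟨(Real.toNNReal c) • ν, inferInstance, fun y => ?_⟩
  rw [integral_smul_nnreal_measure, ← h1]
  simp [NNReal.smul_def, Real.coe_toNNReal c hc]

theorem isGM_one : IsGM (fun _ => 1) :=
  ⟨Measure.dirac 0, inferInstance, fun y => by simp [Ev]⟩

theorem isGM_const {c : ℝ} (hc : 0 ≤ c) : IsGM (fun _ => c) := by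
  simpa using isGM_one.smul hc

theorem isGM_inv {c : ℝ} (hc : 0 ≤ c) : IsGM (fun y => (1 + c * y ^ 2)⁻¹) := by
  set ν0 : Measure ℝ := (volume.restrict (Ioi (0:ℝ))).withDensity
    (fun u => ENNReal.ofReal (Real.exp (-u))) with hν0
  have hm : Measurable (fun u : ℝ => ENNReal.ofReal (Real.exp (-u))) := by fun_prop
  have key : ∀ b : ℝ, 0 ≤ b → ∫ u, Real.exp (-(b * u)) ∂ν0 = (1 + b)⁻¹ := by
    intro b hb
    rw [hν0, integral_withDensity_eq_integral_toReal_smul hm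
      (Eventually.of_forall fun _ => ENNReal.ofReal_lt_top)]
    have e : ∀ u : ℝ, (ENNReal.ofReal (Real.exp (-u))).toReal • Real.exp (-(b * u)) =
        Real.exp (-(1 + b) * u) := by
      intro u
      rw [ENNReal.toReal_ofReal (Real.exp_pos _).le, smul_eq_mul, ← Real.exp_add]
      congr 1; ring
    simp only [e]
    rw [integral_exp_mul_Ioi (by linarith)]
    simp only [mul_zero, Real.exp_zero]
    have h1 : (1 + b) ≠ 0 := by linarith
    have h2 : -(1 + b) ≠ 0 := neg_ne_zero.2 h1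
    field_simp
  have hfin : IsFiniteMeasure ν0 := by
    refine isFiniteMeasure_withDensity_ofReal ?_
    exact ((integrableOn_exp_neg_Ioi 0)).2
  refine ⟨ν0.map (fun u => c * |u|), inferInstance, fun y => ?_⟩
  rw [integral_map (by fun_prop) (measurable_Ev_left y).aestronglyMeasurable]
  change (1 + c * y ^ 2)⁻¹ = _
  rw [← key (c * y ^ 2) (by positivity)]
  have hae : ∀ᵐ u ∂ν0, 0 < u := by
    have h1 : ∀ᵐ u ∂(volume.restrict (Ioi (0:ℝ))), 0 < u :=
      (ae_restrict_iff' measurableSet_Ioi).2 (Eventually.of_forall fun u hu => hu)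
    exact (withDensity_absolutelyContinuous _ _) h1
  refine integral_congr_ae ?_
  filter_upwards [hae] with u hu
  simp only [Ev]
  rw [abs_of_nonneg (mul_nonneg hc (abs_nonneg u)), abs_of_pos hu]
  congr 1; ring

theorem isGM_frac {a c : ℝ} (hc : 0 ≤ c) (ha : a ^ 2 ≤ 1) :
    IsGM (fun y => (1 + a ^ 2 * c * y ^ 2) * (1 + c * y ^ 2)⁻¹) := by
  have h := (isGM_const (sq_nonneg a)).add ((isGM_inv hc).smul (sub_nonneg.2 ha))
  obtain ⟨ν, hν, k⟩ := h
  refine ⟨ν, hν, fun y => ?_⟩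
  rw [← k]
  have : (1 + c * y ^ 2) ≠ 0 := by positivity
  field_simp
  ring

/-- The Gaussian integral. -/
theorem heat_Ev {v r : ℝ} (hv : 0 ≤ v) (hr : 0 ≤ r) (x : ℝ) :
    heat (Ev v) r x = (Real.sqrt (1 + 2 * r * v))⁻¹ * Ev (v / (1 + 2 * r * v)) x := by
  set D := 1 + 2 * r * v with hD
  have hD0 : 0 < D := by positivity
  have hr2 : Real.sqrt r ^ 2 = r := Real.sq_sqrt hr
  unfold heat
  rw [integral_gam]
  have e : ∀ z, gaussianPDFReal 0 1 z * Ev v (x + Real.sqrt r * z) =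
      ((Real.sqrt (2 * Real.pi))⁻¹ * Ev (v / D) x) *
        Real.exp (-(D / 2) * (z + 2 * v * x * Real.sqrt r / D) ^ 2) := by
    intro z
    rw [gpdf]
    simp only [Ev]
    rw [abs_of_nonneg hv, abs_of_nonneg (div_nonneg hv hD0.le), mul_assoc, mul_assoc,
      ← Real.exp_add, ← Real.exp_add]
    congr 2
    have h3 : -(D / 2) * (z + 2 * v * x * Real.sqrt r / D) ^ 2 =
        -(D / 2) * z ^ 2 - 2 * v * x * Real.sqrt r * z - 2 * v ^ 2 * x ^ 2 *
          Real.sqrt r ^ 2 / D := by field_simp; ring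
    rw [h3, hr2]
    have h4 : v / D * x ^ 2 = v * x ^ 2 - 2 * v ^ 2 * x ^ 2 * r / D := by
      field_simp; rw [hD]; ring
    rw [h4]
    have h5 : v * (x + Real.sqrt r * z) ^ 2 = v * x ^ 2 + 2 * v * x * Real.sqrt r * z +
        v * r * z ^ 2 := by linear_combination v * z ^ 2 * hr2
    rw [h5, hD]; ring
  simp only [e]
  rw [integral_const_mul,
    integral_add_right_eq_self (fun z => Real.exp (-(D / 2) * z ^ 2)), integral_gaussian]
  have h1 : Real.sqrt (Real.pi / (D / 2)) = Real.sqrt (2 * Real.pi) * (Real.sqrt D)⁻¹ := by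
    rw [← Real.sqrt_inv, ← Real.sqrt_mul (by positivity)]
    congr 1; field_simp
  rw [h1]
  have : Real.sqrt (2 * Real.pi) ≠ 0 := by positivity
  field_simp

theorem Ev_mul {u v : ℝ} (hu : 0 ≤ u) (hv : 0 ≤ v) (y : ℝ) : Ev u y * Ev v y = Ev (u + v) y := by
  simp only [Ev]
  rw [← Real.exp_add, abs_of_nonneg hu, abs_of_nonneg hv, abs_of_nonneg (add_nonneg hu hv)]
  congr 1; ring

theorem Ev_abs (v y : ℝ) : Ev |v| y = Ev v y := by simp [Ev]

theorem heat_pair {u v r S : ℝ} (hu : 0 ≤ u) (hv : 0 ≤ v) (hr : 0 ≤ r) (hS : 0 ≤ S) :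
    heat (fun y => Ev u y * heat (Ev v) r y) S 0 =
      (Real.sqrt (1 + 2 * r * v))⁻¹ * (Real.sqrt (1 + 2 * S * (u + v / (1 + 2 * r * v))))⁻¹ := by
  have hD0 : 0 < 1 + 2 * r * v := by positivity
  have e : (fun y => Ev u y * heat (Ev v) r y) = fun y => (Real.sqrt (1 + 2 * r * v))⁻¹ *
      Ev (u + v / (1 + 2 * r * v)) y := by
    ext y
    rw [heat_Ev hv hr, ← Ev_mul hu (div_nonneg hv hD0.le)]; ring
  rw [e, heat_const_mul, heat_Ev (add_nonneg hu (div_nonneg hv hD0.le)) hS]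
  simp [Ev]

theorem pair_le {u v r S : ℝ} (hu : 0 ≤ u) (hv : 0 ≤ v) (hr : 0 ≤ r) (hS : 0 ≤ S) :
    heat (fun y => Ev u y * heat (Ev v) r y) S 0 ≤ heat (fun y => Ev u y * Ev v y) S 0 := by
  rw [heat_pair hu hv hr hS]
  have hD0 : 0 < 1 + 2 * r * v := by positivity
  have e : (fun y => Ev u y * Ev v y) = Ev (u + v) := by ext y; exact Ev_mul hu hv y
  rw [e, heat_Ev (add_nonneg hu hv) hS]
  have h0 : Ev ((u + v) / (1 + 2 * S * (u + v))) 0 = 1 := by simp [Ev]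
  rw [h0, mul_one, ← mul_inv, ← Real.sqrt_mul hD0.le]
  refine inv_anti₀ (Real.sqrt_pos.2 (by positivity)) (Real.sqrt_le_sqrt ?_)
  have e2 : (1 + 2 * r * v) * (1 + 2 * S * (u + v / (1 + 2 * r * v))) =
      (1 + 2 * r * v) + 2 * S * u * (1 + 2 * r * v) + 2 * S * v := by
    field_simp; ring
  rw [e2]
  have : 0 ≤ 2 * r * v := by positivity
  have : 0 ≤ 2 * S * u * (2 * r * v) := by positivity
  nlinarith

theorem gm_bound {φ : ℝ → ℝ} {ν : Measure ℝ} [IsFiniteMeasure ν]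
    (h : ∀ y, φ y = ∫ v, Ev v y ∂ν) : Continuous φ := by
  have : φ = fun y => ∫ v, Ev v y ∂ν := funext h
  rw [this]
  refine continuous_of_dominated (bound := fun _ => 1)
    (fun y => (measurable_Ev_left y).aestronglyMeasurable)
    (fun y => Eventually.of_forall fun v => by rw [Real.norm_eq_abs]; exact abs_Ev_le v y)
    (integrable_const _) (Eventually.of_forall fun v => ?_)
  exact continuous_Ev.comp (f := fun y : ℝ => ((v, y) : ℝ × ℝ)) (by fun_prop)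

/-- The key correlation inequality for Gaussian mixtures. -/
theorem gm_le {φ ψ : ℝ → ℝ} (hφ : IsGM φ) (hψ : IsGM ψ) {r S : ℝ} (hr : 0 ≤ r) (hS : 0 ≤ S) :
    heat (fun y => φ y * heat ψ r y) S 0 ≤ heat (fun y => φ y * ψ y) S 0 := by
  obtain ⟨ν, hν, h1⟩ := hφ
  obtain ⟨ρ, hρ, h2⟩ := hψ
  have hEE : ∀ v y, heat (Ev v) r y =
      (Real.sqrt (1 + 2 * r * |v|))⁻¹ * Ev (|v| / (1 + 2 * r * |v|)) y := by
    intro v y
    have : Ev v = Ev |v| := by ext y; exact (Ev_abs v y).symm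
    rw [this, heat_Ev (abs_nonneg v) hr]
  have e1 : ∀ y, heat ψ r y = ∫ v, heat (Ev v) r y ∂ρ := by
    intro y
    have : ψ = fun y => ∫ v, Ev v y ∂ρ := funext h2
    rw [this, heat_integral_swap (D := 1) continuous_Ev.measurable abs_Ev_le]
  have e2 : (fun y => φ y * heat ψ r y) =
      fun y => ∫ p, Ev p.1 y * heat (Ev p.2) r y ∂(ν.prod ρ) := by
    ext y
    rw [integral_prod_mul (fun v => Ev v y) (fun v => heat (Ev v) r y), h1, e1]
  have e3 : (fun y => φ y * ψ y) = fun y => ∫ p, Ev p.1 y * Ev p.2 y ∂(ν.prod ρ) := by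
    ext y
    rw [integral_prod_mul (fun v => Ev v y) (fun v => Ev v y), h1, h2]
  have m1 : Measurable (fun p : (ℝ × ℝ) × ℝ => Ev p.1.1 p.2 * heat (Ev p.1.2) r p.2) := by
    simp only [hEE, Ev]
    fun_prop
  have m2 : Measurable (fun p : (ℝ × ℝ) × ℝ => Ev p.1.1 p.2 * Ev p.1.2 p.2) := by
    simp only [Ev]
    fun_prop
  have b1 : ∀ (p : ℝ × ℝ) (y : ℝ), |Ev p.1 y * heat (Ev p.2) r y| ≤ 1 := by
    intro p y
    rw [abs_mul]
    exact mul_le_one₀ (abs_Ev_le _ _) (abs_nonneg _) (heat_abs_le (abs_Ev_le p.2) r y)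
  have b2 : ∀ (p : ℝ × ℝ) (y : ℝ), |Ev p.1 y * Ev p.2 y| ≤ 1 := by
    intro p y
    rw [abs_mul]
    exact mul_le_one₀ (abs_Ev_le _ _) (abs_nonneg _) (abs_Ev_le _ _)
  rw [e2, e3, heat_integral_swap (Φ := fun (p : ℝ × ℝ) y => Ev p.1 y * heat (Ev p.2) r y) m1 b1,
    heat_integral_swap (Φ := fun (p : ℝ × ℝ) y => Ev p.1 y * Ev p.2 y) m2 b2]
  have meas : ∀ (Φ : ℝ × ℝ → ℝ → ℝ), Measurable (fun p : (ℝ × ℝ) × ℝ => Φ p.1 p.2) →
      (∀ p y, |Φ p y| ≤ 1) → Integrable (fun p => heat (Φ p) S 0) (ν.prod ρ) := by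
    intro Φ hm hb
    have hsm : StronglyMeasurable (fun p : ℝ × ℝ => heat (Φ p) S 0) := by
      unfold heat
      have hm2 : Measurable (fun q : (ℝ × ℝ) × ℝ => Φ q.1 (0 + Real.sqrt S * q.2)) :=
        hm.comp (f := fun q : (ℝ × ℝ) × ℝ => ((q.1, 0 + Real.sqrt S * q.2) : (ℝ × ℝ) × ℝ))
          (by fun_prop)
      exact hm2.stronglyMeasurable.integral_prod_right'
    refine (integrable_const (1:ℝ)).mono' hsm.aestronglyMeasurable
      (Eventually.of_forall fun p => ?_)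
    rw [Real.norm_eq_abs]
    exact heat_abs_le (hb p) S 0
  refine integral_mono (meas _ m1 b1) (meas _ m2 b2) fun p => ?_
  have ha1 : Ev p.1 = Ev |p.1| := by ext y; exact (Ev_abs _ y).symm
  have ha2 : Ev p.2 = Ev |p.2| := by ext y; exact (Ev_abs _ y).symm
  simp only [ha1, ha2]
  exact pair_le (abs_nonneg _) (abs_nonneg _) hr hS

end Pool.Agent.Helper95A
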