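import Pool.Agent.Helper95A.Mix

set_option autoImplicit false

open MeasureTheory ProbabilityTheory Set Filter Topology

namespace Pool.Agent.Helper95A

theorem tendsto_sinh_prod (y : ℝ) :
    Tendsto (fun n : ℕ => Real.pi * y * ∏ j ∈ Finset.range n, (1 + y ^ 2 / ((j : ℝ) + 1) ^ 2))
      atTop (𝓝 (Real.sinh (Real.pi * y))) := by
  have h := Complex.tendsto_euler_sin_prod (Complex.I * y)
  have h2 := (Complex.continuous_im.tendsto _).comp h
  have e1 : (Complex.sin (Real.pi * (Complex.I * y))).im = Real.sinh (Real.pi * y) := by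
    have : (Real.pi : ℂ) * (Complex.I * y) = ((Real.pi * y : ℝ) : ℂ) * Complex.I := by
      push_cast; ring
    rw [this, Complex.sin_mul_I, ← Complex.ofReal_sinh, Complex.im_ofReal_mul, Complex.I_im,
      mul_one]
  rw [e1] at h2
  refine h2.congr fun n => ?_
  simp only [Function.comp]
  have e2 : (Real.pi : ℂ) * (Complex.I * y) * ∏ j ∈ Finset.range n,
      ((1 : ℂ) - (Complex.I * y) ^ 2 / ((j : ℂ) + 1) ^ 2) =
      ((Real.pi * y * ∏ j ∈ Finset.range n, (1 + y ^ 2 / ((j : ℝ) + 1) ^ 2) : ℝ) : ℂ) *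
        Complex.I := by
    push_cast
    have : ∀ j : ℕ, ((1 : ℂ) - (Complex.I * y) ^ 2 / ((j : ℂ) + 1) ^ 2) =
        1 + (y : ℂ) ^ 2 / ((j : ℂ) + 1) ^ 2 := by
      intro j
      rw [mul_pow, Complex.I_sq]; ring
    simp only [this]; ring
  rw [e2, Complex.im_ofReal_mul, Complex.I_im, mul_one]

noncomputable def cc (j : ℕ) : ℝ := 4 / ((2 * (j:ℝ) + 1) ^ 2 * Real.pi ^ 2)

theorem cc_nonneg (j : ℕ) : 0 ≤ cc j := by unfold cc; positivity

theorem prod_split (y : ℝ) (n : ℕ) :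
    ∏ j ∈ Finset.range (2 * n), (1 + (2 * y) ^ 2 / ((j : ℝ) + 1) ^ 2) =
      (∏ j ∈ Finset.range n, (1 + cc j * (Real.pi * y) ^ 2)) *
        ∏ j ∈ Finset.range n, (1 + y ^ 2 / ((j : ℝ) + 1) ^ 2) := by
  induction n with
  | zero => simp
  | succ n ih =>
    rw [show 2 * (n + 1) = 2 * n + 1 + 1 by ring, Finset.prod_range_succ, Finset.prod_range_succ,
      ih, Finset.prod_range_succ, Finset.prod_range_succ]
    have h1 : (1 + (2 * y) ^ 2 / (((2 * n : ℕ) : ℝ) + 1) ^ 2) = 1 + cc n * (Real.pi * y) ^ 2 := by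
      unfold cc
      have : (2 * (n:ℝ) + 1) ≠ 0 := by positivity
      have := Real.pi_ne_zero
      push_cast
      field_simp
      ring
    have h2 : (1 + (2 * y) ^ 2 / (((2 * n + 1 : ℕ) : ℝ) + 1) ^ 2) =
        1 + y ^ 2 / ((n : ℝ) + 1) ^ 2 := by
      have : ((n:ℝ) + 1) ≠ 0 := by positivity
      push_cast
      have e : (2 * (n:ℝ) + 1 + 1) = 2 * (n + 1) := by ring
      rw [e]
      field_simp
    rw [h1, h2]; ring

theorem tendsto_cosh_prod (x : ℝ) :
    Tendsto (fun n : ℕ => ∏ j ∈ Finset.range n, (1 + cc j * x ^ 2)) atTop (𝓝 (Real.cosh x)) := by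
  by_cases hx : x = 0
  · subst hx; simp
  set y := x / Real.pi with hy
  have hpi := Real.pi_pos
  have hxy : Real.pi * y = x := by rw [hy]; field_simp
  have hy0 : y ≠ 0 := div_ne_zero hx hpi.ne'
  have h1 := tendsto_sinh_prod y
  have h2 := (tendsto_sinh_prod (2 * y)).comp (tendsto_id.const_mul_atTop' zero_lt_two)
  have hs : Real.sinh (Real.pi * y) ≠ 0 := by
    rw [hxy]; exact fun h => hx (Real.sinh_eq_zero.1 h)
  have h3 := (h2.div (h1.const_mul 2) (mul_ne_zero two_ne_zero hs))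
  have e : Real.sinh (Real.pi * (2 * y)) / (2 * Real.sinh (Real.pi * y)) = Real.cosh x := by
    rw [show Real.pi * (2 * y) = 2 * x by rw [← hxy]; ring, hxy, Real.sinh_two_mul]
    rw [hxy] at hs
    field_simp
  rw [e] at h3
  refine h3.congr fun n => ?_
  simp only [Function.comp, id, Pi.div_apply]
  rw [prod_split, hxy]
  have hp : ∏ j ∈ Finset.range n, (1 + y ^ 2 / ((j : ℝ) + 1) ^ 2) ≠ 0 := by
    refine Finset.prod_ne_zero_iff.2 fun j _ => ?_
    positivity
  generalize ∏ j ∈ Finset.range n, (1 + y ^ 2 / ((j : ℝ) + 1) ^ 2) = B at hp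
  generalize ∏ j ∈ Finset.range n, (1 + cc j * x ^ 2) = A
  rw [show Real.pi * (2 * y) = 2 * x by rw [← hxy]; ring]
  rw [div_eq_iff (mul_ne_zero two_ne_zero (mul_ne_zero hx hp))]
  ring

noncomputable def Kn (a : ℝ) (n : ℕ) (y : ℝ) : ℝ :=
  ∏ j ∈ Finset.range n, ((1 + a ^ 2 * cc j * y ^ 2) * (1 + cc j * y ^ 2)⁻¹)

noncomputable def Bn (n : ℕ) (y : ℝ) : ℝ := ∏ j ∈ Finset.range n, (1 + cc j * y ^ 2)⁻¹

theorem isGM_Kn {a : ℝ} (ha : a ^ 2 ≤ 1) (n : ℕ) : IsGM (Kn a n) := by
  induction n with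
  | zero =>
    have : Kn a 0 = fun _ => 1 := by ext y; simp [Kn]
    rw [this]; exact isGM_one
  | succ n ih =>
    have : Kn a (n + 1) = fun y => Kn a n y * ((1 + a ^ 2 * cc n * y ^ 2) * (1 + cc n * y ^ 2)⁻¹) := by
      ext y; simp only [Kn, Finset.prod_range_succ]
    rw [this]; exact ih.mul (isGM_frac (cc_nonneg n) ha)

theorem isGM_Bn (n : ℕ) : IsGM (Bn n) := by
  induction n with
  | zero =>
    have : Bn 0 = fun _ => 1 := by ext y; simp [Bn]
    rw [this]; exact isGM_one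
  | succ n ih =>
    have : Bn (n + 1) = fun y => Bn n y * (1 + cc n * y ^ 2)⁻¹ := by
      ext y; simp only [Bn, Finset.prod_range_succ]
    rw [this]; exact ih.mul (isGM_inv (cc_nonneg n))

theorem isGM_Bn3 (n : ℕ) : IsGM (fun y => Bn n y ^ 3) := by
  have h := ((isGM_Bn n).mul (isGM_Bn n)).mul (isGM_Bn n)
  have : (fun y => Bn n y ^ 3) = fun y => Bn n y * Bn n y * Bn n y := by ext y; ring
  rw [this]; exact h

theorem tendsto_Bn (y : ℝ) : Tendsto (fun n => Bn n y) atTop (𝓝 (sc y)) := by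
  have h := (tendsto_cosh_prod y).inv₀ (Real.cosh_pos y).ne'
  refine h.congr fun n => ?_
  simp only [Bn, Finset.prod_inv_distrib]

theorem tendsto_Kn (a y : ℝ) : Tendsto (fun n => Kn a n y) atTop (𝓝 (Real.cosh (a * y) * sc y)) := by
  have h := (tendsto_cosh_prod (a * y)).mul (tendsto_Bn y)
  refine h.congr fun n => ?_
  simp only [Kn, Bn, Finset.prod_mul_distrib]
  congr 1
  refine Finset.prod_congr rfl fun j _ => ?_
  ring

theorem abs_Bn_le (n : ℕ) (y : ℝ) : 0 ≤ Bn n y ∧ Bn n y ≤ 1 := by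
  unfold Bn
  constructor
  · exact Finset.prod_nonneg fun j _ => by have := cc_nonneg j; positivity
  · refine Finset.prod_le_one (fun j _ => by have := cc_nonneg j; positivity) fun j _ => ?_
    refine inv_le_one_of_one_le₀ ?_
    have := mul_nonneg (cc_nonneg j) (sq_nonneg y)
    linarith

theorem abs_Kn_le {a : ℝ} (ha : a ^ 2 ≤ 1) (n : ℕ) (y : ℝ) : 0 ≤ Kn a n y ∧ Kn a n y ≤ 1 := by
  unfold Kn
  constructor
  · exact Finset.prod_nonneg fun j _ => by have := cc_nonneg j; positivity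
  · refine Finset.prod_le_one (fun j _ => by have := cc_nonneg j; positivity) fun j _ => ?_
    have h := mul_nonneg (cc_nonneg j) (sq_nonneg y)
    have h1 : 0 < 1 + cc j * y ^ 2 := by linarith
    rw [← div_eq_mul_inv, div_le_one h1]
    nlinarith

theorem cont_Kn (a : ℝ) (n : ℕ) : Continuous (Kn a n) := by
  unfold Kn
  refine continuous_finsetProd _ fun j _ => ?_
  refine Continuous.mul (by fun_prop) (Continuous.inv₀ (by fun_prop) fun y => ?_)
  have := mul_nonneg (cc_nonneg j) (sq_nonneg y)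
  linarith

theorem cont_Bn (n : ℕ) : Continuous (Bn n) := by
  unfold Bn
  refine continuous_finsetProd _ fun j _ => ?_
  refine (Continuous.inv₀ (by fun_prop) fun y => ?_)
  have := mul_nonneg (cc_nonneg j) (sq_nonneg y)
  linarith

/-- dominated convergence for the heat evolution -/
theorem heat_tendsto {F : ℝ → ℝ} {Fn : ℕ → ℝ → ℝ} {D : ℝ} (hc : ∀ n, Continuous (Fn n))
    (hD : ∀ n y, |Fn n y| ≤ D) (h : ∀ y, Tendsto (fun n => Fn n y) atTop (𝓝 (F y))) (σ x : ℝ) :
    Tendsto (fun n => heat (Fn n) σ x) atTop (𝓝 (heat F σ x)) := by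
  unfold heat
  refine tendsto_integral_of_dominated_convergence (fun _ => D) (fun n => ?_) (integrable_const _)
    (fun n => Eventually.of_forall fun z => by rw [Real.norm_eq_abs]; exact hD n _)
    (Eventually.of_forall fun z => h _)
  exact ((hc n).comp (by fun_prop)).aestronglyMeasurable

/-- The correlation inequality in the case needed below. -/
theorem corr_le {a : ℝ} (ha : a ^ 2 ≤ 1) {r S : ℝ} (hr : 0 ≤ r) (hS : 0 ≤ S) :
    heat (fun y => Real.cosh (a * y) * sc y * heat (fun y => sc y ^ 3) r y) S 0 ≤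
      heat (fun y => Real.cosh (a * y) * sc y * sc y ^ 3) S 0 := by
  have b3 : ∀ n y, |Bn n y ^ 3| ≤ 1 := fun n y => by
    rw [abs_pow, abs_of_nonneg (abs_Bn_le n y).1]
    exact pow_le_one₀ (abs_Bn_le n y).1 (abs_Bn_le n y).2
  have bK : ∀ n y, |Kn a n y| ≤ 1 := fun n y => by
    rw [abs_of_nonneg (abs_Kn_le ha n y).1]; exact (abs_Kn_le ha n y).2
  have c3 : ∀ n, Continuous (fun y => Bn n y ^ 3) := fun n => (cont_Bn n).pow 3
  have hin : ∀ y, Tendsto (fun n => heat (fun y => Bn n y ^ 3) r y) atTop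
      (𝓝 (heat (fun y => sc y ^ 3) r y)) := fun y =>
    heat_tendsto c3 b3 (fun y => (tendsto_Bn y).pow 3) r y
  have hcn : ∀ n, Continuous (heat (fun y => Bn n y ^ 3) r) := fun n =>
    (heat_continuous (c3 n) (EG.of_bdd (b3 n))).comp (f := fun y : ℝ => ((r, y) : ℝ × ℝ))
      (by fun_prop)
  have t1 : Tendsto (fun n => heat (fun y => Kn a n y * heat (fun y => Bn n y ^ 3) r y) S 0) atTop
      (𝓝 (heat (fun y => Real.cosh (a * y) * sc y * heat (fun y => sc y ^ 3) r y) S 0)) := by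
    refine heat_tendsto (F := fun y => Real.cosh (a * y) * sc y * heat (fun y => sc y ^ 3) r y)
      (Fn := fun n y => Kn a n y * heat (fun y => Bn n y ^ 3) r y) (D := 1) ?_ ?_ ?_ S 0
    · exact fun n => (cont_Kn a n).mul (hcn n)
    · intro n y
      rw [abs_mul]; exact mul_le_one₀ (bK n y) (abs_nonneg _) (heat_abs_le (b3 n) r y)
    · exact fun y => (tendsto_Kn a y).mul (hin y)
  have t2 : Tendsto (fun n => heat (fun y => Kn a n y * Bn n y ^ 3) S 0) atTop
      (𝓝 (heat (fun y => Real.cosh (a * y) * sc y * sc y ^ 3) S 0)) := by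
    refine heat_tendsto (F := fun y => Real.cosh (a * y) * sc y * sc y ^ 3)
      (Fn := fun n y => Kn a n y * Bn n y ^ 3) (D := 1) ?_ ?_ ?_ S 0
    · exact fun n => (cont_Kn a n).mul (c3 n)
    · intro n y
      rw [abs_mul]; exact mul_le_one₀ (bK n y) (abs_nonneg _) (b3 n y)
    · exact fun y => (tendsto_Kn a y).mul ((tendsto_Bn y).pow 3)
  have hle : ∀ n, heat (fun y => Kn a n y * heat (fun y => Bn n y ^ 3) r y) S 0 ≤
      heat (fun y => Kn a n y * Bn n y ^ 3) S 0 := by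
    intro n
    have := gm_le (isGM_Kn ha n) (isGM_Bn3 n) hr hS
    exact this
  exact le_of_tendsto_of_tendsto' t1 t2 hle

end Pool.Agent.Helper95A
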