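import Pool.Agent.Helper95A.Heat2
import Pool.Agent.Helper95A.Hyp
import Pool.Agent.Helper95A.Poinc

set_option autoImplicit false

open MeasureTheory ProbabilityTheory Set Filter Topology

namespace Pool.Agent.Helper95A

/-- The regularity class preserved by the one step evolution. -/
structure B3 (K : ℝ) (F F1 F2 F3 : ℝ → ℝ) : Prop where
  d1 : ∀ x, HasDerivAt F (F1 x) x
  d2 : ∀ x, HasDerivAt F1 (F2 x) x
  d3 : ∀ x, HasDerivAt F2 (F3 x) x
  c3 : Continuous F3
  b1 : ∀ x, |F1 x| ≤ 1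
  b2 : ∀ x, 0 ≤ F2 x
  b2' : ∀ x, F2 x ≤ 1 - F1 x ^ 2
  b3 : ∀ x, |F3 x| ≤ K

namespace B3

variable {K m : ℝ} {F F1 F2 F3 : ℝ → ℝ}

noncomputable def E0 (m : ℝ) (F : ℝ → ℝ) (y : ℝ) : ℝ := Real.exp (m * F y)
noncomputable def E1 (m : ℝ) (F F1 : ℝ → ℝ) (y : ℝ) : ℝ := m * F1 y * E0 m F y
noncomputable def E2 (m : ℝ) (F F1 F2 : ℝ → ℝ) (y : ℝ) : ℝ :=
  (m * F2 y + m ^ 2 * F1 y ^ 2) * E0 m F y
noncomputable def E3 (m : ℝ) (F F1 F2 F3 : ℝ → ℝ) (y : ℝ) : ℝ :=
  (m * F3 y + 3 * m ^ 2 * (F1 y * F2 y) + m ^ 3 * F1 y ^ 3) * E0 m F y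

section basic

variable (hF : B3 K F F1 F2 F3)
include hF

theorem cF : Continuous F := continuous_iff_continuousAt.2 fun x => (hF.d1 x).continuousAt
theorem cF1 : Continuous F1 := continuous_iff_continuousAt.2 fun x => (hF.d2 x).continuousAt
theorem cF2 : Continuous F2 := continuous_iff_continuousAt.2 fun x => (hF.d3 x).continuousAt
theorem b2a (x : ℝ) : |F2 x| ≤ 1 := by
  rw [abs_of_nonneg (hF.b2 x)]
  have := hF.b2' x
  have := sq_nonneg (F1 x)
  linarith
theorem K0 : 0 ≤ K := (abs_nonneg _).trans (hF.b3 0)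

theorem lipF (x y : ℝ) : |F y - F x| ≤ |y - x| := by
  have := Convex.norm_image_sub_le_of_norm_hasDerivWithin_le (f := F) (f' := F1)
      (s := univ) (C := 1) (fun y _ => (hF.d1 y).hasDerivWithinAt)
      (fun y _ => by rw [Real.norm_eq_abs]; exact hF.b1 y) convex_univ (mem_univ x) (mem_univ y)
  rwa [Real.norm_eq_abs, Real.norm_eq_abs, one_mul] at this

theorem lipF1 (x y : ℝ) : |F1 y - F1 x| ≤ |y - x| := by
  have := Convex.norm_image_sub_le_of_norm_hasDerivWithin_le (f := F1) (f' := F2)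
      (s := univ) (C := 1) (fun y _ => (hF.d2 y).hasDerivWithinAt)
      (fun y _ => by rw [Real.norm_eq_abs]; exact hF.b2a y) convex_univ (mem_univ x) (mem_univ y)
  rwa [Real.norm_eq_abs, Real.norm_eq_abs, one_mul] at this

theorem lipF2 (x y : ℝ) : |F2 y - F2 x| ≤ K * |y - x| := by
  have := Convex.norm_image_sub_le_of_norm_hasDerivWithin_le (f := F2) (f' := F3)
      (s := univ) (C := K) (fun y _ => (hF.d3 y).hasDerivWithinAt)
      (fun y _ => by rw [Real.norm_eq_abs]; exact hF.b3 y) convex_univ (mem_univ x) (mem_univ y)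
  rwa [Real.norm_eq_abs, Real.norm_eq_abs] at this

theorem EG_E0 (hm : 0 ≤ m) : EG (E0 m F) := by
  refine ⟨Real.exp (m * |F 0|), m, (Real.exp_pos _).le, hm, fun x => ?_⟩
  rw [E0, abs_of_pos (Real.exp_pos _), ← Real.exp_add]
  refine Real.exp_le_exp.2 ?_
  have h1 := hF.lipF 0 x
  rw [sub_zero] at h1
  have h2 : F x ≤ |F 0| + |x| := by
    have := le_abs_self (F x - F 0)
    have := le_abs_self (F 0)
    linarith
  nlinarith

theorem cE0 : Continuous (E0 m F) := by
  have := hF.cF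
  unfold E0; fun_prop
theorem cE1 : Continuous (E1 m F F1) := by
  have := hF.cF1; have := hF.cE0 (m := m)
  unfold E1; fun_prop
theorem cE2 : Continuous (E2 m F F1 F2) := by
  have := hF.cF1; have := hF.cE0 (m := m); have := hF.cF2
  unfold E2; fun_prop
theorem cE3 : Continuous (E3 m F F1 F2 F3) := by
  have := hF.cF1; have := hF.cE0 (m := m); have := hF.cF2; have := hF.c3
  unfold E3; fun_prop

theorem dE0 (x : ℝ) : HasDerivAt (E0 m F) (E1 m F F1 x) x := by
  have := ((hF.d1 x).const_mul m).exp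
  refine this.congr_deriv ?_
  simp only [E1, E0]; ring

theorem dE1 (x : ℝ) : HasDerivAt (E1 m F F1) (E2 m F F1 F2 x) x := by
  have := ((hF.d2 x).const_mul m).mul (hF.dE0 (m := m) x)
  refine this.congr_deriv ?_
  simp only [E1, E2]; ring

theorem dE2 (x : ℝ) : HasDerivAt (E2 m F F1 F2) (E3 m F F1 F2 F3 x) x := by
  have := (((hF.d3 x).const_mul m).add (((hF.d2 x).fun_pow 2).const_mul (m ^ 2))).mul
    (hF.dE0 (m := m) x)
  refine this.congr_deriv ?_
  simp only [E1, E3, Nat.cast_ofNat, Pi.add_apply]; ring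

theorem EG_E1 (hm : 0 ≤ m) : EG (E1 m F F1) :=
  (EG.of_bdd (C := m * 1) fun x => by
    rw [abs_mul, abs_of_nonneg hm]; exact mul_le_mul_of_nonneg_left (hF.b1 x) hm).mul (hF.EG_E0 hm)

theorem EG_E2 (hm : 0 ≤ m) : EG (E2 m F F1 F2) :=
  (EG.of_bdd (C := m * 1 + m ^ 2 * 1) fun x => by
    refine (abs_add_le _ _).trans (add_le_add ?_ ?_)
    · rw [abs_mul, abs_of_nonneg hm]; exact mul_le_mul_of_nonneg_left (hF.b2a x) hm
    · rw [abs_mul, abs_of_nonneg (sq_nonneg m), abs_pow]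
      exact mul_le_mul_of_nonneg_left (pow_le_one₀ (abs_nonneg _) (hF.b1 x))
        (sq_nonneg m)).mul (hF.EG_E0 hm)

theorem EG_E3 (hm : 0 ≤ m) : EG (E3 m F F1 F2 F3) :=
  (EG.of_bdd (C := m * K + 3 * m ^ 2 * (1 * 1) + m ^ 3 * 1) fun x => by
    refine (abs_add_le _ _).trans (add_le_add ((abs_add_le _ _).trans (add_le_add ?_ ?_)) ?_)
    · rw [abs_mul, abs_of_nonneg hm]; exact mul_le_mul_of_nonneg_left (hF.b3 x) hm
    · rw [abs_mul, abs_of_nonneg (by positivity)]
      exact mul_le_mul_of_nonneg_left (abs_mul_le' (hF.b1 x) (hF.b2a x)) (by positivity)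
    · rw [abs_mul, abs_of_nonneg (by positivity), abs_pow]
      exact mul_le_mul_of_nonneg_left (pow_le_one₀ (abs_nonneg _) (hF.b1 x))
        (by positivity)).mul (hF.EG_E0 hm)

theorem h0_pos (hm : 0 ≤ m) (σ x : ℝ) : 0 < heat (E0 m F) σ x :=
  heat_pos hF.cE0 (hF.EG_E0 hm) (fun _ => Real.exp_pos _) σ x

end basic

/-- one step evolution and its derivatives, as functions of the variance and the position -/
noncomputable def st (m : ℝ) (F : ℝ → ℝ) (σ x : ℝ) : ℝ := m⁻¹ * Real.log (heat (E0 m F) σ x)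
noncomputable def st1 (m : ℝ) (F F1 : ℝ → ℝ) (σ x : ℝ) : ℝ :=
  m⁻¹ * (heat (E1 m F F1) σ x / heat (E0 m F) σ x)
noncomputable def st2 (m : ℝ) (F F1 F2 : ℝ → ℝ) (σ x : ℝ) : ℝ :=
  m⁻¹ * (heat (E2 m F F1 F2) σ x / heat (E0 m F) σ x -
    (heat (E1 m F F1) σ x / heat (E0 m F) σ x) ^ 2)
noncomputable def st3 (m : ℝ) (F F1 F2 F3 : ℝ → ℝ) (σ x : ℝ) : ℝ :=
  m⁻¹ * (heat (E3 m F F1 F2 F3) σ x / heat (E0 m F) σ x -
    3 * (heat (E1 m F F1) σ x / heat (E0 m F) σ x) *
      (heat (E2 m F F1 F2) σ x / heat (E0 m F) σ x) +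
    2 * (heat (E1 m F F1) σ x / heat (E0 m F) σ x) ^ 3)

section deriv

variable (hF : B3 K F F1 F2 F3) (hm : 0 < m)
include hF hm

omit hF in
theorem st_zero (x : ℝ) {σ : ℝ} (hσ : σ ≤ 0) : st m F σ x = F x := by
  unfold st
  rw [heat_of_nonpos _ hσ, E0, Real.log_exp]
  field_simp

theorem dst (σ x : ℝ) : HasDerivAt (st m F σ) (st1 m F F1 σ x) x := by
  have h0 := (hF.h0_pos hm.le σ x)
  have := ((heat_hasDerivAt_x (hF.dE0 (m := m)) (hF.EG_E0 hm.le) hF.cE1 (hF.EG_E1 hm.le) σ x).log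
    h0.ne').const_mul m⁻¹
  exact this

theorem dst1 (σ x : ℝ) : HasDerivAt (st1 m F F1 σ) (st2 m F F1 F2 σ x) x := by
  have h0 := (hF.h0_pos hm.le σ x)
  have := ((heat_hasDerivAt_x (hF.dE1 (m := m)) (hF.EG_E1 hm.le) hF.cE2 (hF.EG_E2 hm.le) σ x).div
    (heat_hasDerivAt_x (hF.dE0 (m := m)) (hF.EG_E0 hm.le) hF.cE1 (hF.EG_E1 hm.le) σ x)
    h0.ne').const_mul m⁻¹
  refine this.congr_deriv ?_
  unfold st2
  field_simp

theorem dst2 (σ x : ℝ) : HasDerivAt (st2 m F F1 F2 σ) (st3 m F F1 F2 F3 σ x) x := by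
  have h0 := (hF.h0_pos hm.le σ x)
  have k0 := heat_hasDerivAt_x (hF.dE0 (m := m)) (hF.EG_E0 hm.le) hF.cE1 (hF.EG_E1 hm.le) σ x
  have k1 := heat_hasDerivAt_x (hF.dE1 (m := m)) (hF.EG_E1 hm.le) hF.cE2 (hF.EG_E2 hm.le) σ x
  have k2 := heat_hasDerivAt_x (hF.dE2 (m := m)) (hF.EG_E2 hm.le) hF.cE3 (hF.EG_E3 hm.le) σ x
  have := ((k2.div k0 h0.ne').sub ((k1.div k0 h0.ne').fun_pow 2)).const_mul m⁻¹
  refine this.congr_deriv ?_
  unfold st3
  have e21 : (2:ℕ) - 1 = 1 := rfl
  simp only [Nat.cast_ofNat, Pi.div_apply, e21, pow_one]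
  field_simp
  ring

/-- evolution in the variance parameter -/
theorem dst_σ {σ : ℝ} (hσ : 0 < σ) (x : ℝ) : HasDerivAt (fun s => st m F s x)
    ((st2 m F F1 F2 σ x + m * st1 m F F1 σ x ^ 2) / 2) σ := by
  have h0 := (hF.h0_pos hm.le σ x)
  have := ((heat_hasDerivAt_σ (hF.dE0 (m := m)) (hF.EG_E0 hm.le) hF.dE1 (hF.EG_E1 hm.le)
    hF.cE2 (hF.EG_E2 hm.le) hσ x).log h0.ne').const_mul m⁻¹
  refine this.congr_deriv ?_
  unfold st2 st1
  field_simp
  ring

theorem cst : Continuous (fun p : ℝ × ℝ => st m F p.1 p.2) :=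
  continuous_const.mul ((heat_continuous hF.cE0 (hF.EG_E0 hm.le)).log
    fun _ => (hF.h0_pos hm.le _ _).ne')

theorem cst1 : Continuous (fun p : ℝ × ℝ => st1 m F F1 p.1 p.2) :=
  continuous_const.mul ((heat_continuous hF.cE1 (hF.EG_E1 hm.le)).div
    (heat_continuous hF.cE0 (hF.EG_E0 hm.le)) fun _ => (hF.h0_pos hm.le _ _).ne')

theorem cst2 : Continuous (fun p : ℝ × ℝ => st2 m F F1 F2 p.1 p.2) :=
  continuous_const.mul (((heat_continuous hF.cE2 (hF.EG_E2 hm.le)).div
    (heat_continuous hF.cE0 (hF.EG_E0 hm.le)) fun _ => (hF.h0_pos hm.le _ _).ne').sub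
    (((heat_continuous hF.cE1 (hF.EG_E1 hm.le)).div
    (heat_continuous hF.cE0 (hF.EG_E0 hm.le)) fun _ => (hF.h0_pos hm.le _ _).ne').pow 2))

theorem cst3 : Continuous (fun p : ℝ × ℝ => st3 m F F1 F2 F3 p.1 p.2) := by
  have k0 := heat_continuous hF.cE0 (hF.EG_E0 hm.le)
  have k1 := (heat_continuous hF.cE1 (hF.EG_E1 hm.le)).div k0 fun _ => (hF.h0_pos hm.le _ _).ne'
  have k2 := (heat_continuous hF.cE2 (hF.EG_E2 hm.le)).div k0 fun _ => (hF.h0_pos hm.le _ _).ne'
  have k3 := (heat_continuous hF.cE3 (hF.EG_E3 hm.le)).div k0 fun _ => (hF.h0_pos hm.le _ _).ne'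
  exact continuous_const.mul ((k3.sub ((continuous_const.mul k1).mul k2)).add
    (continuous_const.mul (k1.pow 3)))

end deriv

/-! ### the tilted measure -/

noncomputable def nu (m : ℝ) (F : ℝ → ℝ) (σ x : ℝ) : Measure ℝ :=
  gam.tilted (fun z => m * F (x + Real.sqrt σ * z))

theorem av_eq (G : ℝ → ℝ) (m : ℝ) (F : ℝ → ℝ) (σ x : ℝ) :
    ∫ z, G (x + Real.sqrt σ * z) ∂(nu m F σ x) =
      heat (fun y => G y * E0 m F y) σ x / heat (E0 m F) σ x := by
  unfold nu
  rw [integral_tilted]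
  unfold heat E0
  rw [← integral_div]
  congr 1; ext z
  rw [smul_eq_mul]; ring

section tilt

variable (hF : B3 K F F1 F2 F3) (hm : 0 < m)
include hF hm

theorem nu_prob (σ x : ℝ) : IsProbabilityMeasure (nu m F σ x) :=
  isProbabilityMeasure_tilted (heat_integrable hF.cE0 (hF.EG_E0 hm.le) σ x)

end tilt

noncomputable def CC (S : ℝ) : ℝ :=
  (∫ z, z ^ 2 * Real.exp (Real.sqrt S * |z|) ∂gam) / ∫ z, Real.exp (-(Real.sqrt S * |z|)) ∂gam

theorem int_num (c : ℝ) : Integrable (fun z : ℝ => z ^ 2 * Real.exp (c * |z|)) gam := by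
  have h1 : EG (fun z : ℝ => z ^ 2) := by
    have hid : EG (fun z : ℝ => z) :=
      ⟨1, 1, by norm_num, by norm_num, fun x => by simpa using abs_le_exp_abs x⟩
    have := hid.mul hid
    simpa [sq] using this
  have h2 : EG (fun z : ℝ => Real.exp (c * |z|)) :=
    ⟨1, |c|, zero_le_one, abs_nonneg _, fun z => by
      rw [one_mul, abs_of_pos (Real.exp_pos _)]
      exact Real.exp_le_exp.2 (mul_le_mul_of_nonneg_right (le_abs_self c) (abs_nonneg z))⟩
  exact integrable_gam (by fun_prop) (h1.mul h2)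

theorem den_pos (c : ℝ) : 0 < ∫ z, Real.exp (-(c * |z|)) ∂gam := by
  refine gam_integral_pos (by fun_prop) ?_ (fun z => (Real.exp_pos _).le) (y := 0)
    (Real.exp_pos _).ne'
  exact ⟨1, |c|, zero_le_one, abs_nonneg _, fun z => by
      rw [one_mul, abs_of_pos (Real.exp_pos _)]
      refine Real.exp_le_exp.2 ?_
      have := mul_le_mul_of_nonneg_right (neg_abs_le c) (abs_nonneg z)
      linarith⟩

theorem CC_nonneg (S : ℝ) : 0 ≤ CC S :=
  div_nonneg (integral_nonneg fun z => by positivity) (den_pos _).le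

theorem moment (hF : B3 K F F1 F2 F3) (hm : 0 < m) (hm1 : m ≤ 1) {σ S : ℝ} (hσ : 0 ≤ σ)
    (hσS : σ ≤ S) (x : ℝ) :
    Integrable (fun z => (Real.sqrt σ * z) ^ 2) (nu m F σ x) ∧
      ∫ z, (Real.sqrt σ * z) ^ 2 ∂(nu m F σ x) ≤ CC S * σ := by
  have hint0 := heat_integrable (hF.cE0 (m := m)) (hF.EG_E0 hm.le) σ x
  have hb : ∀ z, m * F x - Real.sqrt S * |z| ≤ m * F (x + Real.sqrt σ * z) ∧
      m * F (x + Real.sqrt σ * z) ≤ m * F x + Real.sqrt S * |z| := by
    intro z
    have h1 := hF.lipF x (x + Real.sqrt σ * z)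
    rw [add_sub_cancel_left, abs_mul, abs_of_nonneg (Real.sqrt_nonneg _)] at h1
    have h2 : Real.sqrt σ * |z| ≤ Real.sqrt S * |z| :=
      mul_le_mul_of_nonneg_right (Real.sqrt_le_sqrt hσS) (abs_nonneg z)
    have h3 := abs_le.1 (h1.trans h2)
    have h4 : 0 ≤ Real.sqrt S * |z| := by positivity
    constructor <;> nlinarith [h3.1, h3.2]
  have i2 : Integrable (fun z => Real.exp (m * F (x + Real.sqrt σ * z)) * z ^ 2) gam := by
    refine ((int_num (Real.sqrt S)).const_mul (Real.exp (m * F x))).mono' ?_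
      (Eventually.of_forall fun z => ?_)
    · have := hF.cF
      exact (show Continuous (fun z => Real.exp (m * F (x + Real.sqrt σ * z)) * z ^ 2) by
        fun_prop).aestronglyMeasurable
    · rw [Real.norm_eq_abs, abs_of_nonneg (by positivity)]
      calc Real.exp (m * F (x + Real.sqrt σ * z)) * z ^ 2
          ≤ Real.exp (m * F x + Real.sqrt S * |z|) * z ^ 2 :=
            mul_le_mul_of_nonneg_right (Real.exp_le_exp.2 (hb z).2) (sq_nonneg z)
        _ = _ := by rw [Real.exp_add]; ring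
  have iden : Integrable (fun z => Real.exp (-(Real.sqrt S * |z|))) gam := by
    refine integrable_gam (by fun_prop) ⟨1, 0, zero_le_one, le_rfl, fun z => ?_⟩
    rw [one_mul, zero_mul, Real.exp_zero, abs_of_pos (Real.exp_pos _), Real.exp_le_one_iff]
    have : 0 ≤ Real.sqrt S * |z| := by positivity
    linarith
  have num : ∫ z, Real.exp (m * F (x + Real.sqrt σ * z)) * z ^ 2 ∂gam ≤
      Real.exp (m * F x) * ∫ z, z ^ 2 * Real.exp (Real.sqrt S * |z|) ∂gam := by
    rw [← integral_const_mul]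
    refine integral_mono i2 ((int_num _).const_mul _) fun z => ?_
    calc Real.exp (m * F (x + Real.sqrt σ * z)) * z ^ 2
          ≤ Real.exp (m * F x + Real.sqrt S * |z|) * z ^ 2 :=
            mul_le_mul_of_nonneg_right (Real.exp_le_exp.2 (hb z).2) (sq_nonneg z)
        _ = _ := by rw [Real.exp_add]; ring
  have den : Real.exp (m * F x) * ∫ z, Real.exp (-(Real.sqrt S * |z|)) ∂gam ≤
      ∫ z, Real.exp (m * F (x + Real.sqrt σ * z)) ∂gam := by
    rw [← integral_const_mul]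
    refine integral_mono (iden.const_mul _) hint0 fun z => ?_
    rw [← Real.exp_add]
    exact Real.exp_le_exp.2 (by linarith [(hb z).1])
  have hD : 0 < ∫ z, Real.exp (-(Real.sqrt S * |z|)) ∂gam := den_pos _
  have hZ : 0 < ∫ z, Real.exp (m * F (x + Real.sqrt σ * z)) ∂gam :=
    lt_of_lt_of_le (mul_pos (Real.exp_pos _) hD) den
  constructor
  · unfold nu
    rw [integrable_tilted_iff]
    · have : (fun z => Real.exp (m * F (x + Real.sqrt σ * z)) • (Real.sqrt σ * z) ^ 2) =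
        fun z => σ * (Real.exp (m * F (x + Real.sqrt σ * z)) * z ^ 2) := by
        ext z
        rw [smul_eq_mul, mul_pow, Real.sq_sqrt hσ]; ring
      rw [this]
      exact i2.const_mul σ
    · have := hF.cF
      exact hint0
  · unfold nu
    rw [integral_tilted]
    have : (fun z => (Real.exp (m * F (x + Real.sqrt σ * z)) /
        ∫ z, Real.exp (m * F (x + Real.sqrt σ * z)) ∂gam) • (Real.sqrt σ * z) ^ 2) =
        fun z => (σ / ∫ z, Real.exp (m * F (x + Real.sqrt σ * z)) ∂gam) *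
          (Real.exp (m * F (x + Real.sqrt σ * z)) * z ^ 2) := by
      ext z
      rw [smul_eq_mul, mul_pow, Real.sq_sqrt hσ]; ring
    rw [this, integral_const_mul]
    unfold CC
    set Z := ∫ z, Real.exp (m * F (x + Real.sqrt σ * z)) ∂gam with hZd
    set N := ∫ z, Real.exp (m * F (x + Real.sqrt σ * z)) * z ^ 2 ∂gam
    set D := ∫ z, Real.exp (-(Real.sqrt S * |z|)) ∂gam
    set N' := ∫ z, z ^ 2 * Real.exp (Real.sqrt S * |z|) ∂gam
    have e1 : 0 < Real.exp (m * F x) := Real.exp_pos _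
    have hN' : 0 ≤ N' := integral_nonneg fun z => by positivity
    have h1 : N / Z ≤ N' / D := by
      rw [div_le_div_iff₀ hZ hD]
      calc N * D ≤ (Real.exp (m * F x) * N') * D := mul_le_mul_of_nonneg_right num hD.le
        _ = N' * (Real.exp (m * F x) * D) := by ring
        _ ≤ N' * Z := mul_le_mul_of_nonneg_left den hN'
    calc σ / Z * N = (N / Z) * σ := by ring
      _ ≤ N' / D * σ := mul_le_mul_of_nonneg_right h1 hσ

/-- covariance bound -/
theorem cov_bound {ν : Measure ℝ} [IsProbabilityMeasure ν] {G H w : ℝ → ℝ} {a b L M CG CH : ℝ}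
    (hG : AEStronglyMeasurable G ν) (hH : AEStronglyMeasurable H ν) (bG : ∀ z, |G z| ≤ CG)
    (bH : ∀ z, |H z| ≤ CH) (hw : Integrable (fun z => w z ^ 2) ν) (hwm : AEStronglyMeasurable w ν)
    (hL : 0 ≤ L) (hM : 0 ≤ M)
    (h1 : ∀ z, |G z - a| ≤ L * |w z|) (h2 : ∀ z, |H z - b| ≤ M * |w z|) :
    |∫ z, G z * H z ∂ν - (∫ z, G z ∂ν) * ∫ z, H z ∂ν| ≤ 2 * L * M * ∫ z, w z ^ 2 ∂ν := by
  have iG : Integrable G ν := (integrable_const CG).mono' hG
    (Eventually.of_forall fun z => by rw [Real.norm_eq_abs]; exact bG z)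
  have iH : Integrable H ν := (integrable_const CH).mono' hH
    (Eventually.of_forall fun z => by rw [Real.norm_eq_abs]; exact bH z)
  have iGH : Integrable (fun z => G z * H z) ν := by
    refine (integrable_const (CG * CH)).mono' (hG.mul hH) (Eventually.of_forall fun z => ?_)
    rw [Real.norm_eq_abs]; exact abs_mul_le' (bG z) (bH z)
  have iw : Integrable (fun z => |w z|) ν := by
    refine (hw.add (integrable_const (1:ℝ))).mono' hwm.norm (Eventually.of_forall fun z => ?_)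
    rw [Real.norm_eq_abs, abs_abs]
    simp only [Pi.add_apply]
    nlinarith [sq_abs (w z), sq_nonneg (|w z| - 1)]
  set W := ∫ z, w z ^ 2 ∂ν with hW
  have hW0 : 0 ≤ W := integral_nonneg fun z => sq_nonneg _
  -- first moment squared
  have hw1 : (∫ z, |w z| ∂ν) ^ 2 ≤ W := by
    set c := ∫ z, |w z| ∂ν with hc
    have h0 : 0 ≤ ∫ z, (|w z| - c) ^ 2 ∂ν := integral_nonneg fun z => sq_nonneg _
    have j1 : Integrable (fun z => (2 * c) * |w z|) ν := iw.const_mul _
    have j2 : Integrable (fun z => w z ^ 2 - (2 * c) * |w z|) ν := hw.sub j1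
    have e : (fun z => (|w z| - c) ^ 2) = fun z => (w z ^ 2 - (2 * c) * |w z|) + c ^ 2 := by
      ext z; rw [sub_sq, sq_abs]; ring
    rw [e, integral_add j2 (integrable_const _), integral_sub hw j1, integral_const_mul] at h0
    simp only [integral_const, probReal_univ, one_smul] at h0
    rw [← hc] at h0
    nlinarith
  have e1 : ∫ z, G z * H z ∂ν - (∫ z, G z ∂ν) * ∫ z, H z ∂ν =
      ∫ z, (G z - a) * (H z - b) ∂ν - (∫ z, (G z - a) ∂ν) * ∫ z, (H z - b) ∂ν := by
    have j1 : Integrable (fun z => b * G z) ν := iG.const_mul b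
    have j2 : Integrable (fun z => a * H z) ν := iH.const_mul a
    have j3 : Integrable (fun z => G z * H z - b * G z) ν := iGH.sub j1
    have j4 : Integrable (fun z => (G z * H z - b * G z) - a * H z) ν := j3.sub j2
    have e : (fun z => (G z - a) * (H z - b)) =
        fun z => ((G z * H z - b * G z) - a * H z) + a * b := by ext z; ring
    rw [e, integral_add j4 (integrable_const _), integral_sub j3 j2, integral_sub iGH j1,
      integral_const_mul, integral_const_mul, integral_sub iG (integrable_const _),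
      integral_sub iH (integrable_const _)]
    simp only [integral_const, probReal_univ, one_smul]
    ring
  rw [e1]
  have b1 : |∫ z, (G z - a) * (H z - b) ∂ν| ≤ L * M * W := by
    calc |∫ z, (G z - a) * (H z - b) ∂ν| ≤ ∫ z, |(G z - a) * (H z - b)| ∂ν :=
          abs_integral_le_integral_abs
      _ ≤ ∫ z, L * M * w z ^ 2 ∂ν := by
          refine integral_mono_of_nonneg (Eventually.of_forall fun z => abs_nonneg _)
            (hw.const_mul _) (Eventually.of_forall fun z => ?_)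
          simp only
          calc |(G z - a) * (H z - b)| ≤ (L * |w z|) * (M * |w z|) := abs_mul_le' (h1 z) (h2 z)
            _ = L * M * w z ^ 2 := by rw [← sq_abs (w z)]; ring
      _ = L * M * W := integral_const_mul _ _
  have b2 : |∫ z, (G z - a) ∂ν| ≤ L * ∫ z, |w z| ∂ν := by
    calc |∫ z, (G z - a) ∂ν| ≤ ∫ z, |G z - a| ∂ν := abs_integral_le_integral_abs
      _ ≤ ∫ z, L * |w z| ∂ν := integral_mono_of_nonneg (Eventually.of_forall fun z => abs_nonneg _)
            (iw.const_mul _) (Eventually.of_forall fun z => h1 z)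
      _ = _ := integral_const_mul _ _
  have b3 : |∫ z, (H z - b) ∂ν| ≤ M * ∫ z, |w z| ∂ν := by
    calc |∫ z, (H z - b) ∂ν| ≤ ∫ z, |H z - b| ∂ν := abs_integral_le_integral_abs
      _ ≤ ∫ z, M * |w z| ∂ν := integral_mono_of_nonneg (Eventually.of_forall fun z => abs_nonneg _)
            (iw.const_mul _) (Eventually.of_forall fun z => h2 z)
      _ = _ := integral_const_mul _ _
  have b4 := abs_mul_le' b2 b3
  have b5 : L * (∫ z, |w z| ∂ν) * (M * ∫ z, |w z| ∂ν) ≤ L * M * W := by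
    calc L * (∫ z, |w z| ∂ν) * (M * ∫ z, |w z| ∂ν) = L * M * (∫ z, |w z| ∂ν) ^ 2 := by ring
      _ ≤ L * M * W := mul_le_mul_of_nonneg_left hw1 (by positivity)
  calc _ ≤ _ := abs_sub _ _
    _ ≤ L * M * W + L * M * W := add_le_add b1 (b4.trans b5)
    _ = 2 * L * M * W := by ring

end B3

end Pool.Agent.Helper95A
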